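import Pool.Agent.Work.MP_f6469e_gt.BKer

/-!
# Module BCard (S-M): Lanner sets without 6-edges have at most two elements in every class

All pairs of elements of `S` are proper subsets (`h3`), so elliptic, so no product is `< -1`. So the products are `0`, `-1/2` (then `d i = d j`), `-√2/2` (then `d i ≠ d j`).
Check the hypothesis `hm` of `int_lemma` for `d`: for `d i = d j = 1`: `2 L ∈ {0, -1}`; for `d i = d j = 2`: `4 L ∈ {0, -2}`; for `d i ≠ d j`: `2 √2 L ∈ {0, -2}`. So at most two
elements with `d i = 1`. The function `d' i = 3 - d i` satisfies the same conditions, so at most two elements with `d i = 2`.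
-/

set_option autoImplicit false

namespace Pool.Agent.Work.MP_f6469e_gt

variable {n N : ℕ} {e : Fin N → (Fin (n + 1) → ℝ)}


private theorem pair_ge (hP : Acute n N e) {S : Finset (Fin N)} (hS : MinNon e S)
    (h3 : 3 ≤ S.card) {i j : Fin N} (hi : i ∈ S) (hj : j ∈ S) (hij : i ≠ j) :
    ¬ L n (e i) (e j) < -1 := by
  intro hlt
  have hsub : ({i, j} : Finset (Fin N)) ⊂ S := by
    refine Finset.ssubset_iff_subset_ne.mpr ⟨?_, ?_⟩
    · intro x hx
      simp only [Finset.mem_insert, Finset.mem_singleton] at hx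
      rcases hx with rfl | rfl <;> assumption
    · intro h
      have h2 := Finset.card_pair hij
      rw [h] at h2
      omega
  have h := hS.2 _ hsub (Pi.single i 1 + Pi.single j 1) (by
    intro k hk
    simp only [Finset.mem_insert, Finset.mem_singleton, not_or] at hk
    rw [Pi.add_apply, Pi.single_eq_of_ne hk.1, Pi.single_eq_of_ne hk.2, add_zero]) (by
    intro h0
    have h1 := congrFun h0 i
    rw [Pi.add_apply, Pi.single_eq_same, Pi.single_eq_of_ne hij] at h1
    simp at h1)
  rw [comb_add, comb_single, comb_single, one_smul, one_smul, L_add_left, L_add_right,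
    L_add_right, hP.unit, hP.unit, L_comm (e j) (e i)] at h
  linarith

private theorem one_class (hn : 1 ≤ n) (hL : Lab n N e) {S : Finset (Fin N)} (hS : MinNon e S)
    (h3 : 3 ≤ S.card) (h6 : ∀ i ∈ S, ∀ j ∈ S, L n (e i) (e j) ≠ -(√3 / 2)) (d : Fin N → ℕ)
    (hd : ∀ i, d i = 1 ∨ d i = 2)
    (hd2 : ∀ i j, i ≠ j → (L n (e i) (e j) = -(1 / 2) → d i = d j) ∧
      (L n (e i) (e j) = -(√2 / 2) → d i ≠ d j)) :
    (S.filter fun i => d i = 1).card ≤ 2 := by
  refine int_lemma hn hL.ac hS h3 d hd ?_
  intro i hi j hj hij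
  obtain ⟨h1, h2⟩ := hd2 i j hij
  have hs : √(2 : ℝ) * √2 = 2 := Real.mul_self_sqrt (by norm_num)
  rcases hL.lab i j hij with h | h | h | h | h
  · exact ⟨0, by rw [h]; simp⟩
  · have e1 := h1 h
    refine ⟨-1, ?_⟩
    rcases hd i with hdi | hdi
    · have hdj : d j = 1 := by rw [← e1]; exact hdi
      rw [h, hdi, hdj]
      norm_num
    · have hdj : d j = 2 := by rw [← e1]; exact hdi
      rw [h, hdi, hdj]
      norm_num
      linarith
  · have e2 := h2 h
    refine ⟨-1, ?_⟩
    rcases hd i with hdi | hdi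
    · rcases hd j with hdj | hdj
      · exact absurd (hdi.trans hdj.symm) e2
      · rw [h, hdi, hdj]
        norm_num
        linarith
    · rcases hd j with hdj | hdj
      · rw [h, hdi, hdj]
        norm_num
        linarith
      · exact absurd (hdi.trans hdj.symm) e2
  · exact absurd h (h6 i hi j hj)
  · exact absurd h (pair_ge hL.ac hS h3 hi hj hij)

theorem card_class (hn : 1 ≤ n) (hL : Lab n N e) {S : Finset (Fin N)} (hS : MinNon e S)
    (h3 : 3 ≤ S.card) (h6 : ∀ i ∈ S, ∀ j ∈ S, L n (e i) (e j) ≠ -(√3 / 2)) (d : Fin N → ℕ)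
    (hd : ∀ i, d i = 1 ∨ d i = 2)
    (hd2 : ∀ i j, i ≠ j → (L n (e i) (e j) = -(1 / 2) → d i = d j) ∧
      (L n (e i) (e j) = -(√2 / 2) → d i ≠ d j) ∧ (L n (e i) (e j) = -(√3 / 2) → d i = d j)) :
    (S.filter fun i => d i = 1).card ≤ 2 ∧ (S.filter fun i => d i = 2).card ≤ 2 := by
  refine ⟨one_class hn hL hS h3 h6 d hd fun i j hij => ⟨(hd2 i j hij).1, (hd2 i j hij).2.1⟩, ?_⟩
  have h := one_class hn hL hS h3 h6 (fun i => 3 - d i)
    (fun i => by
      rcases hd i with h | h
      · exact Or.inr (by omega)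
      · exact Or.inl (by omega))
    (fun i j hij => ⟨fun h => by rw [(hd2 i j hij).1 h], fun h h' => (hd2 i j hij).2.1 h (by
      have h1 := hd i
      have h2 := hd j
      omega)⟩)
  have e1 : (S.filter fun i => d i = 2) = S.filter fun i => 3 - d i = 1 := by
    refine Finset.filter_congr fun i _ => ?_
    have h1 := hd i
    omega
  rw [e1]
  exact h

end Pool.Agent.Work.MP_f6469e_gt
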