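import Pool.Agent.Work.MP_f6469e_gt.BDefs

/-!
# Module BLoc (M): non-elliptic configurations

In every case take the vector `c ≥ 0` below (zero outside, e.g. `c = Pi.single i x + Pi.single j y + ...`), `comb e c = x • e i + y • e j + ...`, expand `L n (comb e c) (comb e c)`
and bound it by `0` (all remaining products are `≤ 0` by `hP.off`, the squares are `1` by `hP.unit`); this contradicts `Ell`.
* `loc_tri`: `(1, 1, 1)`, `3 + 2 (...) ≤ 3 - 3`.
* `loc6`: `(√3, 2, 1)`, `8 + 2 (2√3 · (-√3/2) + 2 · (-1/2)) = 0`.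
* `loc44`: `(1, √2, 1)`, `4 + 2 (-1 - 1) = 0`.
* `loc4b` (`j` is the centre): `i ↦ √2, j ↦ 2, k ↦ 1, l ↦ 1`, `8 + 2 (-2 - 1 - 1) = 0`.
* `loc434`: `(1, √2, √2, 1)`, `6 + 2 (-1 - 1 - 1) = 0`.
* `loc4334`: `(1, √2, √2, √2, 1)`, `8 + 2 (-1 - 1 - 1 - 1) = 0`.
-/

set_option autoImplicit false

namespace Pool.Agent.Work.MP_f6469e_gt

variable {n N : ℕ} {e : Fin N → (Fin (n + 1) → ℝ)}


private theorem five (hP : Acute n N e) {S : Finset (Fin N)} {i j k l m : Fin N} (hi : i ∈ S)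
    (hj : j ∈ S) (hk : k ∈ S) (hl : l ∈ S) (hm : m ∈ S) (x y z w u : ℝ) (hx : 0 < x) (hy : 0 ≤ y)
    (hz : 0 ≤ z) (hw : 0 ≤ w) (hu : 0 ≤ u)
    (hle : x ^ 2 + y ^ 2 + z ^ 2 + w ^ 2 + u ^ 2 + 2 * (x * y * L n (e i) (e j) +
      x * z * L n (e i) (e k) + x * w * L n (e i) (e l) + x * u * L n (e i) (e m) +
      y * z * L n (e j) (e k) + y * w * L n (e j) (e l) + y * u * L n (e j) (e m) +
      z * w * L n (e k) (e l) + z * u * L n (e k) (e m) + w * u * L n (e l) (e m)) ≤ 0) :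
    ¬ Ell e S := by
  intro h
  have h1 := h (Pi.single i x + Pi.single j y + Pi.single k z + Pi.single l w + Pi.single m u) ?_ ?_
  · rw [comb_add, comb_add, comb_add, comb_add, comb_single, comb_single, comb_single, comb_single,
      comb_single] at h1
    simp only [L_add_left, L_add_right, L_smul_left, L_smul_right, hP.unit] at h1
    rw [L_comm (e j) (e i), L_comm (e k) (e i), L_comm (e l) (e i), L_comm (e m) (e i),
      L_comm (e k) (e j), L_comm (e l) (e j), L_comm (e m) (e j), L_comm (e l) (e k),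
      L_comm (e m) (e k), L_comm (e m) (e l)] at h1
    nlinarith [h1, hle]
  · intro t ht
    have a1 : t ≠ i := fun h' => ht (h' ▸ hi)
    have a2 : t ≠ j := fun h' => ht (h' ▸ hj)
    have a3 : t ≠ k := fun h' => ht (h' ▸ hk)
    have a4 : t ≠ l := fun h' => ht (h' ▸ hl)
    have a5 : t ≠ m := fun h' => ht (h' ▸ hm)
    simp [Pi.single_eq_of_ne, a1, a2, a3, a4, a5]
  · intro h0
    have h2 := congrFun h0 i
    have b : ∀ (p : Fin N) (v : ℝ), 0 ≤ v → 0 ≤ (Pi.single p v : Fin N → ℝ) i := by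
      intro p v hv
      by_cases hp : i = p
      · subst hp
        rw [Pi.single_eq_same]
        exact hv
      · rw [Pi.single_eq_of_ne hp]
    have b1 := b j y hy
    have b2 := b k z hz
    have b3 := b l w hw
    have b4 := b m u hu
    simp only [Pi.add_apply, Pi.single_eq_same, Pi.zero_apply] at h2
    linarith

private theorem s2 : √2 * √2 = 2 := Real.mul_self_sqrt (by norm_num)

private theorem s3 : √3 * √3 = 3 := Real.mul_self_sqrt (by norm_num)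

private theorem p2 : 0 < √2 := Real.sqrt_pos.2 (by norm_num)

private theorem p3 : 0 < √3 := Real.sqrt_pos.2 (by norm_num)

theorem loc_tri (hP : Acute n N e) {S : Finset (Fin N)} {i j k : Fin N} (hi : i ∈ S) (hj : j ∈ S)
    (hk : k ∈ S) (hij : i ≠ j) (hjk : j ≠ k) (hik : i ≠ k) (h1 : L n (e i) (e j) ≤ -(1 / 2))
    (h2 : L n (e j) (e k) ≤ -(1 / 2)) (h3 : L n (e i) (e k) ≤ -(1 / 2)) : ¬ Ell e S := by
  refine five hP hi hj hk hi hi 1 1 1 0 0 (by norm_num) (by norm_num) (by norm_num) le_rfl le_rfl ?_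
  linarith

theorem loc6 (hP : Acute n N e) {S : Finset (Fin N)} {i j k : Fin N} (hi : i ∈ S) (hj : j ∈ S)
    (hk : k ∈ S) (hij : i ≠ j) (hjk : j ≠ k) (hik : i ≠ k) (h1 : L n (e i) (e j) ≤ -(√3 / 2))
    (h2 : L n (e j) (e k) ≤ -(1 / 2)) : ¬ Ell e S := by
  refine five hP hi hj hk hi hi (√3) 2 1 0 0 p3 (by norm_num) (by norm_num) le_rfl le_rfl ?_
  have h3 := hP.off i k hik
  have e1 : √3 * L n (e i) (e j) ≤ √3 * -(√3 / 2) := mul_le_mul_of_nonneg_left h1 p3.le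
  have e2 : √3 * L n (e i) (e k) ≤ 0 := mul_nonpos_of_nonneg_of_nonpos p3.le h3
  nlinarith [s3]

theorem loc44 (hP : Acute n N e) {S : Finset (Fin N)} {i j k : Fin N} (hi : i ∈ S) (hj : j ∈ S)
    (hk : k ∈ S) (hij : i ≠ j) (hjk : j ≠ k) (hik : i ≠ k) (h1 : L n (e i) (e j) ≤ -(√2 / 2))
    (h2 : L n (e j) (e k) ≤ -(√2 / 2)) : ¬ Ell e S := by
  refine five hP hi hj hk hi hi 1 (√2) 1 0 0 (by norm_num) p2.le (by norm_num) le_rfl le_rfl ?_
  have h3 := hP.off i k hik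
  have e1 : √2 * L n (e i) (e j) ≤ √2 * -(√2 / 2) := mul_le_mul_of_nonneg_left h1 p2.le
  have e2 : √2 * L n (e j) (e k) ≤ √2 * -(√2 / 2) := mul_le_mul_of_nonneg_left h2 p2.le
  nlinarith [s2]

theorem loc4b (hP : Acute n N e) {S : Finset (Fin N)} {i j k l : Fin N} (hi : i ∈ S) (hj : j ∈ S)
    (hk : k ∈ S) (hl : l ∈ S) (hij : i ≠ j) (hik : i ≠ k) (hil : i ≠ l) (hjk : j ≠ k)
    (hjl : j ≠ l) (hkl : k ≠ l) (h1 : L n (e i) (e j) ≤ -(√2 / 2))
    (h2 : L n (e j) (e k) ≤ -(1 / 2)) (h3 : L n (e j) (e l) ≤ -(1 / 2)) : ¬ Ell e S := by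
  refine five hP hi hj hk hl hi (√2) 2 1 1 0 p2 (by norm_num) (by norm_num) (by norm_num) le_rfl ?_
  have g1 := hP.off i k hik
  have g2 := hP.off i l hil
  have g3 := hP.off k l hkl
  have e1 : √2 * L n (e i) (e j) ≤ √2 * -(√2 / 2) := mul_le_mul_of_nonneg_left h1 p2.le
  have e2 : √2 * L n (e i) (e k) ≤ 0 := mul_nonpos_of_nonneg_of_nonpos p2.le g1
  have e3 : √2 * L n (e i) (e l) ≤ 0 := mul_nonpos_of_nonneg_of_nonpos p2.le g2
  nlinarith [s2]

theorem loc434 (hP : Acute n N e) {S : Finset (Fin N)} {i j k l : Fin N} (hi : i ∈ S)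
    (hj : j ∈ S) (hk : k ∈ S) (hl : l ∈ S) (hij : i ≠ j) (hik : i ≠ k) (hil : i ≠ l)
    (hjk : j ≠ k) (hjl : j ≠ l) (hkl : k ≠ l) (h1 : L n (e i) (e j) ≤ -(√2 / 2))
    (h2 : L n (e j) (e k) ≤ -(1 / 2)) (h3 : L n (e k) (e l) ≤ -(√2 / 2)) : ¬ Ell e S := by
  refine five hP hi hj hk hl hi 1 (√2) (√2) 1 0 (by norm_num) p2.le p2.le (by norm_num) le_rfl ?_
  have g1 := hP.off i k hik
  have g2 := hP.off i l hil
  have g3 := hP.off j l hjl
  have e1 : √2 * L n (e i) (e j) ≤ √2 * -(√2 / 2) := mul_le_mul_of_nonneg_left h1 p2.le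
  have e2 : √2 * L n (e k) (e l) ≤ √2 * -(√2 / 2) := mul_le_mul_of_nonneg_left h3 p2.le
  have e3 : √2 * L n (e i) (e k) ≤ 0 := mul_nonpos_of_nonneg_of_nonpos p2.le g1
  have e4 : √2 * L n (e j) (e l) ≤ 0 := mul_nonpos_of_nonneg_of_nonpos p2.le g3
  have e5 : √2 * √2 * L n (e j) (e k) ≤ -1 := by
    rw [s2]
    linarith
  nlinarith [s2]

theorem loc4334 (hP : Acute n N e) {S : Finset (Fin N)} {i j k l m : Fin N} (hi : i ∈ S)
    (hj : j ∈ S) (hk : k ∈ S) (hl : l ∈ S) (hm : m ∈ S) (hij : i ≠ j) (hik : i ≠ k)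
    (hil : i ≠ l) (him : i ≠ m) (hjk : j ≠ k) (hjl : j ≠ l) (hjm : j ≠ m) (hkl : k ≠ l)
    (hkm : k ≠ m) (hlm : l ≠ m) (h1 : L n (e i) (e j) ≤ -(√2 / 2))
    (h2 : L n (e j) (e k) ≤ -(1 / 2)) (h3 : L n (e k) (e l) ≤ -(1 / 2))
    (h4 : L n (e l) (e m) ≤ -(√2 / 2)) : ¬ Ell e S := by
  refine five hP hi hj hk hl hm 1 (√2) (√2) (√2) 1 (by norm_num) p2.le p2.le p2.le (by norm_num) ?_
  have g1 := hP.off i k hik
  have g2 := hP.off i l hil
  have g3 := hP.off i m him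
  have g4 := hP.off j l hjl
  have g5 := hP.off j m hjm
  have g6 := hP.off k m hkm
  have e1 : √2 * L n (e i) (e j) ≤ √2 * -(√2 / 2) := mul_le_mul_of_nonneg_left h1 p2.le
  have e2 : √2 * L n (e l) (e m) ≤ √2 * -(√2 / 2) := mul_le_mul_of_nonneg_left h4 p2.le
  have e3 : √2 * L n (e i) (e k) ≤ 0 := mul_nonpos_of_nonneg_of_nonpos p2.le g1
  have e4 : √2 * L n (e i) (e l) ≤ 0 := mul_nonpos_of_nonneg_of_nonpos p2.le g2
  have e5 : √2 * L n (e j) (e m) ≤ 0 := mul_nonpos_of_nonneg_of_nonpos p2.le g5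
  have e6 : √2 * L n (e k) (e m) ≤ 0 := mul_nonpos_of_nonneg_of_nonpos p2.le g6
  have e7 : √2 * √2 * L n (e j) (e k) ≤ -1 := by
    rw [s2]
    linarith
  have e8 : √2 * √2 * L n (e k) (e l) ≤ -1 := by
    rw [s2]
    linarith
  have e9 : √2 * √2 * L n (e j) (e l) ≤ 0 := by
    rw [s2]
    linarith
  nlinarith [s2]

end Pool.Agent.Work.MP_f6469e_gt
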