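import Pool.Agent.Work.MP_f6469e_gt.BDefs

/-!
# Module BSm (S-M): small elliptic sets

For `c` supported on the set write `comb e c = x • e i + y • e j + ...` and expand `L n (comb e c) (comb e c)`.
* `ell_pair`: `x² + y² + 2 g x y > 0` for `|g| < 1`.
* `ell_b3`: `x² + y² + z² - x y - √2 y z = (x - y/2)² + (3/4) y² - √2 y z + z²`, and `(3/4) y² - √2 y z + z² = (z - (√2/2) y)² + y²/4`.
* `ell_f4`: `(x - y/2)² + (w - z/2)² + (3/4) y² + (3/4) z² - √2 y z`, the last three terms are positive for `(y, z) ≠ 0` since `2 < 9/4`.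
* `ell_union`: `comb e c = comb e c_A + comb e c_B` (`c_A = c` on `A`, `0` elsewhere), the two parts are orthogonal; one of `c_A, c_B` is not zero.
-/

set_option autoImplicit false

namespace Pool.Agent.Work.MP_f6469e_gt

variable {n N : ℕ} {e : Fin N → (Fin (n + 1) → ℝ)}



private theorem comb_eq_sum {S : Finset (Fin N)} (c : Fin N → ℝ) (hc : ∀ i, i ∉ S → c i = 0) :
    comb e c = ∑ i ∈ S, c i • e i := by
  rw [comb]
  symm
  refine Finset.sum_subset (Finset.subset_univ _) fun i _ hi => ?_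
  rw [hc i hi, zero_smul]

private theorem sq_sqrt2 : (√2 : ℝ) * √2 = 2 := Real.mul_self_sqrt (by norm_num)

theorem ell_pair {i j : Fin N} (hP : Acute n N e) (hij : i ≠ j) (h : -1 < L n (e i) (e j)) :
    Ell e {i, j} := by
  intro c hc h0
  have hcomb : comb e c = c i • e i + c j • e j := by
    rw [comb_eq_sum c hc, Finset.sum_pair hij]
  have hg := hP.off i j hij
  have hL : L n (comb e c) (comb e c)
      = c i ^ 2 + c j ^ 2 + 2 * L n (e i) (e j) * (c i * c j) := by
    rw [hcomb]
    simp only [L_add_left, L_add_right, L_smul_left, L_smul_right, hP.unit, L_comm (e j) (e i)]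
    ring
  have hne : c i ≠ 0 ∨ c j ≠ 0 := by
    by_contra hcon
    push Not at hcon
    apply h0
    funext m
    by_cases hm : m ∈ ({i, j} : Finset (Fin N))
    · rcases (by simpa using hm : m = i ∨ m = j) with rfl | rfl
      · exact hcon.1
      · exact hcon.2
    · exact hc m hm
  rw [hL]
  set g := L n (e i) (e j) with hgdef
  have hid : c i ^ 2 + c j ^ 2 + 2 * g * (c i * c j)
      = (-g) * (c i - c j) ^ 2 + (1 + g) * (c i ^ 2 + c j ^ 2) := by ring
  rw [hid]
  have hpos : 0 < c i ^ 2 + c j ^ 2 := by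
    rcases hne with h1 | h1
    · positivity
    · positivity
  have h1 : 0 ≤ (-g) * (c i - c j) ^ 2 := mul_nonneg (by linarith) (sq_nonneg _)
  have h2 : 0 < (1 + g) * (c i ^ 2 + c j ^ 2) := mul_pos (by linarith) hpos
  linarith

theorem ell_b3 {i j k : Fin N} (hP : Acute n N e) (hij : i ≠ j) (hjk : j ≠ k) (hik : i ≠ k)
    (h1 : L n (e i) (e j) = -(1 / 2)) (h2 : L n (e j) (e k) = -(√2 / 2))
    (h3 : L n (e i) (e k) = 0) : Ell e {i, j, k} := by
  intro c hc h0
  have hcomb : comb e c = c i • e i + (c j • e j + c k • e k) := by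
    rw [comb_eq_sum c hc, Finset.sum_insert (by simp [hij, hik]), Finset.sum_pair hjk]
  have hL : L n (comb e c) (comb e c)
      = c i ^ 2 + c j ^ 2 + c k ^ 2 - c i * c j - √2 * (c j * c k) := by
    rw [hcomb]
    simp only [L_add_left, L_add_right, L_smul_left, L_smul_right, hP.unit, L_comm (e j) (e i),
      L_comm (e k) (e i), L_comm (e k) (e j), h1, h2, h3]
    ring
  have hne : c i ≠ 0 ∨ c j ≠ 0 ∨ c k ≠ 0 := by
    by_contra hcon
    push Not at hcon
    apply h0
    funext m
    by_cases hm : m ∈ ({i, j, k} : Finset (Fin N))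
    · rcases (by simpa using hm : m = i ∨ m = j ∨ m = k) with rfl | rfl | rfl
      · exact hcon.1
      · exact hcon.2.1
      · exact hcon.2.2
    · exact hc m hm
  rw [hL]
  have hid : c i ^ 2 + c j ^ 2 + c k ^ 2 - c i * c j - √2 * (c j * c k)
      = (c i - c j / 2) ^ 2 + (c k - √2 / 2 * c j) ^ 2 + c j ^ 2 / 4
        + (2 - √2 * √2) / 4 * c j ^ 2 := by ring
  rw [hid, sq_sqrt2]
  by_cases hj : c j = 0
  · rw [hj]
    have hne' : c i ≠ 0 ∨ c k ≠ 0 := by tauto
    rcases hne' with h | h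
    · have : 0 < c i ^ 2 := by positivity
      nlinarith [sq_nonneg (c k)]
    · have : 0 < c k ^ 2 := by positivity
      nlinarith [sq_nonneg (c i)]
  · have : 0 < c j ^ 2 := by positivity
    have h1 := sq_nonneg (c i - c j / 2)
    have h2 := sq_nonneg (c k - √2 / 2 * c j)
    linarith

theorem ell_f4 {i j k l : Fin N} (hP : Acute n N e) (hij : i ≠ j) (hik : i ≠ k) (hil : i ≠ l)
    (hjk : j ≠ k) (hjl : j ≠ l) (hkl : k ≠ l) (h1 : L n (e i) (e j) = -(1 / 2))
    (h2 : L n (e j) (e k) = -(√2 / 2)) (h3 : L n (e k) (e l) = -(1 / 2))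
    (h4 : L n (e i) (e k) = 0) (h5 : L n (e i) (e l) = 0) (h6 : L n (e j) (e l) = 0) :
    Ell e {i, j, k, l} := by
  intro c hc h0
  have hcomb : comb e c = c i • e i + (c j • e j + (c k • e k + c l • e l)) := by
    rw [comb_eq_sum c hc, Finset.sum_insert (by simp [hij, hik, hil]),
      Finset.sum_insert (by simp [hjk, hjl]), Finset.sum_pair hkl]
  have hL : L n (comb e c) (comb e c)
      = c i ^ 2 + c j ^ 2 + c k ^ 2 + c l ^ 2 - c i * c j - √2 * (c j * c k) - c k * c l := by
    rw [hcomb]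
    simp only [L_add_left, L_add_right, L_smul_left, L_smul_right, hP.unit, L_comm (e j) (e i),
      L_comm (e k) (e i), L_comm (e k) (e j), L_comm (e l) (e i), L_comm (e l) (e j),
      L_comm (e l) (e k), h1, h2, h3, h4, h5, h6]
    ring
  have hne : c i ≠ 0 ∨ c j ≠ 0 ∨ c k ≠ 0 ∨ c l ≠ 0 := by
    by_contra hcon
    push Not at hcon
    apply h0
    funext m
    by_cases hm : m ∈ ({i, j, k, l} : Finset (Fin N))
    · rcases (by simpa using hm : m = i ∨ m = j ∨ m = k ∨ m = l) with rfl | rfl | rfl | rfl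
      · exact hcon.1
      · exact hcon.2.1
      · exact hcon.2.2.1
      · exact hcon.2.2.2
    · exact hc m hm
  rw [hL]
  have hid2 : c i ^ 2 + c j ^ 2 + c k ^ 2 + c l ^ 2 - c i * c j - √2 * (c j * c k) - c k * c l
      = (c i - c j / 2) ^ 2 + (c l - c k / 2) ^ 2
        + (√2 / 2 * (c j - c k) ^ 2 + (3 / 4 - √2 / 2) * (c j ^ 2 + c k ^ 2)) := by ring
  rw [hid2]
  have hlt : √2 < 3 / 2 := by
    rw [Real.sqrt_lt' (by norm_num)]
    norm_num
  by_cases hjk0 : c j = 0 ∧ c k = 0
  · rw [hjk0.1, hjk0.2]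
    have hne' : c i ≠ 0 ∨ c l ≠ 0 := by tauto
    rcases hne' with h | h
    · have : 0 < c i ^ 2 := by positivity
      nlinarith [sq_nonneg (c l)]
    · have : 0 < c l ^ 2 := by positivity
      nlinarith [sq_nonneg (c i)]
  · have hpos : 0 < c j ^ 2 + c k ^ 2 := by
      have : c j ≠ 0 ∨ c k ≠ 0 := by tauto
      rcases this with h | h
      · positivity
      · positivity
    have e1 := sq_nonneg (c i - c j / 2)
    have e2 := sq_nonneg (c l - c k / 2)
    have e3 : 0 ≤ √2 / 2 * (c j - c k) ^ 2 := by positivity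
    have e4 : 0 < (3 / 4 - √2 / 2) * (c j ^ 2 + c k ^ 2) := mul_pos (by linarith) hpos
    linarith

theorem ell_union {A B : Finset (Fin N)} (hA : Ell e A) (hB : Ell e B) (hd : Disjoint A B)
    (h : ∀ a ∈ A, ∀ b ∈ B, L n (e a) (e b) = 0) : Ell e (A ∪ B) := by
  intro c hc h0
  let cA : Fin N → ℝ := fun i => if i ∈ A then c i else 0
  let cB : Fin N → ℝ := fun i => if i ∈ B then c i else 0
  have hsum : c = cA + cB := by
    funext i
    simp only [cA, cB, Pi.add_apply]
    by_cases hiA : i ∈ A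
    · have hiB : i ∉ B := Finset.disjoint_left.mp hd hiA
      simp [hiA, hiB]
    · by_cases hiB : i ∈ B
      · simp [hiA, hiB]
      · simp [hiA, hiB, hc i (by simp [hiA, hiB])]
  have hcA : ∀ i, i ∉ A → cA i = 0 := fun i hi => by simp [cA, hi]
  have hcB : ∀ i, i ∉ B → cB i = 0 := fun i hi => by simp [cB, hi]
  have horth : L n (comb e cA) (comb e cB) = 0 := by
    rw [L_comb_comb]
    refine Finset.sum_eq_zero fun i _ => Finset.sum_eq_zero fun j _ => ?_
    by_cases hi : i ∈ A
    · by_cases hj : j ∈ B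
      · rw [h i hi j hj, mul_zero]
      · rw [hcB j hj]; ring
    · rw [hcA i hi]; ring
  have hL : L n (comb e c) (comb e c)
      = L n (comb e cA) (comb e cA) + L n (comb e cB) (comb e cB) := by
    conv_lhs => rw [hsum]
    rw [comb_add, L_add_left, L_add_right, L_add_right, horth, L_comm (comb e cB), horth]
    ring
  rw [hL]
  have nonneg : ∀ {T : Finset (Fin N)}, Ell e T → ∀ d : Fin N → ℝ, (∀ i, i ∉ T → d i = 0) →
      0 ≤ L n (comb e d) (comb e d) := by
    intro T hT d hd'
    by_cases hd0 : d = 0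
    · rw [hd0]
      have : comb e (0 : Fin N → ℝ) = 0 := by simp [comb]
      rw [this, L_zero_left]
    · exact (hT d hd' hd0).le
  by_cases hA0 : cA = 0
  · have hB0 : cB ≠ 0 := by
      intro hB0
      apply h0
      rw [hsum, hA0, hB0, add_zero]
    have := hB cB hcB hB0
    have := nonneg hA cA hcA
    linarith
  · have := hA cA hcA hA0
    have := nonneg hB cB hcB
    linarith

end Pool.Agent.Work.MP_f6469e_gt
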