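import Pool.Agent.Work.MP_f6469e_gt.BCard
import Pool.Agent.Work.MP_f6469e_gt.BLoc
import Pool.Agent.Work.MP_f6469e_gt.BSm

/-!
# Module BCl3 (M): Lanner triples without 6-edges

`d` from `cls2`, `card_class`: two elements `i ≠ j` with `d i = d j` and one element `k` with the other value. All pairs are elliptic, so `L_ij ∈ {0, -1/2}`, `L_ik, L_jk ∈ {0, -√2/2}`.
* both `L_ik, L_jk ≠ 0`: `L_ij = 0` contradicts `par44`; `L_ij = -1/2` is `Tri3 i j k` (third case).
* exactly one, say `L_jk ≠ 0`: `L_ij = 0`: `{i}` and `{j, k}` are orthogonal: elliptic by `ell_union`, contradiction; `L_ij = -1/2`: elliptic by `ell_b3`, contradiction.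
* none: `{k}` and `{i, j}` are orthogonal, contradiction.
-/

set_option autoImplicit false

namespace Pool.Agent.Work.MP_f6469e_gt

variable {n N : ℕ} {e : Fin N → (Fin (n + 1) → ℝ)}


private theorem gt_of_ell (hP : Acute n N e) {T : Finset (Fin N)} (hT : Ell e T) {i j : Fin N}
    (hi : i ∈ T) (hj : j ∈ T) (hij : i ≠ j) : -1 < L n (e i) (e j) := by
  have h := hT (Pi.single i 1 + Pi.single j 1) (fun m hm => by
    have h1 : m ≠ i := by
      rintro rfl
      exact hm hi
    have h2 : m ≠ j := by
      rintro rfl
      exact hm hj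
    rw [Pi.add_apply, Pi.single_eq_of_ne h1, Pi.single_eq_of_ne h2, add_zero]) (fun h => by
    have := congrFun h i
    rw [Pi.add_apply, Pi.single_eq_same, Pi.single_eq_of_ne hij, Pi.zero_apply] at this
    norm_num at this)
  rw [comb_add, comb_single, comb_single, one_smul, one_smul, L_add_left, L_add_right,
    L_add_right, hP.unit, hP.unit, L_comm (e j) (e i)] at h
  linarith

private theorem ssub {S T : Finset (Fin N)} (h1 : T ⊆ S) {x : Fin N} (hx : x ∈ S) (hxT : x ∉ T) :
    T ⊂ S :=
  Finset.ssubset_iff_subset_ne.mpr ⟨h1, fun h => hxT (h ▸ hx)⟩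

private theorem core3 (hn : 1 ≤ n) (hL : Lab n N e) {i j k : Fin N} (hij : i ≠ j) (hjk : j ≠ k)
    (hik : i ≠ k) (hS : MinNon e {i, j, k}) (h1 : L n (e i) (e j) = 0 ∨ L n (e i) (e j) = -(1 / 2))
    (h2 : L n (e i) (e k) = 0 ∨ L n (e i) (e k) = -(√2 / 2))
    (h3 : L n (e j) (e k) = 0 ∨ L n (e j) (e k) = -(√2 / 2)) : Tri3 e i j k := by
  have hP := hL.ac
  have s1 : ∀ x ∈ ({i, j, k} : Finset (Fin N)), Ell e {x} := by
    intro x hx
    apply hS.2
    rw [Finset.ssubset_iff_subset_ne]
    refine ⟨Finset.singleton_subset_iff.mpr hx, fun h => ?_⟩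
    have := congrArg Finset.card h
    rw [Finset.card_singleton, Finset.card_eq_three.mpr ⟨i, j, k, hij, hik, hjk, rfl⟩] at this
    omega
  have sjk : Ell e {j, k} := hS.2 _ (ssub (x := i) (by
    intro x
    simp only [Finset.mem_insert, Finset.mem_singleton]
    tauto) (by simp) (by
    simp only [Finset.mem_insert, Finset.mem_singleton]
    tauto))
  have sik : Ell e {i, k} := hS.2 _ (ssub (x := j) (by
    intro x
    simp only [Finset.mem_insert, Finset.mem_singleton]
    tauto) (by simp) (by
    simp only [Finset.mem_insert, Finset.mem_singleton]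
    tauto))
  have sij : Ell e {i, j} := hS.2 _ (ssub (x := k) (by
    intro x
    simp only [Finset.mem_insert, Finset.mem_singleton]
    tauto) (by simp) (by
    simp only [Finset.mem_insert, Finset.mem_singleton]
    tauto))
  rcases h2 with h2 | h2
  · rcases h3 with h3 | h3
    · -- `k` is orthogonal to `i, j`
      exfalso
      apply hS.1
      have h := ell_union sij (s1 k (by simp)) (by
        rw [Finset.disjoint_singleton_right]
        simp only [Finset.mem_insert, Finset.mem_singleton]
        tauto) (by
        intro a ha b hb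
        rw [Finset.mem_singleton] at hb
        subst hb
        simp only [Finset.mem_insert, Finset.mem_singleton] at ha
        rcases ha with rfl | rfl
        · exact h2
        · exact h3)
      convert h using 1
      ext x
      simp only [Finset.mem_insert, Finset.mem_singleton, Finset.mem_union]
      tauto
    · exfalso
      apply hS.1
      rcases h1 with h1 | h1
      · have h := ell_union (s1 i (by simp)) sjk (by
          rw [Finset.disjoint_singleton_left]
          simp only [Finset.mem_insert, Finset.mem_singleton]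
          tauto) (by
          intro a ha b hb
          rw [Finset.mem_singleton] at ha
          subst ha
          simp only [Finset.mem_insert, Finset.mem_singleton] at hb
          rcases hb with rfl | rfl
          · exact h1
          · exact h2)
        convert h using 1
        ext x
        simp only [Finset.mem_insert, Finset.mem_singleton, Finset.mem_union]
      · exact ell_b3 hP hij hjk hik h1 h3 h2
  · rcases h3 with h3 | h3
    · exfalso
      apply hS.1
      rcases h1 with h1 | h1
      · have h := ell_union (s1 j (by simp)) sik (by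
          rw [Finset.disjoint_singleton_left]
          simp only [Finset.mem_insert, Finset.mem_singleton]
          tauto) (by
          intro a ha b hb
          rw [Finset.mem_singleton] at ha
          subst ha
          simp only [Finset.mem_insert, Finset.mem_singleton] at hb
          rcases hb with rfl | rfl
          · rw [L_comm]
            exact h1
          · exact h3)
        convert h using 1
        ext x
        simp only [Finset.mem_insert, Finset.mem_singleton, Finset.mem_union]
        tauto
      · have h := ell_b3 hP hij.symm hik hjk (by rw [L_comm]; exact h1) h2 h3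
        convert h using 1
        ext x
        simp only [Finset.mem_insert, Finset.mem_singleton]
        tauto
    · rcases h1 with h1 | h1
      · exact (par44 hn hP hik hjk.symm hij h2 (by rw [L_comm]; exact h3) h1).elim
      · exact Or.inr (Or.inr (Or.inl ⟨h1, h3, h2⟩))

theorem clas3 (hn : 1 ≤ n) (hL : Lab n N e) {S : Finset (Fin N)} (hS : MinNon e S)
    (h3 : S.card = 3) (h6 : ∀ i ∈ S, ∀ j ∈ S, L n (e i) (e j) ≠ -(√3 / 2)) :
    ∃ i j k, i ≠ j ∧ j ≠ k ∧ i ≠ k ∧ S = {i, j, k} ∧ Tri3 e i j k := by
  have hP := hL.ac
  obtain ⟨d, hd, hd2⟩ := hL.cls2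
  obtain ⟨c1, c2⟩ := card_class hn hL hS (by omega) h6 d hd hd2
  have hpair : ∀ i ∈ S, ∀ j ∈ S, i ≠ j → -1 < L n (e i) (e j) := by
    intro i hi j hj hij
    refine gt_of_ell hP (T := {i, j}) (hS.2 _ ?_) (by simp) (by simp) hij
    rw [Finset.ssubset_iff_subset_ne]
    refine ⟨by
      intro x hx
      simp only [Finset.mem_insert, Finset.mem_singleton] at hx
      rcases hx with rfl | rfl <;> assumption, fun h => ?_⟩
    have := congrArg Finset.card h
    rw [h3, Finset.card_pair hij] at this
    omega
  have hsame : ∀ i ∈ S, ∀ j ∈ S, i ≠ j → d i = d j →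
      L n (e i) (e j) = 0 ∨ L n (e i) (e j) = -(1 / 2) := by
    intro i hi j hj hij hdd
    have h := hpair i hi j hj hij
    rcases hL.lab i j hij with h1 | h1 | h1 | h1 | h1
    · exact Or.inl h1
    · exact Or.inr h1
    · exact absurd hdd ((hd2 i j hij).2.1 h1)
    · exact absurd h1 (h6 i hi j hj)
    · linarith
  have hdiff : ∀ i ∈ S, ∀ j ∈ S, i ≠ j → d i ≠ d j →
      L n (e i) (e j) = 0 ∨ L n (e i) (e j) = -(√2 / 2) := by
    intro i hi j hj hij hdd
    have h := hpair i hi j hj hij
    rcases hL.lab i j hij with h1 | h1 | h1 | h1 | h1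
    · exact Or.inl h1
    · exact absurd ((hd2 i j hij).1 h1) hdd
    · exact Or.inr h1
    · exact absurd h1 (h6 i hi j hj)
    · linarith
  have core : ∀ i j k, i ≠ j → j ≠ k → i ≠ k → S = {i, j, k} → d i = d j → d i ≠ d k →
      ∃ i j k, i ≠ j ∧ j ≠ k ∧ i ≠ k ∧ S = {i, j, k} ∧ Tri3 e i j k := by
    intro i j k hij hjk hik hSe hdij hdik
    have hi : i ∈ S := by rw [hSe]; simp
    have hj : j ∈ S := by rw [hSe]; simp
    have hk : k ∈ S := by rw [hSe]; simp
    refine ⟨i, j, k, hij, hjk, hik, hSe, core3 hn hL hij hjk hik (hSe ▸ hS)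
      (hsame i hi j hj hij hdij) (hdiff i hi k hk hik hdik)
      (hdiff j hj k hk hjk (fun h => hdik (hdij.trans h)))⟩
  obtain ⟨a, b, c, hab, hac, hbc, hSe⟩ := Finset.card_eq_three.mp h3
  have ha : a ∈ S := by rw [hSe]; simp
  have hb : b ∈ S := by rw [hSe]; simp
  have hc : c ∈ S := by rw [hSe]; simp
  have perm1 : S = {a, c, b} := by
    rw [hSe]
    ext x
    simp only [Finset.mem_insert, Finset.mem_singleton]
    tauto
  have perm2 : S = {b, c, a} := by
    rw [hSe]
    ext x
    simp only [Finset.mem_insert, Finset.mem_singleton]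
    tauto
  have hall : ∀ v, (S.filter fun i => d i = v).card ≤ 2 → ¬ (d a = v ∧ d b = v ∧ d c = v) := by
    rintro v hv ⟨h1, h2, h4⟩
    have : S.filter (fun i => d i = v) = S := by
      rw [Finset.filter_eq_self]
      intro x hx
      rw [hSe] at hx
      simp only [Finset.mem_insert, Finset.mem_singleton] at hx
      rcases hx with rfl | rfl | rfl <;> assumption
    rw [this, h3] at hv
    omega
  have hA := hall 1 c1
  have hB := hall 2 c2
  by_cases e1 : d a = d b
  · have e2 : d a ≠ d c := by
      intro e2
      rcases hd a with h | h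
      · exact hA ⟨h, by rw [← e1]; exact h, by rw [← e2]; exact h⟩
      · exact hB ⟨h, by rw [← e1]; exact h, by rw [← e2]; exact h⟩
    exact core a b c hab hbc hac hSe e1 e2
  · by_cases e2 : d a = d c
    · exact core a c b hac hbc.symm hab perm1 e2 e1
    · have e3 : d b = d c := by
        rcases hd a with h | h <;> rcases hd b with h' | h' <;> rcases hd c with h'' | h'' <;> omega
      exact core b c a hbc hac.symm hab.symm perm2 e3 (fun h => e1 h.symm)

end Pool.Agent.Work.MP_f6469e_gt
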