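import Pool.Agent.Work.MP_f6469e_gt.BCard
import Pool.Agent.Work.MP_f6469e_gt.BLoc
import Pool.Agent.Work.MP_f6469e_gt.BSm

/-!
# Module BCl4 (M): Lanner sets with at least four elements

`d` from `cls2`, `card_class`: `S` has exactly four elements, `d i = d j`, `d k = d l`, different values. All proper subsets are elliptic; `L_ij, L_kl ∈ {0, -1/2}`, the four cross products are in
`{0, -√2/2}`. No element has two 4-edges (`loc44`, three elements form a proper subset). So the 4-edges form a matching.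
* no 4-edge: `{i, j}` and `{k, l}` are orthogonal: `ell_union`, contradiction.
* exactly one, say `jk` (after renaming `i ↔ j`, `k ↔ l`): if `L_ij = 0` then `{i}` is orthogonal to the others, contradiction; in the same way `L_kl ≠ 0`; so `L_ij = L_kl = -1/2`, elliptic by `ell_f4`, contradiction.
* two: after renaming `k ↔ l` they are `jk` and `li`. If `L_ij = L_kl = -1/2`: `Sq4 i j k l`. If exactly one of them is `0`: a path (4,3,4), contradiction to `par434`. If both are `0`: `{j, k}` and `{i, l}` are orthogonal, contradiction.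
-/

set_option autoImplicit false

namespace Pool.Agent.Work.MP_f6469e_gt

variable {n N : ℕ} {e : Fin N → (Fin (n + 1) → ℝ)}


private theorem gt_of_ell (hP : Acute n N e) {T : Finset (Fin N)} (hT : Ell e T) {i j : Fin N}
    (hi : i ∈ T) (hj : j ∈ T) (hij : i ≠ j) : -1 < L n (e i) (e j) := by
  have h := hT (Pi.single i 1 + Pi.single j 1) (fun m hm => by
    have h1 : m ≠ i := by
      rintro rfl
      exact hm hi
    have h2 : m ≠ j := by
      rintro rfl
      exact hm hj
    rw [Pi.add_apply, Pi.single_eq_of_ne h1, Pi.single_eq_of_ne h2, add_zero]) (fun h => by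
    have := congrFun h i
    rw [Pi.add_apply, Pi.single_eq_same, Pi.single_eq_of_ne hij, Pi.zero_apply] at this
    norm_num at this)
  rw [comb_add, comb_single, comb_single, one_smul, one_smul, L_add_left, L_add_right,
    L_add_right, hP.unit, hP.unit, L_comm (e j) (e i)] at h
  linarith

private theorem ssub {S T : Finset (Fin N)} (h1 : T ⊆ S) {x : Fin N} (hx : x ∈ S) (hxT : x ∉ T) :
    T ⊂ S :=
  Finset.ssubset_iff_subset_ne.mpr ⟨h1, fun h => hxT (h ▸ hx)⟩

/-- the set is `{i, j, k, l}` -/
private structure Q (e : Fin N → (Fin (n + 1) → ℝ)) (S : Finset (Fin N)) (i j k l : Fin N) :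
    Prop where
  hij : i ≠ j
  hik : i ≠ k
  hil : i ≠ l
  hjk : j ≠ k
  hjl : j ≠ l
  hkl : k ≠ l
  hS : S = {i, j, k, l}
  min : MinNon e S

private theorem Q.swap1 {S : Finset (Fin N)} {i j k l : Fin N} (h : Q e S i j k l) :
    Q e S j i k l :=
  ⟨h.hij.symm, h.hjk, h.hjl, h.hik, h.hil, h.hkl, by
    rw [h.hS]
    ext x
    simp only [Finset.mem_insert, Finset.mem_singleton]
    tauto, h.min⟩

private theorem Q.swap2 {S : Finset (Fin N)} {i j k l : Fin N} (h : Q e S i j k l) :
    Q e S i j l k :=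
  ⟨h.hij, h.hil, h.hik, h.hjl, h.hjk, h.hkl.symm, by
    rw [h.hS]
    ext x
    simp only [Finset.mem_insert, Finset.mem_singleton]
    tauto, h.min⟩

/-- `S` is not an orthogonal union -/
private theorem Q.no {S A B : Finset (Fin N)} {i j k l : Fin N} (h : Q e S i j k l)
    (hAB : S = A ∪ B) (hd : Disjoint A B) (hA : A.Nonempty) (hB : B.Nonempty)
    (h0 : ∀ a ∈ A, ∀ b ∈ B, L n (e a) (e b) = 0) : False := by
  obtain ⟨a, ha⟩ := hA
  obtain ⟨b, hb⟩ := hB
  apply h.min.1
  rw [hAB]
  refine ell_union (h.min.2 _ ?_) (h.min.2 _ ?_) hd h0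
  · rw [hAB]
    exact ssub Finset.subset_union_left (Finset.mem_union_right _ hb)
      (Finset.disjoint_right.mp hd hb)
  · rw [hAB]
    exact ssub Finset.subset_union_right (Finset.mem_union_left _ ha)
      (Finset.disjoint_left.mp hd ha)

private theorem Q.none' {S : Finset (Fin N)} {i j k l : Fin N} (h : Q e S i j k l)
    (h1 : L n (e i) (e k) = 0) (h2 : L n (e i) (e l) = 0) (h3 : L n (e j) (e k) = 0)
    (h4 : L n (e j) (e l) = 0) : False := by
  obtain ⟨hij, hik, hil, hjk, hjl, hkl, hS, _⟩ := id h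
  refine h.no (A := {i, j}) (B := {k, l}) ?_ ?_ ⟨i, by simp⟩ ⟨k, by simp⟩ ?_
  · rw [hS]
    ext x
    simp only [Finset.mem_insert, Finset.mem_singleton, Finset.mem_union]
    tauto
  · rw [Finset.disjoint_left]
    intro x
    simp only [Finset.mem_insert, Finset.mem_singleton]
    rintro (rfl | rfl) <;> tauto
  · intro a ha b hb
    simp only [Finset.mem_insert, Finset.mem_singleton] at ha hb
    rcases ha with rfl | rfl <;> rcases hb with rfl | rfl <;> assumption

private theorem Q.left {S : Finset (Fin N)} {i j k l : Fin N} (h : Q e S i j k l)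
    (h1 : L n (e i) (e j) = 0) (h2 : L n (e i) (e k) = 0) (h3 : L n (e i) (e l) = 0) :
    False := by
  obtain ⟨hij, hik, hil, hjk, hjl, hkl, hS, _⟩ := id h
  refine h.no (A := {i}) (B := {j, k, l}) ?_ ?_ ⟨i, by simp⟩ ⟨k, by simp⟩ ?_
  · rw [hS]
    rfl
  · rw [Finset.disjoint_singleton_left]
    simp only [Finset.mem_insert, Finset.mem_singleton]
    tauto
  · intro a ha b hb
    simp only [Finset.mem_insert, Finset.mem_singleton] at ha hb
    subst ha
    rcases hb with rfl | rfl | rfl <;> assumption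

private theorem Q.right {S : Finset (Fin N)} {i j k l : Fin N} (h : Q e S i j k l)
    (h1 : L n (e i) (e l) = 0) (h2 : L n (e j) (e l) = 0) (h3 : L n (e k) (e l) = 0) :
    False := by
  obtain ⟨hij, hik, hil, hjk, hjl, hkl, hS, _⟩ := id h
  refine h.no (A := {i, j, k}) (B := {l}) ?_ ?_ ⟨i, by simp⟩ ⟨l, by simp⟩ ?_
  · rw [hS]
    ext x
    simp only [Finset.mem_insert, Finset.mem_singleton, Finset.mem_union]
    tauto
  · rw [Finset.disjoint_singleton_right]
    simp only [Finset.mem_insert, Finset.mem_singleton]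
    tauto
  · intro a ha b hb
    simp only [Finset.mem_insert, Finset.mem_singleton] at ha hb
    subst hb
    rcases ha with rfl | rfl | rfl <;> assumption

private theorem Q.one (hP : Acute n N e) {S : Finset (Fin N)} {i j k l : Fin N}
    (h : Q e S i j k l) (h1 : L n (e i) (e j) = 0 ∨ L n (e i) (e j) = -(1 / 2))
    (h2 : L n (e k) (e l) = 0 ∨ L n (e k) (e l) = -(1 / 2)) (h3 : L n (e j) (e k) = -(√2 / 2))
    (h4 : L n (e i) (e k) = 0) (h5 : L n (e i) (e l) = 0) (h6 : L n (e j) (e l) = 0) :
    False := by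
  rcases h1 with h1 | h1
  · exact h.left h1 h4 h5
  rcases h2 with h2 | h2
  · exact h.right h5 h6 h2
  apply h.min.1
  rw [h.hS]
  exact ell_f4 hP h.hij h.hik h.hil h.hjk h.hjl h.hkl h1 h3 h2 h4 h5 h6

private theorem Q.two (hn : 1 ≤ n) (hP : Acute n N e) {S : Finset (Fin N)} {i j k l : Fin N}
    (h : Q e S i j k l) (h1 : L n (e i) (e j) = 0 ∨ L n (e i) (e j) = -(1 / 2))
    (h2 : L n (e k) (e l) = 0 ∨ L n (e k) (e l) = -(1 / 2)) (h3 : L n (e j) (e k) = -(√2 / 2))
    (h4 : L n (e i) (e l) = -(√2 / 2)) (h5 : L n (e i) (e k) = 0) (h6 : L n (e j) (e l) = 0) :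
    Sq4 e i j k l := by
  obtain ⟨hij, hik, hil, hjk, hjl, hkl, hS, _⟩ := id h
  rcases h1 with h1 | h1
  · exfalso
    rcases h2 with h2 | h2
    · refine h.no (A := {j, k}) (B := {i, l}) ?_ ?_ ⟨j, by simp⟩ ⟨i, by simp⟩ ?_
      · rw [hS]
        ext x
        simp only [Finset.mem_insert, Finset.mem_singleton, Finset.mem_union]
        tauto
      · rw [Finset.disjoint_left]
        intro x
        simp only [Finset.mem_insert, Finset.mem_singleton]
        rintro (rfl | rfl) <;> tauto
      · intro a ha b hb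
        simp only [Finset.mem_insert, Finset.mem_singleton] at ha hb
        rcases ha with rfl | rfl <;> rcases hb with rfl | rfl
        · rw [L_comm]
          exact h1
        · exact h6
        · rw [L_comm]
          exact h5
        · exact h2
    · exact par434 hn hP hil hik hij hkl.symm hjl.symm hjk.symm h4 (by rw [L_comm]; exact h2)
        (by rw [L_comm]; exact h3) h5 h1 (by rw [L_comm]; exact h6)
  · rcases h2 with h2 | h2
    · exfalso
      exact par434 hn hP hil.symm hjl.symm hkl.symm hij hik hjk (by rw [L_comm]; exact h4) h1 h3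
        (by rw [L_comm]; exact h6) (by rw [L_comm]; exact h2) h5
    · exact ⟨h1, h3, h2, by rw [L_comm]; exact h4, h5, h6⟩

theorem clas4 (hn : 1 ≤ n) (hL : Lab n N e) {S : Finset (Fin N)} (hS : MinNon e S)
    (h4 : 4 ≤ S.card) (h6 : ∀ i ∈ S, ∀ j ∈ S, L n (e i) (e j) ≠ -(√3 / 2)) :
    ∃ i j k l, i ≠ j ∧ i ≠ k ∧ i ≠ l ∧ j ≠ k ∧ j ≠ l ∧ k ≠ l ∧ S = {i, j, k, l} ∧
      Sq4 e i j k l := by
  have hP := hL.ac
  obtain ⟨d, hd, hd2⟩ := hL.cls2
  obtain ⟨c1, c2⟩ := card_class hn hL hS (by omega) h6 d hd hd2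
  have hpair : ∀ i ∈ S, ∀ j ∈ S, i ≠ j → -1 < L n (e i) (e j) := by
    intro i hi j hj hij
    refine gt_of_ell hP (T := {i, j}) (hS.2 _ ?_) (by simp) (by simp) hij
    rw [Finset.ssubset_iff_subset_ne]
    refine ⟨by
      intro x hx
      simp only [Finset.mem_insert, Finset.mem_singleton] at hx
      rcases hx with rfl | rfl <;> assumption, fun h => ?_⟩
    have := congrArg Finset.card h
    rw [Finset.card_pair hij] at this
    omega
  have hsame : ∀ i ∈ S, ∀ j ∈ S, i ≠ j → d i = d j →
      L n (e i) (e j) = 0 ∨ L n (e i) (e j) = -(1 / 2) := by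
    intro i hi j hj hij hdd
    have h := hpair i hi j hj hij
    rcases hL.lab i j hij with h1 | h1 | h1 | h1 | h1
    · exact Or.inl h1
    · exact Or.inr h1
    · exact absurd hdd ((hd2 i j hij).2.1 h1)
    · exact absurd h1 (h6 i hi j hj)
    · linarith
  have hdiff : ∀ i ∈ S, ∀ j ∈ S, i ≠ j → d i ≠ d j →
      L n (e i) (e j) = 0 ∨ L n (e i) (e j) = -(√2 / 2) := by
    intro i hi j hj hij hdd
    have h := hpair i hi j hj hij
    rcases hL.lab i j hij with h1 | h1 | h1 | h1 | h1
    · exact Or.inl h1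
    · exact absurd ((hd2 i j hij).1 h1) hdd
    · exact Or.inr h1
    · exact absurd h1 (h6 i hi j hj)
    · linarith
  have hsplit : (S.filter fun i => d i = 1) ∪ (S.filter fun i => d i = 2) = S := by
    ext x
    simp only [Finset.mem_union, Finset.mem_filter]
    rcases hd x with h | h <;> tauto
  have hcard : S.card ≤ (S.filter fun i => d i = 1).card + (S.filter fun i => d i = 2).card := by
    conv_lhs => rw [← hsplit]
    exact Finset.card_union_le _ _
  obtain ⟨i, j, hij, e1⟩ := Finset.card_eq_two.mp (show (S.filter fun i => d i = 1).card = 2 by omega)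
  obtain ⟨k, l, hkl, e2⟩ := Finset.card_eq_two.mp (show (S.filter fun i => d i = 2).card = 2 by omega)
  have hi := Finset.mem_filter.mp (show i ∈ S.filter fun i => d i = 1 by rw [e1]; simp)
  have hj := Finset.mem_filter.mp (show j ∈ S.filter fun i => d i = 1 by rw [e1]; simp)
  have hk := Finset.mem_filter.mp (show k ∈ S.filter fun i => d i = 2 by rw [e2]; simp)
  have hl := Finset.mem_filter.mp (show l ∈ S.filter fun i => d i = 2 by rw [e2]; simp)
  have ne12 : ∀ x y, d x = 1 → d y = 2 → x ≠ y := by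
    rintro x y h1 h2 rfl
    omega
  have hik := ne12 i k hi.2 hk.2
  have hil := ne12 i l hi.2 hl.2
  have hjk := ne12 j k hj.2 hk.2
  have hjl := ne12 j l hj.2 hl.2
  have hSe : S = {i, j, k, l} := by
    rw [← hsplit, e1, e2]
    ext x
    simp only [Finset.mem_insert, Finset.mem_singleton, Finset.mem_union]
    tauto
  have q : Q e S i j k l := ⟨hij, hik, hil, hjk, hjl, hkl, hSe, hS⟩
  have pij := hsame i hi.1 j hj.1 hij (hi.2.trans hj.2.symm)
  have pkl := hsame k hk.1 l hl.1 hkl (hk.2.trans hl.2.symm)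
  have ne' : ∀ x y, d x = 1 → d y = 2 → d x ≠ d y := by
    intro x y h1 h2
    omega
  have pik := hdiff i hi.1 k hk.1 hik (ne' i k hi.2 hk.2)
  have pil := hdiff i hi.1 l hl.1 hil (ne' i l hi.2 hl.2)
  have pjk := hdiff j hj.1 k hk.1 hjk (ne' j k hj.2 hk.2)
  have pjl := hdiff j hj.1 l hl.1 hjl (ne' j l hj.2 hl.2)
  -- no two 4-edges at one element
  have no2 : ∀ x y z, x ∈ S → y ∈ S → z ∈ S → x ≠ y → x ≠ z → y ≠ z →
      L n (e x) (e y) = -(√2 / 2) → L n (e x) (e z) = -(√2 / 2) → False := by
    intro x y z hx hy hz hxy hxz hyz g1 g2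
    refine loc44 hP (S := {y, x, z}) (i := y) (j := x) (k := z) (by simp) (by simp) (by simp)
      hxy.symm hxz hyz (by rw [L_comm]; exact g1.le) g2.le (hS.2 _ ?_)
    rw [Finset.ssubset_iff_subset_ne]
    refine ⟨by
      intro t ht
      simp only [Finset.mem_insert, Finset.mem_singleton] at ht
      rcases ht with rfl | rfl | rfl <;> assumption, fun h => ?_⟩
    have := congrArg Finset.card h
    rw [Finset.card_eq_three.mpr ⟨y, x, z, hxy.symm, hyz, hxz, rfl⟩] at this
    omega
  have comm : ∀ x y, L n (e x) (e y) = -(√2 / 2) → L n (e y) (e x) = -(√2 / 2) := by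
    intro x y h
    rw [L_comm]
    exact h
  rcases pik with pik | pik
  · rcases pjl with pjl | pjl
    · rcases pil with pil | pil
      · rcases pjk with pjk | pjk
        · exact (q.none' pik pil pjk pjl).elim
        · exact (q.one hP pij pkl pjk pik pil pjl).elim
      · rcases pjk with pjk | pjk
        · exact (q.swap1.swap2.one hP (by rw [L_comm]; exact pij) (by rw [L_comm]; exact pkl)
            pil pjl pjk pik).elim
        · exact ⟨i, j, k, l, hij, hik, hil, hjk, hjl, hkl, hSe, q.two hn hP pij pkl pjk pil pik pjl⟩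
    · rcases pil with pil | pil
      · rcases pjk with pjk | pjk
        · exact (q.swap2.one hP pij (by rw [L_comm]; exact pkl) pjl pil pik pjk).elim
        · exact (no2 j k l hj.1 hk.1 hl.1 hjk hjl hkl pjk pjl).elim
      · exact (no2 l i j hl.1 hi.1 hj.1 hil.symm hjl.symm hij (comm _ _ pil) (comm _ _ pjl)).elim
  · rcases pil with pil | pil
    · rcases pjk with pjk | pjk
      · rcases pjl with pjl | pjl
        · exact (q.swap1.one hP (by rw [L_comm]; exact pij) pkl pik pjk pjl pil).elim
        · exact ⟨i, j, l, k, hij, hil, hik, hjl, hjk, hkl.symm, q.swap2.hS,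
            q.swap2.two hn hP pij (by rw [L_comm]; exact pkl) pjl pik pil pjk⟩
      · exact (no2 k i j hk.1 hi.1 hj.1 hik.symm hjk.symm hij (comm _ _ pik) (comm _ _ pjk)).elim
    · exact (no2 i k l hi.1 hk.1 hl.1 hik hil hkl pik pil).elim

end Pool.Agent.Work.MP_f6469e_gt
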