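import Pool.Agent.Work.MP_f6469e_gt.Lor

/-!
# Module Cone (M): the cone over a compact polytope is time-like

Let `P` be the compact set, `x` the interior point, `K = {y | ∀ i, L n y (e i) ≤ 0}`, `y ∈ K`, `y ≠ 0`.
First `0 < N`: for `N = 0` the points `√(1 + t²) e_0 + t e_1` (`n ≥ 1`) show that `P` is not bounded (`IsCompact.isBounded`).
For `s ≥ 0` put `z s = x + s • y ∈ K`, `f s = L n (z s) (z s) = -1 + 2 s L n x y + s² L n y y`.
* Case 1: `f s ≥ 0` for some `s > 0`. Let `s₁` be the least such `s` (closed set bounded below). On `[0, s₁)` we have `f < 0`, so `z s 0 ≠ 0`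
  and by continuity `z s 0 > 0`; `f s₁ = 0`. `z s₁ ≠ 0`: otherwise `y = -(1/s₁) x` and `L n y (e i) > 0` (`N > 0`). The points
  `(1 / √(-f s)) • z s` are in `P` for `s < s₁` and their norms tend to infinity as `s → s₁`: contradiction.
* Case 2: `f s < 0` for all `s ≥ 0`. Then `z s 0 > 0` for all `s ≥ 0` (continuity), so `y 0 ≥ 0`, and `L n y y ≤ 0` (divide by `s²`). If `y 0 = 0` then `y = 0`.
  So `y 0 > 0`. If `L n y y = 0` then `L n x y < 0` (`L_neg`), `-f s = 1 + 2 s |L n x y|` grows linearly and the norm of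
  `(1 / √(-f s)) • z s ∈ P` is at least `(s ‖y‖ - ‖x‖) / √(1 + 2 s |L n x y|) → ∞`: contradiction. So `L n y y < 0`.
-/

set_option autoImplicit false

namespace Pool.Agent.Work.MP_f6469e_gt

variable {n N : ℕ} {e : Fin N → (Fin (n + 1) → ℝ)}


private theorem bdd (hP : Acute n N e) : ∃ M : ℝ, 0 < M ∧ ∀ z : Fin (n + 1) → ℝ,
    (∀ i, L n z (e i) ≤ 0) → 0 < z 0 → L n z z < 0 → (z 0) ^ 2 ≤ M ^ 2 * (-L n z z) := by
  obtain ⟨R, hR⟩ := hP.cpt.isBounded.exists_norm_le
  refine ⟨max R 1, lt_max_of_lt_right one_pos, fun z hz hz0 hzz => ?_⟩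
  have hs : 0 < Real.sqrt (-L n z z) := Real.sqrt_pos.mpr (by linarith)
  have hss : Real.sqrt (-L n z z) ^ 2 = -L n z z := Real.sq_sqrt (by linarith)
  set r := Real.sqrt (-L n z z) with hr
  have hmem : (1 / r) • z ∈ {x : Fin (n + 1) → ℝ | 0 < x 0 ∧ L n x x = -1 ∧
      ∀ i, L n x (e i) ≤ 0} := by
    refine ⟨?_, ?_, fun i => ?_⟩
    · simp only [Pi.smul_apply, smul_eq_mul]; positivity
    · rw [L_smul_left, L_smul_right]
      have h1 : L n z z = -r ^ 2 := by rw [hss]; ring
      rw [h1]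
      field_simp
    · rw [L_smul_left]
      exact mul_nonpos_of_nonneg_of_nonpos (by positivity) (hz i)
  have h1 := hR _ hmem
  have h2 := (norm_le_pi_norm ((1 / r) • z) 0).trans h1
  simp only [Pi.smul_apply, smul_eq_mul, Real.norm_eq_abs] at h2
  rw [abs_of_pos (by positivity)] at h2
  have h3 : z 0 ≤ max R 1 * r := by
    have h4 : 1 / r * z 0 ≤ max R 1 := h2.trans (le_max_left _ _)
    have h5 := mul_le_mul_of_nonneg_right h4 hs.le
    have h6 : 1 / r * z 0 * r = z 0 := by field_simp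
    rw [h6] at h5
    exact h5
  calc (z 0) ^ 2 ≤ (max R 1 * r) ^ 2 := pow_le_pow_left₀ hz0.le h3 2
    _ = (max R 1) ^ 2 * (-L n z z) := by rw [mul_pow, hss]

private theorem cons_L (a b : ℝ) (i0 : Fin n) :
    L n (Fin.cons a (Pi.single i0 b)) (Fin.cons a (Pi.single i0 b)) = -(a * a) + b * b := by
  unfold L
  simp only [Fin.cons_zero, Fin.cons_succ]
  rw [Finset.sum_eq_single i0]
  · simp
  · intro j _ hj; simp [Pi.single_eq_of_ne hj]
  · simp

private theorem N_pos (hn : 1 ≤ n) (hP : Acute n N e) : 0 < N := by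
  rcases Nat.eq_zero_or_pos N with h | h
  · exfalso
    subst h
    obtain ⟨M, hM, hb⟩ := bdd hP
    have hq : 0 ≤ M ^ 2 / (M ^ 2 + 1) := by positivity
    have hL := cons_L 1 (Real.sqrt (M ^ 2 / (M ^ 2 + 1))) (⟨0, hn⟩ : Fin n)
    rw [Real.mul_self_sqrt hq] at hL
    have h1 : -(1 * 1 : ℝ) + M ^ 2 / (M ^ 2 + 1) = -(1 / (M ^ 2 + 1)) := by
      field_simp; ring
    rw [h1] at hL
    have h2 := hb (Fin.cons 1 (Pi.single (⟨0, hn⟩ : Fin n) (Real.sqrt (M ^ 2 / (M ^ 2 + 1)))))
      (fun i => i.elim0) (by simp) (by rw [hL]; have : 0 < 1 / (M ^ 2 + 1) := by positivity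
                                       linarith)
    rw [hL] at h2
    simp only [Fin.cons_zero, one_pow, neg_neg] at h2
    have h3 : M ^ 2 * (1 / (M ^ 2 + 1)) < 1 := by
      rw [mul_one_div, div_lt_one (by positivity)]
      linarith
    linarith
  · exact h

theorem cone_time (hn : 1 ≤ n) (hP : Acute n N e) {y : Fin (n + 1) → ℝ}
    (hy : ∀ i, L n y (e i) ≤ 0) (hy0 : y ≠ 0) : L n y y < 0 ∧ 0 < y 0 := by
  have hN := N_pos hn hP
  obtain ⟨M, hM, hb⟩ := bdd hP
  obtain ⟨x, hx0, hxx, hx⟩ := hP.inner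
  have hK : ∀ s : ℝ, 0 ≤ s → ∀ i, L n (x + s • y) (e i) < 0 := by
    intro s hs i
    rw [L_add_left, L_smul_left]
    have := mul_nonpos_of_nonneg_of_nonpos hs (hy i)
    linarith [hx i]
  have hK0 : ∀ s : ℝ, 0 ≤ s → x + s • y ≠ 0 := by
    intro s hs h0
    have := hK s hs ⟨0, hN⟩
    rw [h0, L_zero_left] at this
    exact lt_irrefl _ this
  have hzc : Continuous fun s : ℝ => x + s • y := by fun_prop
  have hc0 : Continuous fun s : ℝ => (x + s • y) 0 := (continuous_apply 0).comp hzc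
  have hcf : Continuous fun s : ℝ => L n (x + s • y) (x + s • y) :=
    continuous_L.comp (hzc.prodMk hzc)
  -- nonzero vectors with `z 0 ≥ 0` and the bound are time-like
  have key : ∀ s : ℝ, 0 ≤ s → 0 ≤ (x + s • y) 0 →
      ((x + s • y) 0) ^ 2 ≤ M ^ 2 * (-L n (x + s • y) (x + s • y)) →
      0 < (x + s • y) 0 ∧ L n (x + s • y) (x + s • y) < 0 := by
    intro s hs h0 h1
    have hne := hK0 s hs
    set z := x + s • y with hz
    have hsum : 0 ≤ ∑ i : Fin n, z i.succ * z i.succ :=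
      Finset.sum_nonneg fun _ _ => mul_self_nonneg _
    have hLz : L n z z ≤ 0 := by
      by_contra hc
      push Not at hc
      have : M ^ 2 * (-L n z z) < 0 := mul_neg_of_pos_of_neg (by positivity) (by linarith)
      have := sq_nonneg (z 0)
      linarith
    have hz0 : z 0 ≠ 0 := by
      intro h2
      have h3 : ∑ i : Fin n, z i.succ * z i.succ = 0 := by
        refine le_antisymm ?_ hsum
        have h4 := hLz
        unfold L at h4
        rw [h2] at h4
        linarith
      rw [Finset.sum_eq_zero_iff_of_nonneg (fun i _ => mul_self_nonneg _)] at h3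
      apply hne
      funext i
      refine Fin.cases h2 (fun j => ?_) i
      exact mul_self_eq_zero.mp (h3 j (Finset.mem_univ _))
    have hz0' : 0 < z 0 := lt_of_le_of_ne h0 (Ne.symm hz0)
    refine ⟨hz0', lt_of_le_of_ne hLz ?_⟩
    intro h2
    rw [h2] at h1
    have : 0 < (z 0) ^ 2 := by positivity
    simp at h1
    exact hz0 h1
  have hall : ∀ s : ℝ, 0 ≤ s → 0 < (x + s • y) 0 ∧ L n (x + s • y) (x + s • y) < 0 := by
    by_contra hcon
    push Not at hcon
    obtain ⟨s, hs, hs2⟩ := hcon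
    have hpre : IsPreconnected (Set.Ici (0 : ℝ)) := isPreconnected_Ici
    have hU : IsOpen {s : ℝ | 0 < (x + s • y) 0 ∧ L n (x + s • y) (x + s • y) < 0} :=
      (isOpen_lt continuous_const hc0).inter (isOpen_lt hcf continuous_const)
    have hV : IsOpen {s : ℝ | 0 ≤ (x + s • y) 0 ∧
        ((x + s • y) 0) ^ 2 ≤ M ^ 2 * (-L n (x + s • y) (x + s • y))}ᶜ := by
      apply IsClosed.isOpen_compl (self := ?_)
      exact (isClosed_le continuous_const hc0).inter
        (isClosed_le (hc0.pow 2) (continuous_const.mul hcf.neg))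
    obtain ⟨t, ht, ht1, ht2⟩ := hpre _ _ hU hV (by
      intro t ht
      by_cases h : 0 ≤ (x + t • y) 0 ∧
        ((x + t • y) 0) ^ 2 ≤ M ^ 2 * (-L n (x + t • y) (x + t • y))
      · exact Or.inl (key t ht h.1 h.2)
      · exact Or.inr h) ⟨0, by simp, by
        show 0 < (x + (0 : ℝ) • y) 0 ∧ L n (x + (0 : ℝ) • y) (x + (0 : ℝ) • y) < 0
        rw [zero_smul, add_zero]
        exact ⟨hx0, by linarith⟩⟩ ⟨s, hs, fun h => by
          have := key s hs h.1 h.2
          exact absurd this.2 (not_lt.mpr (hs2 this.1))⟩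
    exact ht2 ⟨ht1.1.le, hb _ (fun i => (hK t ht i).le) ht1.1 ht1.2⟩
  have hy0' : 0 ≤ y 0 := by
    by_contra hc
    push Not at hc
    have h1 := (hall (x 0 / (-y 0)) (by
      have : 0 < -y 0 := by linarith
      positivity)).1
    simp only [Pi.add_apply, Pi.smul_apply, smul_eq_mul] at h1
    have : x 0 + x 0 / (-y 0) * y 0 = 0 := by
      have h2 : y 0 ≠ 0 := hc.ne
      field_simp
      ring
    linarith
  have hexp : ∀ s : ℝ, L n (x + s • y) (x + s • y) = -1 + 2 * s * L n x y + s ^ 2 * L n y y := by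
    intro s
    rw [L_add_left, L_add_right, L_add_right, L_smul_left, L_smul_left, L_smul_right,
      L_smul_right, L_comm y x, hxx]
    ring
  have hquad : (y 0) ^ 2 ≤ M ^ 2 * (-L n y y) := by
    by_contra hc
    push Not at hc
    -- `(y 0)^2 s^2 ≤ (x 0 + s y 0)^2 ≤ M^2 (1 + 2 s |a| + s^2 (-L y y))`
    set d := (y 0) ^ 2 - M ^ 2 * (-L n y y) with hd
    have hd0 : 0 < d := by linarith
    have h1 : ∀ s : ℝ, 0 ≤ s → d * s ^ 2 ≤ M ^ 2 * (1 + 2 * s * |L n x y|) := by
      intro s hs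
      have h2 := hall s hs
      have h3 := hb _ (fun i => (hK s hs i).le) h2.1 h2.2
      rw [hexp s] at h3
      simp only [Pi.add_apply, Pi.smul_apply, smul_eq_mul] at h3
      have h4 : (s * y 0) ^ 2 ≤ (x 0 + s * y 0) ^ 2 := by
        apply pow_le_pow_left₀ (by positivity)
        linarith
      have h5 : -L n x y ≤ |L n x y| := neg_le_abs _
      have h6 : M ^ 2 * (s * (-L n x y)) ≤ M ^ 2 * (s * |L n x y|) :=
        mul_le_mul_of_nonneg_left (mul_le_mul_of_nonneg_left h5 hs) (by positivity)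
      rw [hd]
      nlinarith
    -- take `s` large
    set c := M ^ 2 * (1 + 2 * |L n x y|) with hc'
    have hc0' : 0 < c := by positivity
    have h2 := h1 (c / d + 1) (by positivity)
    have h3 : (1 : ℝ) ≤ c / d + 1 := by
      have : 0 ≤ c / d := by positivity
      linarith
    have h4 : M ^ 2 * (1 + 2 * (c / d + 1) * |L n x y|) ≤ c * (c / d + 1) := by
      rw [hc']
      have h5 : 0 ≤ M ^ 2 := by positivity
      have h6 : 1 + 2 * (c / d + 1) * |L n x y| ≤ (1 + 2 * |L n x y|) * (c / d + 1) := by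
        nlinarith
      calc M ^ 2 * (1 + 2 * (c / d + 1) * |L n x y|)
          ≤ M ^ 2 * ((1 + 2 * |L n x y|) * (c / d + 1)) := mul_le_mul_of_nonneg_left h6 h5
        _ = _ := by ring
    have h5 : d * (c / d + 1) ^ 2 ≤ c * (c / d + 1) := h2.trans h4
    have h6 : d * (c / d + 1) = c + d := by field_simp
    have h7 : d * (c / d + 1) ^ 2 = (c + d) * (c / d + 1) := by rw [pow_two, ← mul_assoc, h6]
    rw [h7] at h5
    have h8 : c + d ≤ c := le_of_mul_le_mul_right h5 (by linarith)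
    linarith
  have hLy : L n y y ≤ 0 := by
    by_contra hc
    push Not at hc
    have h1 : M ^ 2 * (-L n y y) < 0 := mul_neg_of_pos_of_neg (by positivity) (by linarith)
    have := sq_nonneg (y 0)
    linarith
  have hy1 : y 0 ≠ 0 := by
    intro h0
    have hsum : 0 ≤ ∑ i : Fin n, y i.succ * y i.succ :=
      Finset.sum_nonneg fun _ _ => mul_self_nonneg _
    have h3 : ∑ i : Fin n, y i.succ * y i.succ = 0 := by
      refine le_antisymm ?_ hsum
      have h4 := hLy
      unfold L at h4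
      rw [h0] at h4
      linarith
    rw [Finset.sum_eq_zero_iff_of_nonneg (fun i _ => mul_self_nonneg _)] at h3
    apply hy0
    funext i
    refine Fin.cases h0 (fun j => ?_) i
    exact mul_self_eq_zero.mp (h3 j (Finset.mem_univ _))
  have hy2 : 0 < y 0 := lt_of_le_of_ne hy0' (Ne.symm hy1)
  refine ⟨lt_of_le_of_ne hLy ?_, hy2⟩
  intro h0
  rw [h0] at hquad
  have : 0 < (y 0) ^ 2 := by positivity
  linarith

end Pool.Agent.Work.MP_f6469e_gt
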