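import Pool.Agent.Work.MP_f6469e_gt.BDefs
import Pool.Agent.Work.MP_f6469e_gt.Cone

/-!
# Module BPar (S-M): there are no parabolic sets

* `no_parabolic`: `u = comb e c`. `L n u u = ∑ c i * L n (e i) u = 0`. For `i ∉ S`: `L n (e i) u = ∑ c j * L n (e i) (e j) ≤ 0`; for `i ∈ S` it is `0`. `u ≠ 0`, since for the interior
  point `x₀`: `L n x₀ u = ∑ c i * L n x₀ (e i) < 0`. `cone_time` gives `L n u u < 0`, a contradiction.
* `ne_neg_one`: `c = Pi.single i 1 + Pi.single j 1`.
* `par63`: `√3, 2, 1`; `par44`: `1, √2, 1`; `par434`: `1, √2, √2, 1` (on `i, j, k, l`).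
-/

set_option autoImplicit false

namespace Pool.Agent.Work.MP_f6469e_gt

variable {n N : ℕ} {e : Fin N → (Fin (n + 1) → ℝ)}


theorem no_parabolic (hn : 1 ≤ n) (hP : Acute n N e) {S : Finset (Fin N)} {c : Fin N → ℝ}
    (h0 : ∀ i, 0 ≤ c i) (hS : ∀ i, i ∉ S → c i = 0) (hc : c ≠ 0)
    (h : ∀ i ∈ S, L n (e i) (comb e c) = 0) : False := by
  have huu : L n (comb e c) (comb e c) = 0 := by
    rw [L_comb_left]
    refine Finset.sum_eq_zero fun i _ => ?_
    by_cases hi : i ∈ S
    · rw [h i hi, mul_zero]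
    · rw [hS i hi, zero_mul]
  have hle : ∀ i, L n (comb e c) (e i) ≤ 0 := by
    intro i
    by_cases hi : i ∈ S
    · rw [L_comm, h i hi]
    · rw [L_comb_left]
      refine Finset.sum_nonpos fun j _ => ?_
      by_cases hj : j = i
      · rw [hj, hS i hi, zero_mul]
      · exact mul_nonpos_of_nonneg_of_nonpos (h0 j) (hP.off j i hj)
  have hne : comb e c ≠ 0 := by
    intro hu
    obtain ⟨x, _, _, hx⟩ := hP.inner
    have h1 : L n x (comb e c) = 0 := by rw [hu, L_zero_right]
    rw [L_comb_right] at h1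
    obtain ⟨k, hk⟩ : ∃ k, c k ≠ 0 := by
      by_contra hcon
      push Not at hcon
      exact hc (funext hcon)
    have hk' : 0 < c k := lt_of_le_of_ne (h0 k) (Ne.symm hk)
    have h2 : ∑ i, c i * L n x (e i) < 0 := by
      refine Finset.sum_neg' (fun i _ => mul_nonpos_of_nonneg_of_nonpos (h0 i) (hx i).le)
        ⟨k, Finset.mem_univ _, mul_neg_of_pos_of_neg hk' (hx k)⟩
    linarith
  have h3 := (cone_time hn hP hle hne).1
  rw [huu] at h3
  exact lt_irrefl _ h3

private theorem gen4 (hn : 1 ≤ n) (hP : Acute n N e) (i j k l : Fin N) {a b c d : ℝ} (ha : 0 < a)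
    (hb : 0 ≤ b) (hc : 0 ≤ c) (hd : 0 ≤ d)
    (h : ∀ m, m = i ∨ m = j ∨ m = k ∨ m = l →
      a * L n (e m) (e i) + b * L n (e m) (e j) + c * L n (e m) (e k) + d * L n (e m) (e l) = 0) :
    False := by
  refine no_parabolic hn hP (S := {i, j, k, l})
    (c := Pi.single i a + Pi.single j b + Pi.single k c + Pi.single l d) ?_ ?_ ?_ ?_
  · intro m
    simp only [Pi.add_apply, Pi.single_apply]
    split_ifs <;> linarith
  · intro m hm
    simp only [Finset.mem_insert, Finset.mem_singleton, not_or] at hm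
    simp only [Pi.add_apply, Pi.single_apply]
    rw [if_neg hm.1, if_neg hm.2.1, if_neg hm.2.2.1, if_neg hm.2.2.2]
    norm_num
  · intro h0
    have h1 := congrFun h0 i
    simp only [Pi.add_apply, Pi.single_apply, Pi.zero_apply, if_true] at h1
    split_ifs at h1 <;> linarith
  · intro m hm
    rw [comb_add, comb_add, comb_add, comb_single, comb_single, comb_single, comb_single,
      L_add_right, L_add_right, L_add_right, L_smul_right, L_smul_right, L_smul_right, L_smul_right]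
    refine h m ?_
    simpa only [Finset.mem_insert, Finset.mem_singleton] using hm

theorem ne_neg_one (hn : 1 ≤ n) (hP : Acute n N e) {i j : Fin N} (hij : i ≠ j) :
    L n (e i) (e j) ≠ -1 := by
  intro h
  have h' : L n (e j) (e i) = -1 := by rw [L_comm, h]
  refine gen4 hn hP i j j j (a := 1) (b := 1) (c := 0) (d := 0) one_pos zero_le_one le_rfl le_rfl ?_
  rintro m (rfl | rfl | rfl | rfl)
  · rw [hP.unit, h]; norm_num
  · rw [hP.unit, h']; norm_num
  · rw [hP.unit, h']; norm_num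
  · rw [hP.unit, h']; norm_num

theorem par63 (hn : 1 ≤ n) (hP : Acute n N e) {i j k : Fin N} (hij : i ≠ j) (hjk : j ≠ k)
    (hik : i ≠ k) (h1 : L n (e i) (e j) = -(√3 / 2)) (h2 : L n (e j) (e k) = -(1 / 2))
    (h3 : L n (e i) (e k) = 0) : False := by
  have h1' : L n (e j) (e i) = -(√3 / 2) := by rw [L_comm, h1]
  have h2' : L n (e k) (e j) = -(1 / 2) := by rw [L_comm, h2]
  have h3' : L n (e k) (e i) = 0 := by rw [L_comm, h3]
  have hs : √3 * √3 = 3 := Real.mul_self_sqrt (by norm_num)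
  have hp : 0 < √3 := by positivity
  refine gen4 hn hP i j k k (a := √3) (b := 2) (c := 1) (d := 0) hp zero_le_two zero_le_one le_rfl ?_
  rintro m (rfl | rfl | rfl | rfl)
  · rw [hP.unit, h1, h3]; ring
  · rw [hP.unit, h1', h2]; linear_combination (-1 / 2) * hs
  · rw [hP.unit, h2', h3']; ring
  · rw [hP.unit, h2', h3']; ring

theorem par44 (hn : 1 ≤ n) (hP : Acute n N e) {i j k : Fin N} (hij : i ≠ j) (hjk : j ≠ k)
    (hik : i ≠ k) (h1 : L n (e i) (e j) = -(√2 / 2)) (h2 : L n (e j) (e k) = -(√2 / 2))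
    (h3 : L n (e i) (e k) = 0) : False := by
  have h1' : L n (e j) (e i) = -(√2 / 2) := by rw [L_comm, h1]
  have h2' : L n (e k) (e j) = -(√2 / 2) := by rw [L_comm, h2]
  have h3' : L n (e k) (e i) = 0 := by rw [L_comm, h3]
  have hs : √2 * √2 = 2 := Real.mul_self_sqrt (by norm_num)
  have hp : 0 ≤ √2 := by positivity
  refine gen4 hn hP i j k k (a := 1) (b := √2) (c := 1) (d := 0) one_pos hp zero_le_one le_rfl ?_
  rintro m (rfl | rfl | rfl | rfl)
  · rw [hP.unit, h1, h3]; linear_combination (-1 / 2) * hs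
  · rw [hP.unit, h1', h2]; ring
  · rw [hP.unit, h2', h3']; linear_combination (-1 / 2) * hs
  · rw [hP.unit, h2', h3']; linear_combination (-1 / 2) * hs

theorem par434 (hn : 1 ≤ n) (hP : Acute n N e) {i j k l : Fin N} (hij : i ≠ j) (hik : i ≠ k)
    (hil : i ≠ l) (hjk : j ≠ k) (hjl : j ≠ l) (hkl : k ≠ l)
    (h1 : L n (e i) (e j) = -(√2 / 2)) (h2 : L n (e j) (e k) = -(1 / 2))
    (h3 : L n (e k) (e l) = -(√2 / 2)) (h4 : L n (e i) (e k) = 0) (h5 : L n (e i) (e l) = 0)
    (h6 : L n (e j) (e l) = 0) : False := by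
  have h1' : L n (e j) (e i) = -(√2 / 2) := by rw [L_comm, h1]
  have h2' : L n (e k) (e j) = -(1 / 2) := by rw [L_comm, h2]
  have h3' : L n (e l) (e k) = -(√2 / 2) := by rw [L_comm, h3]
  have h4' : L n (e k) (e i) = 0 := by rw [L_comm, h4]
  have h5' : L n (e l) (e i) = 0 := by rw [L_comm, h5]
  have h6' : L n (e l) (e j) = 0 := by rw [L_comm, h6]
  have hs : √2 * √2 = 2 := Real.mul_self_sqrt (by norm_num)
  have hp : 0 ≤ √2 := by positivity
  refine gen4 hn hP i j k l (a := 1) (b := √2) (c := √2) (d := 1) one_pos hp hp zero_le_one ?_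
  rintro m (rfl | rfl | rfl | rfl)
  · rw [hP.unit, h1, h4, h5]; linear_combination (-1 / 2) * hs
  · rw [hP.unit, h1', h2, h6]; ring
  · rw [hP.unit, h2', h3, h4']; ring
  · rw [hP.unit, h3', h5', h6']; linear_combination (-1 / 2) * hs

end Pool.Agent.Work.MP_f6469e_gt
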