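import Pool.Agent.Work.MP_f6469e_gt.BMin
import Pool.Agent.Work.MP_f6469e_gt.BLoc
import Pool.Agent.Work.MP_f6469e_gt.BSm
import Pool.Agent.Work.MP_f6469e_gt.BPar

/-!
# Module BCl6 (M): Lanner sets with a 6-edge

`S` has at least three elements (`{i, j}` is elliptic by `ell_pair`, `√3/2 < 1`, so `S ≠ {i, j}`). Some `k ∈ S`, `k ≠ i, j` is joined to `i` or `j`: otherwise `S = {i, j} ∪ (S \ {i, j})` is orthogonal, both
parts are proper subsets (the second one is proper, the first one too), so `S` is elliptic by `ell_union`. All pairs in `S` are elliptic (proper subsets), so no product in `S` is `< -1`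
(then `c = ε_x + ε_y` has norm `< 0`). By symmetry (exchange `i` and `j`, `L_comm`) let `L_jk < 0`, so `L_jk ≤ -1/2`, and `{i, j, k}` is not elliptic by `loc6`, so `S = {i, j, k}` (`MinNon.eq_of_not_ell`).
* `L_ik = 0`: `L_jk = -1/2` contradicts `par63`; `L_jk = -√2/2`: `Tri3 k j i` (first case); `L_jk = -√3/2`: second case.
* `L_ik ≠ 0`: a triangle. `cls3` (two values, different exactly for the 6-edges): exactly two of the three edges are 6-edges (not three: `d i ≠ d j ≠ d k ≠ d i` is impossible with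
  two values; not one). The third edge is a 3-edge by `cls2` (a 4-edge would give `d` different for exactly one of the three pairs). This is the last case of `Tri3`.
-/

set_option autoImplicit false

namespace Pool.Agent.Work.MP_f6469e_gt

variable {n N : ℕ} {e : Fin N → (Fin (n + 1) → ℝ)}

private theorem cl6_pair (hP : Acute n N e) {x y : Fin N} (hxy : x ≠ y) (h : Ell e {x, y}) :
    -1 < L n (e x) (e y) := by
  have h1 := h (Pi.single x 1 + Pi.single y 1) (by
    intro i hi
    simp only [Finset.mem_insert, Finset.mem_singleton, not_or] at hi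
    simp [Pi.single_eq_of_ne hi.1, Pi.single_eq_of_ne hi.2]) (by
    intro h0
    have h1 := congrFun h0 x
    simp [Pi.single_eq_of_ne hxy] at h1)
  rw [comb_add, comb_single, comb_single, one_smul, one_smul, L_add_left, L_add_right,
    L_add_right, hP.unit, hP.unit, L_comm (e y) (e x)] at h1
  linarith

private theorem cl6_sqrt3 : √3 / 2 < 1 ∧ 1 / 2 < √3 / 2 := by
  have h1 : √3 < 2 := by
    rw [show (2 : ℝ) = √4 by
      rw [show (4 : ℝ) = 2 ^ 2 by norm_num, Real.sqrt_sq (by norm_num)]]
    exact Real.sqrt_lt_sqrt (by norm_num) (by norm_num)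
  have h2 : 1 < √3 := by
    rw [show (1 : ℝ) = √1 by simp]
    exact Real.sqrt_lt_sqrt (by norm_num) (by norm_num)
  constructor <;> linarith

private theorem cl6_sqrt2 : √2 / 2 < √3 / 2 ∧ 1 / 2 < √2 / 2 := by
  have h1 : √2 < √3 := Real.sqrt_lt_sqrt (by norm_num) (by norm_num)
  have h2 : 1 < √2 := by
    rw [show (1 : ℝ) = √1 by simp]
    exact Real.sqrt_lt_sqrt (by norm_num) (by norm_num)
  constructor <;> linarith

private theorem cl6_main (hn : 1 ≤ n) (hL : Lab n N e) {S : Finset (Fin N)} (hS : MinNon e S)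
    {i j k : Fin N} (hi : i ∈ S) (hj : j ∈ S) (hk : k ∈ S) (hij : i ≠ j) (hjk : j ≠ k)
    (hik : i ≠ k) (h6 : L n (e i) (e j) = -(√3 / 2)) (hlt : L n (e j) (e k) < 0) :
    ∃ i j k, i ≠ j ∧ j ≠ k ∧ i ≠ k ∧ S = {i, j, k} ∧ Tri3 e i j k := by
  have hP := hL.ac
  obtain ⟨s31, s32⟩ := cl6_sqrt3
  obtain ⟨s21, s22⟩ := cl6_sqrt2
  have hcard : 3 ≤ S.card := by
    have h1 : ({i, j, k} : Finset (Fin N)) ⊆ S := by
      intro z hz
      simp only [Finset.mem_insert, Finset.mem_singleton] at hz
      rcases hz with rfl | rfl | rfl <;> assumption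
    have h2 := Finset.card_le_card h1
    rwa [Finset.card_eq_three.2 ⟨i, j, k, hij, hik, hjk, rfl⟩] at h2
  have hgt : ∀ x ∈ S, ∀ y ∈ S, x ≠ y → -1 < L n (e x) (e y) := by
    intro x hx y hy hxy
    apply cl6_pair hP hxy
    apply hS.2
    rw [Finset.ssubset_iff_subset_ne]
    constructor
    · intro z hz
      simp only [Finset.mem_insert, Finset.mem_singleton] at hz
      rcases hz with rfl | rfl <;> assumption
    · intro h
      rw [← h, Finset.card_pair hxy] at hcard
      omega
  have hlab : ∀ x ∈ S, ∀ y ∈ S, x ≠ y → L n (e x) (e y) = 0 ∨ L n (e x) (e y) = -(1 / 2) ∨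
      L n (e x) (e y) = -(√2 / 2) ∨ L n (e x) (e y) = -(√3 / 2) := by
    intro x hx y hy hxy
    rcases hL.lab x y hxy with h | h | h | h | h
    · exact Or.inl h
    · exact Or.inr (Or.inl h)
    · exact Or.inr (Or.inr (Or.inl h))
    · exact Or.inr (Or.inr (Or.inr h))
    · exact absurd (hgt x hx y hy hxy) (by linarith)
  have hjk' : L n (e j) (e k) = -(1 / 2) ∨ L n (e j) (e k) = -(√2 / 2) ∨
      L n (e j) (e k) = -(√3 / 2) := by
    rcases hlab j hj k hk hjk with h | h
    · rw [h] at hlt
      exact absurd hlt (lt_irrefl _)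
    · exact h
  have hle : L n (e j) (e k) ≤ -(1 / 2) := by
    rcases hjk' with h | h | h <;> rw [h] <;> linarith
  have hne : ¬ Ell e {i, j, k} := loc6 hP (by simp) (by simp) (by simp) hij hjk hik h6.le hle
  have hSeq : ({i, j, k} : Finset (Fin N)) = S := hS.eq_of_not_ell hne (by
    intro z hz
    simp only [Finset.mem_insert, Finset.mem_singleton] at hz
    rcases hz with rfl | rfl | rfl <;> assumption)
  have hji6 : L n (e j) (e i) = -(√3 / 2) := by rw [L_comm, h6]
  rcases hlab i hi k hk hik with h0 | hik'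
  · rcases hjk' with h | h | h
    · exact (par63 hn hP hij hjk hik h6 h h0).elim
    · refine ⟨k, j, i, hjk.symm, hij.symm, hik.symm, ?_, Or.inl ⟨?_, hji6, ?_⟩⟩
      · rw [← hSeq]
        ext z
        simp only [Finset.mem_insert, Finset.mem_singleton]
        tauto
      · rw [L_comm, h]
      · rw [L_comm, h0]
    · exact ⟨i, j, k, hij, hjk, hik, hSeq.symm, Or.inr (Or.inl ⟨h6, h, h0⟩)⟩
  · obtain ⟨d3, hd3, hc3⟩ := hL.cls3
    obtain ⟨d2, hd2, hc2⟩ := hL.cls2
    have e3ij := (hc3 i j hij).2.2 h6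
    have e2ij := (hc2 i j hij).2.2 h6
    have hd3i := hd3 i
    have hd3j := hd3 j
    have hd3k := hd3 k
    rcases hjk' with hb | hb | hb
    · -- `jk` is a 3-edge
      have e3 := (hc3 j k hjk).1 hb
      rcases hik' with ha | ha | ha
      · have := (hc3 i k hik).1 ha
        omega
      · have := (hc3 i k hik).2.1 ha
        omega
      · refine ⟨j, k, i, hjk, hik.symm, hij.symm, ?_, Or.inr (Or.inr (Or.inr ⟨hb, ?_, hji6⟩))⟩
        · rw [← hSeq]
          ext z
          simp only [Finset.mem_insert, Finset.mem_singleton]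
          tauto
        · rw [L_comm, ha]
    · -- `jk` is a 4-edge
      have e3 := (hc3 j k hjk).2.1 hb
      have e2 := (hc2 j k hjk).2.1 hb
      rcases hik' with ha | ha | ha
      · have := (hc3 i k hik).1 ha
        omega
      · have := (hc3 i k hik).2.1 ha
        omega
      · have := (hc2 i k hik).2.2 ha
        omega
    · -- `jk` is a 6-edge
      have e3 := (hc3 j k hjk).2.2 hb
      have e2 := (hc2 j k hjk).2.2 hb
      rcases hik' with ha | ha | ha
      · refine ⟨i, k, j, hik, hjk.symm, hij, ?_, Or.inr (Or.inr (Or.inr ⟨ha, ?_, h6⟩))⟩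
        · rw [← hSeq]
          ext z
          simp only [Finset.mem_insert, Finset.mem_singleton]
          tauto
        · rw [L_comm, hb]
      · have := (hc2 i k hik).2.1 ha
        omega
      · have := (hc3 i k hik).2.2 ha
        omega

theorem clas6 (hn : 1 ≤ n) (hL : Lab n N e) {S : Finset (Fin N)} (hS : MinNon e S) {i j : Fin N}
    (hi : i ∈ S) (hj : j ∈ S) (hij : i ≠ j) (h6 : L n (e i) (e j) = -(√3 / 2)) :
    ∃ i j k, i ≠ j ∧ j ≠ k ∧ i ≠ k ∧ S = {i, j, k} ∧ Tri3 e i j k := by
  classical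
  have hP := hL.ac
  obtain ⟨s31, s32⟩ := cl6_sqrt3
  have hEij : Ell e {i, j} := ell_pair hP hij (by rw [h6]; linarith)
  have hji6 : L n (e j) (e i) = -(√3 / 2) := by rw [L_comm, h6]
  have hsub : ({i, j} : Finset (Fin N)) ⊆ S := by
    intro z hz
    simp only [Finset.mem_insert, Finset.mem_singleton] at hz
    rcases hz with rfl | rfl <;> assumption
  by_cases hex : ∃ k ∈ S, k ≠ i ∧ k ≠ j ∧ (L n (e j) (e k) < 0 ∨ L n (e i) (e k) < 0)
  · obtain ⟨k, hk, hki, hkj, h | h⟩ := hex
    · exact cl6_main hn hL hS hi hj hk hij hkj.symm hki.symm h6 h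
    · exact cl6_main hn hL hS hj hi hk hij.symm hki.symm hkj.symm hji6 h
  · exfalso
    push Not at hex
    have hB : Ell e (S \ {i, j}) := by
      apply hS.2
      rw [Finset.ssubset_iff_subset_ne]
      refine ⟨Finset.sdiff_subset, ?_⟩
      intro h
      have h1 : i ∈ S \ {i, j} := by rw [h]; exact hi
      simp at h1
    have hU := ell_union hEij hB Finset.disjoint_sdiff (by
      intro a ha b hb
      rw [Finset.mem_sdiff] at hb
      simp only [Finset.mem_insert, Finset.mem_singleton, not_or] at ha hb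
      obtain ⟨hbS, hbi, hbj⟩ := hb
      have h1 := hex b hbS hbi hbj
      rcases ha with rfl | rfl
      · exact le_antisymm (hP.off _ _ (Ne.symm hbi)) h1.2
      · exact le_antisymm (hP.off _ _ (Ne.symm hbj)) h1.1)
    rw [Finset.union_sdiff_of_subset hsub] at hU
    exact hS.1 hU

end Pool.Agent.Work.MP_f6469e_gt
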