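import Pool.Agent.Work.MP_f6469e_gt.BCl6
import Pool.Agent.Work.MP_f6469e_gt.BCl3
import Pool.Agent.Work.MP_f6469e_gt.BCl4

/-!
# Module BClas (S): the list of Lanner sets

`2 ≤ S.card` (`MinNon.two_le`). If `S = {i, j}`: by `ell_pair` the product is `≤ -1`, so it is `< -1` by `hL.lab` (all other values are `> -1`). If `S` has at least three elements: `clas6` if there is a 6-edge,
otherwise `clas3` or `clas4`.
-/

set_option autoImplicit false

namespace Pool.Agent.Work.MP_f6469e_gt

variable {n N : ℕ} {e : Fin N → (Fin (n + 1) → ℝ)}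


theorem clas (hn : 1 ≤ n) (hL : Lab n N e) {S : Finset (Fin N)} (hS : MinNon e S) :
    (∃ i j, i ≠ j ∧ S = {i, j} ∧ L n (e i) (e j) < -1) ∨
    (∃ i j k, i ≠ j ∧ j ≠ k ∧ i ≠ k ∧ S = {i, j, k} ∧ Tri3 e i j k) ∨
    ∃ i j k l, i ≠ j ∧ i ≠ k ∧ i ≠ l ∧ j ≠ k ∧ j ≠ l ∧ k ≠ l ∧ S = {i, j, k, l} ∧
      Sq4 e i j k l := by
  classical
  have hP := hL.ac
  have h2 := MinNon.two_le hP.unit hS
  rcases Nat.lt_or_ge S.card 3 with h3 | h3
  · left
    obtain ⟨i, j, hij, hSe⟩ := Finset.card_eq_two.1 (show S.card = 2 by omega)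
    refine ⟨i, j, hij, hSe, ?_⟩
    have hle : L n (e i) (e j) ≤ -1 := by
      by_contra hlt
      apply hS.1
      rw [hSe]
      exact ell_pair hP hij (not_le.1 hlt)
    have h1 : √3 < 2 := by
      rw [show (2 : ℝ) = √4 by
        rw [show (4 : ℝ) = 2 ^ 2 by norm_num, Real.sqrt_sq (by norm_num)]]
      exact Real.sqrt_lt_sqrt (by norm_num) (by norm_num)
    have h2' : √2 < √3 := Real.sqrt_lt_sqrt (by norm_num) (by norm_num)
    rcases hL.lab i j hij with h | h | h | h | h
    · rw [h] at hle; linarith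
    · rw [h] at hle; linarith
    · rw [h] at hle; linarith
    · rw [h] at hle; linarith
    · exact h
  · by_cases h6 : ∃ i ∈ S, ∃ j ∈ S, L n (e i) (e j) = -(√3 / 2)
    · obtain ⟨i, hi, j, hj, hij6⟩ := h6
      have hij : i ≠ j := by
        rintro rfl
        rw [hP.unit] at hij6
        have := Real.sqrt_nonneg 3
        linarith
      right; left
      exact clas6 hn hL hS hi hj hij hij6
    · push Not at h6
      rcases Nat.lt_or_ge S.card 4 with h4 | h4
      · right; left
        exact clas3 hn hL hS (by omega) h6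
      · right; right
        exact clas4 hn hL hS h4 h6

end Pool.Agent.Work.MP_f6469e_gt
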