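import Pool.Agent.Work.MP_f6469e_gt.Defs

/-!
Definitions for the local part: minimal non-elliptic sets (Lanner diagrams), labelled polytopes, corners which carry a charge.
-/

set_option autoImplicit false

namespace Pool.Agent.Work.MP_f6469e_gt

variable {n N : ℕ} {e : Fin N → (Fin (n + 1) → ℝ)}


/-- minimal non-elliptic set (Lanner set) -/
def MinNon (e : Fin N → (Fin (n + 1) → ℝ)) (S : Finset (Fin N)) : Prop :=
  ¬ Ell e S ∧ ∀ T, T ⊂ S → Ell e T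

/-- The dihedral angles are `π/2, π/3, π/4, π/6` and the two class functions exist (they come from the rational cyclic products). -/
structure Lab (n N : ℕ) (e : Fin N → (Fin (n + 1) → ℝ)) : Prop where
  ac : Acute n N e
  lab : ∀ i j, i ≠ j → L n (e i) (e j) = 0 ∨ L n (e i) (e j) = -(1 / 2) ∨
    L n (e i) (e j) = -(√2 / 2) ∨ L n (e i) (e j) = -(√3 / 2) ∨ L n (e i) (e j) < -1
  cls2 : ∃ d : Fin N → ℕ, (∀ i, d i = 1 ∨ d i = 2) ∧ ∀ i j, i ≠ j →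
    (L n (e i) (e j) = -(1 / 2) → d i = d j) ∧ (L n (e i) (e j) = -(√2 / 2) → d i ≠ d j) ∧
    (L n (e i) (e j) = -(√3 / 2) → d i = d j)
  cls3 : ∃ d : Fin N → ℕ, (∀ i, d i = 1 ∨ d i = 2) ∧ ∀ i j, i ≠ j →
    (L n (e i) (e j) = -(1 / 2) → d i = d j) ∧ (L n (e i) (e j) = -(√2 / 2) → d i = d j) ∧
    (L n (e i) (e j) = -(√3 / 2) → d i ≠ d j)

/-- The Lanner triples (4,6,0), (6,6,0), (3,4,4), (3,6,6); labels of `ij`, `jk`, `ik`. -/
def Tri3 (e : Fin N → (Fin (n + 1) → ℝ)) (i j k : Fin N) : Prop :=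
  (L n (e i) (e j) = -(√2 / 2) ∧ L n (e j) (e k) = -(√3 / 2) ∧ L n (e i) (e k) = 0) ∨
  (L n (e i) (e j) = -(√3 / 2) ∧ L n (e j) (e k) = -(√3 / 2) ∧ L n (e i) (e k) = 0) ∨
  (L n (e i) (e j) = -(1 / 2) ∧ L n (e j) (e k) = -(√2 / 2) ∧ L n (e i) (e k) = -(√2 / 2)) ∨
  (L n (e i) (e j) = -(1 / 2) ∧ L n (e j) (e k) = -(√3 / 2) ∧ L n (e i) (e k) = -(√3 / 2))

/-- The Lanner square (3,4,3,4). -/
def Sq4 (e : Fin N → (Fin (n + 1) → ℝ)) (i j k l : Fin N) : Prop :=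
  L n (e i) (e j) = -(1 / 2) ∧ L n (e j) (e k) = -(√2 / 2) ∧ L n (e k) (e l) = -(1 / 2) ∧
  L n (e l) (e i) = -(√2 / 2) ∧ L n (e i) (e k) = 0 ∧ L n (e j) (e l) = 0

/-- The pair `p` of the vertex `D` carries a charge: its two elements are joined, or they are at distance two by a 3-edge and a 4-edge. -/
def Good (e : Fin N → (Fin (n + 1) → ℝ)) (D p : Finset (Fin N)) : Prop :=
  ∃ a b, a ≠ b ∧ p = {a, b} ∧ (L n (e a) (e b) < 0 ∨
    ∃ t ∈ D, L n (e a) (e t) = -(1 / 2) ∧ L n (e t) (e b) = -(√2 / 2))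

end Pool.Agent.Work.MP_f6469e_gt
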