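import Pool.Agent.Work.MP_f6469e_gt.BTime

/-!
# Module BInt (S-M): integral coefficients

Take `c` from `exists_time`. For `M : ℕ`, `M ≥ 1` let `z_M i = ⌊M * c i / s i⌋₊`. Then `s i * z_M i / M → c i` as `M → ∞`, and `L n (comb e c) (comb e c)` is continuous in `c`
(`L_comb_comb`: a quadratic polynomial), so for a large `M` the vector `s i * z_M i / M` has negative norm; multiply with `M`. If `i ∉ S` then `c i = 0`, `z_M i = 0`.
-/

set_option autoImplicit false

namespace Pool.Agent.Work.MP_f6469e_gt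

variable {n N : ℕ} {e : Fin N → (Fin (n + 1) → ℝ)}


theorem exists_int (hn : 1 ≤ n) (hP : Acute n N e) {S : Finset (Fin N)} (hS : ¬ Ell e S)
    (s : Fin N → ℝ) (hs : ∀ i, 0 < s i) : ∃ z : Fin N → ℕ, (∀ i, i ∉ S → z i = 0) ∧
      L n (comb e fun i => s i * (z i : ℝ)) (comb e fun i => s i * (z i : ℝ)) < 0 := by
  obtain ⟨c, hc0, hcS, hc⟩ := exists_time hn hP hS
  have hcont : Continuous fun c : Fin N → ℝ => L n (comb e c) (comb e c) := by
    unfold L comb
    fun_prop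
  have hlim : Filter.Tendsto (fun M : ℕ => fun i : Fin N =>
      s i * ((⌊c i / s i * (M : ℝ)⌋₊ : ℝ) / (M : ℝ))) Filter.atTop (nhds c) := by
    rw [tendsto_pi_nhds]
    intro i
    have h1 : Filter.Tendsto (fun M : ℕ => ((⌊c i / s i * (M : ℝ)⌋₊ : ℝ) / (M : ℝ)))
        Filter.atTop (nhds (c i / s i)) :=
      (tendsto_nat_floor_mul_div_atTop (div_nonneg (hc0 i) (hs i).le)).comp
        tendsto_natCast_atTop_atTop
    have h2 := h1.const_mul (s i)
    rwa [mul_div_cancel₀ _ (hs i).ne'] at h2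
  have hlim2 := (hcont.tendsto c).comp hlim
  have hev := hlim2.eventually (gt_mem_nhds hc)
  obtain ⟨M, hM, hM1⟩ := (hev.and (Filter.eventually_ge_atTop 1)).exists
  have hM0 : (0 : ℝ) < M := by exact_mod_cast hM1
  refine ⟨fun i => ⌊c i / s i * (M : ℝ)⌋₊, ?_, ?_⟩
  · intro i hi
    simp [hcS i hi]
  · have h3 : (fun i => s i * ((⌊c i / s i * (M : ℝ)⌋₊ : ℕ) : ℝ)) =
        (M : ℝ) • (fun i : Fin N => s i * ((⌊c i / s i * (M : ℝ)⌋₊ : ℝ) / (M : ℝ))) := by
      funext i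
      simp only [Pi.smul_apply, smul_eq_mul]
      field_simp
    rw [h3, comb_smul, L_smul_left, L_smul_right]
    have h4 : L n (comb e fun i : Fin N => s i * ((⌊c i / s i * (M : ℝ)⌋₊ : ℝ) / (M : ℝ)))
        (comb e fun i : Fin N => s i * ((⌊c i / s i * (M : ℝ)⌋₊ : ℝ) / (M : ℝ))) < 0 := hM
    exact mul_neg_of_pos_of_neg hM0 (mul_neg_of_pos_of_neg hM0 h4)

end Pool.Agent.Work.MP_f6469e_gt
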