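import Pool.Agent.Work.MP_f6469e_gt.BDefs

/-!
# Module BMin (S): minimal non-elliptic sets

* `exists_minNon`: a subset of `S` of least cardinality which is not elliptic.
* `MinNon.eq_of_not_ell`: a proper subset is elliptic.
* `exists_minNon_pair`: take `exists_minNon`; if `a ∉ S'` then `S' ⊆ insert c T` is elliptic by `Ell.mono`; the same for `c`.
* `MinNon.two_le`: the empty set is elliptic (`Ell.empty`); for `S = {i}` and `c` supported on `S`: `comb e c = c i • e i`, the norm is `c i ^ 2`.
-/

set_option autoImplicit false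

namespace Pool.Agent.Work.MP_f6469e_gt

variable {n N : ℕ} {e : Fin N → (Fin (n + 1) → ℝ)}


theorem exists_minNon {S : Finset (Fin N)} (h : ¬ Ell e S) : ∃ T, T ⊆ S ∧ MinNon e T := by
  classical
  induction S using Finset.strongInduction with
  | H S ih =>
    by_cases h1 : ∃ T, T ⊂ S ∧ ¬ Ell e T
    · obtain ⟨T, hT, hT'⟩ := h1
      obtain ⟨U, hU, hU'⟩ := ih T hT hT'
      exact ⟨U, hU.trans hT.subset, hU'⟩
    · push Not at h1
      exact ⟨S, subset_rfl, h, h1⟩

theorem MinNon.eq_of_not_ell {S T : Finset (Fin N)} (h : MinNon e S) (hT : ¬ Ell e T)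
    (hTS : T ⊆ S) : T = S := by
  by_contra hne
  exact hT (h.2 T (Finset.ssubset_iff_subset_ne.2 ⟨hTS, hne⟩))

theorem exists_minNon_pair {T : Finset (Fin N)} {a c : Fin N}
    (h : ¬ Ell e (insert a (insert c T))) (ha : Ell e (insert a T)) (hc : Ell e (insert c T)) :
    ∃ S, S ⊆ insert a (insert c T) ∧ a ∈ S ∧ c ∈ S ∧ MinNon e S := by
  obtain ⟨S, hS, hM⟩ := exists_minNon h
  refine ⟨S, hS, ?_, ?_, hM⟩
  · by_contra haS
    apply hM.1
    refine hc.mono fun x hx => ?_
    rcases Finset.mem_insert.1 (hS hx) with rfl | h1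
    · exact absurd hx haS
    · exact h1
  · by_contra hcS
    apply hM.1
    refine ha.mono fun x hx => ?_
    rcases Finset.mem_insert.1 (hS hx) with rfl | h1
    · exact Finset.mem_insert_self _ _
    · rcases Finset.mem_insert.1 h1 with rfl | h2
      · exact absurd hx hcS
      · exact Finset.mem_insert_of_mem h2

theorem MinNon.two_le (hu : ∀ i, L n (e i) (e i) = 1) {S : Finset (Fin N)} (h : MinNon e S) :
    2 ≤ S.card := by
  classical
  by_contra hlt
  have hlt' : S.card < 2 := not_le.1 hlt
  have h01 : S.card = 0 ∨ S.card = 1 := by omega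
  rcases h01 with h0 | h1
  · rw [Finset.card_eq_zero] at h0
    subst h0
    exact h.1 (Ell.empty e)
  · obtain ⟨i, rfl⟩ := Finset.card_eq_one.1 h1
    apply h.1
    intro c hc h0
    have hc' : c = Pi.single i (c i) := by
      funext j
      by_cases hj : j = i
      · subst hj; simp
      · rw [Pi.single_eq_of_ne hj]
        exact hc j (by simpa using hj)
    rw [hc', comb_single, L_smul_left, L_smul_right, hu i, mul_one]
    have hci : c i ≠ 0 := by
      intro hci
      apply h0
      rw [hc', hci]
      simp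
    exact mul_self_pos.2 hci

end Pool.Agent.Work.MP_f6469e_gt
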