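import Pool.Agent.Work.MP_f6469e_gt.BInt
import Pool.Agent.Work.MP_f6469e_gt.BMin

/-!
# Module BKer (M): a Lanner set with at least three elements has at most two short elements

Scales `s i = √(d i)` on `S` (`1` elsewhere). For `z : Fin N → ℤ` supported on `S` let `q z = L n (comb e (s z)) (comb e (s z)) = ∑ d i * z i ^ 2 + ∑_{i ≠ j} z i z j √(d i) √(d j) L_ij`; this is an
integer: the pair `{i, j}` contributes `2 √(d i) √(d j) L_ij z i z j`, an integer by `hm`. Let `∂ z k = 2 s k * L n (e k) (comb e (s z)) = 2 d k z k + ∑_{j ≠ k} 2 √(d k) √(d j) L_kj z j`, an integer, and even if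
`d k = 2`. Then `q (z - ε_k) = q z - ∂ z k + d k` and `∑ z k * ∂ z k = 2 q z`.
By `exists_int` there is `z ≥ 0`, supported on `S`, with `q z < 0` (so `z ≠ 0`). Among all `z ≥ 0`, `z ≠ 0`, supported on `S` with `q z < 0` take one with the least sum. All
`z k > 0` for `k ∈ S` (otherwise `z` is supported on a proper subset, which is elliptic). For `k ∈ S` the vector `z - ε_k` is `≥ 0` and not zero (`S` has at least three
elements), so `q (z - ε_k) ≥ 0` by minimality; so `∂ z k ≤ q z + d k`.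
We need a little more: `q (z - ε_k) ≥ 1`. Choose instead `z` with the least sum among the `z ≥ 0`, `z ≠ 0`, supported on `S`, with `q z ≤ 0`. Then `q (z - ε_k) ≥ 1`, so `∂ z k ≤ q z + d k - 1`. For
`d k = 1`: `∂ z k ≤ q z ≤ 0`. For `d k = 2`: `∂ z k ≤ q z + 1 ≤ 1` and `∂ z k` is even, so `∂ z k ≤ 0`. So all `∂ z k ≤ 0` and `2 q z = ∑ z k ∂ z k`.
If `q z = 0` then all `∂ z k = 0` (`z k > 0`), contradiction to `no_parabolic` (with `c = s z`). So `q z < 0` and `2 q z = ∑ z k ∂ z k ≤ (∑_{d k = 1} z k) q z`, so `∑_{d k = 1} z k ≤ 2`, and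
the number of `k ∈ S` with `d k = 1` is at most `2`.
-/

set_option autoImplicit false

namespace Pool.Agent.Work.MP_f6469e_gt

variable {n N : ℕ} {e : Fin N → (Fin (n + 1) → ℝ)}


private noncomputable def wt (d z : Fin N → ℕ) : Fin N → ℝ := fun i => √(d i : ℝ) * (z i : ℝ)

private noncomputable def Q (e : Fin N → (Fin (n + 1) → ℝ)) (d z : Fin N → ℕ) : ℝ :=
  L n (comb e (wt d z)) (comb e (wt d z))

private noncomputable def dd (e : Fin N → (Fin (n + 1) → ℝ)) (d z : Fin N → ℕ) (k : Fin N) : ℝ :=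
  2 * √(d k : ℝ) * L n (e k) (comb e (wt d z))

private theorem Q_add (hu : ∀ i, L n (e i) (e i) = 1) (d z : Fin N → ℕ) (k : Fin N) :
    Q e d (z + Pi.single k 1) = Q e d z + dd e d z k + d k := by
  have h1 : wt d (z + Pi.single k 1) = wt d z + Pi.single k (√(d k : ℝ)) := by
    funext i
    by_cases h : i = k
    · subst h
      simp [wt]
      ring
    · simp [wt, Pi.single_eq_of_ne h]
  unfold Q dd
  rw [h1, comb_add, comb_single, L_add_left, L_add_right, L_add_right, L_smul_left, L_smul_left,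
    L_smul_right, L_smul_right, hu, L_comm (comb e (wt d z)) (e k)]
  have h2 : √(d k : ℝ) * √(d k : ℝ) = d k := Real.mul_self_sqrt (by positivity)
  linear_combination h2

private theorem dd_add (hu : ∀ i, L n (e i) (e i) = 1) (d z : Fin N → ℕ) (k : Fin N) :
    dd e d (z + Pi.single k 1) k = dd e d z k + 2 * d k := by
  have h1 : wt d (z + Pi.single k 1) = wt d z + Pi.single k (√(d k : ℝ)) := by
    funext i
    by_cases h : i = k
    · subst h
      simp [wt]
      ring
    · simp [wt, Pi.single_eq_of_ne h]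
  unfold dd
  rw [h1, comb_add, comb_single, L_add_right, L_smul_right, hu]
  have h2 : √(d k : ℝ) * √(d k : ℝ) = d k := Real.mul_self_sqrt (by positivity)
  linear_combination 2 * h2

private theorem two_Q (d z : Fin N → ℕ) : 2 * Q e d z = ∑ k, (z k : ℝ) * dd e d z k := by
  unfold Q
  rw [L_comb_left, Finset.mul_sum]
  refine Finset.sum_congr rfl fun k _ => ?_
  unfold dd wt
  ring

private theorem dd_int (hP : Acute n N e) {S : Finset (Fin N)} (d : Fin N → ℕ)
    (hd : ∀ i, d i = 1 ∨ d i = 2)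
    (hm : ∀ i ∈ S, ∀ j ∈ S, i ≠ j → ∃ m : ℤ, 2 * √(d i : ℝ) * √(d j : ℝ) * L n (e i) (e j) =
      (m : ℝ) * (if d i = 2 ∨ d j = 2 then 2 else 1)) (z : Fin N → ℕ)
    (hz : ∀ i, i ∉ S → z i = 0) {k : Fin N} (hk : k ∈ S) :
    ∃ D : ℤ, dd e d z k = (d k : ℝ) * D := by
  have h : ∀ j, ∃ m : ℤ, 2 * √(d k : ℝ) * (√(d j : ℝ) * (z j : ℝ) * L n (e k) (e j)) =
      (d k : ℝ) * m := by
    intro j
    by_cases hj : j ∈ S
    · by_cases hkj : j = k
      · subst hkj
        refine ⟨2 * z j, ?_⟩
        rw [hP.unit]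
        have h2 : √(d j : ℝ) * √(d j : ℝ) = d j := Real.mul_self_sqrt (by positivity)
        push_cast
        linear_combination (2 * (z j : ℝ)) * h2
      · obtain ⟨m, hm'⟩ := hm k hk j hj (Ne.symm hkj)
        have h3 : ∃ m' : ℤ, (m : ℝ) * (if d k = 2 ∨ d j = 2 then 2 else 1) = (d k : ℝ) * m' := by
          rcases hd k with h1 | h1
          · refine ⟨m * (if d k = 2 ∨ d j = 2 then 2 else 1), ?_⟩
            rw [h1]
            split_ifs <;> push_cast <;> ring
          · refine ⟨m, ?_⟩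
            rw [if_pos (Or.inl h1), h1]
            push_cast
            ring
        obtain ⟨m', h4⟩ := h3
        refine ⟨m' * z j, ?_⟩
        rw [h4] at hm'
        push_cast
        linear_combination (z j : ℝ) * hm'
    · refine ⟨0, ?_⟩
      rw [hz j hj]
      simp
  choose m hm' using h
  refine ⟨∑ j, m j, ?_⟩
  unfold dd
  rw [L_comb_right, Finset.mul_sum]
  push_cast
  rw [Finset.mul_sum]
  exact Finset.sum_congr rfl fun j _ => hm' j

private theorem Q_zero (d : Fin N → ℕ) : Q e d 0 = 0 := by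
  have h : wt d (0 : Fin N → ℕ) = 0 := by
    funext i
    simp [wt]
  have h2 : comb e (0 : Fin N → ℝ) = 0 := by simp [comb]
  unfold Q
  rw [h, h2, L_zero_left]

private theorem sub_add_single {z : Fin N → ℕ} {k : Fin N} (hk : 0 < z k) :
    z - Pi.single k 1 + Pi.single k 1 = z := by
  funext i
  by_cases h : i = k
  · subst h
    simp
    omega
  · simp [Pi.single_eq_of_ne h]

private theorem sum_sub_single {z : Fin N → ℕ} {k : Fin N} (hk : 0 < z k) :
    ∑ i, (z - Pi.single k 1 : Fin N → ℕ) i + 1 = ∑ i, z i := by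
  conv_rhs => rw [← sub_add_single hk]
  simp only [Pi.add_apply]
  rw [Finset.sum_add_distrib]
  simp

private theorem Q_int (hP : Acute n N e) {S : Finset (Fin N)} (d : Fin N → ℕ)
    (hd : ∀ i, d i = 1 ∨ d i = 2)
    (hm : ∀ i ∈ S, ∀ j ∈ S, i ≠ j → ∃ m : ℤ, 2 * √(d i : ℝ) * √(d j : ℝ) * L n (e i) (e j) =
      (m : ℝ) * (if d i = 2 ∨ d j = 2 then 2 else 1)) :
    ∀ (r : ℕ) (z : Fin N → ℕ), ∑ i, z i = r → (∀ i, i ∉ S → z i = 0) →
      ∃ q : ℤ, Q e d z = (q : ℝ) := by
  intro r
  induction r with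
  | zero =>
    intro z hz _
    have h0 : z = 0 := by
      funext i
      exact (Finset.sum_eq_zero_iff.1 hz) i (Finset.mem_univ i)
    subst h0
    exact ⟨0, by rw [Q_zero]; simp⟩
  | succ r ih =>
    intro z hz hzS
    obtain ⟨k, hk⟩ : ∃ k, z k ≠ 0 := by
      by_contra hcon
      push Not at hcon
      rw [Finset.sum_eq_zero fun i _ => hcon i] at hz
      omega
    have hk0 : 0 < z k := Nat.pos_of_ne_zero hk
    have hkS : k ∈ S := by
      by_contra h
      exact hk (hzS k h)
    have hsupp : ∀ i, i ∉ S → (z - Pi.single k 1 : Fin N → ℕ) i = 0 := by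
      intro i hi
      simp [hzS i hi]
    obtain ⟨q, hq⟩ := ih (z - Pi.single k 1) (by have := sum_sub_single hk0; omega) hsupp
    obtain ⟨D, hD⟩ := dd_int hP d hd hm (z - Pi.single k 1) hsupp hkS
    have h1 := Q_add hP.unit d (z - Pi.single k 1) k
    rw [sub_add_single hk0, hq, hD] at h1
    refine ⟨q + d k * D + d k, ?_⟩
    rw [h1]
    push_cast
    ring

theorem int_lemma (hn : 1 ≤ n) (hP : Acute n N e) {S : Finset (Fin N)} (hS : MinNon e S)
    (h3 : 3 ≤ S.card) (d : Fin N → ℕ) (hd : ∀ i, d i = 1 ∨ d i = 2)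
    (hm : ∀ i ∈ S, ∀ j ∈ S, i ≠ j → ∃ m : ℤ, 2 * √(d i : ℝ) * √(d j : ℝ) * L n (e i) (e j) =
      (m : ℝ) * (if d i = 2 ∨ d j = 2 then 2 else 1)) :
    (S.filter fun i => d i = 1).card ≤ 2 := by
  classical
  have hdpos : ∀ i, 0 < √(d i : ℝ) := by
    intro i
    apply Real.sqrt_pos.2
    rcases hd i with h | h <;> rw [h] <;> norm_num
  -- the minimal vector
  obtain ⟨z₀, hz₀S, hz₀⟩ := exists_int hn hP hS.1 (fun i => √(d i : ℝ)) hdpos
  have hex : ∃ r : ℕ, ∃ z : Fin N → ℕ, ∑ i, z i = r ∧ (∀ i, i ∉ S → z i = 0) ∧ z ≠ 0 ∧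
      Q e d z ≤ 0 := by
    refine ⟨_, z₀, rfl, hz₀S, ?_, le_of_lt hz₀⟩
    rintro rfl
    have h1 : Q e d 0 < 0 := hz₀
    rw [Q_zero] at h1
    exact lt_irrefl _ h1
  obtain ⟨z, hzr, hzS, hz0, hQ⟩ := Nat.find_spec hex
  have hmin : ∀ z' : Fin N → ℕ, ∑ i, z' i < ∑ i, z i → (∀ i, i ∉ S → z' i = 0) → z' ≠ 0 →
      0 < Q e d z' := by
    intro z' h1 h2 h3
    by_contra h4
    push Not at h4
    rw [hzr] at h1
    exact Nat.find_min hex h1 ⟨z', rfl, h2, h3, h4⟩
  have hwne : ∀ z' : Fin N → ℕ, z' ≠ 0 → wt d z' ≠ 0 := by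
    intro z' h1 h2
    apply h1
    funext i
    have h3 := congrFun h2 i
    simp only [wt, Pi.zero_apply, mul_eq_zero, Nat.cast_eq_zero] at h3
    rcases h3 with h3 | h3
    · exact absurd h3 (hdpos i).ne'
    · exact h3
  -- all coordinates are positive
  have hpos : ∀ k ∈ S, 0 < z k := by
    intro k hk
    by_contra h0
    have h0' : z k = 0 := by omega
    have h1 : Ell e (S.erase k) := hS.2 _ (Finset.erase_ssubset hk)
    have h2 := h1 (wt d z) (by
      intro i hi
      have h3 : z i = 0 := by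
        by_cases hik : i = k
        · rw [hik]; exact h0'
        · exact hzS i fun h => hi (Finset.mem_erase.2 ⟨hik, h⟩)
      simp [wt, h3]) (hwne z hz0)
    exact absurd h2 (not_lt.2 hQ)
  obtain ⟨q, hq⟩ := Q_int hP d hd hm _ z rfl hzS
  have hq0 : q ≤ 0 := by
    rw [hq] at hQ
    exact_mod_cast hQ
  have hD : ∀ k ∈ S, ∃ D : ℤ, dd e d z k = (d k : ℝ) * D := fun k hk => dd_int hP d hd hm z hzS hk
  have hkey : ∀ k ∈ S, dd e d z k ≤ (q : ℝ) + d k - 1 := by
    intro k hk
    have hk0 := hpos k hk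
    have hsupp : ∀ i, i ∉ S → (z - Pi.single k 1 : Fin N → ℕ) i = 0 := by
      intro i hi
      simp [hzS i hi]
    have hsum := sum_sub_single hk0
    have hne : z - Pi.single k 1 ≠ 0 := by
      intro h0
      obtain ⟨j, hj, hjk⟩ := Finset.exists_mem_ne (by omega : 1 < S.card) k
      have h1 := congrFun h0 j
      have h2 := hpos j hj
      simp only [Pi.sub_apply, Pi.single_eq_of_ne hjk, Pi.zero_apply] at h1
      omega
    have h1 := hmin (z - Pi.single k 1) (by omega) hsupp hne
    obtain ⟨q', hq'⟩ := Q_int hP d hd hm _ (z - Pi.single k 1) rfl hsupp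
    have h2 : 1 ≤ q' := by
      rw [hq'] at h1
      have : (0 : ℤ) < q' := by exact_mod_cast h1
      omega
    have h3 := Q_add hP.unit d (z - Pi.single k 1) k
    have h4 := dd_add hP.unit d (z - Pi.single k 1) k
    rw [sub_add_single hk0] at h3 h4
    rw [hq, hq'] at h3
    have h5 : (1 : ℝ) ≤ q' := by exact_mod_cast h2
    linarith
  have hle1 : ∀ k ∈ S, d k = 1 → dd e d z k ≤ q := by
    intro k hk h1
    have := hkey k hk
    rw [h1] at this
    push_cast at this
    linarith
  have hle0 : ∀ k ∈ S, dd e d z k ≤ 0 := by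
    intro k hk
    have hqr : (q : ℝ) ≤ 0 := by exact_mod_cast hq0
    rcases hd k with h1 | h1
    · exact (hle1 k hk h1).trans hqr
    · obtain ⟨D, hD'⟩ := hD k hk
      have h2 := hkey k hk
      rw [hD', h1] at h2
      push_cast at h2
      have h2' : ((2 * D : ℤ) : ℝ) ≤ ((q + 2 - 1 : ℤ) : ℝ) := by
        push_cast
        exact h2
      have h3 : 2 * D ≤ q + 2 - 1 := Int.cast_le.1 h2'
      have h4 : D ≤ 0 := by omega
      rw [hD', h1]
      push_cast
      have h5 : (D : ℝ) ≤ 0 := by exact_mod_cast h4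
      linarith
  have hsumS : 2 * (q : ℝ) = ∑ k ∈ S, (z k : ℝ) * dd e d z k := by
    rw [← hq, two_Q]
    symm
    apply Finset.sum_subset (Finset.subset_univ _)
    intro i _ hi
    rw [hzS i hi]
    simp
  have hqneg : q < 0 := by
    rcases hq0.lt_or_eq with h | h
    · exact h
    · exfalso
      rw [h] at hsumS
      have h1 : ∀ k ∈ S, (z k : ℝ) * dd e d z k = 0 := by
        have h2 : ∑ k ∈ S, -((z k : ℝ) * dd e d z k) = 0 := by
          rw [Finset.sum_neg_distrib, ← hsumS]
          simp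
        intro k hk
        have h3 := (Finset.sum_eq_zero_iff_of_nonneg (fun k hk => by
          have := hle0 k hk
          have h4 : (0 : ℝ) ≤ z k := Nat.cast_nonneg _
          nlinarith)).1 h2 k hk
        linarith
      refine no_parabolic hn hP (S := S) (c := wt d z) ?_ ?_ (hwne z hz0) ?_
      · intro i
        exact mul_nonneg (hdpos i).le (Nat.cast_nonneg _)
      · intro i hi
        simp [wt, hzS i hi]
      · intro k hk
        have h2 := h1 k hk
        have h3 : (0 : ℝ) < z k := by exact_mod_cast hpos k hk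
        have h4 := hdpos k
        unfold dd at h2
        rcases mul_eq_zero.1 h2 with h5 | h5
        · exact absurd h5 h3.ne'
        · rcases mul_eq_zero.1 h5 with h6 | h6
          · exact absurd h6 (by positivity)
          · exact h6
  have hfin : 2 * (q : ℝ) ≤ ((S.filter fun i => d i = 1).card : ℝ) * q := by
    rw [hsumS, ← Finset.sum_filter_add_sum_filter_not S (fun i => d i = 1)]
    have h1 : ∑ k ∈ S.filter (fun i => d i = 1), (z k : ℝ) * dd e d z k ≤
        ((S.filter fun i => d i = 1).card : ℝ) * q := by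
      rw [← nsmul_eq_mul]
      apply Finset.sum_le_card_nsmul
      intro k hk
      rw [Finset.mem_filter] at hk
      have h2 := hle1 k hk.1 hk.2
      have h3 : (1 : ℝ) ≤ z k := by exact_mod_cast hpos k hk.1
      have h4 : (q : ℝ) < 0 := by exact_mod_cast hqneg
      nlinarith
    have h2 : ∑ k ∈ S.filter (fun i => ¬ d i = 1), (z k : ℝ) * dd e d z k ≤ 0 := by
      apply Finset.sum_nonpos
      intro k hk
      rw [Finset.mem_filter] at hk
      have h2 := hle0 k hk.1
      have h3 : (0 : ℝ) ≤ z k := Nat.cast_nonneg _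
      nlinarith
    linarith
  have hfin2 : 2 * q ≤ ((S.filter fun i => d i = 1).card : ℤ) * q := by exact_mod_cast hfin
  by_contra hcon
  push Not at hcon
  have h3' : (3 : ℤ) ≤ ((S.filter fun i => d i = 1).card : ℤ) := by exact_mod_cast hcon
  nlinarith

end Pool.Agent.Work.MP_f6469e_gt
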