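import Pool.Agent.Work.MP_f6469e_gt.Lor

/-!
# Module Dim (M): dimensions

For `Ell e S` the vectors `e i`, `i ∈ S`, are linearly independent (if `comb e c = 0` with `c` supported on `S` then `c = 0`) and the form is positive definite on
their span.
* `Ell.card_le`: if `S.card ≥ n + 1` then they span `ℝ^(n+1)`, but `L n` of the basis vector `Pi.single 0 1` is `-1`.
* `exists_orth`: `S.card + 1 < n + 1` linear conditions on `ℝ^(n+1)` (kernel of a linear map to a space of smaller dimension,
  `LinearMap.exists_ne_zero_of_...` / `finrank` inequality).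
* `eq_zero_of_orth`: let `u ≠ 0`. `0 < L n u u` by `L_pos_of_orth`. The `n` vectors `e i` and `u` are independent (`u` is orthogonal to the others and
  `L n u u ≠ 0`), so they span; `x = comb e c + t • u` gives `L n x x = L (comb c) (comb c) + t² L n u u ≥ 0`: contradiction.
* `unique_dir`: if `w` is not a multiple of `u`, then `u, w` are independent; the form is positive definite on their span (it is in `x^⊥`,
  `L_pos_of_orth`), which is orthogonal to the span of the `e i`. So the `n - 1 + 2` vectors are independent, they span,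
  and the form is positive definite on everything: contradiction to `L n x x < 0`.
-/
set_option autoImplicit false

namespace Pool.Agent.Work.MP_f6469e_gt

variable {n N : ℕ} {e : Fin N → (Fin (n + 1) → ℝ)}

private theorem key {M : Type} [AddCommGroup M] [Module ℝ M] [FiniteDimensional ℝ M]
    (Φ : M →ₗ[ℝ] (Fin (n + 1) → ℝ)) (hM : Module.finrank ℝ M = n + 1)
    (hpos : ∀ a, a ≠ 0 → 0 < L n (Φ a) (Φ a)) {x : Fin (n + 1) → ℝ} (hx : L n x x < 0) :
    False := by
  have hinj : Function.Injective Φ := by
    rw [injective_iff_map_eq_zero]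
    intro a ha
    by_contra h0
    have := hpos a h0
    rw [ha, L_zero_left] at this
    exact lt_irrefl _ this
  have hsur : Function.Surjective Φ := by
    rwa [← LinearMap.injective_iff_surjective_of_finrank_eq_finrank]
    rw [hM, Module.finrank_fin_fun]
  obtain ⟨a, rfl⟩ := hsur x
  by_cases h0 : a = 0
  · subst h0
    rw [map_zero, L_zero_left] at hx
    exact lt_irrefl _ hx
  · have := hpos a h0
    linarith

private noncomputable def ext (S : Finset (Fin N)) (a : {i // i ∈ S} → ℝ) : Fin N → ℝ :=
  fun i => if h : i ∈ S then a ⟨i, h⟩ else 0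

private theorem lin_eq (S : Finset (Fin N)) (a : {i // i ∈ S} → ℝ) :
    Fintype.linearCombination ℝ (fun i : {i // i ∈ S} => e i) a = comb e (ext S a) := by
  rw [Fintype.linearCombination_apply, comb]
  rw [← Finset.sum_subset (Finset.subset_univ S)]
  · rw [← Finset.sum_coe_sort S (fun i => ext S a i • e i)]
    refine Finset.sum_congr rfl fun i _ => ?_
    simp [ext]
  · intro i _ hi
    simp [ext, hi]

private theorem ext_supp (S : Finset (Fin N)) (a : {i // i ∈ S} → ℝ) :
    ∀ i, i ∉ S → ext S a i = 0 := by
  intro i hi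
  simp [ext, hi]

private theorem ext_ne (S : Finset (Fin N)) (a : {i // i ∈ S} → ℝ) (ha : a ≠ 0) :
    ext S a ≠ 0 := by
  intro h0
  apply ha
  funext i
  have := congrFun h0 i.1
  simpa [ext, i.2] using this

private theorem ell_nonneg {S : Finset (Fin N)} (hS : Ell e S) (a : {i // i ∈ S} → ℝ) :
    0 ≤ L n (comb e (ext S a)) (comb e (ext S a)) := by
  by_cases ha : a = 0
  · subst ha
    have : ext S (0 : {i // i ∈ S} → ℝ) = 0 := by
      funext i; simp [ext]
    rw [this]
    have h2 : comb e (0 : Fin N → ℝ) = 0 := by simp [comb]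
    rw [h2, L_zero_left]
  · exact (hS _ (ext_supp S a) (ext_ne S a ha)).le

theorem Ell.card_le {S : Finset (Fin N)} (hS : Ell e S) : S.card ≤ n := by
  by_contra hcon
  have h1 : n + 1 ≤ S.card := by omega
  obtain ⟨T, hTS, hTc⟩ := Finset.exists_subset_card_eq h1
  have hT : Ell e T := hS.mono hTS
  have hx : L n (Pi.single 0 1) (Pi.single 0 1) < 0 := by
    simp [L, Fin.succ_ne_zero]
  refine key (Fintype.linearCombination ℝ (fun i : {i // i ∈ T} => e i)) ?_ ?_ hx
  · rw [Module.finrank_fintype_fun_eq_card, Fintype.card_coe, hTc]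
  · intro a ha
    rw [lin_eq]
    exact hT _ (ext_supp T a) (ext_ne T a ha)

theorem exists_orth (e : Fin N → (Fin (n + 1) → ℝ)) (S : Finset (Fin N)) (x : Fin (n + 1) → ℝ)
    (h : S.card < n) : ∃ u : Fin (n + 1) → ℝ, u ≠ 0 ∧ L n u x = 0 ∧ ∀ i ∈ S, L n u (e i) = 0 := by
  let f : (Fin (n + 1) → ℝ) →ₗ[ℝ] (({i // i ∈ S} → ℝ) × ℝ) :=
    { toFun := fun u => (fun i => L n u (e i), L n u x)
      map_add' := by
        intro u v
        ext i
        · simp [L_add_left]
        · simp [L_add_left]
      map_smul' := by
        intro a u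
        ext i
        · simp [L_smul_left]
        · simp [L_smul_left] }
  have hk : LinearMap.ker f ≠ ⊥ := by
    apply LinearMap.ker_ne_bot_of_finrank_lt
    rw [Module.finrank_prod, Module.finrank_fintype_fun_eq_card, Fintype.card_coe,
      Module.finrank_self, Module.finrank_fin_fun]
    omega
  obtain ⟨u, hu, hu0⟩ := (Submodule.ne_bot_iff _).1 hk
  rw [LinearMap.mem_ker] at hu
  refine ⟨u, hu0, ?_, ?_⟩
  · exact congrArg Prod.snd hu
  · intro i hi
    exact congrFun (congrArg Prod.fst hu) ⟨i, hi⟩

private theorem comb_orth {S : Finset (Fin N)} {u : Fin (n + 1) → ℝ}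
    (hu : ∀ i ∈ S, L n u (e i) = 0) (a : {i // i ∈ S} → ℝ) :
    L n u (comb e (ext S a)) = 0 := by
  rw [L_comb_right]
  refine Finset.sum_eq_zero fun i _ => ?_
  by_cases hi : i ∈ S
  · rw [hu i hi, mul_zero]
  · rw [ext_supp S a i hi, zero_mul]

theorem eq_zero_of_orth {S : Finset (Fin N)} (hS : Ell e S) (hc : S.card = n)
    {x u : Fin (n + 1) → ℝ} (hx : L n x x < 0) (hu : ∀ i ∈ S, L n u (e i) = 0)
    (hux : L n u x = 0) : u = 0 := by
  by_contra hu0
  have hpos : 0 < L n u u := L_pos_of_orth hx (by rw [L_comm]; exact hux) hu0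
  refine key (M := ({i // i ∈ S} → ℝ) × ℝ)
    ((Fintype.linearCombination ℝ (fun i : {i // i ∈ S} => e i)).coprod
      (LinearMap.toSpanSingleton ℝ _ u)) ?_ ?_ hx
  · rw [Module.finrank_prod, Module.finrank_fintype_fun_eq_card, Fintype.card_coe,
      Module.finrank_self, hc]
  · rintro ⟨a, t⟩ hat
    rw [LinearMap.coprod_apply, lin_eq, LinearMap.toSpanSingleton_apply]
    have h0 := comb_orth hu a
    have h1 : L n (comb e (ext S a) + t • u) (comb e (ext S a) + t • u) =
        L n (comb e (ext S a)) (comb e (ext S a)) + t ^ 2 * L n u u := by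
      rw [L_add_left, L_add_right, L_add_right, L_smul_left, L_smul_right, L_smul_left,
        L_smul_right, L_comm _ u, h0]
      ring
    rw [h1]
    have h2 := ell_nonneg hS a
    by_cases ht : t = 0
    · have ha : a ≠ 0 := by
        rintro rfl
        exact hat (by rw [ht]; rfl)
      have := hS _ (ext_supp S a) (ext_ne S a ha)
      have h3 : 0 ≤ t ^ 2 * L n u u := by positivity
      linarith
    · have h3 : 0 < t ^ 2 * L n u u := by positivity
      linarith

theorem unique_dir {S : Finset (Fin N)} (hS : Ell e S) (hc : S.card + 1 = n)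
    {x u w : Fin (n + 1) → ℝ} (hx : L n x x < 0) (hu0 : u ≠ 0) (hu : ∀ i ∈ S, L n u (e i) = 0)
    (hux : L n u x = 0) (hw : ∀ i ∈ S, L n w (e i) = 0) (hwx : L n w x = 0) :
    ∃ a : ℝ, w = a • u := by
  by_contra hcon
  refine key (M := ({i // i ∈ S} → ℝ) × (ℝ × ℝ))
    ((Fintype.linearCombination ℝ (fun i : {i // i ∈ S} => e i)).coprod
      ((LinearMap.toSpanSingleton ℝ _ u).coprod (LinearMap.toSpanSingleton ℝ _ w))) ?_ ?_ hx
  · rw [Module.finrank_prod, Module.finrank_prod, Module.finrank_fintype_fun_eq_card,
      Fintype.card_coe, Module.finrank_self]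
    omega
  · rintro ⟨a, s, t⟩ hat
    rw [LinearMap.coprod_apply, LinearMap.coprod_apply, lin_eq, LinearMap.toSpanSingleton_apply,
      LinearMap.toSpanSingleton_apply]
    have hv : ∀ i ∈ S, L n (s • u + t • w) (e i) = 0 := by
      intro i hi
      rw [L_add_left, L_smul_left, L_smul_left, hu i hi, hw i hi]; ring
    have hvx : L n x (s • u + t • w) = 0 := by
      rw [L_comm, L_add_left, L_smul_left, L_smul_left, hux, hwx]; ring
    have h0 := comb_orth hv a
    have h1 : L n (comb e (ext S a) + (s • u + t • w)) (comb e (ext S a) + (s • u + t • w)) =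
        L n (comb e (ext S a)) (comb e (ext S a)) +
          L n (s • u + t • w) (s • u + t • w) := by
      rw [L_add_left (comb e (ext S a)), L_add_right _ (comb e (ext S a)),
        L_add_right _ (comb e (ext S a)), L_comm (comb e (ext S a)) (s • u + t • w), h0]
      ring
    rw [h1]
    have h2 := ell_nonneg hS a
    by_cases hst : s • u + t • w = 0
    · have ht : t = 0 := by
        by_contra ht
        apply hcon
        refine ⟨-(s / t), ?_⟩
        have h3 : t • w = -(s • u) := by
          rw [eq_neg_iff_add_eq_zero, add_comm (t • w)]; exact hst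
        calc w = t⁻¹ • (t • w) := by rw [smul_smul, inv_mul_cancel₀ ht, one_smul]
          _ = -(s / t) • u := by
            rw [h3, smul_neg, smul_smul, neg_smul]
            congr 2
            field_simp
      have hs : s = 0 := by
        rw [ht, zero_smul, add_zero] at hst
        rcases smul_eq_zero.1 hst with h | h
        · exact h
        · exact absurd h hu0
      have ha : a ≠ 0 := by
        rintro rfl
        exact hat (by rw [ht, hs]; rfl)
      have h4 := hS _ (ext_supp S a) (ext_ne S a ha)
      rw [hst, L_zero_left, add_zero]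
      exact h4
    · have h5 := L_pos_of_orth hx hvx hst
      linarith

end Pool.Agent.Work.MP_f6469e_gt
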