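import Pool.Agent.Work.MP_f6469e_gt.BClas
import Pool.Agent.Work.MP_f6469e_gt.Dim

/-!
# Module BTri (S-M): a triangle has two corners whose walls are joined

`insert a (insert b (insert c T))` has `n + 1` elements, so it is not elliptic (`Ell.card_le`); take a Lanner set `S` in it (`exists_minNon`). `a ∈ S`, otherwise `S ⊆ insert b (insert c T)` is elliptic; in the same way
`b, c ∈ S`. By `clas`: `S` is not a pair. For a triple `S = {i, j, k} = {a, b, c}`: in every case of `Tri3` the products of `ij`, `jk` are `< 0`, so at least two of the three pairs are joined. For the square: among any three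
of its elements two pairs are joined.
-/

set_option autoImplicit false

namespace Pool.Agent.Work.MP_f6469e_gt

variable {n N : ℕ} {e : Fin N → (Fin (n + 1) → ℝ)}


private theorem neg_half : -(1 / 2 : ℝ) < 0 := by norm_num

private theorem neg_two : -(√2 / 2 : ℝ) < 0 := by
  have : (0 : ℝ) < √2 := Real.sqrt_pos.mpr (by norm_num)
  linarith

private theorem neg_three : -(√3 / 2 : ℝ) < 0 := by
  have : (0 : ℝ) < √3 := Real.sqrt_pos.mpr (by norm_num)
  linarith

private theorem tri3_neg {i j k : Fin N} (h : Tri3 e i j k) :
    L n (e i) (e j) < 0 ∧ L n (e j) (e k) < 0 := by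
  rcases h with ⟨h1, h2, _⟩ | ⟨h1, h2, _⟩ | ⟨h1, h2, _⟩ | ⟨h1, h2, _⟩
  · rw [h1, h2]; exact ⟨neg_two, neg_three⟩
  · rw [h1, h2]; exact ⟨neg_three, neg_three⟩
  · rw [h1, h2]; exact ⟨neg_half, neg_two⟩
  · rw [h1, h2]; exact ⟨neg_half, neg_three⟩

theorem tri (hn : 1 ≤ n) (hL : Lab n N e) {T : Finset (Fin N)} {a b c : Fin N}
    (hcard : T.card + 2 = n) (hab : a ≠ b) (hac : a ≠ c) (hbc : b ≠ c) (haT : a ∉ T)
    (hbT : b ∉ T) (hcT : c ∉ T) (h1 : Ell e (insert a (insert b T)))
    (h2 : Ell e (insert b (insert c T))) (h3 : Ell e (insert a (insert c T))) :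
    (L n (e a) (e b) < 0 ∧ L n (e b) (e c) < 0) ∨ (L n (e a) (e b) < 0 ∧ L n (e a) (e c) < 0) ∨
    (L n (e b) (e c) < 0 ∧ L n (e a) (e c) < 0) := by
  have hbig : ¬ Ell e (insert a (insert b (insert c T))) := by
    intro h
    have h4 := Ell.card_le h
    have hc1 : (insert c T).card = T.card + 1 := Finset.card_insert_of_notMem hcT
    have hb1 : b ∉ insert c T := by
      rw [Finset.mem_insert, not_or]; exact ⟨hbc, hbT⟩
    have hc2 : (insert b (insert c T)).card = T.card + 2 := by
      rw [Finset.card_insert_of_notMem hb1, hc1]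
    have ha1 : a ∉ insert b (insert c T) := by
      rw [Finset.mem_insert, Finset.mem_insert, not_or, not_or]; exact ⟨hab, hac, haT⟩
    rw [Finset.card_insert_of_notMem ha1, hc2] at h4
    omega
  obtain ⟨S, hST, hS⟩ := exists_minNon hbig
  have haS : a ∈ S := by
    by_contra h
    apply hS.1
    apply h2.mono
    intro x hx
    have hx' := hST hx
    rw [Finset.mem_insert] at hx'
    rcases hx' with rfl | hx'
    · exact absurd hx h
    · exact hx'
  have hbS : b ∈ S := by
    by_contra h
    apply hS.1
    apply h3.mono
    intro x hx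
    have hx' := hST hx
    rw [Finset.mem_insert, Finset.mem_insert] at hx'
    rcases hx' with rfl | rfl | hx'
    · exact Finset.mem_insert_self _ _
    · exact absurd hx h
    · exact Finset.mem_insert_of_mem hx'
  have hcS : c ∈ S := by
    by_contra h
    apply hS.1
    apply h1.mono
    intro x hx
    have hx' := hST hx
    rw [Finset.mem_insert, Finset.mem_insert, Finset.mem_insert] at hx'
    rcases hx' with rfl | rfl | rfl | hx'
    · exact Finset.mem_insert_self _ _
    · exact Finset.mem_insert_of_mem (Finset.mem_insert_self _ _)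
    · exact absurd hx h
    · exact Finset.mem_insert_of_mem (Finset.mem_insert_of_mem hx')
  rcases clas hn hL hS with ⟨i, j, _, hSe, _⟩ | ⟨i, j, k, _, _, _, hSe, ht⟩ |
    ⟨i, j, k, l, _, _, _, _, _, _, hSe, hq⟩
  · exfalso
    rw [hSe, Finset.mem_insert, Finset.mem_singleton] at haS hbS hcS
    rcases haS with rfl | rfl <;> rcases hbS with rfl | rfl <;> rcases hcS with rfl | rfl <;>
      first
        | exact hab rfl
        | exact hac rfl
        | exact hbc rfl
  · obtain ⟨n1, n2⟩ := tri3_neg ht
    have n1' := n1
    rw [L_comm] at n1'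
    have n2' := n2
    rw [L_comm] at n2'
    rw [hSe, Finset.mem_insert, Finset.mem_insert, Finset.mem_singleton] at haS hbS hcS
    rcases haS with rfl | rfl | rfl <;> rcases hbS with rfl | rfl | rfl <;>
      rcases hcS with rfl | rfl | rfl <;>
      first
        | exact absurd rfl hab
        | exact absurd rfl hac
        | exact absurd rfl hbc
        | exact Or.inl ⟨by assumption, by assumption⟩
        | exact Or.inr (Or.inl ⟨by assumption, by assumption⟩)
        | exact Or.inr (Or.inr ⟨by assumption, by assumption⟩)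
  · obtain ⟨q1, q2, q3, q4, _, _⟩ := hq
    have n1 : L n (e i) (e j) < 0 := by rw [q1]; exact neg_half
    have n2 : L n (e j) (e k) < 0 := by rw [q2]; exact neg_two
    have n3 : L n (e k) (e l) < 0 := by rw [q3]; exact neg_half
    have n4 : L n (e l) (e i) < 0 := by rw [q4]; exact neg_two
    have n1' := n1
    rw [L_comm] at n1'
    have n2' := n2
    rw [L_comm] at n2'
    have n3' := n3
    rw [L_comm] at n3'
    have n4' := n4
    rw [L_comm] at n4'
    clear q1 q2 q3 q4
    rw [hSe, Finset.mem_insert, Finset.mem_insert, Finset.mem_insert, Finset.mem_singleton]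
      at haS hbS hcS
    rcases haS with rfl | rfl | rfl | rfl <;> rcases hbS with rfl | rfl | rfl | rfl <;>
      rcases hcS with rfl | rfl | rfl | rfl <;>
      first
        | exact absurd rfl hab
        | exact absurd rfl hac
        | exact absurd rfl hbc
        | exact Or.inl ⟨by assumption, by assumption⟩
        | exact Or.inr (Or.inl ⟨by assumption, by assumption⟩)
        | exact Or.inr (Or.inr ⟨by assumption, by assumption⟩)

end Pool.Agent.Work.MP_f6469e_gt
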