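import Pool.Agent.Work.MP_f6469e_gt.BLoc

/-!
# Module BWt (M): the number of charged pairs of an elliptic set

* `edges_lt`: `c = 1` on `D`, `0` elsewhere: `0 < L n (comb e c) (comb e c) = D.card + 2 ∑_{pairs} L_ab ≤ D.card - (number of joined pairs)`, since a joined pair has product `≤ -1/2` (`hL.lab`) and the others are `≤ 0`.
* `corners_le`: for a corner `p` choose `(a, b, t)` with `p = {a, b}`, `L_at = -1/2`, `L_tb = -√2/2`, `a, b, t ∈ D` and put `φ p = {a, t}` (two elements). For different corners `(a, b, t)`, `(a', b', t')` the sets `{a, t}`, `{a', t'}` are disjoint: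
  - `t = t'`: `b = b'` by `loc44` (`b, t, b'`), then `a = a'` by `loc4b` (centre `t`, 4-edge to `b`, `a`, `a'`), so `p = p'`.
  - `t = a'` (so `L_{tt'} = -1/2`, `t ≠ t'`): `b ≠ t'` (its product with `t` is `-√2/2`), `b' ≠ t`. If `b = b'` then `b, t, t'` are pairwise joined: `loc_tri`. Otherwise `loc434` for `b, t, t', b'`.
  - `a = t'`: symmetric.
  - `a = a'`, `t ≠ t'`: if `b = b'` then `loc44` for `t, b, t'`. If `b = t'`: `a, t, b` are pairwise joined (`L_{a t'} = -1/2`): `loc_tri`; in the same way `b' ≠ t`. Otherwise `loc4334` for `b, t, a, t', b'` (`b ≠ a` etc. because the products with `t` differ).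
  So `∑_p 2 ≤ D.card` (disjoint subsets of `D`).
* `good_le`: `Good` is a joined pair or a corner. `good_le_sl`: if there are no 4-edges there are no corners.
-/

set_option autoImplicit false

namespace Pool.Agent.Work.MP_f6469e_gt

variable {n N : ℕ} {e : Fin N → (Fin (n + 1) → ℝ)}


private theorem wt_sqrt2 : (1 : ℝ) < √2 := by
  rw [show (1 : ℝ) = √1 by simp]
  exact Real.sqrt_lt_sqrt (by norm_num) (by norm_num)

private theorem wt_sqrt3 : (1 : ℝ) < √3 := by
  rw [show (1 : ℝ) = √1 by simp]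
  exact Real.sqrt_lt_sqrt (by norm_num) (by norm_num)

private theorem wt_ne {a t : Fin N} (hL : Lab n N e) (h : L n (e a) (e t) < 0) : a ≠ t := by
  rintro rfl
  rw [hL.ac.unit] at h
  linarith

private theorem wt_half (hL : Lab n N e) {i j : Fin N} (hij : i ≠ j) (h : L n (e i) (e j) < 0) :
    L n (e i) (e j) ≤ -(1 / 2) := by
  have h2 := wt_sqrt2
  have h3 := wt_sqrt3
  rcases hL.lab i j hij with h1 | h1 | h1 | h1 | h1
  · rw [h1] at h
    exact absurd h (lt_irrefl _)
  · rw [h1]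
  · rw [h1]
    linarith
  · rw [h1]
    linarith
  · linarith

open Classical in
private theorem wt_two (e : Fin N → (Fin (n + 1) → ℝ)) (D : Finset (Fin N)) :
    2 * ((D.powersetCard 2).filter fun p => ∃ a b, a ≠ b ∧ p = {a, b} ∧
      L n (e a) (e b) < 0).card ≤ (D.offDiag.filter fun x => L n (e x.1) (e x.2) < 0).card := by
  have hmap : ∀ x ∈ D.offDiag.filter fun x => L n (e x.1) (e x.2) < 0,
      ({x.1, x.2} : Finset (Fin N)) ∈ (D.powersetCard 2).filter fun p => ∃ a b, a ≠ b ∧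
        p = {a, b} ∧ L n (e a) (e b) < 0 := by
    intro x hx
    rw [Finset.mem_filter, Finset.mem_offDiag] at hx
    rw [Finset.mem_filter, Finset.mem_powersetCard]
    refine ⟨⟨?_, Finset.card_pair hx.1.2.2⟩, x.1, x.2, hx.1.2.2, rfl, hx.2⟩
    intro y hy
    rw [Finset.mem_insert, Finset.mem_singleton] at hy
    rcases hy with rfl | rfl
    · exact hx.1.1
    · exact hx.1.2.1
  rw [Finset.card_eq_sum_card_fiberwise hmap]
  have h2 : ∀ p ∈ (D.powersetCard 2).filter fun p => ∃ a b, a ≠ b ∧ p = {a, b} ∧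
      L n (e a) (e b) < 0, 2 ≤ ((D.offDiag.filter fun x => L n (e x.1) (e x.2) < 0).filter
        fun x => ({x.1, x.2} : Finset (Fin N)) = p).card := by
    intro p hp
    rw [Finset.mem_filter, Finset.mem_powersetCard] at hp
    obtain ⟨⟨hpD, -⟩, a, b, hab, rfl, hL⟩ := hp
    have ha : a ∈ D := hpD (by simp)
    have hb : b ∈ D := hpD (by simp)
    have hsub : ({(a, b), (b, a)} : Finset (Fin N × Fin N)) ⊆
        (D.offDiag.filter fun x => L n (e x.1) (e x.2) < 0).filter
        fun x => ({x.1, x.2} : Finset (Fin N)) = {a, b} := by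
      intro x hx
      rw [Finset.mem_insert, Finset.mem_singleton] at hx
      rw [Finset.mem_filter, Finset.mem_filter, Finset.mem_offDiag]
      rcases hx with rfl | rfl
      · exact ⟨⟨⟨ha, hb, hab⟩, hL⟩, rfl⟩
      · refine ⟨⟨⟨hb, ha, hab.symm⟩, ?_⟩, Finset.pair_comm _ _⟩
        rw [L_comm]
        exact hL
    calc 2 = ({(a, b), (b, a)} : Finset (Fin N × Fin N)).card := by
          rw [Finset.card_pair]
          intro h
          exact hab (congrArg Prod.fst h)
      _ ≤ _ := Finset.card_le_card hsub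
  calc 2 * _ = ∑ p ∈ (D.powersetCard 2).filter fun p => ∃ a b, a ≠ b ∧ p = {a, b} ∧
      L n (e a) (e b) < 0, 2 := by
        rw [Finset.sum_const, smul_eq_mul, mul_comm]
    _ ≤ _ := Finset.sum_le_sum h2

open Classical in
theorem edges_lt (hL : Lab n N e) {D : Finset (Fin N)} (hD : Ell e D) (hne : D.Nonempty) :
    ((D.powersetCard 2).filter fun p => ∃ a b, a ≠ b ∧ p = {a, b} ∧
      L n (e a) (e b) < 0).card + 1 ≤ D.card := by
  have htwo := wt_two e D
  set c : Fin N → ℝ := fun i => if i ∈ D then 1 else 0 with hc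
  have hc0 : c ≠ 0 := by
    obtain ⟨x, hx⟩ := hne
    intro h
    have := congrFun h x
    simp [hc, hx] at this
  have hpos := hD c (fun i hi => by simp [hc, hi]) hc0
  have hsum : L n (comb e c) (comb e c) = (D.card : ℝ) + ∑ x ∈ D.offDiag, L n (e x.1) (e x.2) := by
    rw [L_comb_comb]
    have h1 : ∀ i j, c i * c j * L n (e i) (e j) =
        if i ∈ D then (if j ∈ D then L n (e i) (e j) else 0) else 0 := by
      intro i j
      simp only [hc]
      split_ifs <;> simp
    simp only [h1]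
    have h2 : ∀ i, (∑ j, if i ∈ D then (if j ∈ D then L n (e i) (e j) else 0) else 0) =
        if i ∈ D then (∑ j ∈ D, L n (e i) (e j)) else 0 := by
      intro i
      split_ifs
      · rw [Finset.sum_ite_mem, Finset.univ_inter]
      · simp
    simp only [h2]
    rw [Finset.sum_ite_mem, Finset.univ_inter, ← Finset.sum_product', ← Finset.diag_union_offDiag,
      Finset.sum_union (Finset.disjoint_diag_offDiag D), Finset.sum_diag]
    congr 1
    simp [hL.ac.unit]
  have hle : ∑ x ∈ D.offDiag, L n (e x.1) (e x.2) ≤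
      -(1 / 2) * ((D.offDiag.filter fun x => L n (e x.1) (e x.2) < 0).card : ℝ) := by
    rw [← Finset.sum_filter_add_sum_filter_not D.offDiag (fun x => L n (e x.1) (e x.2) < 0)]
    have h1 : ∑ x ∈ D.offDiag.filter (fun x => L n (e x.1) (e x.2) < 0), L n (e x.1) (e x.2) ≤
        ∑ x ∈ D.offDiag.filter (fun x => L n (e x.1) (e x.2) < 0), (-(1 / 2) : ℝ) := by
      refine Finset.sum_le_sum fun x hx => ?_
      rw [Finset.mem_filter, Finset.mem_offDiag] at hx
      exact wt_half hL hx.1.2.2 hx.2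
    have h2 : ∑ x ∈ D.offDiag.filter (fun x => ¬ L n (e x.1) (e x.2) < 0), L n (e x.1) (e x.2) ≤ 0 := by
      refine Finset.sum_nonpos fun x hx => ?_
      rw [Finset.mem_filter, Finset.mem_offDiag] at hx
      exact hL.ac.off _ _ hx.1.2.2
    rw [Finset.sum_const, nsmul_eq_mul] at h1
    linarith
  have htwo' : (2 : ℝ) * (((D.powersetCard 2).filter fun p => ∃ a b, a ≠ b ∧ p = {a, b} ∧
      L n (e a) (e b) < 0).card : ℝ) ≤
      ((D.offDiag.filter fun x => L n (e x.1) (e x.2) < 0).card : ℝ) := by exact_mod_cast htwo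
  have hfin : (((D.powersetCard 2).filter fun p => ∃ a b, a ≠ b ∧ p = {a, b} ∧
      L n (e a) (e b) < 0).card : ℝ) < (D.card : ℝ) := by
    rw [hsum] at hpos
    linarith
  have : ((D.powersetCard 2).filter fun p => ∃ a b, a ≠ b ∧ p = {a, b} ∧
      L n (e a) (e b) < 0).card < D.card := by exact_mod_cast hfin
  omega

private theorem corner_key (hL : Lab n N e) {D : Finset (Fin N)} (hD : Ell e D)
    {a b t a' b' t' : Fin N} (ha : a ∈ D) (hb : b ∈ D) (ht : t ∈ D) (hb' : b' ∈ D) (ht' : t' ∈ D)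
    (hab' : a' ≠ b') (h1 : L n (e a) (e t) = -(1 / 2))
    (h2 : L n (e t) (e b) = -(√2 / 2)) (h1' : L n (e a') (e t') = -(1 / 2))
    (h2' : L n (e t') (e b') = -(√2 / 2)) : t ≠ a' := by
  have hs := wt_sqrt2
  intro h
  subst h
  have htt : t ≠ t' := wt_ne hL (by rw [h1']; norm_num)
  have hbt : b ≠ t := (wt_ne hL (by rw [h2]; linarith)).symm
  have hbt' : t' ≠ b' := wt_ne hL (by rw [h2']; linarith)
  have hbt2 : b ≠ t' := by
    rintro rfl
    rw [h2] at h1'
    linarith
  have h3 : L n (e b) (e t) ≤ -(√2 / 2) := by rw [L_comm, h2]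
  by_cases hbb : b = b'
  · subst hbb
    exact loc_tri hL.ac hb ht ht' hbt htt hbt2 (by linarith) h1'.le
      (by rw [L_comm, h2']; linarith) hD
  · exact loc434 hL.ac hb ht ht' hb' hbt hbt2 hbb htt hab' hbt' h3 h1'.le h2'.le hD

private theorem corner_key2 (hL : Lab n N e) {D : Finset (Fin N)} (hD : Ell e D)
    {a b t a' b' t' : Fin N} (ha : a ∈ D) (hb : b ∈ D) (ht : t ∈ D) (hb' : b' ∈ D) (ht' : t' ∈ D)
    (hab : a ≠ b) (hab' : a' ≠ b') (h1 : L n (e a) (e t) = -(1 / 2))
    (h2 : L n (e t) (e b) = -(√2 / 2)) (h1' : L n (e a') (e t') = -(1 / 2))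
    (h2' : L n (e t') (e b') = -(√2 / 2)) (htt : t ≠ t') : a ≠ a' := by
  have hs := wt_sqrt2
  intro h
  subst h
  have hat : a ≠ t := wt_ne hL (by rw [h1]; norm_num)
  have hat' : a ≠ t' := wt_ne hL (by rw [h1']; norm_num)
  have hbt : t ≠ b := wt_ne hL (by rw [h2]; linarith)
  have hbt' : t' ≠ b' := wt_ne hL (by rw [h2']; linarith)
  by_cases hbb : b = b'
  · subst hbb
    exact loc44 hL.ac ht hb ht' hbt hbt'.symm htt h2.le (by rw [L_comm, h2']) hD
  by_cases hbt2 : b = t'
  · subst hbt2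
    exact loc_tri hL.ac ha ht hb hat hbt hab h1.le (by rw [h2]; linarith) h1'.le hD
  by_cases hbt3 : b' = t
  · subst hbt3
    exact loc_tri hL.ac ha ht' ht hat' hbt' hat h1'.le (by rw [h2']; linarith) h1.le hD
  exact loc4334 hL.ac hb ht ha ht' hb' hbt.symm hab.symm hbt2 hbb hat.symm htt
    (fun h => hbt3 h.symm) hat' hab' hbt' (by rw [L_comm, h2]) (by rw [L_comm, h1]) h1'.le h2'.le hD

private theorem corner_key3 (hL : Lab n N e) {D : Finset (Fin N)} (hD : Ell e D)
    {a b t a' b' : Fin N} (ha : a ∈ D) (hb : b ∈ D) (ht : t ∈ D) (ha' : a' ∈ D) (hb' : b' ∈ D)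
    (hab : a ≠ b) (hab' : a' ≠ b') (h1 : L n (e a) (e t) = -(1 / 2))
    (h2 : L n (e t) (e b) = -(√2 / 2)) (h1' : L n (e a') (e t) = -(1 / 2))
    (h2' : L n (e t) (e b') = -(√2 / 2)) : a = a' ∧ b = b' := by
  have hs := wt_sqrt2
  have hat : a ≠ t := wt_ne hL (by rw [h1]; norm_num)
  have hat' : a' ≠ t := wt_ne hL (by rw [h1']; norm_num)
  have hbt : t ≠ b := wt_ne hL (by rw [h2]; linarith)
  have hbt' : t ≠ b' := wt_ne hL (by rw [h2']; linarith)
  have hbb : b = b' := by
    by_contra hbb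
    exact loc44 hL.ac hb ht hb' hbt.symm hbt' hbb (by rw [L_comm, h2]) h2'.le hD
  subst hbb
  refine ⟨?_, rfl⟩
  by_contra haa
  exact loc4b hL.ac hb ht ha ha' hbt.symm hab.symm hab'.symm hat.symm hat'.symm haa
    (by rw [L_comm, h2]) (by rw [L_comm, h1]) (by rw [L_comm, h1']) hD

open Classical in
theorem corners_le (hL : Lab n N e) {D : Finset (Fin N)} (hD : Ell e D) :
    2 * ((D.powersetCard 2).filter fun p => ∃ a b, a ≠ b ∧ p = {a, b} ∧
      ∃ t ∈ D, L n (e a) (e t) = -(1 / 2) ∧ L n (e t) (e b) = -(√2 / 2)).card ≤ D.card := by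
  set C := (D.powersetCard 2).filter fun p => ∃ a b, a ≠ b ∧ p = {a, b} ∧
      ∃ t ∈ D, L n (e a) (e t) = -(1 / 2) ∧ L n (e t) (e b) = -(√2 / 2) with hC
  rcases D.eq_empty_or_nonempty with hDe | ⟨x0, -⟩
  · subst hDe
    have : C = ∅ := by
      rw [hC]
      simp
    rw [this]
    simp
  have hch : ∀ p : Finset (Fin N), ∃ q : Fin N × Fin N × Fin N, p ∈ C → q.1 ∈ D ∧ q.2.1 ∈ D ∧
      q.2.2 ∈ D ∧ q.1 ≠ q.2.1 ∧ p = {q.1, q.2.1} ∧ L n (e q.1) (e q.2.2) = -(1 / 2) ∧
      L n (e q.2.2) (e q.2.1) = -(√2 / 2) := by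
    intro p
    by_cases hp : p ∈ C
    · rw [hC, Finset.mem_filter, Finset.mem_powersetCard] at hp
      obtain ⟨⟨hpD, -⟩, a, b, hab, rfl, t, ht, h1, h2⟩ := hp
      exact ⟨(a, b, t), fun _ => ⟨hpD (by simp), hpD (by simp), ht, hab, rfl, h1, h2⟩⟩
    · exact ⟨(x0, x0, x0), fun h => absurd h hp⟩
  choose q hq using hch
  have hdisj : ∀ x ∈ C, ∀ y ∈ C, x ≠ y →
      Disjoint ({(q x).1, (q x).2.2} : Finset (Fin N)) {(q y).1, (q y).2.2} := by
    intro x hx y hy hxy
    obtain ⟨xa, xb, xt, xab, xe, x1, x2⟩ := hq x hx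
    obtain ⟨ya, yb, yt, yab, ye, y1, y2⟩ := hq y hy
    have k1 := corner_key hL hD xa xb xt yb yt yab x1 x2 y1 y2
    have k2 := corner_key hL hD ya yb yt xb xt xab y1 y2 x1 x2
    have k3 : (q x).2.2 ≠ (q y).2.2 := by
      intro h
      rw [← h] at y1 y2
      have := corner_key3 hL hD xa xb xt ya yb xab yab x1 x2 y1 y2
      apply hxy
      rw [xe, ye, this.1, this.2]
    have k4 := corner_key2 hL hD xa xb xt yb yt xab yab x1 x2 y1 y2 k3
    rw [Finset.disjoint_left]
    intro z hz hz2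
    rw [Finset.mem_insert, Finset.mem_singleton] at hz hz2
    rcases hz with rfl | rfl
    · rcases hz2 with h | h
      · exact k4 h
      · exact k2 h.symm
    · rcases hz2 with h | h
      · exact k1 h
      · exact k3 h
  have hcard := Finset.card_biUnion hdisj
  have h2 : ∀ x ∈ C, ({(q x).1, (q x).2.2} : Finset (Fin N)).card = 2 := by
    intro x hx
    obtain ⟨xa, xb, xt, xab, xe, x1, x2⟩ := hq x hx
    exact Finset.card_pair (wt_ne hL (by rw [x1]; norm_num))
  rw [Finset.sum_congr rfl h2, Finset.sum_const, smul_eq_mul, mul_comm] at hcard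
  rw [← hcard]
  apply Finset.card_le_card
  intro z hz
  rw [Finset.mem_biUnion] at hz
  obtain ⟨x, hx, hz⟩ := hz
  obtain ⟨xa, xb, xt, xab, xe, x1, x2⟩ := hq x hx
  rw [Finset.mem_insert, Finset.mem_singleton] at hz
  rcases hz with rfl | rfl
  · exact xa
  · exact xt

open Classical in
theorem good_le (hL : Lab n N e) {D : Finset (Fin N)} (hD : Ell e D) (hne : D.Nonempty) :
    ((D.powersetCard 2).filter fun p => Good e D p).card ≤ (D.card - 1) + D.card / 2 := by
  have h1 := edges_lt hL hD hne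
  have h2 := corners_le hL hD
  have hsub : ((D.powersetCard 2).filter fun p => Good e D p) ⊆
      ((D.powersetCard 2).filter fun p => ∃ a b, a ≠ b ∧ p = {a, b} ∧ L n (e a) (e b) < 0) ∪
      ((D.powersetCard 2).filter fun p => ∃ a b, a ≠ b ∧ p = {a, b} ∧
        ∃ t ∈ D, L n (e a) (e t) = -(1 / 2) ∧ L n (e t) (e b) = -(√2 / 2)) := by
    intro p hp
    rw [Finset.mem_filter] at hp
    rw [Finset.mem_union, Finset.mem_filter, Finset.mem_filter]
    obtain ⟨hp1, a, b, hab, hpe, h | h⟩ := hp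
    · exact Or.inl ⟨hp1, a, b, hab, hpe, h⟩
    · exact Or.inr ⟨hp1, a, b, hab, hpe, h⟩
  have h3 := (Finset.card_le_card hsub).trans (Finset.card_union_le _ _)
  omega

open Classical in
theorem good_le_sl (hL : Lab n N e) (hs : ∀ i j, i ≠ j → L n (e i) (e j) ≠ -(√2 / 2))
    {D : Finset (Fin N)} (hD : Ell e D) (hne : D.Nonempty) :
    ((D.powersetCard 2).filter fun p => Good e D p).card ≤ D.card - 1 := by
  have h1 := edges_lt hL hD hne
  have hsub : ((D.powersetCard 2).filter fun p => Good e D p) ⊆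
      ((D.powersetCard 2).filter fun p => ∃ a b, a ≠ b ∧ p = {a, b} ∧ L n (e a) (e b) < 0) := by
    intro p hp
    rw [Finset.mem_filter] at hp
    rw [Finset.mem_filter]
    obtain ⟨hp1, a, b, hab, hpe, h | ⟨t, ht, h3, h4⟩⟩ := hp
    · exact ⟨hp1, a, b, hab, hpe, h⟩
    · exfalso
      have h5 := wt_sqrt2
      exact hs t b (wt_ne hL (by rw [h4]; linarith)) h4
  have h3 := Finset.card_le_card hsub
  omega

end Pool.Agent.Work.MP_f6469e_gt
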