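import Pool.Agent.Work.MP_f6469e_gt.CDefs

/-!
# Module CntB (S-M): double counting of the pairs (2-face, vertex)

The pairs `(T, D)`, `T ∈ faces`, `D ∈ vertsOn T`, correspond to the pairs `(D, p)`, `D ∈ verts`, `p ∈ D.powersetCard 2`, by `p = D \ T`, `T = D \ p`
(`D \ p` is in `E` by `down`). `Finset.sum_sigma'` and `Finset.sum_bij'`; `cntB` is the case `g = 1` (`Finset.card_powersetCard`).
-/

set_option autoImplicit false

namespace Pool.Agent.Work.MP_f6469e_gt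

variable {ι : Type} [DecidableEq ι] [Fintype ι] {n : ℕ} {E : Finset ι → Prop}


theorem cntB_sum (hE : Cx n E) (hn : 2 ≤ n) (g : Finset ι → Finset ι → ℕ) :
    ∑ T ∈ faces n E, ∑ D ∈ vertsOn n E T, g D (D \ T) =
      ∑ D ∈ verts n E, ∑ p ∈ D.powersetCard 2, g D p := by
  rw [Finset.sum_sigma', Finset.sum_sigma']
  refine Finset.sum_bij' (fun x _ => ⟨x.2, x.2 \ x.1⟩) (fun x _ => ⟨x.1 \ x.2, x.1⟩)
    ?_ ?_ ?_ ?_ ?_
  · rintro ⟨T, D⟩ h
    simp only [Finset.mem_sigma, faces, vertsOn, verts, Finset.mem_filter, Finset.mem_univ,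
      true_and, Finset.mem_powersetCard] at h ⊢
    obtain ⟨⟨hT, hTc⟩, ⟨hD, hDc⟩, hTD⟩ := h
    refine ⟨⟨hD, hDc⟩, Finset.sdiff_subset, ?_⟩
    rw [Finset.card_sdiff_of_subset hTD]
    omega
  · rintro ⟨D, p⟩ h
    simp only [Finset.mem_sigma, faces, vertsOn, verts, Finset.mem_filter, Finset.mem_univ,
      true_and, Finset.mem_powersetCard] at h ⊢
    obtain ⟨⟨hD, hDc⟩, hp, hpc⟩ := h
    refine ⟨⟨hE.down _ _ hD Finset.sdiff_subset, ?_⟩, ⟨hD, hDc⟩, Finset.sdiff_subset⟩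
    rw [Finset.card_sdiff_of_subset hp]
    omega
  · rintro ⟨T, D⟩ h
    simp only [Finset.mem_sigma, faces, vertsOn, verts, Finset.mem_filter, Finset.mem_univ,
      true_and] at h
    obtain ⟨⟨hT, hTc⟩, ⟨hD, hDc⟩, hTD⟩ := h
    simp only [Finset.sdiff_sdiff_eq_self hTD]
  · rintro ⟨D, p⟩ h
    simp only [Finset.mem_sigma, verts, Finset.mem_filter, Finset.mem_univ,
      true_and, Finset.mem_powersetCard] at h
    obtain ⟨⟨hD, hDc⟩, hp, hpc⟩ := h
    simp only [Finset.sdiff_sdiff_eq_self hp]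
  · rintro ⟨T, D⟩ _
    rfl

theorem cntB (hE : Cx n E) (hn : 2 ≤ n) :
    ∑ T ∈ faces n E, (vertsOn n E T).card = (verts n E).card * n.choose 2 := by
  have h := cntB_sum hE hn (fun _ _ => 1)
  simp only [Finset.sum_const, smul_eq_mul, mul_one, Finset.card_powersetCard] at h
  rw [h, Finset.sum_congr rfl (g := fun _ => n.choose 2), Finset.sum_const, smul_eq_mul]
  intro D hD
  simp only [verts, Finset.mem_filter, Finset.mem_univ, true_and] at hD
  rw [hD.2]

end Pool.Agent.Work.MP_f6469e_gt
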