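import Pool.Agent.Work.MP_f6469e_gt.CDefs

/-!
# Module CntC (M-L): the number of 2-faces by the directions of the edges

For `D ∈ verts` and `a ∈ D` let `nb D a` be the other vertex containing `D \ {a}` (`two`). `r (nb D a) ≠ r D` (`inj`). Let `low D` be the set of the `a ∈ D` with
`r (nb D a) < r D` and `d D = (low D).card`; the number of the other elements is `n - d D`.
For a 2-face `T` the function `r` has a unique maximum `D` on `vertsOn T` (not empty, `grow`); both neighbours of `D` over `T` are lower. Conversely a vertex `D` over `T` with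
`D \ T ⊆ low D` is the maximum by `tmax`. So `T ↦ (D, D \ T)` is a bijection from `faces` to the pairs `(D, p)`, `D ∈ verts`, `p` a subset of `low D` with two
elements, which gives `faces.card = ∑ (d D).choose 2`; with minima (`tmin`) we get the last formula. The vertex with the greatest `r` has `low D = D`, `d D = n`
(`verts` is not empty by `emp`, `grow`).
-/

set_option autoImplicit false

namespace Pool.Agent.Work.MP_f6469e_gt

variable {ι : Type} [DecidableEq ι] [Fintype ι] {n : ℕ} {E : Finset ι → Prop}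


private theorem mem_verts' {D : Finset ι} : D ∈ verts n E ↔ E D ∧ D.card = n := by
  simp only [verts, Finset.mem_filter, Finset.mem_univ, true_and]

private theorem mem_faces' {T : Finset ι} : T ∈ faces n E ↔ E T ∧ T.card + 2 = n := by
  simp only [faces, Finset.mem_filter, Finset.mem_univ, true_and]

private theorem mem_vertsOn' {T D : Finset ι} : D ∈ vertsOn n E T ↔ E D ∧ D.card = n ∧ T ⊆ D := by
  simp only [vertsOn, verts, Finset.mem_filter, Finset.mem_univ, true_and, and_assoc]

omit [Fintype ι] in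
private theorem extend (hE : Cx n E) : ∀ (m : ℕ) (S : Finset ι), E S → S.card + m = n →
    ∃ D, S ⊆ D ∧ E D ∧ D.card = n := by
  intro m
  induction m with
  | zero => exact fun S hS hc => ⟨S, Finset.Subset.refl _, hS, by omega⟩
  | succ m ih =>
    intro S hS hc
    obtain ⟨j, hj, hEj⟩ := hE.grow S hS (by omega)
    obtain ⟨D, h1, h2, h3⟩ := ih (insert j S) hEj (by
      rw [Finset.card_insert_of_notMem hj]
      omega)
    exact ⟨D, (Finset.subset_insert _ _).trans h1, h2, h3⟩

omit [Fintype ι] in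
private theorem other (hE : Cx n E) {S : Finset ι} (hS : S.card + 1 = n) {a : ι} (ha : a ∉ S)
    (h : E (insert a S)) : ∃ a', a' ≠ a ∧ a' ∉ S ∧ E (insert a' S) ∧
      ∀ j, j ∉ S → E (insert j S) → j = a ∨ j = a' := by
  obtain ⟨p, q, hpq, hp, hq, hEp, hEq, hu⟩ := hE.two S (hE.down _ _ h (Finset.subset_insert _ _)) hS
  rcases hu a ha h with rfl | rfl
  · exact ⟨q, hpq.symm, hq, hEq, hu⟩
  · exact ⟨p, hpq, hp, hEp, fun j hj hEj => (hu j hj hEj).symm⟩

/-- the neighbour across `a` -/
private def Nb (E : Finset ι → Prop) (D : Finset ι) (a a' : ι) : Prop :=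
  a' ≠ a ∧ a' ∉ D.erase a ∧ E (insert a' (D.erase a))

open Classical in
/-- the directions in which `r` decreases -/
private noncomputable def low (E : Finset ι → Prop) (r : Finset ι → ℝ) (D : Finset ι) : Finset ι :=
  D.filter fun a => ∃ a', Nb E D a a' ∧ r (insert a' (D.erase a)) < r D

omit [Fintype ι] in
private theorem nb_exists (hE : Cx n E) {D : Finset ι} (hD : E D) (hc : D.card = n) {a : ι}
    (ha : a ∈ D) : ∃ a', Nb E D a a' ∧ (insert a' (D.erase a)).card = n ∧
      insert a' (D.erase a) ≠ D ∧ ∀ j, Nb E D a j → j = a' := by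
  have hpos : 0 < D.card := Finset.card_pos.mpr ⟨a, ha⟩
  have h1 : (D.erase a).card + 1 = n := by
    rw [Finset.card_erase_of_mem ha]
    omega
  have h2 : a ∉ D.erase a := Finset.notMem_erase _ _
  obtain ⟨a', h3, h4, h5, h6⟩ := other hE h1 h2 (by rwa [Finset.insert_erase ha])
  refine ⟨a', ⟨h3, h4, h5⟩, ?_, ?_, ?_⟩
  · rw [Finset.card_insert_of_notMem h4]
    exact h1
  · intro h
    have : a ∈ insert a' (D.erase a) := by
      rw [h]
      exact ha
    rw [Finset.mem_insert] at this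
    rcases this with h | h
    · exact h3 h.symm
    · exact h2 h
  · rintro j ⟨h7, h8, h9⟩
    rcases h6 j h8 h9 with h | h
    · exact absurd h h7
    · exact h

omit [Fintype ι] in
private theorem morse_neg {r : Finset ι → ℝ} (hr : IsMorse n E r) :
    IsMorse n E (fun D => -r D) := by
  refine ⟨fun D D' h1 h2 h3 h4 h5 => hr.inj D D' h1 h2 h3 h4 (neg_injective h5), ?_, ?_⟩
  · intro T a b a' b' h1 h2 h3 h4 h5 h6 h7 h8 h9 h10 h11 h12 h13 D h14 h15 h16
    exact neg_le_neg (hr.tmin T a b a' b' h1 h2 h3 h4 h5 h6 h7 h8 h9 h10 h11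
      (neg_lt_neg_iff.mp h12) (neg_lt_neg_iff.mp h13) D h14 h15 h16)
  · intro T a b a' b' h1 h2 h3 h4 h5 h6 h7 h8 h9 h10 h11 h12 h13 D h14 h15 h16
    exact neg_le_neg (hr.tmax T a b a' b' h1 h2 h3 h4 h5 h6 h7 h8 h9 h10 h11
      (neg_lt_neg_iff.mp h12) (neg_lt_neg_iff.mp h13) D h14 h15 h16)

private theorem low_max {r : Finset ι → ℝ} (hr : IsMorse n E r)
    {D p : Finset ι} (hD : E D) (hc : D.card = n) (hp : p ⊆ low E r D) (hpc : p.card = 2)
    {D' : Finset ι} (h1 : D \ p ⊆ D') (h2 : E D') (h3 : D'.card = n) : r D' ≤ r D := by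
  classical
  have hlow : low E r D ⊆ D := Finset.filter_subset _ _
  obtain ⟨a, b, hab, rfl⟩ := Finset.card_eq_two.mp hpc
  have haD : a ∈ D := hlow (hp (by simp))
  have hbD : b ∈ D := hlow (hp (by simp))
  have ha : ∃ a', Nb E D a a' ∧ r (insert a' (D.erase a)) < r D :=
    (Finset.mem_filter.mp (hp (by simp : a ∈ ({a, b} : Finset ι)))).2
  have hb : ∃ a', Nb E D b a' ∧ r (insert a' (D.erase b)) < r D :=
    (Finset.mem_filter.mp (hp (by simp : b ∈ ({a, b} : Finset ι)))).2
  obtain ⟨a', ⟨k1, k2, k3⟩, k4⟩ := ha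
  obtain ⟨b', ⟨l1, l2, l3⟩, l4⟩ := hb
  have haT : a ∉ D \ {a, b} := by simp
  have hbT : b ∉ D \ {a, b} := by simp
  have ea : D.erase a = insert b (D \ {a, b}) := by
    ext x
    simp only [Finset.mem_erase, Finset.mem_insert, Finset.mem_sdiff, Finset.mem_singleton, not_or]
    constructor
    · rintro ⟨h4, h5⟩
      by_cases hx : x = b
      · exact Or.inl hx
      · exact Or.inr ⟨h5, h4, hx⟩
    · rintro (rfl | ⟨h4, h5, h6⟩)
      · exact ⟨hab.symm, hbD⟩
      · exact ⟨h5, h4⟩
  have eb : D.erase b = insert a (D \ {a, b}) := by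
    ext x
    simp only [Finset.mem_erase, Finset.mem_insert, Finset.mem_sdiff, Finset.mem_singleton, not_or]
    constructor
    · rintro ⟨h4, h5⟩
      by_cases hx : x = a
      · exact Or.inl hx
      · exact Or.inr ⟨h5, hx, h4⟩
    · rintro (rfl | ⟨h4, h5, h6⟩)
      · exact ⟨hab, haD⟩
      · exact ⟨h6, h4⟩
  have eD : insert a (insert b (D \ {a, b})) = D := by
    rw [← ea, Finset.insert_erase haD]
  have hTc : (D \ {a, b}).card + 2 = n := by
    have h4 : ({a, b} : Finset ι) ⊆ D := fun x hx => hlow (hp hx)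
    have h5 := Finset.card_sdiff_add_card_eq_card h4
    rw [hpc] at h5
    rw [h5, hc]
  rw [ea] at k2 k3 k4
  rw [eb] at l2 l3 l4
  have h6 := hr.tmax (D \ {a, b}) a b a' b' hTc hab haT hbT k2 l2 k1 l1
  rw [eD] at h6
  exact h6 hD k3 l3 k4 l4 D' h1 h2 h3

private theorem faces_card (hE : Cx n E) {r : Finset ι → ℝ} (hr : IsMorse n E r) :
    (faces n E).card = ∑ D ∈ verts n E, (low E r D).card.choose 2 := by
  classical
  have e1 : ∑ D ∈ verts n E, (low E r D).card.choose 2 =
      ((verts n E).sigma fun D => (low E r D).powersetCard 2).card := by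
    rw [Finset.card_sigma]
    refine Finset.sum_congr rfl fun D _ => ?_
    rw [Finset.card_powersetCard]
  rw [e1]
  symm
  refine Finset.card_bij (fun x _ => x.1 \ x.2) ?_ ?_ ?_
  · rintro ⟨D, p⟩ h
    rw [Finset.mem_sigma, mem_verts', Finset.mem_powersetCard] at h
    obtain ⟨⟨hD, hc⟩, hp, hpc⟩ := h
    have hlow : low E r D ⊆ D := Finset.filter_subset _ _
    rw [mem_faces']
    refine ⟨hE.down _ _ hD Finset.sdiff_subset, ?_⟩
    have h5 : (D \ p).card + p.card = D.card :=
      Finset.card_sdiff_add_card_eq_card (hp.trans hlow)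
    have h6 : p.card = 2 := hpc
    have h7 : D.card = n := hc
    show (D \ p).card + 2 = n
    omega
  · rintro ⟨D, p⟩ h ⟨D', p'⟩ h' heq
    rw [Finset.mem_sigma, mem_verts', Finset.mem_powersetCard] at h h'
    obtain ⟨⟨hD, hc⟩, hp, hpc⟩ := h
    obtain ⟨⟨hD', hc'⟩, hp', hpc'⟩ := h'
    simp only at hD hc hp hpc hD' hc' hp' hpc' heq
    have hlow : low E r D ⊆ D := Finset.filter_subset _ _
    have hlow' : low E r D' ⊆ D' := Finset.filter_subset _ _
    have h1 : r D' ≤ r D := low_max hr hD hc hp hpc (by rw [heq]; exact Finset.sdiff_subset) hD' hc'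
    have h2 : r D ≤ r D' :=
      low_max hr hD' hc' hp' hpc' (by rw [← heq]; exact Finset.sdiff_subset) hD hc
    have h3 : D = D' := hr.inj D D' hD hD' hc hc' (le_antisymm h2 h1)
    subst h3
    have h4 : p = p' := by
      rw [← Finset.sdiff_sdiff_eq_self (hp.trans hlow), heq,
        Finset.sdiff_sdiff_eq_self (hp'.trans hlow')]
    subst h4
    rfl
  · intro T hT
    rw [mem_faces'] at hT
    obtain ⟨hT, hTc⟩ := hT
    obtain ⟨D0, k1, k2, k3⟩ := extend hE 2 T hT hTc
    obtain ⟨D, hDm, hmax⟩ := (vertsOn n E T).exists_max_image r ⟨D0, mem_vertsOn'.mpr ⟨k2, k3, k1⟩⟩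
    rw [mem_vertsOn'] at hDm
    obtain ⟨hD, hc, hTD⟩ := hDm
    refine ⟨⟨D, D \ T⟩, ?_, Finset.sdiff_sdiff_eq_self hTD⟩
    rw [Finset.mem_sigma, mem_verts', Finset.mem_powersetCard]
    refine ⟨⟨hD, hc⟩, ?_, ?_⟩
    · intro a ha
      simp only [Finset.mem_sdiff] at ha
      obtain ⟨haD, haT⟩ := ha
      obtain ⟨a', h1, h2, h3, _⟩ := nb_exists hE hD hc haD
      refine Finset.mem_filter.mpr ⟨haD, a', h1, ?_⟩
      refine lt_of_le_of_ne (hmax _ (mem_vertsOn'.mpr ⟨h1.2.2, h2, ?_⟩)) ?_
      · intro x hx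
        refine Finset.mem_insert_of_mem (Finset.mem_erase.mpr ⟨?_, hTD hx⟩)
        rintro rfl
        exact haT hx
      · intro h
        exact h3 (hr.inj _ _ h1.2.2 hD h2 hc h)
    · simp only
      rw [Finset.card_sdiff_of_subset hTD]
      omega

private theorem low_neg (hE : Cx n E) {r : Finset ι → ℝ} (hr : IsMorse n E r) {D : Finset ι}
    (hD : E D) (hc : D.card = n) :
    (low E (fun D => -r D) D).card = n - (low E r D).card := by
  classical
  have h1 : low E (fun D => -r D) D = D \ low E r D := by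
    ext a
    rw [Finset.mem_sdiff]
    constructor
    · intro h
      obtain ⟨haD, a', h2, h3⟩ := Finset.mem_filter.mp h
      refine ⟨haD, fun h4 => ?_⟩
      obtain ⟨_, a'', h5, h6⟩ := Finset.mem_filter.mp h4
      obtain ⟨b, _, _, _, hb⟩ := nb_exists hE hD hc haD
      have e1 := hb _ h2
      have e2 := hb _ h5
      subst e1
      subst e2
      exact absurd (neg_lt_neg_iff.mp h3) (not_lt.mpr h6.le)
    · rintro ⟨haD, hn⟩
      obtain ⟨a', h1, h2, h3, _⟩ := nb_exists hE hD hc haD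
      refine Finset.mem_filter.mpr ⟨haD, a', h1, ?_⟩
      refine neg_lt_neg (lt_of_le_of_ne (not_lt.mp fun h4 => ?_) fun h4 => ?_)
      · exact hn (Finset.mem_filter.mpr ⟨haD, a', h1, h4⟩)
      · exact h3 (hr.inj _ _ h1.2.2 hD h2 hc h4.symm)
  have h2 : low E r D ⊆ D := Finset.filter_subset _ _
  rw [h1, Finset.card_sdiff_of_subset h2, hc]

theorem cntC (hE : Cx n E) {r : Finset ι → ℝ} (hr : IsMorse n E r) (hn : 2 ≤ n) :
    ∃ d : Finset ι → ℕ, (∀ D ∈ verts n E, d D ≤ n) ∧ (∃ D ∈ verts n E, d D = n) ∧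
      (faces n E).card = ∑ D ∈ verts n E, (d D).choose 2 ∧
      (faces n E).card = ∑ D ∈ verts n E, (n - d D).choose 2 := by
  classical
  refine ⟨fun D => (low E r D).card, ?_, ?_, faces_card hE hr, ?_⟩
  · intro D hD
    rw [mem_verts'] at hD
    rw [← hD.2]
    exact Finset.card_le_card (Finset.filter_subset _ _)
  · obtain ⟨D0, _, k2, k3⟩ := extend hE n ∅ hE.emp (by rw [Finset.card_empty, zero_add])
    obtain ⟨D, hDm, hmax⟩ := (verts n E).exists_max_image r ⟨D0, mem_verts'.mpr ⟨k2, k3⟩⟩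
    refine ⟨D, hDm, ?_⟩
    rw [mem_verts'] at hDm
    obtain ⟨hD, hc⟩ := hDm
    have h1 : low E r D = D := by
      refine Finset.Subset.antisymm (Finset.filter_subset _ _) fun a haD => ?_
      obtain ⟨a', h1, h2, h3, _⟩ := nb_exists hE hD hc haD
      refine Finset.mem_filter.mpr ⟨haD, a', h1, ?_⟩
      refine lt_of_le_of_ne (hmax _ (mem_verts'.mpr ⟨h1.2.2, h2⟩)) fun h => ?_
      exact h3 (hr.inj _ _ h1.2.2 hD h2 hc h)
    show (low E r D).card = n
    rw [h1, hc]
  · rw [faces_card hE (morse_neg hr)]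
    refine Finset.sum_congr rfl fun D hD => ?_
    rw [mem_verts'] at hD
    rw [low_neg hE hr hD.1 hD.2]

end Pool.Agent.Work.MP_f6469e_gt
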