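import Pool.Agent.Work.MP_f6469e_gt.CntA
import Pool.Agent.Work.MP_f6469e_gt.CntB
import Pool.Agent.Work.MP_f6469e_gt.CntC

/-!
# Module CntD (S-M): the main inequality

`f₀ = verts.card > 0`, `f₂ = faces.card`, `m = (n/2).choose 2 + ((n+1)/2).choose 2`. For `d ≤ n`: `m ≤ d.choose 2 + (n - d).choose 2`, with strict inequality for `d = n`
(`n ≥ 2`): by convexity of `d ↦ d (d - 1) / 2` (`2 (d.choose 2) + 2 ((n - d).choose 2) = d² + (n-d)² - n`). So `f₀ m < 2 f₂` by `cntC`. By `cntA`, `cntB`, `cntB_sum`: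
`5 u f₂ ≤ u f₀ (n.choose 2) + ∑_D ∑_p g D p ≤ f₀ (u (n.choose 2) + w)`. So `5 u f₀ m < 10 u f₂ ≤ 2 f₀ (u (n.choose 2) + w)`; divide by `f₀`.
-/

set_option autoImplicit false

namespace Pool.Agent.Work.MP_f6469e_gt

variable {ι : Type} [DecidableEq ι] [Fintype ι] {n : ℕ} {E : Finset ι → Prop}

private theorem two_mul_choose (k : ℕ) : (2 : ℤ) * (k.choose 2 : ℤ) = k * (k - 1) := by
  have h : (k.choose 2 : ℚ) = k * (k - 1) / 2 := Nat.cast_choose_two ℚ k
  have h2 : (2 : ℚ) * (k.choose 2 : ℚ) = k * (k - 1) := by rw [h]; ring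
  exact_mod_cast h2

private theorem conv_aux {n d h h' : ℕ} (hd : d ≤ n) (e : h + h' = n) (h1 : h ≤ h')
    (h2 : h' ≤ h + 1) : h.choose 2 + h'.choose 2 ≤ d.choose 2 + (n - d).choose 2 ∧
      (1 ≤ h → d = n → h.choose 2 + h'.choose 2 < d.choose 2 + (n - d).choose 2) := by
  obtain ⟨c, rfl⟩ := Nat.exists_eq_add_of_le hd
  have ec : d + c - d = c := by omega
  rw [ec]
  have e' : (h : ℤ) + h' = d + c := by exact_mod_cast e
  have a1 := two_mul_choose h
  have a2 := two_mul_choose h'
  have a3 := two_mul_choose d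
  have a4 := two_mul_choose c
  have hp : (0 : ℤ) ≤ ((d : ℤ) - h) * (d - h') := by
    rcases le_or_gt d h with h3 | h3
    · have b1 : (d : ℤ) - h ≤ 0 := by have : (d : ℤ) ≤ h := by exact_mod_cast h3
                                      linarith
      have b2 : (d : ℤ) - h' ≤ 0 := by have : (d : ℤ) ≤ h' := by exact_mod_cast h3.trans h1
                                       linarith
      exact mul_nonneg_of_nonpos_of_nonpos b1 b2
    · have b1 : (0 : ℤ) ≤ (d : ℤ) - h := by have : (h : ℤ) ≤ d := by exact_mod_cast h3.le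
                                            linarith
      have b2 : (0 : ℤ) ≤ (d : ℤ) - h' := by
        have : (h' : ℤ) ≤ d := by exact_mod_cast h2.trans h3
        linarith
      exact mul_nonneg b1 b2
  have ec' : (c : ℤ) = h + h' - d := by linarith
  have hid : (2 : ℤ) * ((d.choose 2 : ℤ) + c.choose 2 - (h.choose 2 + h'.choose 2)) =
      2 * (((d : ℤ) - h) * (d - h')) := by
    have : (2 : ℤ) * ((d.choose 2 : ℤ) + c.choose 2 - (h.choose 2 + h'.choose 2)) =
      d * (d - 1) + c * (c - 1) - (h * (h - 1) + h' * (h' - 1)) := by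
      linear_combination a3 + a4 - a1 - a2
    rw [this, ec']
    ring
  constructor
  · have : ((h.choose 2 + h'.choose 2 : ℕ) : ℤ) ≤ ((d.choose 2 + c.choose 2 : ℕ) : ℤ) := by
      push_cast
      linarith
    exact_mod_cast this
  · intro h3 h4
    have hc0 : c = 0 := by omega
    have b1 : (0 : ℤ) < (d : ℤ) - h := by
      have : h < d := by omega
      have : (h : ℤ) < d := by exact_mod_cast this
      linarith
    have b2 : (0 : ℤ) < (d : ℤ) - h' := by
      have : h' < d := by omega
      have : (h' : ℤ) < d := by exact_mod_cast this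
      linarith
    have hp' := mul_pos b1 b2
    have : ((h.choose 2 + h'.choose 2 : ℕ) : ℤ) < ((d.choose 2 + c.choose 2 : ℕ) : ℤ) := by
      push_cast
      linarith
    exact_mod_cast this

theorem count (hE : Cx n E) {r : Finset ι → ℝ} (hr : IsMorse n E r) (hn : 2 ≤ n) {u : ℕ}
    (hu : 0 < u) {g : Finset ι → Finset ι → ℕ} (hg : GoodSys n E u g) {w : ℕ}
    (hw : ∀ D, E D → D.card = n → ∑ p ∈ D.powersetCard 2, g D p ≤ w) :
    5 * u * ((n / 2).choose 2 + ((n + 1) / 2).choose 2) < 2 * (u * n.choose 2 + w) := by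
  classical
  obtain ⟨d, hd, ⟨D₀, hD₀, hd₀⟩, h1, h2⟩ := cntC hE hr hn
  set m := (n / 2).choose 2 + ((n + 1) / 2).choose 2 with hm
  have hconv := fun D (hD : D ∈ verts n E) => conv_aux (h := n / 2) (h' := (n + 1) / 2)
    (hd D hD) (by omega) (by omega) (by omega)
  have hf : (verts n E).card * m < 2 * (faces n E).card := by
    have e : 2 * (faces n E).card = ∑ D ∈ verts n E, ((d D).choose 2 + (n - d D).choose 2) := by
      rw [Finset.sum_add_distrib, ← h1, ← h2, two_mul]
    rw [e, ← smul_eq_mul, ← Finset.sum_const]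
    refine Finset.sum_lt_sum (fun D hD => (hconv D hD).1) ⟨D₀, hD₀, ?_⟩
    exact (hconv D₀ hD₀).2 (by omega) hd₀
  have hA : 5 * u * (faces n E).card ≤ (verts n E).card * (u * n.choose 2 + w) := by
    have e1 : 5 * u * (faces n E).card = ∑ T ∈ faces n E, 5 * u := by
      rw [Finset.sum_const, smul_eq_mul, mul_comm]
    have e2 : ∑ T ∈ faces n E, 5 * u ≤
        ∑ T ∈ faces n E, (u * (vertsOn n E T).card + ∑ D ∈ vertsOn n E T, g D (D \ T)) := by
      refine Finset.sum_le_sum fun T hT => ?_
      rw [faces, Finset.mem_filter] at hT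
      exact cntA hE hg hT.2.1 hT.2.2
    rw [Finset.sum_add_distrib, ← Finset.mul_sum (faces n E) (fun T => (vertsOn n E T).card) u,
      cntB hE hn, cntB_sum hE hn] at e2
    have e3 : ∑ D ∈ verts n E, ∑ p ∈ D.powersetCard 2, g D p ≤ (verts n E).card * w := by
      rw [← smul_eq_mul, ← Finset.sum_const]
      refine Finset.sum_le_sum fun D hD => ?_
      rw [verts, Finset.mem_filter] at hD
      exact hw D hD.2.1 hD.2.2
    rw [e1]
    calc ∑ T ∈ faces n E, 5 * u ≤ _ := e2
      _ ≤ u * ((verts n E).card * n.choose 2) + (verts n E).card * w := by gcongr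
      _ = _ := by ring
  have hlt : (verts n E).card * (5 * u * m) < (verts n E).card * (2 * (u * n.choose 2 + w)) := by
    calc (verts n E).card * (5 * u * m) = 5 * u * ((verts n E).card * m) := by ring
      _ < 5 * u * (2 * (faces n E).card) := by
        apply Nat.mul_lt_mul_of_pos_left hf
        positivity
      _ = 2 * (5 * u * (faces n E).card) := by ring
      _ ≤ 2 * ((verts n E).card * (u * n.choose 2 + w)) := by gcongr
      _ = _ := by ring
  exact lt_of_mul_lt_mul_left hlt (Nat.zero_le _)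

end Pool.Agent.Work.MP_f6469e_gt
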