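import Pool.Agent.Work.MP_f6469e_gt.Lor

/-!
# Module Ind (S-M): facets through a point are independent

Let `c` be supported on `S`, `c ≠ 0`, `u = comb e c`; `L n x u = 0`. If `u ≠ 0` then `0 < L n u u` by `L_pos_of_orth`. Let `u = 0`.
Put `p = comb e c⁺ = comb e c⁻` (positive and negative parts). `L n p p = ∑∑ c⁺ i * c⁻ j * L n (e i) (e j) ≤ 0` (disjoint supports), and
`L n x p = 0`, so `p = 0` by `L_pos_of_orth`. With the interior point `x₀`: `0 = L n x₀ p = ∑ c⁺ i L n x₀ (e i)`, all terms `≤ 0`, so `c⁺ = 0`; in the same way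
`c⁻ = 0`, so `c = 0`, a contradiction.
-/

set_option autoImplicit false

namespace Pool.Agent.Work.MP_f6469e_gt

variable {n N : ℕ} {e : Fin N → (Fin (n + 1) → ℝ)}


private theorem ind_cross (hoff : ∀ i j, i ≠ j → L n (e i) (e j) ≤ 0) {a b : Fin N → ℝ}
    (ha : ∀ i, 0 ≤ a i) (hb : ∀ i, 0 ≤ b i) (hab : ∀ i, a i * b i = 0) :
    L n (comb e a) (comb e b) ≤ 0 := by
  rw [L_comb_comb]
  refine Finset.sum_nonpos fun i _ => Finset.sum_nonpos fun j _ => ?_
  by_cases hij : i = j
  · subst hij
    rw [hab, zero_mul]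
  · exact mul_nonpos_of_nonneg_of_nonpos (mul_nonneg (ha i) (hb j)) (hoff i j hij)

private theorem ind_split (c : Fin N → ℝ) :
    c = (fun i => max (c i) 0) - fun i => max (-c i) 0 := by
  funext i
  rw [Pi.sub_apply]
  rcases le_total 0 (c i) with h | h
  · rw [max_eq_left h, max_eq_right (by linarith)]
    ring
  · rw [max_eq_right h, max_eq_left (by linarith)]
    ring

private theorem ind_disj (c : Fin N → ℝ) (i : Fin N) : max (-c i) 0 * max (c i) 0 = 0 := by
  rcases le_total 0 (c i) with h | h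
  · rw [max_eq_right (by linarith : -c i ≤ 0), zero_mul]
  · rw [max_eq_right h, mul_zero]

private theorem ind_zero (hP : Acute n N e) {a : Fin N → ℝ} (ha : ∀ i, 0 ≤ a i)
    (h : comb e a = 0) : a = 0 := by
  obtain ⟨x₀, -, -, h1⟩ := hP.inner
  have h2 : L n x₀ (comb e a) = 0 := by rw [h, L_zero_right]
  rw [L_comb_right] at h2
  have h3 : ∀ i ∈ Finset.univ, a i * L n x₀ (e i) ≤ 0 := fun i _ =>
    mul_nonpos_of_nonneg_of_nonpos (ha i) (h1 i).le
  have h4 := (Finset.sum_eq_zero_iff_of_nonpos h3).1 h2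
  funext i
  have h5 := h4 i (Finset.mem_univ i)
  rcases mul_eq_zero.1 h5 with h6 | h6
  · exact h6
  · exact absurd h6 (h1 i).ne

theorem ell_of_pt (hP : Acute n N e) {x : Fin (n + 1) → ℝ} (hx : L n x x < 0)
    {S : Finset (Fin N)} (hS : ∀ i ∈ S, L n x (e i) = 0) : Ell e S := by
  intro c hc h0
  have hort : ∀ a : Fin N → ℝ, (∀ i, i ∉ S → a i = 0) → L n x (comb e a) = 0 := by
    intro a ha
    rw [L_comb_right]
    refine Finset.sum_eq_zero fun i _ => ?_
    by_cases hi : i ∈ S
    · rw [hS i hi, mul_zero]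
    · rw [ha i hi, zero_mul]
  by_cases hu : comb e c = 0
  · exfalso
    apply h0
    have e1 : comb e (fun i => max (c i) 0) = comb e fun i => max (-c i) 0 := by
      have h5 : comb e c = comb e (fun i => max (c i) 0) - comb e fun i => max (-c i) 0 := by
        rw [← comb_sub, ← ind_split]
      rw [hu] at h5
      exact (sub_eq_zero.1 h5.symm)
    have h1 : ∀ i, i ∉ S → max (c i) 0 = 0 := fun i hi => by rw [hc i hi]; simp
    have h6 : L n (comb e fun i => max (-c i) 0) (comb e fun i => max (c i) 0) ≤ 0 :=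
      ind_cross hP.off (fun i => le_max_right _ _) (fun i => le_max_right _ _) (ind_disj c)
    rw [← e1] at h6
    have h7 : comb e (fun i => max (c i) 0) = 0 := by
      by_contra h8
      have h9 := L_pos_of_orth hx (hort _ h1) h8
      linarith
    have h8 := ind_zero hP (fun i => le_max_right _ _) h7
    rw [h7] at e1
    have h9 := ind_zero hP (fun i => le_max_right _ _) e1.symm
    rw [ind_split c, h8, h9, sub_zero]
  · exact L_pos_of_orth hx (hort c hc) hu

end Pool.Agent.Work.MP_f6469e_gt
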