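import Pool.Agent.Work.MP_f6469e_gt.Defs

/-!
# Module Mmat (S-M)

* `exists_coeff`: the linear map from the functions supported on `S` to the functions on `S`, `c ↦ (L n (e i) (comb e c))_i`, is injective:
  if it vanishes at `c` then `L n (comb e c) (comb e c) = ∑ c i * L n (e i) (comb e c) = 0` (`L_comb_left`), so `c = 0` by `Ell`. Both
  spaces have dimension `S.card`, so it is surjective (`LinearMap.injective_iff_surjective` for `S → ℝ`, extending by zero; or `Matrix` nonsingular).
* `coeff_nonneg`: let `c⁻ i = max (-c i) 0`, `c⁺ i = max (c i) 0`, `c = c⁺ - c⁻`. `0 ≤ ∑ c⁻ i * L n (e i) (comb e c) = L (comb c⁻) (comb c⁺) - L (comb c⁻) (comb c⁻)`,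
  and `L (comb c⁻) (comb c⁺) ≤ 0` since the supports are disjoint and the off-diagonal products are `≤ 0`. So `L (comb c⁻) (comb c⁻) ≤ 0`, `c⁻ = 0`.
-/

set_option autoImplicit false

namespace Pool.Agent.Work.MP_f6469e_gt

variable {n N : ℕ} {e : Fin N → (Fin (n + 1) → ℝ)}


private theorem mmat_cross (hoff : ∀ i j, i ≠ j → L n (e i) (e j) ≤ 0) {a b : Fin N → ℝ}
    (ha : ∀ i, 0 ≤ a i) (hb : ∀ i, 0 ≤ b i) (hab : ∀ i, a i * b i = 0) :
    L n (comb e a) (comb e b) ≤ 0 := by
  rw [L_comb_comb]
  refine Finset.sum_nonpos fun i _ => Finset.sum_nonpos fun j _ => ?_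
  by_cases hij : i = j
  · subst hij
    rw [hab, zero_mul]
  · exact mul_nonpos_of_nonneg_of_nonpos (mul_nonneg (ha i) (hb j)) (hoff i j hij)

private theorem mmat_split (c : Fin N → ℝ) :
    c = (fun i => max (c i) 0) - fun i => max (-c i) 0 := by
  funext i
  rw [Pi.sub_apply]
  rcases le_total 0 (c i) with h | h
  · rw [max_eq_left h, max_eq_right (by linarith)]
    ring
  · rw [max_eq_right h, max_eq_left (by linarith)]
    ring

private theorem mmat_disj (c : Fin N → ℝ) (i : Fin N) : max (-c i) 0 * max (c i) 0 = 0 := by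
  rcases le_total 0 (c i) with h | h
  · rw [max_eq_right (by linarith : -c i ≤ 0), zero_mul]
  · rw [max_eq_right h, mul_zero]

theorem exists_coeff {S : Finset (Fin N)} (hS : Ell e S) (b : Fin N → ℝ) :
    ∃ c : Fin N → ℝ, (∀ i, i ∉ S → c i = 0) ∧ ∀ i ∈ S, L n (e i) (comb e c) = b i := by
  classical
  let T : (Fin N → ℝ) →ₗ[ℝ] (Fin N → ℝ) :=
    { toFun := fun c i => if i ∈ S then L n (e i) (comb e c) else c i
      map_add' := by
        intro c d
        funext i
        by_cases h : i ∈ S
        · simp only [h, if_true, Pi.add_apply, comb_add, L_add_right]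
        · simp only [h, if_false, Pi.add_apply]
      map_smul' := by
        intro a c
        funext i
        by_cases h : i ∈ S
        · simp only [h, if_true, Pi.smul_apply, comb_smul, L_smul_right, smul_eq_mul,
            RingHom.id_apply]
        · simp only [h, if_false, Pi.smul_apply, RingHom.id_apply] }
  have hT1 : ∀ c i, i ∈ S → T c i = L n (e i) (comb e c) := fun c i h => if_pos h
  have hT2 : ∀ c i, i ∉ S → T c i = c i := fun c i h => if_neg h
  have hinj : Function.Injective T := by
    rw [injective_iff_map_eq_zero]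
    intro c hc
    by_contra h0
    have h1 : ∀ i, i ∉ S → c i = 0 := fun i hi => by rw [← hT2 c i hi, hc]; rfl
    have h2 := hS c h1 h0
    rw [L_comb_left, Finset.sum_eq_zero] at h2
    · exact lt_irrefl _ h2
    · intro i _
      by_cases hi : i ∈ S
      · rw [← hT1 c i hi, hc, Pi.zero_apply, mul_zero]
      · rw [h1 i hi, zero_mul]
  obtain ⟨c, hc⟩ := (LinearMap.injective_iff_surjective.1 hinj) (fun i => if i ∈ S then b i else 0)
  refine ⟨c, fun i hi => ?_, fun i hi => ?_⟩
  · rw [← hT2 c i hi, hc]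
    exact if_neg hi
  · rw [← hT1 c i hi, hc]
    exact if_pos hi

theorem coeff_nonneg (hoff : ∀ i j, i ≠ j → L n (e i) (e j) ≤ 0) {S : Finset (Fin N)}
    (hS : Ell e S) {c : Fin N → ℝ} (hc : ∀ i, i ∉ S → c i = 0)
    (h : ∀ i ∈ S, 0 ≤ L n (e i) (comb e c)) : ∀ i, 0 ≤ c i := by
  by_contra hn
  push Not at hn
  obtain ⟨k, hk⟩ := hn
  have h1 : ∀ i, i ∉ S → max (-c i) 0 = 0 := fun i hi => by rw [hc i hi]; simp
  have h2 : (fun i => max (-c i) 0) ≠ 0 := by
    intro h3
    have h4 := congrFun h3 k
    simp only [Pi.zero_apply] at h4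
    have h5 := le_max_left (-c k) 0
    linarith
  have h3 := hS _ h1 h2
  have h4 : 0 ≤ L n (comb e fun i => max (-c i) 0) (comb e c) := by
    rw [L_comb_left]
    refine Finset.sum_nonneg fun i _ => ?_
    by_cases hi : i ∈ S
    · exact mul_nonneg (le_max_right _ _) (h i hi)
    · rw [h1 i hi, zero_mul]
  have h5 : comb e c = comb e (fun i => max (c i) 0) - comb e fun i => max (-c i) 0 := by
    rw [← comb_sub, ← mmat_split]
  rw [h5, L_sub_right] at h4
  have h6 : L n (comb e fun i => max (-c i) 0) (comb e fun i => max (c i) 0) ≤ 0 :=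
    mmat_cross hoff (fun i => le_max_right _ _) (fun i => le_max_right _ _) (mmat_disj c)
  linarith

end Pool.Agent.Work.MP_f6469e_gt
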