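import Pool.Agent.Work.MP_f6469e_gt.Lor
import Pool.Agent.Work.MP_f6469e_gt.Mmat

/-!
# Module Pt (M): a relative interior point of the face of an elliptic set

`x₀` the interior point. `exists_coeff` with `b i = -L n x₀ (e i)` (`> 0`), `c ≥ 0` by `coeff_nonneg`, `x = x₀ + comb e c`.
`L n x (e i) = 0` on `S`; for `i ∉ S`: `L n x (e i) = L n x₀ (e i) + ∑ c j L n (e j) (e i) < 0`.
`L n (comb c) (comb c) = ∑ c i L n (e i) (comb c) = -∑ c i L n x₀ (e i) = -L n x₀ (comb c)`, so
`L n x x = -1 + L n x₀ (comb c) ≤ -1` and `L n x₀ x = -1 + L n x₀ (comb c) < 0`; `time_zero` gives `0 < x 0`.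
-/

set_option autoImplicit false

namespace Pool.Agent.Work.MP_f6469e_gt

variable {n N : ℕ} {e : Fin N → (Fin (n + 1) → ℝ)}


theorem exists_pt (hP : Acute n N e) {S : Finset (Fin N)} (hS : Ell e S) :
    ∃ x : Fin (n + 1) → ℝ, L n x x < 0 ∧ 0 < x 0 ∧ (∀ i ∈ S, L n x (e i) = 0) ∧
      ∀ i, i ∉ S → L n x (e i) < 0 := by
  obtain ⟨x₀, h0, h1, h2⟩ := hP.inner
  obtain ⟨c, hc0, hci⟩ := exists_coeff hS (fun i => -L n x₀ (e i))
  have hcn : ∀ i, 0 ≤ c i := by
    refine coeff_nonneg hP.off hS hc0 ?_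
    intro i hi
    rw [hci i hi]
    have := h2 i
    linarith
  have hq : L n x₀ (comb e c) ≤ 0 := by
    rw [L_comb_right]
    exact Finset.sum_nonpos fun i _ => mul_nonpos_of_nonneg_of_nonpos (hcn i) (h2 i).le
  have hcc : L n (comb e c) (comb e c) = -L n x₀ (comb e c) := by
    rw [L_comb_left, L_comb_right, ← Finset.sum_neg_distrib]
    refine Finset.sum_congr rfl fun i _ => ?_
    by_cases hi : i ∈ S
    · rw [hci i hi]
      ring
    · rw [hc0 i hi]
      ring
  have hxx : L n (x₀ + comb e c) (x₀ + comb e c) = -1 + L n x₀ (comb e c) := by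
    rw [L_add_left, L_add_right, L_add_right, hcc, L_comm (comb e c) x₀, h1]
    ring
  have h0x : L n x₀ (x₀ + comb e c) = -1 + L n x₀ (comb e c) := by
    rw [L_add_right, h1]
  refine ⟨x₀ + comb e c, ?_, ?_, ?_, ?_⟩
  · rw [hxx]
    linarith
  · refine time_zero (x := x₀) (by rw [h1]; norm_num) h0 ?_ ?_
    · rw [hxx]
      linarith
    · rw [h0x]
      linarith
  · intro i hi
    rw [L_add_left, L_comm (comb e c), hci i hi]
    ring
  · intro i hi
    rw [L_add_left, L_comb_left]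
    have h3 : ∑ j, c j * L n (e j) (e i) ≤ 0 := by
      refine Finset.sum_nonpos fun j _ => ?_
      by_cases hj : j ∈ S
      · have hji : j ≠ i := by
          rintro rfl
          exact hi hj
        exact mul_nonpos_of_nonneg_of_nonpos (hcn j) (hP.off j i hji)
      · rw [hc0 j hj, zero_mul]
    have h4 := h2 i
    linarith

end Pool.Agent.Work.MP_f6469e_gt
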