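import Pool.Agent.Work.MP_f6469e_gt.Ray
import Pool.Agent.Work.MP_f6469e_gt.Pt
import Pool.Agent.Work.MP_f6469e_gt.Ind
import Pool.Agent.Work.MP_f6469e_gt.Dim
import Pool.Agent.Work.MP_f6469e_gt.Cone

/-!
# Module Ext (S-M): an elliptic set with fewer than `n` elements is not maximal

`x` from `exists_pt`, `u` from `exists_orth e S x`, `t, j` from `exists_exit`. `j ∉ S` since `0 < L n u (e j)`.
`y = x + t • u ≠ 0` because `L n y x = L n x x ≠ 0`; so `L n y y < 0` by `cone_time`, and `L n y (e i) = 0` for `i ∈ insert j S`: `ell_of_pt`.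
-/

set_option autoImplicit false

namespace Pool.Agent.Work.MP_f6469e_gt

variable {n N : ℕ} {e : Fin N → (Fin (n + 1) → ℝ)}


theorem exists_insert (hP : Acute n N e) {S : Finset (Fin N)} (hS : Ell e S)
    (hc : S.card < n) : ∃ j, j ∉ S ∧ Ell e (insert j S) := by
  have hn : 1 ≤ n := by omega
  obtain ⟨x, hx, hx0, hxS, hxn⟩ := exists_pt hP hS
  obtain ⟨u, hu0, hux, huS⟩ := exists_orth e S x hc
  have hxc : ∀ i, L n x (e i) ≤ 0 := by
    intro i
    by_cases hi : i ∈ S
    · rw [hxS i hi]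
    · exact (hxn i hi).le
  obtain ⟨t, ht, j, hj, hj0, hall⟩ := exists_exit hn hP hx hxc hu0 hux
  have hjS : j ∉ S := by
    intro hjS
    rw [huS j hjS] at hj
    exact lt_irrefl _ hj
  refine ⟨j, hjS, ?_⟩
  have hy0 : x + t • u ≠ 0 := by
    intro h0
    have h1 : L n (x + t • u) x = L n x x := by
      rw [L_add_left, L_smul_left, hux, mul_zero, add_zero]
    rw [h0, L_zero_left] at h1
    rw [← h1] at hx
    exact lt_irrefl _ hx
  have hy := (cone_time hn hP hall hy0).1
  refine ell_of_pt hP hy ?_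
  intro i hi
  rw [Finset.mem_insert] at hi
  rcases hi with rfl | hi
  · exact hj0
  · rw [L_add_left, L_smul_left, hxS i hi, huS i hi, mul_zero, add_zero]

end Pool.Agent.Work.MP_f6469e_gt
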