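import Pool.Agent.Work.MP_f6469e_gt.Ray
import Pool.Agent.Work.MP_f6469e_gt.Pt
import Pool.Agent.Work.MP_f6469e_gt.Ind
import Pool.Agent.Work.MP_f6469e_gt.Dim

/-!
# Module Two (M): an edge has exactly two ends

`x` from `exists_pt` (so `L n x (e i) < 0` off `S`), `u` from `exists_orth e S x`. `exists_exit` for `u` gives `t > 0`, `a` (`a ∉ S`, `0 < L n u (e a)`), for `-u` it gives
`t' > 0`, `b` (`L n u (e b) < 0`); `a ≠ b`; `insert a S`, `insert b S` are elliptic (as in module Ext). Let `j ∉ S`, `Ell e (insert j S)`, and let `z` be the point of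
`exists_pt` for `insert j S`, scaled (by a positive factor; `L n z x < 0` by `L_neg`) such that `L n z x = L n x x`. By `unique_dir`: `z = x + s • u`. `s ≠ 0` since
`L n x (e j) < 0 = L n z (e j)`. If `s > 0`: `0 < L n u (e j)`; `L n z (e a) ≤ 0 = L n (x + t • u) (e a)` gives `s ≤ t`; `L n (x + t • u) (e j) ≤ 0 = L n z (e j)` gives
`t ≤ s`. So `z = x + t • u` is orthogonal to `e i`, `i ∈ insert a (insert j S)`, this set is elliptic (`ell_of_pt`) and has at most `n = S.card + 1` elements
(`Ell.card_le`): `j = a`. If `s < 0` then in the same way `j = b`.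
-/

set_option autoImplicit false

namespace Pool.Agent.Work.MP_f6469e_gt

variable {n N : ℕ} {e : Fin N → (Fin (n + 1) → ℝ)}


private theorem two_side (hP : Acute n N e) {S : Finset (Fin N)}
    (hc : S.card + 1 = n) {x u : Fin (n + 1) → ℝ} (hx : L n x x < 0)
    (hxS : ∀ i ∈ S, L n x (e i) = 0) (hxo : ∀ i, i ∉ S → L n x (e i) < 0)
    (hux : L n u x = 0) (huS : ∀ i ∈ S, L n u (e i) = 0) {t s : ℝ} {a j : Fin N}
    (hua : 0 < L n u (e a)) (hta : L n (x + t • u) (e a) = 0)
    (htP : ∀ i, L n (x + t • u) (e i) ≤ 0) (hj : j ∉ S) (hs : 0 < s)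
    (hzj : L n (x + s • u) (e j) = 0) (hzP : ∀ i, L n (x + s • u) (e i) ≤ 0) : j = a := by
  classical
  have ha : a ∉ S := fun h => by
    rw [huS a h] at hua
    exact lt_irrefl _ hua
  have key : ∀ (r : ℝ) (i : Fin N), L n (x + r • u) (e i) = L n x (e i) + r * L n u (e i) :=
    fun r i => by rw [L_add_left, L_smul_left]
  have huj : 0 < L n u (e j) := by
    have h1 := hxo j hj
    rw [key] at hzj
    by_contra h2
    push Not at h2
    nlinarith
  have h1 : s ≤ t := by
    have h2 := hzP a
    rw [key] at h2 hta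
    by_contra h3
    push Not at h3
    nlinarith
  have h2 : t ≤ s := by
    have h3 := htP j
    rw [key] at h3 hzj
    by_contra h4
    push Not at h4
    nlinarith
  have hst : s = t := le_antisymm h1 h2
  subst hst
  by_contra hja
  have hzz : L n (x + s • u) (x + s • u) < 0 := by
    have hn : 1 ≤ n := by omega
    refine (cone_time hn hP hzP ?_).1
    intro h0
    have h3 : L n (x + s • u) x = 0 := by rw [h0, L_zero_left]
    rw [L_add_left, L_smul_left, hux, mul_zero, add_zero] at h3
    exact absurd h3 hx.ne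
  have hell : Ell e (insert j (insert a S)) := by
    refine ell_of_pt hP hzz fun i hi => ?_
    rw [Finset.mem_insert, Finset.mem_insert] at hi
    rcases hi with rfl | rfl | hi
    · exact hzj
    · exact hta
    · rw [key, hxS i hi, huS i hi, mul_zero, add_zero]
  have h3 := hell.card_le
  rw [Finset.card_insert_of_notMem, Finset.card_insert_of_notMem ha] at h3
  · omega
  · rw [Finset.mem_insert]
    rintro (h4 | h4)
    · exact hja h4
    · exact hj h4

theorem exists_two (hP : Acute n N e) {S : Finset (Fin N)} (hS : Ell e S)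
    (hc : S.card + 1 = n) : ∃ a b, a ≠ b ∧ a ∉ S ∧ b ∉ S ∧ Ell e (insert a S) ∧
      Ell e (insert b S) ∧ ∀ j, j ∉ S → Ell e (insert j S) → j = a ∨ j = b := by
  classical
  have hn : 1 ≤ n := by omega
  obtain ⟨x, hx, hx0, hxS, hxo⟩ := exists_pt hP hS
  obtain ⟨u, hu0, hux, huS⟩ := exists_orth e S x (by omega)
  have hxS' : ∀ i, L n x (e i) ≤ 0 := fun i => by
    by_cases hi : i ∈ S
    · exact (hxS i hi).le
    · exact (hxo i hi).le
  have huS' : ∀ i ∈ S, L n (-u) (e i) = 0 := fun i hi => by
    rw [L_neg_left, huS i hi, neg_zero]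
  have hux' : L n (-u) x = 0 := by rw [L_neg_left, hux, neg_zero]
  obtain ⟨t, -, a, hua, hta, htP⟩ := exists_exit hn hP hx hxS' hu0 hux
  obtain ⟨t', -, b, hub, htb, htP'⟩ := exists_exit hn hP hx hxS' (neg_ne_zero.2 hu0) hux'
  have key : ∀ (v : Fin (n + 1) → ℝ) (r : ℝ) (i : Fin N),
      L n (x + r • v) (e i) = L n x (e i) + r * L n v (e i) :=
    fun v r i => by rw [L_add_left, L_smul_left]
  have hell : ∀ (v : Fin (n + 1) → ℝ) (r : ℝ) (c : Fin N), L n v x = 0 →
      (∀ i ∈ S, L n v (e i) = 0) → L n (x + r • v) (e c) = 0 →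
      (∀ i, L n (x + r • v) (e i) ≤ 0) → Ell e (insert c S) := by
    intro v r c hvx hvS hvc hvP
    refine ell_of_pt hP (cone_time hn hP hvP ?_).1 fun i hi => ?_
    · intro h0
      have h3 : L n (x + r • v) x = 0 := by rw [h0, L_zero_left]
      rw [L_add_left, L_smul_left, hvx, mul_zero, add_zero] at h3
      exact absurd h3 hx.ne
    · rw [Finset.mem_insert] at hi
      rcases hi with rfl | hi
      · exact hvc
      · rw [key, hxS i hi, hvS i hi, mul_zero, add_zero]
  refine ⟨a, b, ?_, ?_, ?_, hell u t a hux huS hta htP, hell (-u) t' b hux' huS' htb htP', ?_⟩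
  · rintro rfl
    rw [L_neg_left] at hub
    linarith
  · intro h
    rw [huS a h] at hua
    exact lt_irrefl _ hua
  · intro h
    rw [huS' b h] at hub
    exact lt_irrefl _ hub
  · intro j hj hE
    obtain ⟨z, hz, hz0, hzS, hzo⟩ := exists_pt hP hE
    have hzx : L n z x < 0 := L_neg hz hz0 hx.le hx0
    have hc0 : 0 < L n x x / L n z x := div_pos_of_neg_of_neg hx hzx
    have hzz : ∀ i, L n ((L n x x / L n z x) • z) (e i) ≤ 0 := fun i => by
      rw [L_smul_left]
      refine mul_nonpos_of_nonneg_of_nonpos hc0.le ?_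
      by_cases hi : i ∈ insert j S
      · exact (hzS i hi).le
      · exact (hzo i hi).le
    have hw : ∀ i ∈ S, L n ((L n x x / L n z x) • z - x) (e i) = 0 := fun i hi => by
      rw [L_sub_left, L_smul_left, hzS i (Finset.mem_insert_of_mem hi), hxS i hi, mul_zero,
        sub_zero]
    have hwx : L n ((L n x x / L n z x) • z - x) x = 0 := by
      rw [L_sub_left, L_smul_left, div_mul_cancel₀ _ hzx.ne, sub_self]
    obtain ⟨s, hs⟩ := unique_dir hS hc hx hu0 huS hux hw hwx
    have hzs : (L n x x / L n z x) • z = x + s • u := by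
      rw [← hs]
      abel
    rw [hzs] at hzz
    have hzj : L n (x + s • u) (e j) = 0 := by
      rw [← hzs, L_smul_left, hzS j (Finset.mem_insert_self j S), mul_zero]
    rcases lt_trichotomy s 0 with h1 | h1 | h1
    · right
      have e1 : x + s • u = x + (-s) • (-u) := by
        rw [smul_neg, neg_smul, neg_neg]
      rw [e1] at hzj hzz
      exact two_side hP hc hx hxS hxo hux' huS' hub htb htP' hj (neg_pos.2 h1) hzj hzz
    · exfalso
      rw [h1, zero_smul, add_zero] at hzj
      exact absurd hzj (hxo j hj).ne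
    · left
      exact two_side hP hc hx hxS hxo hux huS hua hta htP hj h1 hzj hzz

end Pool.Agent.Work.MP_f6469e_gt
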