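import Pool.Agent.Work.MP_f6469e_gt.Pt
import Pool.Agent.Work.MP_f6469e_gt.Dim

/-!
# Module Vtx (M): the vertices

* `exists_vert`: `x₀` the interior point; for `Ell e D`, `D.card = n` take the point of `exists_pt` and scale it with a positive factor (`L n x x₀ < 0` by `L_neg`).
* `Vert.inj`: `D = {i | L n (v D) (e i) = 0}`.
* `decomp`: put `D = insert a (insert b T)`, `A = insert a' (insert b T)`, `B = insert b' (insert a T)` (all have `n` elements). `a ∉ A`, so `L n (v A) (e a) < 0`; `b ∉ B`, so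
  `L n (v B) (e b) < 0`. `s = L n x (e a) / L n (v A) (e a) ≥ 0`, `t = L n x (e b) / L n (v B) (e b) ≥ 0`. The vector `x - v D - s (v A - v D) - t (v B - v D)` is orthogonal to
  `e i` for all `i ∈ D` (use `L n (v A) (e b) = 0`, `L n (v B) (e a) = 0`, all are orthogonal to `e i`, `i ∈ T`) and to `x₀`, so it is zero by `eq_zero_of_orth`.
-/

set_option autoImplicit false

namespace Pool.Agent.Work.MP_f6469e_gt

variable {n N : ℕ} {e : Fin N → (Fin (n + 1) → ℝ)}


/-- `v D` is the vertex of the elliptic set `D` of `n` elements, normalised by `x₀`. -/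
structure Vert (e : Fin N → (Fin (n + 1) → ℝ)) (x₀ : Fin (n + 1) → ℝ)
    (v : Finset (Fin N) → (Fin (n + 1) → ℝ)) : Prop where
  time : L n x₀ x₀ < 0
  norm : ∀ D, Ell e D → D.card = n → L n (v D) x₀ = -1
  on : ∀ D, Ell e D → D.card = n → ∀ i ∈ D, L n (v D) (e i) = 0
  off : ∀ D, Ell e D → D.card = n → ∀ i, i ∉ D → L n (v D) (e i) < 0

theorem exists_vert (hP : Acute n N e) : ∃ x₀ v, Vert e x₀ v := by
  classical
  obtain ⟨x₀, h0, h1, _⟩ := hP.inner
  have key : ∀ D : Finset (Fin N), ∃ y : Fin (n + 1) → ℝ, Ell e D → D.card = n →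
      L n y x₀ = -1 ∧ (∀ i ∈ D, L n y (e i) = 0) ∧ ∀ i, i ∉ D → L n y (e i) < 0 := by
    intro D
    by_cases hD : Ell e D
    · obtain ⟨x, hx, hx0, hon, hoff⟩ := exists_pt hP hD
      have hneg : L n x x₀ < 0 := L_neg hx hx0 (by rw [h1]; norm_num) h0
      have hne : L n x x₀ ≠ 0 := hneg.ne
      refine ⟨(-(L n x x₀))⁻¹ • x, fun _ _ => ⟨?_, ?_, ?_⟩⟩
      · rw [L_smul_left]
        field_simp
      · intro i hi
        rw [L_smul_left, hon i hi, mul_zero]
      · intro i hi
        rw [L_smul_left]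
        exact mul_neg_of_pos_of_neg (inv_pos.2 (neg_pos.2 hneg)) (hoff i hi)
    · exact ⟨0, fun h => absurd h hD⟩
  choose v hv using key
  exact ⟨x₀, v, ⟨by rw [h1]; norm_num, fun D hD hc => (hv D hD hc).1,
    fun D hD hc => (hv D hD hc).2.1, fun D hD hc => (hv D hD hc).2.2⟩⟩

theorem Vert.inj {x₀ : Fin (n + 1) → ℝ} {v : Finset (Fin N) → (Fin (n + 1) → ℝ)}
    (hv : Vert e x₀ v) {D D' : Finset (Fin N)} (hD : Ell e D) (hc : D.card = n) (hD' : Ell e D')
    (hc' : D'.card = n) (h : v D = v D') : D = D' := by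
  have key : ∀ {D : Finset (Fin N)}, Ell e D → D.card = n → ∀ i, i ∈ D ↔ L n (v D) (e i) = 0 := by
    intro D hD hc i
    refine ⟨hv.on D hD hc i, fun h0 => ?_⟩
    by_contra hi
    exact (hv.off D hD hc i hi).ne h0
  ext i
  rw [key hD hc, key hD' hc', h]

theorem decomp {x₀ : Fin (n + 1) → ℝ} {v : Finset (Fin N) → (Fin (n + 1) → ℝ)}
    (hv : Vert e x₀ v) {T : Finset (Fin N)} {a b a' b' : Fin N} (hc : T.card + 2 = n)
    (hab : a ≠ b) (ha : a ∉ T) (hb : b ∉ T) (ha' : a' ∉ insert b T) (hb' : b' ∉ insert a T)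
    (haa : a' ≠ a) (hbb : b' ≠ b) (hD : Ell e (insert a (insert b T)))
    (hA : Ell e (insert a' (insert b T))) (hB : Ell e (insert b' (insert a T)))
    {x : Fin (n + 1) → ℝ} (hx : L n x x₀ = -1) (hxT : ∀ t ∈ T, L n x (e t) = 0)
    (hxa : L n x (e a) ≤ 0) (hxb : L n x (e b) ≤ 0) :
    ∃ s t : ℝ, 0 ≤ s ∧ 0 ≤ t ∧ x = v (insert a (insert b T)) +
      s • (v (insert a' (insert b T)) - v (insert a (insert b T))) +
      t • (v (insert b' (insert a T)) - v (insert a (insert b T))) := by
  have haD : a ∉ insert b T := by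
    rw [Finset.mem_insert]
    rintro (h | h)
    · exact hab h
    · exact ha h
  have hcD : (insert a (insert b T)).card = n := by
    rw [Finset.card_insert_of_notMem haD, Finset.card_insert_of_notMem hb]
    exact hc
  have hcA : (insert a' (insert b T)).card = n := by
    rw [Finset.card_insert_of_notMem ha', Finset.card_insert_of_notMem hb]
    exact hc
  have hcB : (insert b' (insert a T)).card = n := by
    rw [Finset.card_insert_of_notMem hb', Finset.card_insert_of_notMem ha]
    exact hc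
  have haA : a ∉ insert a' (insert b T) := by
    rw [Finset.mem_insert]
    rintro (h | h)
    · exact haa h.symm
    · exact haD h
  have hbB : b ∉ insert b' (insert a T) := by
    rw [Finset.mem_insert, Finset.mem_insert]
    rintro (h | h | h)
    · exact hbb h.symm
    · exact hab h.symm
    · exact hb h
  have hA1 := hv.off _ hA hcA a haA
  have hB1 := hv.off _ hB hcB b hbB
  have hA2 : L n (v (insert a' (insert b T))) (e b) = 0 := hv.on _ hA hcA b (by simp)
  have hB2 : L n (v (insert b' (insert a T))) (e a) = 0 := hv.on _ hB hcB a (by simp)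
  have hDn := hv.norm _ hD hcD
  have hAn := hv.norm _ hA hcA
  have hBn := hv.norm _ hB hcB
  have hDo := hv.on _ hD hcD
  have hAo := hv.on _ hA hcA
  have hBo := hv.on _ hB hcB
  set vD := v (insert a (insert b T)) with hvD
  set vA := v (insert a' (insert b T)) with hvA
  set vB := v (insert b' (insert a T)) with hvB
  refine ⟨L n x (e a) / L n vA (e a), L n x (e b) / L n vB (e b),
    div_nonneg_of_nonpos hxa hA1.le, div_nonneg_of_nonpos hxb hB1.le, ?_⟩
  set s := L n x (e a) / L n vA (e a) with hs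
  set t := L n x (e b) / L n vB (e b) with ht
  have hsa : s * L n vA (e a) = L n x (e a) := div_mul_cancel₀ _ hA1.ne
  have htb : t * L n vB (e b) = L n x (e b) := div_mul_cancel₀ _ hB1.ne
  have hcalc : ∀ y : Fin (n + 1) → ℝ, L n (x - vD - s • (vA - vD) - t • (vB - vD)) y =
      L n x y - L n vD y - s * (L n vA y - L n vD y) - t * (L n vB y - L n vD y) := by
    intro y
    rw [L_sub_left, L_sub_left, L_sub_left, L_smul_left, L_smul_left, L_sub_left, L_sub_left]
  have hu : x - vD - s • (vA - vD) - t • (vB - vD) = 0 := by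
    refine eq_zero_of_orth hD hcD hv.time ?_ ?_
    · intro i hi
      rw [hcalc, hDo i hi]
      rw [Finset.mem_insert, Finset.mem_insert] at hi
      rcases hi with rfl | rfl | hi
      · rw [hB2, sub_zero, sub_zero, sub_zero, mul_zero, hsa]
        ring
      · rw [hA2, sub_zero, sub_zero, sub_zero, mul_zero, htb]
        ring
      · rw [hxT i hi, hAo i (by simp [hi]), hBo i (by simp [hi])]
        ring
    · rw [hcalc, hx, hDn, hAn, hBn]
      ring
  have h3 : x = x - vD - s • (vA - vD) - t • (vB - vD) +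
      (vD + s • (vA - vD) + t • (vB - vD)) := by abel
  rw [hu, zero_add] at h3
  exact h3

end Pool.Agent.Work.MP_f6469e_gt
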