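import Pool.Agent.Work.MP_f6469e_gt.CDefs
import Pool.Agent.Work.MP_f6469e_gt.Ext
import Pool.Agent.Work.MP_f6469e_gt.Two
import Pool.Agent.Work.MP_f6469e_gt.Dim
import Pool.Agent.Work.MP_f6469e_gt.Vtx

/-!
# Module Cplx (S-M): the elliptic sets form a complex with a Morse function

* `cx_ell`: `Ell.mono`, `Ell.empty`, `Ell.card_le`, `exists_insert`, `exists_two`.
* `exists_morse`: `x₀, v` from `exists_vert`. There is a linear functional `f` on `ℝ^(n+1)` which is injective on the finite set of the points `v D` (the differences are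
  nonzero by `Vert.inj`; a real vector space is not a finite union of proper subspaces, applied to the dual space; or take `f = ∑ t^i x_i` with `t` outside the roots of
  finitely many nonzero polynomials). `r D = f (v D)`. `tmax`: for a vertex `D' ⊇ T` apply `decomp` to `x = v D'` (`L n (v D') (e i) ≤ 0` for all `i`): `f (v D') = f (v D) + s (f (v A) - f (v D)) + t (f (v B) - f (v D)) ≤ f (v D)`.
-/

set_option autoImplicit false

namespace Pool.Agent.Work.MP_f6469e_gt

variable {n N : ℕ} {e : Fin N → (Fin (n + 1) → ℝ)}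


theorem cx_ell (hP : Acute n N e) : Cx n (Ell e) where
  down := fun _ _ hT hS => hT.mono hS
  emp := Ell.empty e
  card_le := fun _ hS => hS.card_le
  grow := fun _ hS hc => exists_insert hP hS hc
  two := fun _ hS hc => exists_two hP hS hc

private theorem vert_le {x₀ : Fin (n + 1) → ℝ} {v : Finset (Fin N) → (Fin (n + 1) → ℝ)}
    (hv : Vert e x₀ v) {D : Finset (Fin N)} (hD : Ell e D) (hc : D.card = n) (i : Fin N) :
    L n (v D) (e i) ≤ 0 := by
  by_cases hi : i ∈ D
  · exact (hv.on D hD hc i hi).le
  · exact (hv.off D hD hc i hi).le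

theorem exists_morse (hP : Acute n N e) : ∃ r, IsMorse n (Ell e) r := by
  classical
  obtain ⟨x₀, v, hv⟩ := exists_vert hP
  let J : Type := {p : Finset (Fin N) × Finset (Fin N) // v p.1 - v p.2 ≠ 0}
  have : Finite J := inferInstance
  obtain ⟨f, hf⟩ := Module.exists_dual_forall_apply_ne_zero (K := ℝ)
    (fun p : J => v p.1.1 - v p.1.2) (fun p => p.2)
  refine ⟨fun D => f (v D), ?_, ?_, ?_⟩
  · intro D D' hD hD' hc hc' h
    apply hv.inj hD hc hD' hc'
    by_contra hne
    have h1 := hf ⟨(D, D'), sub_ne_zero.2 hne⟩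
    apply h1
    simp only [map_sub]
    exact sub_eq_zero.2 h
  · intro T a b a' b' hc hab ha hb ha' hb' haa hbb hE hA hB h1 h2 D hTD hD hcD
    obtain ⟨s, t, hs, ht, hx⟩ := decomp hv hc hab ha hb ha' hb' haa hbb hE hA hB
      (x := v D) (hv.norm D hD hcD) (fun t ht => hv.on D hD hcD t (hTD ht))
      (vert_le hv hD hcD a) (vert_le hv hD hcD b)
    have h3 : f (v D) = f (v (insert a (insert b T))) +
        s * (f (v (insert a' (insert b T))) - f (v (insert a (insert b T)))) +
        t * (f (v (insert b' (insert a T))) - f (v (insert a (insert b T)))) := by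
      conv_lhs => rw [hx]
      simp only [map_add, map_smul, map_sub, smul_eq_mul]
    show f (v D) ≤ f (v (insert a (insert b T)))
    rw [h3]
    have h4 := mul_nonneg hs (sub_nonneg.2 h1.le)
    have h5 := mul_nonneg ht (sub_nonneg.2 h2.le)
    linarith
  · intro T a b a' b' hc hab ha hb ha' hb' haa hbb hE hA hB h1 h2 D hTD hD hcD
    obtain ⟨s, t, hs, ht, hx⟩ := decomp hv hc hab ha hb ha' hb' haa hbb hE hA hB
      (x := v D) (hv.norm D hD hcD) (fun t ht => hv.on D hD hcD t (hTD ht))
      (vert_le hv hD hcD a) (vert_le hv hD hcD b)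
    have h3 : f (v D) = f (v (insert a (insert b T))) +
        s * (f (v (insert a' (insert b T))) - f (v (insert a (insert b T)))) +
        t * (f (v (insert b' (insert a T))) - f (v (insert a (insert b T)))) := by
      conv_lhs => rw [hx]
      simp only [map_add, map_smul, map_sub, smul_eq_mul]
    show f (v (insert a (insert b T))) ≤ f (v D)
    rw [h3]
    have h4 := mul_nonneg hs (sub_nonneg.2 h1.le)
    have h5 := mul_nonneg ht (sub_nonneg.2 h2.le)
    linarith

end Pool.Agent.Work.MP_f6469e_gt
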