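import Pool.Agent.Work.MP_f6469e_gt.BQuad
import Pool.Agent.Work.MP_f6469e_gt.BTri
import Pool.Agent.Work.MP_f6469e_gt.BWt
import Pool.Agent.Work.MP_f6469e_gt.Cplx
import Pool.Agent.Work.MP_f6469e_gt.CntD

/-!
# Module BMain (S-M): the bounds `n ≤ 16` and `n ≤ 12`

* `goodSys`: charge `1` for a `Good` pair, `0` otherwise; `tri` and `quad`.
* `lab_bound`: `count` for `Ell e` (`cx_ell`, `exists_morse`), `u = 1`, `w = (n - 1) + n / 2` (`good_le`; the sum of the charges is the number of good pairs, `Finset.sum_boole` / `Finset.card_filter`). For `n = 2k`: `C(n,2) = k (2k - 1)`, `2 (n/2).choose 2 = k (k-1)`: the inequality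
  `5 k (k - 1) < 2 k (2 k - 1) + 2 (3 k - 1)` i.e. `k² - 9k + 2 < 0` fails for `k ≥ 9`. For `n = 2k + 1`: `5 k² < 2 (k (2k+1) + 3 k)`, i.e. `k² < 8k`, fails for `k ≥ 8`.
* `sl_bound`: `w = n - 1` (`good_le_sl`): `n = 2k`: `k² - 7k + 2 < 0` fails for `k ≥ 7`; `n = 2k + 1`: `k² < 6k` fails for `k ≥ 6`.
-/

set_option autoImplicit false

namespace Pool.Agent.Work.MP_f6469e_gt

variable {n N : ℕ} {e : Fin N → (Fin (n + 1) → ℝ)}


open Classical in
theorem goodSys (hn : 1 ≤ n) (hL : Lab n N e) :
    GoodSys n (Ell e) 1 fun D p => if Good e D p then 1 else 0 := by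
  have hgood : ∀ (D : Finset (Fin N)) (a b : Fin N), a ≠ b → L n (e a) (e b) < 0 →
      Good e D {a, b} := fun D a b h1 h2 => ⟨a, b, h1, rfl, Or.inl h2⟩
  constructor
  · intro T a b c hT hab hac hbc haT hbT hcT h1 h2 h3
    rcases tri hn hL hT hab hac hbc haT hbT hcT h1 h2 h3 with ⟨p, q⟩ | ⟨p, q⟩ | ⟨p, q⟩
    · simp only [if_pos (hgood _ a b hab p), if_pos (hgood _ b c hbc q)]
      omega
    · simp only [if_pos (hgood _ a b hab p), if_pos (hgood _ a c hac q)]
      omega
    · simp only [if_pos (hgood _ b c hbc p), if_pos (hgood _ a c hac q)]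
      omega
  · intro T a b c d _ hab hac had hbc hbd hcd haT hbT hcT hdT h1 h2 h3 h4 h5 h6
    rcases quad hn hL hab hac had hbc hbd hcd haT hbT hcT hdT h1 h2 h3 h4 h5 h6 with
      h | h | h | h
    · simp only [if_pos h]
      omega
    · simp only [if_pos h]
      omega
    · simp only [if_pos h]
      omega
    · simp only [if_pos h]
      omega

private theorem ch2 (k : ℕ) : (2 : ℤ) * (k.choose 2 : ℤ) = k * (k - 1) := by
  have h : (k.choose 2 : ℚ) = k * (k - 1) / 2 := Nat.cast_choose_two ℚ k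
  have h2 : (2 : ℚ) * (k.choose 2 : ℚ) = k * (k - 1) := by rw [h]; ring
  exact_mod_cast h2

theorem lab_bound (hn : 17 ≤ n) (hL : Lab n N e) : False := by
  classical
  obtain ⟨r, hr⟩ := exists_morse hL.ac
  have h := count (cx_ell hL.ac) hr (by omega) one_pos (goodSys (by omega) hL)
    (w := (n - 1) + n / 2) (by
      intro D hD hc
      rw [← Finset.card_filter]
      have hne : D.Nonempty := by
        rw [← Finset.card_pos]
        omega
      have h1 := good_le hL hD hne
      rw [hc] at h1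
      exact h1)
  rcases Nat.even_or_odd' n with ⟨k, hk | hk⟩
  · have e1 : n / 2 = k := by omega
    have e2 : (n + 1) / 2 = k := by omega
    have e3 : n - 1 + k = 3 * k - 1 := by omega
    rw [e1, e2, e3, hk] at h
    have hk9 : 9 ≤ k := by omega
    have a1 := ch2 k
    have a2 := ch2 (2 * k)
    have h' : (5 * 1 * ((k.choose 2 : ℤ) + (k.choose 2 : ℤ))) <
        2 * (1 * ((2 * k).choose 2 : ℤ) + (3 * k - 1)) := by
      have : ((3 * k - 1 : ℕ) : ℤ) = 3 * k - 1 := by
        rw [Nat.cast_sub (by omega)]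
        push_cast
        ring
      rw [← this]
      exact_mod_cast h
    push_cast at a2
    have hk9' : (9 : ℤ) ≤ k := by exact_mod_cast hk9
    nlinarith
  · have e1 : n / 2 = k := by omega
    have e2 : (n + 1) / 2 = k + 1 := by omega
    have e3 : n - 1 + k = 3 * k := by omega
    rw [e1, e2, e3, hk] at h
    have hk8 : 8 ≤ k := by omega
    have a1 := ch2 k
    have a2 := ch2 (2 * k + 1)
    have a3 := ch2 (k + 1)
    have h' : (5 * 1 * ((k.choose 2 : ℤ) + ((k + 1).choose 2 : ℤ))) <
        2 * (1 * ((2 * k + 1).choose 2 : ℤ) + 3 * k) := by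
      exact_mod_cast h
    push_cast at a2 a3
    have hk8' : (8 : ℤ) ≤ k := by exact_mod_cast hk8
    nlinarith

theorem sl_bound (hn : 13 ≤ n) (hL : Lab n N e)
    (hs : ∀ i j, i ≠ j → L n (e i) (e j) ≠ -(√2 / 2)) : False := by
  classical
  obtain ⟨r, hr⟩ := exists_morse hL.ac
  have h := count (cx_ell hL.ac) hr (by omega) one_pos (goodSys (by omega) hL)
    (w := n - 1) (by
      intro D hD hc
      rw [← Finset.card_filter]
      have hne : D.Nonempty := by
        rw [← Finset.card_pos]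
        omega
      have h1 := good_le_sl hL hs hD hne
      rw [hc] at h1
      exact h1)
  rcases Nat.even_or_odd' n with ⟨k, hk | hk⟩
  · have e1 : n / 2 = k := by omega
    have e2 : (n + 1) / 2 = k := by omega
    have e3 : n - 1 = 2 * k - 1 := by omega
    rw [e1, e2, e3, hk] at h
    have hk7 : 7 ≤ k := by omega
    have a1 := ch2 k
    have a2 := ch2 (2 * k)
    have h' : (5 * 1 * ((k.choose 2 : ℤ) + (k.choose 2 : ℤ))) <
        2 * (1 * ((2 * k).choose 2 : ℤ) + (2 * k - 1)) := by
      have : ((2 * k - 1 : ℕ) : ℤ) = 2 * k - 1 := by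
        rw [Nat.cast_sub (by omega)]
        push_cast
        ring
      rw [← this]
      exact_mod_cast h
    push_cast at a2
    have hk7' : (7 : ℤ) ≤ k := by exact_mod_cast hk7
    nlinarith
  · have e1 : n / 2 = k := by omega
    have e2 : (n + 1) / 2 = k + 1 := by omega
    have e3 : n - 1 = 2 * k := by omega
    rw [e1, e2, e3, hk] at h
    have hk6 : 6 ≤ k := by omega
    have a1 := ch2 k
    have a2 := ch2 (2 * k + 1)
    have a3 := ch2 (k + 1)
    have h' : (5 * 1 * ((k.choose 2 : ℤ) + ((k + 1).choose 2 : ℤ))) <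
        2 * (1 * ((2 * k + 1).choose 2 : ℤ) + 2 * k) := by
      exact_mod_cast h
    push_cast at a2 a3
    have hk6' : (6 : ℤ) ≤ k := by exact_mod_cast hk6
    nlinarith

end Pool.Agent.Work.MP_f6469e_gt
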