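import Pool.Agent.Work.MP_f6469e_gt.Defs

/-!
# Module Lor (S-M): time-like vectors

`L n x y = -(x 0 * y 0) + ∑ x i.succ * y i.succ`. Everything is Cauchy-Schwarz for `∑ x_i y_i` (`Finset.sum_mul_sq_le_sq_mul_sq` or
`inner_mul_le_norm_mul_norm`).
* `L_neg`: `|∑ x_i y_i| ≤ √(∑ x_i²) √(∑ y_i²) < x 0 * y 0`.
* `L_pos_of_orth`: `x 0 * y 0 = ∑ x_i y_i`; if `∑ y_i² = 0` then `x 0 * y 0 = 0`, `x 0 ≠ 0` (as `x 0 ^ 2 > ∑ x_i² ≥ 0`), `y = 0`, a contradiction; else
  `x 0² y 0² ≤ (∑ x_i²)(∑ y_i²) < x 0² ∑ y_i²`.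
* `time_zero`: if `y 0 ≤ 0`: for `y 0 = 0` we get `∑ y_i² ≤ 0`, `y = 0`, `L n x y = 0`; for `y 0 < 0` apply `L_neg` to `-y`.
* `L_ne_zero`: by `L_pos_of_orth`.
-/

set_option autoImplicit false

namespace Pool.Agent.Work.MP_f6469e_gt

variable {n N : ℕ} {e : Fin N → (Fin (n + 1) → ℝ)}


private theorem cs (x y : Fin (n + 1) → ℝ) :
    (∑ i : Fin n, x i.succ * y i.succ) ^ 2 ≤
      (∑ i : Fin n, x i.succ * x i.succ) * (∑ i : Fin n, y i.succ * y i.succ) := by
  have h := Finset.sum_mul_sq_le_sq_mul_sq Finset.univ (fun i : Fin n => x i.succ)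
    (fun i : Fin n => y i.succ)
  simpa [pow_two] using h

private theorem sq_sum_nonneg (x : Fin (n + 1) → ℝ) :
    0 ≤ ∑ i : Fin n, x i.succ * x i.succ :=
  Finset.sum_nonneg fun _ _ => mul_self_nonneg _

private theorem eq_zero_of_space {y : Fin (n + 1) → ℝ} (h0 : y 0 = 0)
    (h : ∑ i : Fin n, y i.succ * y i.succ ≤ 0) : y = 0 := by
  have h1 : ∑ i : Fin n, y i.succ * y i.succ = 0 := le_antisymm h (sq_sum_nonneg y)
  rw [Finset.sum_eq_zero_iff_of_nonneg (fun i _ => mul_self_nonneg _)] at h1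
  funext i
  refine Fin.cases h0 (fun j => ?_) i
  exact mul_self_eq_zero.mp (h1 j (Finset.mem_univ _))

theorem L_neg {x y : Fin (n + 1) → ℝ} (hx : L n x x < 0) (hx0 : 0 < x 0) (hy : L n y y ≤ 0)
    (hy0 : 0 < y 0) : L n x y < 0 := by
  have h1 := cs x y
  have h2 := sq_sum_nonneg x
  have h3 := sq_sum_nonneg y
  unfold L at *
  set A := ∑ i : Fin n, x i.succ * x i.succ
  set B := ∑ i : Fin n, y i.succ * y i.succ
  set C := ∑ i : Fin n, x i.succ * y i.succ
  have h4 : C ^ 2 < (x 0 * y 0) ^ 2 := by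
    have h5 : A * B ≤ A * (y 0 * y 0) := mul_le_mul_of_nonneg_left (by linarith) h2
    have h6 : A * (y 0 * y 0) < (x 0 * x 0) * (y 0 * y 0) :=
      mul_lt_mul_of_pos_right (by linarith) (by positivity)
    nlinarith
  have h5 : C < x 0 * y 0 := lt_of_pow_lt_pow_left₀ 2 (by positivity) h4
  linarith

theorem L_pos_of_orth {x y : Fin (n + 1) → ℝ} (hx : L n x x < 0) (hxy : L n x y = 0)
    (hy : y ≠ 0) : 0 < L n y y := by
  have h1 := cs x y
  have h2 := sq_sum_nonneg x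
  have h3 := sq_sum_nonneg y
  have hz : y 0 = 0 → ¬ (∑ i : Fin n, y i.succ * y i.succ ≤ 0) := fun h0 h =>
    hy (eq_zero_of_space h0 h)
  unfold L at *
  set A := ∑ i : Fin n, x i.succ * x i.succ
  set B := ∑ i : Fin n, y i.succ * y i.succ
  set C := ∑ i : Fin n, x i.succ * y i.succ
  have hx2 : 0 < x 0 * x 0 := by linarith
  rcases h3.eq_or_lt with hB | hB
  · exfalso
    have hC : C ^ 2 ≤ 0 := by rw [← hB] at h1; simpa using h1
    have hC0 : C = 0 := by
      have := sq_nonneg C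
      exact pow_eq_zero_iff (two_ne_zero) |>.mp (le_antisymm hC this)
    have h4 : x 0 * y 0 = 0 := by linarith
    have h5 : y 0 = 0 := by
      rcases mul_eq_zero.mp h4 with h | h
      · rw [h] at hx2; simp at hx2
      · exact h
    exact hz h5 hB.ge
  · have h4 : C = x 0 * y 0 := by linarith
    have h5 : (x 0 * x 0) * (y 0 * y 0) < (x 0 * x 0) * B := by
      have h6 : A * B < (x 0 * x 0) * B := mul_lt_mul_of_pos_right (by linarith) hB
      rw [h4] at h1
      nlinarith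
    have h6 := lt_of_mul_lt_mul_left h5 hx2.le
    linarith

theorem time_zero {x y : Fin (n + 1) → ℝ} (hx : L n x x < 0) (hx0 : 0 < x 0) (hy : L n y y ≤ 0)
    (hxy : L n x y < 0) : 0 < y 0 := by
  by_contra hneg
  push Not at hneg
  rcases hneg.eq_or_lt with h0 | h0
  · have : y = 0 := by
      refine eq_zero_of_space h0 ?_
      have h1 := hy
      unfold L at h1
      rw [h0] at h1
      linarith
    rw [this, L_zero_right] at hxy
    exact lt_irrefl _ hxy
  · have h1 : L n x (-y) < 0 := by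
      refine L_neg hx hx0 ?_ ?_
      · rw [L_neg_left, L_neg_right]; linarith
      · simpa using h0
    rw [L_neg_right] at h1
    linarith

theorem L_ne_zero {x y : Fin (n + 1) → ℝ} (hx : L n x x < 0) (hy : L n y y ≤ 0) (hy0 : y ≠ 0) :
    L n x y ≠ 0 := by
  intro h
  have := L_pos_of_orth hx h hy0
  linarith

end Pool.Agent.Work.MP_f6469e_gt
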