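import Pool.Agent.Work.MP_f6469e_gt.BPar
import Pool.Agent.Work.MP_f6469e_gt.Lor

/-!
# Module BTime (M): a non-elliptic set contains a time-like vector with coefficients `≥ 0`

* `exists_time`: there is `c` supported on `S`, `c ≠ 0`, with `q c := L n (comb e c) (comb e c) ≤ 0`. Replace `c` by `|c|`: `q |c| ≤ q c` since the off-diagonal products are `≤ 0`
  (`L_comb_comb`). If `q c < 0` we are done. Otherwise `q c = 0`; by `no_parabolic` there is `i ∈ S` with `b := L n (e i) (comb e c) ≠ 0`.
  For `t` real `q (c + t ε_i) = 2 t b + t²`. If `b < 0` take a small `t > 0`. If `b > 0` then `c i > 0` (otherwise `b = ∑_{j ≠ i} c j * L n (e i) (e j) ≤ 0`), take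
  `t < 0` small with `c i + t ≥ 0`.
* `joined`: take `c, c'` for `S, T`, `u = comb e c`, `u' = comb e c'`. If all products are `0` (they are `≤ 0` by `off`; `S, T` are disjoint) then `L n u u' = 0`, and
  `L_pos_of_orth` (`u' ≠ 0` as its norm is negative) gives `0 < L n u' u'`, a contradiction.
-/

set_option autoImplicit false

namespace Pool.Agent.Work.MP_f6469e_gt

variable {n N : ℕ} {e : Fin N → (Fin (n + 1) → ℝ)}


private theorem q_abs_le (hP : Acute n N e) (c : Fin N → ℝ) :
    L n (comb e fun i => |c i|) (comb e fun i => |c i|) ≤ L n (comb e c) (comb e c) := by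
  rw [L_comb_comb, L_comb_comb]
  refine Finset.sum_le_sum fun i _ => Finset.sum_le_sum fun j _ => ?_
  by_cases hij : i = j
  · subst hij
    rw [abs_mul_abs_self]
  · have h1 := hP.off i j hij
    have h2 : c i * c j ≤ |c i| * |c j| := by rw [← abs_mul]; exact le_abs_self _
    exact mul_le_mul_of_nonpos_right h2 h1

private theorem coef_le (hP : Acute n N e) {c : Fin N → ℝ} (h0 : ∀ i, 0 ≤ c i) (i : Fin N) :
    L n (e i) (comb e c) ≤ c i := by
  rw [L_comb_right, ← Finset.add_sum_erase _ _ (Finset.mem_univ i), hP.unit, mul_one]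
  have h : ∑ x ∈ Finset.univ.erase i, c x * L n (e i) (e x) ≤ 0 :=
    Finset.sum_nonpos fun j hj =>
      mul_nonpos_of_nonneg_of_nonpos (h0 j) (hP.off i j (Finset.ne_of_mem_erase hj).symm)
  linarith

theorem exists_time (hn : 1 ≤ n) (hP : Acute n N e) {S : Finset (Fin N)} (hS : ¬ Ell e S) :
    ∃ c : Fin N → ℝ, (∀ i, 0 ≤ c i) ∧ (∀ i, i ∉ S → c i = 0) ∧
      L n (comb e c) (comb e c) < 0 := by
  classical
  unfold Ell at hS
  push Not at hS
  obtain ⟨c, hcS, hc0, hc⟩ := hS
  set d : Fin N → ℝ := fun i => |c i| with hd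
  have hd0 : ∀ i, 0 ≤ d i := fun i => abs_nonneg _
  have hdS : ∀ i, i ∉ S → d i = 0 := fun i hi => by simp [hd, hcS i hi]
  have hdne : d ≠ 0 := by
    intro h
    apply hc0
    funext i
    have := congrFun h i
    simpa [hd] using this
  have hq : L n (comb e d) (comb e d) ≤ 0 := (q_abs_le hP c).trans hc
  rcases hq.lt_or_eq with hq | hq
  · exact ⟨d, hd0, hdS, hq⟩
  · by_cases hall : ∀ i ∈ S, L n (e i) (comb e d) = 0
    · exact (no_parabolic hn hP hd0 hdS hdne hall).elim
    · push Not at hall
      obtain ⟨i, hi, hb⟩ := hall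
      set b := L n (e i) (comb e d) with hbdef
      have hbi : b ≤ d i := coef_le hP hd0 i
      refine ⟨d + Pi.single i (-b), ?_, ?_, ?_⟩
      · intro j
        by_cases hj : j = i
        · subst hj
          simp only [Pi.add_apply, Pi.single_eq_same]
          linarith
        · simp only [Pi.add_apply, Pi.single_eq_of_ne hj, add_zero]
          exact hd0 j
      · intro j hj
        have hji : j ≠ i := fun h => hj (h ▸ hi)
        simp only [Pi.add_apply, Pi.single_eq_of_ne hji, add_zero]
        exact hdS j hj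
      · rw [comb_add, comb_single, L_add_left, L_add_right, L_add_right, L_smul_left, L_smul_left,
          L_smul_right, L_smul_right, hP.unit, L_comm (comb e d) (e i), ← hbdef, hq]
        have : 0 < b * b := mul_self_pos.2 hb
        nlinarith

theorem joined (hn : 1 ≤ n) (hP : Acute n N e) {S T : Finset (Fin N)} (hS : ¬ Ell e S)
    (hT : ¬ Ell e T) (hST : Disjoint S T) : ∃ i ∈ S, ∃ j ∈ T, L n (e i) (e j) < 0 := by
  by_contra hcon
  push Not at hcon
  obtain ⟨c, hc0, hcS, hc⟩ := exists_time hn hP hS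
  obtain ⟨d, hd0, hdT, hd⟩ := exists_time hn hP hT
  have h1 : L n (comb e c) (comb e d) = 0 := by
    rw [L_comb_comb]
    refine Finset.sum_eq_zero fun i _ => Finset.sum_eq_zero fun j _ => ?_
    by_cases hi : i ∈ S
    · by_cases hj : j ∈ T
      · have hij : i ≠ j := fun h => (Finset.disjoint_left.1 hST hi) (h ▸ hj)
        rw [le_antisymm (hP.off i j hij) (hcon i hi j hj), mul_zero]
      · rw [hdT j hj, mul_zero, zero_mul]
    · rw [hcS i hi, zero_mul, zero_mul]
  have h2 : comb e d ≠ 0 := by
    intro h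
    rw [h, L_zero_left] at hd
    exact lt_irrefl _ hd
  have h3 := L_pos_of_orth hc h1 h2
  linarith

end Pool.Agent.Work.MP_f6469e_gt
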