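import Pool.Agent.Work.MP_f6469e_gt.BSep
import Pool.Agent.Work.MP_f6469e_gt.BTime
import Pool.Agent.Work.MP_f6469e_gt.BMin

/-!
# Module BQuad (M): a quadrilateral has a charged corner

Suppose that no corner is charged. The corners are not joined: `L_ab = L_bc = L_cd = L_da = 0` (they are `≤ 0`). `exists_minNon_pair` gives Lanner sets `S₁ ∋ a, c` in `T ∪ {a, c}` and `S₂ ∋ b, d` in `T ∪ {b, d}`.
`sep` (four times; use `Finset.insert_comm`, `Finset.pair_comm`): (i) `L_st = 0` for `s ∈ {a, c}`, `t ∈ S₂ \ {b, d}`; (ii) `L_st = 0` for `s ∈ {b, d}`, `t ∈ S₁ \ {a, c}`.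
* `S₁, S₂` are disjoint: a common element `t` is in `T`, `t ∈ S₁ \ {a, c}`, so by the first part of `star` it is joined to `a` or `c`, contradiction to (i).
* By `joined` there are `x ∈ S₁`, `y ∈ S₂` with `L_xy < 0`. By (i), (ii) and the above `x ∉ {a, c}`, `y ∉ {b, d}`, so `x, y ∈ T`, and `L_xy ≤ -1/2`. Use the second part of `star` for `x` in `S₁`:
  - 6-edge from `x` to `w ∈ {a, c}`: `loc6` for `w, x, y` in `T ∪ {w, b}`.
  - `w ∈ {a, c}`, `t'`: `loc4b` in `T ∪ {w, b}`, centre `x`, 4-edge to `t'`, others `w`, `y` (`t' ≠ y` as `S₁, S₂` are disjoint).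
  - So `x` has a 4-edge to some `w ∈ {a, c}`; in the same way `y` has a 4-edge to some `w' ∈ {b, d}`. `loc434` for `w, x, y, w'` in `T ∪ {w, w'}`.
-/

set_option autoImplicit false

namespace Pool.Agent.Work.MP_f6469e_gt

variable {n N : ℕ} {e : Fin N → (Fin (n + 1) → ℝ)}


private theorem bq_half (hL : Lab n N e) {x y : Fin N} (hxy : x ≠ y)
    (h : L n (e x) (e y) < 0) : L n (e x) (e y) ≤ -(1 / 2) := by
  have h2 : (1 : ℝ) ≤ √2 := Real.one_le_sqrt.2 (by norm_num)
  have h3 : (1 : ℝ) ≤ √3 := Real.one_le_sqrt.2 (by norm_num)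
  rcases hL.lab x y hxy with h1 | h1 | h1 | h1 | h1 <;> linarith

/-- An element `x` of `S`, joined to an element `y` of `T` outside `S`, has a 4-edge to `w ∈ {a, c}`. -/
private theorem bq_four (hn : 1 ≤ n) (hL : Lab n N e) {T S : Finset (Fin N)} {a c x y : Fin N}
    (hS : MinNon e S) (haS : a ∈ S) (hcS : c ∈ S) (hac : a ≠ c)
    (hsub : S ⊆ insert a (insert c T)) (haT : a ∉ T) (hcT : c ∉ T) (hxS : x ∈ S) (hxT : x ∈ T)
    (hyT : y ∈ T) (hyS : y ∉ S) (hxy : L n (e x) (e y) ≤ -(1 / 2))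
    (ha : Ell e (insert a T)) (hc : Ell e (insert c T)) :
    ∃ w, (w = a ∨ w = c) ∧ L n (e x) (e w) = -(√2 / 2) := by
  have hne : x ≠ y := fun h => hyS (h ▸ hxS)
  have hxa : x ≠ a := fun h => haT (h ▸ hxT)
  have hxc : x ≠ c := fun h => hcT (h ▸ hxT)
  have hya : y ≠ a := fun h => haT (h ▸ hyT)
  have hyc : y ≠ c := fun h => hcT (h ▸ hyT)
  have hE : ∀ w, w = a ∨ w = c → Ell e (insert w T) := by
    rintro w (rfl | rfl)
    · exact ha
    · exact hc
  have h6 : ∀ w, w = a ∨ w = c → L n (e x) (e w) ≠ -(√3 / 2) := by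
    intro w hw h
    have hwx : w ≠ x := by rcases hw with rfl | rfl; exacts [hxa.symm, hxc.symm]
    have hwy : w ≠ y := by rcases hw with rfl | rfl; exacts [hya.symm, hyc.symm]
    exact loc6 hL.ac (Finset.mem_insert_self w T) (Finset.mem_insert_of_mem hxT)
      (Finset.mem_insert_of_mem hyT) hwx hne hwy (by rw [L_comm, h]) hxy (hE w hw)
  rcases (star hn hL hS haS hcS hac hxS hxa hxc).2 with h | h | h | h | ⟨w, t', hw, ht', h1, h2, h3, h4, h5⟩
  · exact absurd h (h6 a (Or.inl rfl))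
  · exact absurd h (h6 c (Or.inr rfl))
  · exact ⟨a, Or.inl rfl, h⟩
  · exact ⟨c, Or.inr rfl, h⟩
  · exfalso
    have hwx : w ≠ x := by rcases hw with rfl | rfl; exacts [hxa.symm, hxc.symm]
    have hwy : w ≠ y := by rcases hw with rfl | rfl; exacts [hya.symm, hyc.symm]
    have htw : t' ≠ w := by rcases hw with rfl | rfl; exacts [h1, h2]
    have hty : t' ≠ y := fun h => hyS (h ▸ ht')
    have htT : t' ∈ T := by
      rcases Finset.mem_insert.1 (hsub ht') with h | h
      · exact absurd h h1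
      · rcases Finset.mem_insert.1 h with h | h
        · exact absurd h h2
        · exact h
    exact loc4b hL.ac (Finset.mem_insert_of_mem htT) (Finset.mem_insert_of_mem hxT)
      (Finset.mem_insert_self w T) (Finset.mem_insert_of_mem hyT) h3 htw hty hwx.symm hne hwy
      (by rw [L_comm, h5]) (by rw [h4]) hxy (hE w hw)

theorem quad (hn : 1 ≤ n) (hL : Lab n N e) {T : Finset (Fin N)} {a b c d : Fin N} (hab : a ≠ b)
    (hac : a ≠ c) (had : a ≠ d) (hbc : b ≠ c) (hbd : b ≠ d) (hcd : c ≠ d) (haT : a ∉ T)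
    (hbT : b ∉ T) (hcT : c ∉ T) (hdT : d ∉ T) (h1 : Ell e (insert a (insert b T)))
    (h2 : Ell e (insert b (insert c T))) (h3 : Ell e (insert c (insert d T)))
    (h4 : Ell e (insert d (insert a T))) (h5 : ¬ Ell e (insert a (insert c T)))
    (h6 : ¬ Ell e (insert b (insert d T))) :
    Good e (insert a (insert b T)) {a, b} ∨ Good e (insert b (insert c T)) {b, c} ∨
    Good e (insert c (insert d T)) {c, d} ∨ Good e (insert d (insert a T)) {d, a} := by
  by_contra hcon
  push Not at hcon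
  obtain ⟨g1, g2, g3, g4⟩ := hcon
  -- the other orders
  have h1' : Ell e (insert b (insert a T)) := by rw [Finset.insert_comm]; exact h1
  have h2' : Ell e (insert c (insert b T)) := by rw [Finset.insert_comm]; exact h2
  have h3' : Ell e (insert d (insert c T)) := by rw [Finset.insert_comm]; exact h3
  have h4' : Ell e (insert a (insert d T)) := by rw [Finset.insert_comm]; exact h4
  have g1' : ¬ Good e (insert b (insert a T)) {b, a} := by
    rw [Finset.insert_comm, Finset.pair_comm]; exact g1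
  have g2' : ¬ Good e (insert c (insert b T)) {c, b} := by
    rw [Finset.insert_comm, Finset.pair_comm]; exact g2
  have g3' : ¬ Good e (insert d (insert c T)) {d, c} := by
    rw [Finset.insert_comm, Finset.pair_comm]; exact g3
  have g4' : ¬ Good e (insert a (insert d T)) {a, d} := by
    rw [Finset.insert_comm, Finset.pair_comm]; exact g4
  have hz : ∀ (D : Finset (Fin N)) (s t : Fin N), s ≠ t → ¬ Good e D {s, t} →
      L n (e s) (e t) = 0 := by
    intro D s t hst hg
    refine le_antisymm (hL.ac.off s t hst) ?_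
    by_contra hlt
    push Not at hlt
    exact hg ⟨s, t, hst, rfl, Or.inl hlt⟩
  have zab := hz _ _ _ hab g1
  have zbc := hz _ _ _ hbc g2
  have zcd := hz _ _ _ hcd g3
  have zda := hz _ _ _ had.symm g4
  have ea : Ell e (insert a T) := h1.mono (Finset.insert_subset_insert a (Finset.subset_insert b T))
  have eb : Ell e (insert b T) := h2.mono (Finset.insert_subset_insert b (Finset.subset_insert c T))
  have ec : Ell e (insert c T) := h3.mono (Finset.insert_subset_insert c (Finset.subset_insert d T))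
  have ed : Ell e (insert d T) := h4.mono (Finset.insert_subset_insert d (Finset.subset_insert a T))
  obtain ⟨S₁, s1, a1, c1, m1⟩ := exists_minNon_pair h5 ea ec
  obtain ⟨S₂, s2, b2, d2, m2⟩ := exists_minNon_pair h6 eb ed
  have qa : ∀ t ∈ S₂, t ≠ b → t ≠ d → L n (e a) (e t) = 0 := fun t ht htb htd =>
    sep hn hL m2 b2 d2 hbd s2 haT hab had h1 h4' g1 g4' ht htb htd
  have qc : ∀ t ∈ S₂, t ≠ b → t ≠ d → L n (e c) (e t) = 0 := fun t ht htb htd =>
    sep hn hL m2 b2 d2 hbd s2 hcT hbc.symm hcd h2' h3 g2' g3 ht htb htd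
  have qb : ∀ t ∈ S₁, t ≠ a → t ≠ c → L n (e b) (e t) = 0 := fun t ht hta htc =>
    sep hn hL m1 a1 c1 hac s1 hbT hab.symm hbc h1' h2 g1' g2 ht hta htc
  have qd : ∀ t ∈ S₁, t ≠ a → t ≠ c → L n (e d) (e t) = 0 := fun t ht hta htc =>
    sep hn hL m1 a1 c1 hac s1 hdT had.symm hcd.symm h4 h3' g4 g3' ht hta htc
  have in1 : ∀ t ∈ S₁, t ≠ a → t ≠ c → t ∈ T := by
    intro t ht hta htc
    rcases Finset.mem_insert.1 (s1 ht) with h | h
    · exact absurd h hta
    · rcases Finset.mem_insert.1 h with h | h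
      · exact absurd h htc
      · exact h
  have in2 : ∀ t ∈ S₂, t ≠ b → t ≠ d → t ∈ T := by
    intro t ht htb htd
    rcases Finset.mem_insert.1 (s2 ht) with h | h
    · exact absurd h htb
    · rcases Finset.mem_insert.1 h with h | h
      · exact absurd h htd
      · exact h
  -- membership of the corners
  have na2 : a ∉ S₂ := by
    intro h
    exact haT (in2 a h hab had)
  have nc2 : c ∉ S₂ := fun h => hcT (in2 c h hbc.symm hcd)
  have nb1 : b ∉ S₁ := fun h => hbT (in1 b h hab.symm hbc)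
  have nd1 : d ∉ S₁ := fun h => hdT (in1 d h had.symm hcd.symm)
  have hdisj : Disjoint S₁ S₂ := by
    rw [Finset.disjoint_left]
    intro x hx1 hx2
    have hxa : x ≠ a := fun h => na2 (h ▸ hx2)
    have hxc : x ≠ c := fun h => nc2 (h ▸ hx2)
    have hxb : x ≠ b := fun h => nb1 (h ▸ hx1)
    have hxd : x ≠ d := fun h => nd1 (h ▸ hx1)
    rcases (star hn hL m1 a1 c1 hac hx1 hxa hxc).1 with h | h
    · rw [L_comm, qa x hx2 hxb hxd] at h
      exact lt_irrefl _ h
    · rw [L_comm, qc x hx2 hxb hxd] at h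
      exact lt_irrefl _ h
  obtain ⟨x, hx, y, hy, hxy⟩ := joined hn hL.ac m1.1 m2.1 hdisj
  have hxy0 : L n (e x) (e y) ≠ 0 := hxy.ne
  have hxa : x ≠ a := by
    rintro rfl
    by_cases hyb : y = b
    · subst hyb; exact hxy0 zab
    by_cases hyd : y = d
    · subst hyd; exact hxy0 (by rw [L_comm]; exact zda)
    exact hxy0 (qa y hy hyb hyd)
  have hxc : x ≠ c := by
    rintro rfl
    by_cases hyb : y = b
    · subst hyb; exact hxy0 (by rw [L_comm]; exact zbc)
    by_cases hyd : y = d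
    · subst hyd; exact hxy0 zcd
    exact hxy0 (qc y hy hyb hyd)
  have hyb : y ≠ b := by
    rintro rfl
    exact hxy0 (by rw [L_comm]; exact qb x hx hxa hxc)
  have hyd : y ≠ d := by
    rintro rfl
    exact hxy0 (by rw [L_comm]; exact qd x hx hxa hxc)
  have hxT := in1 x hx hxa hxc
  have hyT := in2 y hy hyb hyd
  have hx2 : x ∉ S₂ := Finset.disjoint_left.1 hdisj hx
  have hy1 : y ∉ S₁ := Finset.disjoint_right.1 hdisj hy
  have hne : x ≠ y := fun h => hy1 (h ▸ hx)
  have hle := bq_half hL hne hxy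
  obtain ⟨w, hw, hxw⟩ := bq_four hn hL m1 a1 c1 hac s1 haT hcT hx hxT hyT hy1 hle ea ec
  obtain ⟨w', hw', hyw⟩ := bq_four hn hL m2 b2 d2 hbd s2 hbT hdT hy hyT hxT hx2
    (by rw [L_comm]; exact hle) eb ed
  have hE : Ell e (insert w (insert w' T)) := by
    rcases hw with rfl | rfl <;> rcases hw' with rfl | rfl
    · exact h1
    · exact h4'
    · exact h2'
    · exact h3
  have hwT : w ∉ T := by rcases hw with rfl | rfl; exacts [haT, hcT]
  have hwT' : w' ∉ T := by rcases hw' with rfl | rfl; exacts [hbT, hdT]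
  have hww : w ≠ w' := by
    rcases hw with rfl | rfl <;> rcases hw' with rfl | rfl
    · exact hab
    · exact had
    · exact hbc.symm
    · exact hcd
  refine loc434 hL.ac (i := w) (j := x) (k := y) (l := w') (Finset.mem_insert_self _ _)
    (Finset.mem_insert_of_mem (Finset.mem_insert_of_mem hxT))
    (Finset.mem_insert_of_mem (Finset.mem_insert_of_mem hyT))
    (Finset.mem_insert_of_mem (Finset.mem_insert_self _ _)) (fun h => hwT (h ▸ hxT))
    (fun h => hwT (h ▸ hyT)) hww hne (fun h => hwT' (h ▸ hxT)) (fun h => hwT' (h ▸ hyT))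
    (by rw [L_comm, hxw]) hle (by rw [hyw]) hE

end Pool.Agent.Work.MP_f6469e_gt
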