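import Pool.Agent.Work.MP_f6469e_gt.BStar
import Pool.Agent.Work.MP_f6469e_gt.BLoc

/-!
# Module BSep (M): without charged corners the walls `s` are separated from the other Lanner set

`T` is contained in both vertices. Suppose `L n (e s) (e t) ≠ 0`; it is not `< -1` (the pair `{s, t}` is contained in a vertex, so elliptic; then `ε_s + ε_t` would have norm `< 0`), so it is `≤ -1/2`. Note `t ∈ T` (as
`hsub`), `t ≠ s` (`s ∉ T`). Use `star` for `t`:
* 6-edge from `t` to `w ∈ {b, d}`: `loc6` for `w, t, s` in the vertex `T ∪ {s, w}`.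
* 4-edge from `t` to `w ∈ {b, d}`: if `L_st ≤ -√2/2` then `loc44` for `s, t, w`; if `L_st = -1/2` then `{s, w}` is a charged corner of `T ∪ {s, w}` (`Good` with `a = s`, `b = w` and `t`), contradiction to `hg1` or `hg2`.
* `w, t'`: `loc4b` in `T ∪ {s, w}` with centre `t`, 4-edge to `t'`, and `s`, `w` (`t' ∈ T`; `s ≠ t'`; `s ≠ w`).
-/

set_option autoImplicit false

namespace Pool.Agent.Work.MP_f6469e_gt

variable {n N : ℕ} {e : Fin N → (Fin (n + 1) → ℝ)}


theorem sep (hn : 1 ≤ n) (hL : Lab n N e) {T S : Finset (Fin N)} {b d s t : Fin N}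
    (hS : MinNon e S) (hb : b ∈ S) (hd : d ∈ S) (hbd : b ≠ d)
    (hsub : S ⊆ insert b (insert d T)) (hsT : s ∉ T) (hsb : s ≠ b) (hsd : s ≠ d)
    (h1 : Ell e (insert s (insert b T))) (h2 : Ell e (insert s (insert d T)))
    (hg1 : ¬ Good e (insert s (insert b T)) {s, b})
    (hg2 : ¬ Good e (insert s (insert d T)) {s, d}) (ht : t ∈ S) (htb : t ≠ b) (htd : t ≠ d) :
    L n (e s) (e t) = 0 := by
  have hP := hL.ac
  have htT : t ∈ T := by
    have h := hsub ht
    rw [Finset.mem_insert, Finset.mem_insert] at h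
    rcases h with h | h | h
    · exact absurd h htb
    · exact absurd h htd
    · exact h
  have hts : t ≠ s := fun h => hsT (h ▸ htT)
  have hst : s ≠ t := hts.symm
  have hsV : ∀ w : Fin N, s ∈ insert s (insert w T) := fun w => Finset.mem_insert_self _ _
  have hwV : ∀ w : Fin N, w ∈ insert s (insert w T) := fun w =>
    Finset.mem_insert_of_mem (Finset.mem_insert_self _ _)
  have hTV : ∀ (w : Fin N) {x : Fin N}, x ∈ T → x ∈ insert s (insert w T) := fun w x hx =>
    Finset.mem_insert_of_mem (Finset.mem_insert_of_mem hx)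
  have q2 : (1 : ℝ) < √2 := by
    rw [show (1 : ℝ) = √1 by simp]
    exact Real.sqrt_lt_sqrt (by norm_num) (by norm_num)
  have q3 : √2 < √3 := Real.sqrt_lt_sqrt (by norm_num) (by norm_num)
  by_contra hne
  have hle : L n (e s) (e t) ≤ -(√2 / 2) ∨ L n (e s) (e t) = -(1 / 2) := by
    rcases hL.lab s t hst with h | h | h | h | h
    · exact absurd h hne
    · exact Or.inr h
    · exact Or.inl h.le
    · exact Or.inl (by linarith)
    · exfalso
      have h3 := h1 (Pi.single s 1 + Pi.single t 1) ?_ ?_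
      · rw [comb_add, comb_single, comb_single] at h3
        simp only [L_add_left, L_add_right, L_smul_left, L_smul_right, hP.unit] at h3
        rw [L_comm (e t) (e s)] at h3
        linarith
      · intro x hx
        have a1 : x ≠ s := fun h' => hx (h' ▸ hsV b)
        have a2 : x ≠ t := fun h' => hx (h' ▸ hTV b htT)
        simp [Pi.single_eq_of_ne, a1, a2]
      · intro h0
        have h2 := congrFun h0 s
        rw [Pi.add_apply, Pi.single_eq_same, Pi.single_eq_of_ne hst] at h2
        simp at h2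
  have hhalf : L n (e s) (e t) ≤ -(1 / 2) := by
    rcases hle with h | h
    · linarith
    · exact h.le
  have hhalf' : L n (e t) (e s) ≤ -(1 / 2) := by
    rw [L_comm]
    exact hhalf
  -- the vertex of `w`
  have key6 : ∀ w : Fin N, w ≠ t → w ≠ s → Ell e (insert s (insert w T)) →
      L n (e t) (e w) ≠ -(√3 / 2) := by
    intro w hwt hws hE h
    exact loc6 hP (hwV w) (hTV w htT) (hsV w) hwt hts hws (by rw [L_comm]; exact h.le) hhalf' hE
  have key4 : ∀ w : Fin N, w ≠ t → w ≠ s → Ell e (insert s (insert w T)) →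
      ¬ Good e (insert s (insert w T)) {s, w} → L n (e t) (e w) ≠ -(√2 / 2) := by
    intro w hwt hws hE hg h
    rcases hle with h' | h'
    · exact loc44 hP (hsV w) (hTV w htT) (hwV w) hst hwt.symm hws.symm h' h.le hE
    · exact hg ⟨s, w, hws.symm, rfl, Or.inr ⟨t, hTV w htT, h', h⟩⟩
  have key4b : ∀ w t' : Fin N, w ≠ t → w ≠ s → Ell e (insert s (insert w T)) → t' ∈ T →
      t' ≠ w → t' ≠ t → L n (e t) (e w) = -(1 / 2) → L n (e t) (e t') ≠ -(√2 / 2) := by
    intro w t' hwt hws hE ht' htw htt h h'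
    exact loc4b hP (hTV w ht') (hTV w htT) (hwV w) (hsV w) htt htw (fun h0 => hsT (h0 ▸ ht'))
      hwt.symm hts hws (by rw [L_comm]; exact h'.le) h.le hhalf' hE
  rcases (star hn hL hS hb hd hbd ht htb htd).2 with h | h | h | h | ⟨w, t', hw, ht', h3, h4, h5, h6, h7⟩
  · exact key6 b htb.symm hsb.symm h1 h
  · exact key6 d htd.symm hsd.symm h2 h
  · exact key4 b htb.symm hsb.symm h1 hg1 h
  · exact key4 d htd.symm hsd.symm h2 hg2 h
  · have ht'T : t' ∈ T := by
      have h := hsub ht'
      rw [Finset.mem_insert, Finset.mem_insert] at h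
      rcases h with h | h | h
      · exact absurd h h3
      · exact absurd h h4
      · exact h
    rcases hw with rfl | rfl
    · exact key4b w t' htb.symm hsb.symm h1 ht'T h3 h5 h6 h7
    · exact key4b w t' htd.symm hsd.symm h2 ht'T h4 h5 h6 h7

end Pool.Agent.Work.MP_f6469e_gt
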