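import Pool.Agent.Work.MP_f6469e_gt.BClas

/-!
# Module BStar (M): the elements of a Lanner set near two chosen ones

`clas`; `b, d, t` are three different elements of `S`. `S = {i, j}` is impossible. For a triple `{i, j, k}`: six assignments of `(b, d, t)`; every element of a `Tri3` triple is joined to at least one of any
other two... more exactly: `t` is joined to `b` or `d` since the triple is connected. Second part: (4,6,0), (6,6,0), (3,6,6): if `t` has a 6-edge then its other end is `b` or `d`; the only element without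
a 6-edge is the end `i` of the 4-edge in (4,6,0), which has a 4-edge to `j`. (3,4,4): every element has a 4-edge.
For the square every element has exactly one 3-edge and one 4-edge, and it is joined to two of the other three elements, so to `b` or `d`. If its 4-edge goes to `b` or `d` we are done; otherwise it goes to the
fourth element `t'`, the 3-edge goes to `w ∈ {b, d}`.
-/

set_option autoImplicit false

namespace Pool.Agent.Work.MP_f6469e_gt

variable {n N : ℕ} {e : Fin N → (Fin (n + 1) → ℝ)}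


private theorem bs_p2 : -(√2 / 2) < 0 := by
  have : 0 < √2 := Real.sqrt_pos.2 (by norm_num)
  linarith

private theorem bs_p3 : -(√3 / 2) < 0 := by
  have : 0 < √3 := Real.sqrt_pos.2 (by norm_num)
  linarith

private theorem bs_tri {S : Finset (Fin N)} {b d t p q : Fin N} (hb : b = p ∨ b = q)
    (hd : d = p ∨ d = q) (hbd : b ≠ d)
    (h : (L n (e t) (e p) = -(√3 / 2) ∨ L n (e t) (e p) = -(√2 / 2)) ∨
      (L n (e t) (e q) = -(√3 / 2) ∨ L n (e t) (e q) = -(√2 / 2))) :
    (L n (e t) (e b) < 0 ∨ L n (e t) (e d) < 0) ∧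
    (L n (e t) (e b) = -(√3 / 2) ∨ L n (e t) (e d) = -(√3 / 2) ∨
      L n (e t) (e b) = -(√2 / 2) ∨ L n (e t) (e d) = -(√2 / 2) ∨
      ∃ w t', (w = b ∨ w = d) ∧ t' ∈ S ∧ t' ≠ b ∧ t' ≠ d ∧ t' ≠ t ∧
        L n (e t) (e w) = -(1 / 2) ∧ L n (e t) (e t') = -(√2 / 2)) := by
  have h2 := bs_p2
  have h3 := bs_p3
  rcases hb with rfl | rfl <;> rcases hd with rfl | rfl
  · exact absurd rfl hbd
  · rcases h with (h | h) | (h | h)
    · exact ⟨Or.inl (by rw [h]; exact h3), Or.inl h⟩
    · exact ⟨Or.inl (by rw [h]; exact h2), Or.inr (Or.inr (Or.inl h))⟩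
    · exact ⟨Or.inr (by rw [h]; exact h3), Or.inr (Or.inl h)⟩
    · exact ⟨Or.inr (by rw [h]; exact h2), Or.inr (Or.inr (Or.inr (Or.inl h)))⟩
  · rcases h with (h | h) | (h | h)
    · exact ⟨Or.inr (by rw [h]; exact h3), Or.inr (Or.inl h)⟩
    · exact ⟨Or.inr (by rw [h]; exact h2), Or.inr (Or.inr (Or.inr (Or.inl h)))⟩
    · exact ⟨Or.inl (by rw [h]; exact h3), Or.inl h⟩
    · exact ⟨Or.inl (by rw [h]; exact h2), Or.inr (Or.inr (Or.inl h))⟩
  · exact absurd rfl hbd

private theorem bs_sq {S : Finset (Fin N)} {b d t p q r : Fin N} (hq : q ∈ S)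
    (hb : b = p ∨ b = q ∨ b = r) (hd : d = p ∨ d = q ∨ d = r) (hbd : b ≠ d)
    (hpq : q ≠ p) (hqr : q ≠ r) (hqt : q ≠ t)
    (h1 : L n (e t) (e p) = -(1 / 2)) (h2 : L n (e t) (e q) = -(√2 / 2)) :
    (L n (e t) (e b) < 0 ∨ L n (e t) (e d) < 0) ∧
    (L n (e t) (e b) = -(√3 / 2) ∨ L n (e t) (e d) = -(√3 / 2) ∨
      L n (e t) (e b) = -(√2 / 2) ∨ L n (e t) (e d) = -(√2 / 2) ∨
      ∃ w t', (w = b ∨ w = d) ∧ t' ∈ S ∧ t' ≠ b ∧ t' ≠ d ∧ t' ≠ t ∧
        L n (e t) (e w) = -(1 / 2) ∧ L n (e t) (e t') = -(√2 / 2)) := by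
  have h3 := bs_p2
  by_cases hbq : b = q
  · subst hbq
    exact ⟨Or.inl (by rw [h2]; exact h3), Or.inr (Or.inr (Or.inl h2))⟩
  by_cases hdq : d = q
  · subst hdq
    exact ⟨Or.inr (by rw [h2]; exact h3), Or.inr (Or.inr (Or.inr (Or.inl h2)))⟩
  have hw : p = b ∨ p = d := by
    rcases hb with hb | hb | hb
    · exact Or.inl hb.symm
    · exact absurd hb hbq
    · rcases hd with hd | hd | hd
      · exact Or.inr hd.symm
      · exact absurd hd hdq
      · exact absurd (hb.trans hd.symm) hbd
  refine ⟨?_, Or.inr (Or.inr (Or.inr (Or.inr ⟨p, q, hw, hq, fun h => hbq h.symm,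
    fun h => hdq h.symm, hqt, h1, h2⟩)))⟩
  rcases hw with rfl | rfl
  · exact Or.inl (by rw [h1]; norm_num)
  · exact Or.inr (by rw [h1]; norm_num)

theorem star (hn : 1 ≤ n) (hL : Lab n N e) {S : Finset (Fin N)} (hS : MinNon e S)
    {b d t : Fin N} (hb : b ∈ S) (hd : d ∈ S) (hbd : b ≠ d) (ht : t ∈ S) (htb : t ≠ b)
    (htd : t ≠ d) :
    (L n (e t) (e b) < 0 ∨ L n (e t) (e d) < 0) ∧
    (L n (e t) (e b) = -(√3 / 2) ∨ L n (e t) (e d) = -(√3 / 2) ∨
      L n (e t) (e b) = -(√2 / 2) ∨ L n (e t) (e d) = -(√2 / 2) ∨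
      ∃ w t', (w = b ∨ w = d) ∧ t' ∈ S ∧ t' ≠ b ∧ t' ≠ d ∧ t' ≠ t ∧
        L n (e t) (e w) = -(1 / 2) ∧ L n (e t) (e t') = -(√2 / 2)) := by
  rcases clas hn hL hS with ⟨i, j, hij, rfl, -⟩ | ⟨i, j, k, hij, hjk, hik, rfl, h⟩ |
    ⟨i, j, k, l, hij, hik, hil, hjk, hjl, hkl, rfl, h⟩
  · exfalso
    rw [Finset.mem_insert, Finset.mem_singleton] at hb hd ht
    rcases hb with rfl | rfl <;> rcases hd with rfl | rfl <;> rcases ht with rfl | rfl <;>
      first
        | exact hbd rfl
        | exact htb rfl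
        | exact htd rfl
  · simp only [Finset.mem_insert, Finset.mem_singleton] at hb hd ht
    have c1 : L n (e j) (e i) = L n (e i) (e j) := L_comm _ _
    have c2 : L n (e k) (e j) = L n (e j) (e k) := L_comm _ _
    have c3 : L n (e k) (e i) = L n (e i) (e k) := L_comm _ _
    rcases ht with rfl | rfl | rfl
    · refine bs_tri (p := j) (q := k) ?_ ?_ hbd ?_
      · rcases hb with hb | hb
        · exact absurd hb.symm htb
        · exact hb
      · rcases hd with hd | hd
        · exact absurd hd.symm htd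
        · exact hd
      · rcases h with ⟨h1, h2, h3⟩ | ⟨h1, h2, h3⟩ | ⟨h1, h2, h3⟩ | ⟨h1, h2, h3⟩
        · exact Or.inl (Or.inr h1)
        · exact Or.inl (Or.inl h1)
        · exact Or.inr (Or.inr h3)
        · exact Or.inr (Or.inl h3)
    · refine bs_tri (p := i) (q := k) ?_ ?_ hbd ?_
      · rcases hb with hb | hb | hb
        · exact Or.inl hb
        · exact absurd hb.symm htb
        · exact Or.inr hb
      · rcases hd with hd | hd | hd
        · exact Or.inl hd
        · exact absurd hd.symm htd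
        · exact Or.inr hd
      · rw [c1]
        rcases h with ⟨h1, h2, h3⟩ | ⟨h1, h2, h3⟩ | ⟨h1, h2, h3⟩ | ⟨h1, h2, h3⟩
        · exact Or.inl (Or.inr h1)
        · exact Or.inl (Or.inl h1)
        · exact Or.inr (Or.inr h2)
        · exact Or.inr (Or.inl h2)
    · refine bs_tri (p := i) (q := j) ?_ ?_ hbd ?_
      · rcases hb with hb | hb | hb
        · exact Or.inl hb
        · exact Or.inr hb
        · exact absurd hb.symm htb
      · rcases hd with hd | hd | hd
        · exact Or.inl hd
        · exact Or.inr hd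
        · exact absurd hd.symm htd
      · rw [c2, c3]
        rcases h with ⟨h1, h2, h3⟩ | ⟨h1, h2, h3⟩ | ⟨h1, h2, h3⟩ | ⟨h1, h2, h3⟩
        · exact Or.inr (Or.inl h2)
        · exact Or.inr (Or.inl h2)
        · exact Or.inr (Or.inr h2)
        · exact Or.inr (Or.inl h2)
  · obtain ⟨h1, h2, h3, h4, -, -⟩ := h
    have c1 : L n (e j) (e i) = -(1 / 2) := (L_comm _ _).trans h1
    have c2 : L n (e k) (e j) = -(√2 / 2) := (L_comm _ _).trans h2
    have c3 : L n (e l) (e k) = -(1 / 2) := (L_comm _ _).trans h3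
    have c4 : L n (e i) (e l) = -(√2 / 2) := (L_comm _ _).trans h4
    have mi : i ∈ ({i, j, k, l} : Finset (Fin N)) := by simp
    have mj : j ∈ ({i, j, k, l} : Finset (Fin N)) := by simp
    have mk : k ∈ ({i, j, k, l} : Finset (Fin N)) := by simp
    have ml : l ∈ ({i, j, k, l} : Finset (Fin N)) := by simp
    simp only [Finset.mem_insert, Finset.mem_singleton] at hb hd ht
    rcases ht with rfl | rfl | rfl | rfl
    · refine bs_sq (p := j) (q := l) (r := k) ml ?_ ?_ hbd hjl.symm hkl.symm hil.symm h1 c4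
      · rcases hb with hb | hb | hb | hb
        · exact absurd hb.symm htb
        · exact Or.inl hb
        · exact Or.inr (Or.inr hb)
        · exact Or.inr (Or.inl hb)
      · rcases hd with hb | hb | hb | hb
        · exact absurd hb.symm htd
        · exact Or.inl hb
        · exact Or.inr (Or.inr hb)
        · exact Or.inr (Or.inl hb)
    · refine bs_sq (p := i) (q := k) (r := l) mk ?_ ?_ hbd hik.symm hkl hjk.symm c1 h2
      · rcases hb with hb | hb | hb | hb
        · exact Or.inl hb
        · exact absurd hb.symm htb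
        · exact Or.inr (Or.inl hb)
        · exact Or.inr (Or.inr hb)
      · rcases hd with hb | hb | hb | hb
        · exact Or.inl hb
        · exact absurd hb.symm htd
        · exact Or.inr (Or.inl hb)
        · exact Or.inr (Or.inr hb)
    · refine bs_sq (p := l) (q := j) (r := i) mj ?_ ?_ hbd hjl hij.symm hjk h3 c2
      · rcases hb with hb | hb | hb | hb
        · exact Or.inr (Or.inr hb)
        · exact Or.inr (Or.inl hb)
        · exact absurd hb.symm htb
        · exact Or.inl hb
      · rcases hd with hb | hb | hb | hb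
        · exact Or.inr (Or.inr hb)
        · exact Or.inr (Or.inl hb)
        · exact absurd hb.symm htd
        · exact Or.inl hb
    · refine bs_sq (p := k) (q := i) (r := j) mi ?_ ?_ hbd hik hij hil c3 h4
      · rcases hb with hb | hb | hb | hb
        · exact Or.inr (Or.inl hb)
        · exact Or.inr (Or.inr hb)
        · exact Or.inl hb
        · exact absurd hb.symm htb
      · rcases hd with hb | hb | hb | hb
        · exact Or.inr (Or.inl hb)
        · exact Or.inr (Or.inr hb)
        · exact Or.inl hb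
        · exact absurd hb.symm htd

end Pool.Agent.Work.MP_f6469e_gt
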