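import Mathlib

/-!
Definitions for the counting part: a family `E` of finite sets (elliptic sets) which behaves like the boundary complex of the dual of a simple polytope of
dimension `n`, and a function `r` on the vertices (sets with `n` elements) which behaves like a generic linear function.
-/

set_option autoImplicit false

namespace Pool.Agent.Work.MP_f6469e_gt

section

variable {ι : Type} [DecidableEq ι]

/-- `E` is the family of the sets of facets with a common point. -/
structure Cx (n : ℕ) (E : Finset ι → Prop) : Prop where
  down : ∀ S T, E T → S ⊆ T → E S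
  emp : E ∅
  card_le : ∀ S, E S → S.card ≤ n
  grow : ∀ S, E S → S.card < n → ∃ j, j ∉ S ∧ E (insert j S)
  two : ∀ S, E S → S.card + 1 = n → ∃ a b, a ≠ b ∧ a ∉ S ∧ b ∉ S ∧ E (insert a S) ∧
    E (insert b S) ∧ ∀ j, j ∉ S → E (insert j S) → j = a ∨ j = b

/-- `r` is like a generic linear function on the vertices. -/
structure IsMorse (n : ℕ) (E : Finset ι → Prop) (r : Finset ι → ℝ) : Prop where
  inj : ∀ D D', E D → E D' → D.card = n → D'.card = n → r D = r D' → D = D'
  tmax : ∀ (T : Finset ι) (a b a' b' : ι), T.card + 2 = n → a ≠ b → a ∉ T → b ∉ T →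
    a' ∉ insert b T → b' ∉ insert a T → a' ≠ a → b' ≠ b → E (insert a (insert b T)) →
    E (insert a' (insert b T)) → E (insert b' (insert a T)) →
    r (insert a' (insert b T)) < r (insert a (insert b T)) →
    r (insert b' (insert a T)) < r (insert a (insert b T)) →
    ∀ D, T ⊆ D → E D → D.card = n → r D ≤ r (insert a (insert b T))
  tmin : ∀ (T : Finset ι) (a b a' b' : ι), T.card + 2 = n → a ≠ b → a ∉ T → b ∉ T →
    a' ∉ insert b T → b' ∉ insert a T → a' ≠ a → b' ≠ b → E (insert a (insert b T)) →
    E (insert a' (insert b T)) → E (insert b' (insert a T)) →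
    r (insert a (insert b T)) < r (insert a' (insert b T)) →
    r (insert a (insert b T)) < r (insert b' (insert a T)) →
    ∀ D, T ⊆ D → E D → D.card = n → r (insert a (insert b T)) ≤ r D

/-- A charge `g D p` (`p` a pair of elements of the vertex `D`, a corner of the 2-face `D \ p`): every triangular 2-face
carries at least `2 u` and every quadrangular 2-face at least `u`. -/
structure GoodSys (n : ℕ) (E : Finset ι → Prop) (u : ℕ) (g : Finset ι → Finset ι → ℕ) : Prop where
  three : ∀ (T : Finset ι) (a b c : ι), T.card + 2 = n → a ≠ b → a ≠ c → b ≠ c → a ∉ T → b ∉ T →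
    c ∉ T → E (insert a (insert b T)) → E (insert b (insert c T)) → E (insert a (insert c T)) →
    2 * u ≤ g (insert a (insert b T)) {a, b} + g (insert b (insert c T)) {b, c} +
      g (insert a (insert c T)) {a, c}
  four : ∀ (T : Finset ι) (a b c d : ι), T.card + 2 = n → a ≠ b → a ≠ c → a ≠ d → b ≠ c → b ≠ d →
    c ≠ d → a ∉ T → b ∉ T → c ∉ T → d ∉ T → E (insert a (insert b T)) →
    E (insert b (insert c T)) → E (insert c (insert d T)) → E (insert d (insert a T)) →
    ¬ E (insert a (insert c T)) → ¬ E (insert b (insert d T)) →
    u ≤ g (insert a (insert b T)) {a, b} + g (insert b (insert c T)) {b, c} +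
      g (insert c (insert d T)) {c, d} + g (insert d (insert a T)) {d, a}

variable [Fintype ι]

open Classical in
/-- the vertices -/
noncomputable def verts (n : ℕ) (E : Finset ι → Prop) : Finset (Finset ι) :=
  Finset.univ.filter fun D => E D ∧ D.card = n

open Classical in
/-- the 2-faces -/
noncomputable def faces (n : ℕ) (E : Finset ι → Prop) : Finset (Finset ι) :=
  Finset.univ.filter fun T => E T ∧ T.card + 2 = n

open Classical in
/-- the vertices of a 2-face -/
noncomputable def vertsOn (n : ℕ) (E : Finset ι → Prop) (T : Finset ι) : Finset (Finset ι) :=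
  (verts n E).filter fun D => T ⊆ D

end

end Pool.Agent.Work.MP_f6469e_gt
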