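import Pool.Agent.Work.MP_f6469e_gt.CDefs

/-!
# Module CntA (M): a 2-face has `5 - k ≤ ` (charge of its corners)

`T` fixed, write `ab` for `insert a (insert b T)`. Every member of `vertsOn n E T` is `ab` with `a ≠ b`, `a, b ∉ T`, and `ab \ T = {a, b}`; if `ab` is a vertex then by
`two` for `insert a T` (it is in `E` by `down` and has `n - 1` elements) the element `a` has exactly two partners.
Take a vertex `ab` (`grow` twice). Partners of `b`: `a, a'`; partners of `a`: `b, b'`. `ab, a'b, ab'` are three different vertices.
* `a' = b' =: c`: a triangle `ab, bc, ac`; `GoodSys.three` gives the charge `2 u`, `3 u + 2 u = 5 u`.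
* `a' ≠ b'`: the partners of `a'` are `b` and some `x ≠ b`; `a'x` is a fourth vertex (it is not `ab`, not `ab'`). If the number of vertices is at least `5` we are done.
  Otherwise there are exactly four: `ab, a'b, ab', a'x`; the second partner `x'` of `b'` (`x' ≠ a`) gives the vertex `b'x'`, which must be `a'x`; so `x = b'`. `E (a a')` fails (otherwise
  `a` has the partners `b, b', a'`), `E (b b')` fails in the same way; `GoodSys.four` for `a, b, a', b'` gives the charge `u`, `4 u + u = 5 u`.
-/

set_option autoImplicit false

namespace Pool.Agent.Work.MP_f6469e_gt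

variable {ι : Type} [DecidableEq ι] [Fintype ι] {n : ℕ} {E : Finset ι → Prop}


private theorem other (hE : Cx n E) {S : Finset ι} (hS : S.card + 1 = n) {a : ι} (ha : a ∉ S)
    (h : E (insert a S)) : ∃ a', a' ≠ a ∧ a' ∉ S ∧ E (insert a' S) ∧
      ∀ j, j ∉ S → E (insert j S) → j = a ∨ j = a' := by
  obtain ⟨p, q, hpq, hp, hq, hEp, hEq, hu⟩ := hE.two S (hE.down _ _ h (Finset.subset_insert _ _)) hS
  rcases hu a ha h with rfl | rfl
  · exact ⟨q, hpq.symm, hq, hEq, hu⟩
  · exact ⟨p, hpq, hp, hEp, fun j hj hEj => (hu j hj hEj).symm⟩

private theorem mem_vertsOn' {T D : Finset ι} : D ∈ vertsOn n E T ↔ E D ∧ D.card = n ∧ T ⊆ D := by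
  simp only [vertsOn, verts, Finset.mem_filter, Finset.mem_univ, true_and, and_assoc]

private theorem mem_pair {T : Finset ι} (hc : T.card + 2 = n) {a b : ι} (hab : a ≠ b)
    (ha : a ∉ T) (hb : b ∉ T) (h : E (insert a (insert b T))) :
    insert a (insert b T) ∈ vertsOn n E T := by
  rw [mem_vertsOn']
  refine ⟨h, ?_, ?_⟩
  · rw [Finset.card_insert_of_notMem, Finset.card_insert_of_notMem hb]
    · omega
    · rw [Finset.mem_insert, not_or]
      exact ⟨hab, ha⟩
  · exact (Finset.subset_insert _ _).trans (Finset.subset_insert _ _)

private theorem pair_sdiff {T : Finset ι} {a b : ι} (ha : a ∉ T) (hb : b ∉ T) :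
    insert a (insert b T) \ T = {a, b} := by
  ext x
  simp only [Finset.mem_sdiff, Finset.mem_insert, Finset.mem_singleton]
  constructor
  · rintro ⟨rfl | rfl | h, h2⟩
    · exact Or.inl rfl
    · exact Or.inr rfl
    · exact absurd h h2
  · rintro (rfl | rfl)
    · exact ⟨Or.inl rfl, ha⟩
    · exact ⟨Or.inr (Or.inl rfl), hb⟩

/-- different pairs -/
private theorem pair_ne {T : Finset ι} {a b c d : ι} (ha : a ∉ T) (hc : a ≠ c) (hd : a ≠ d) :
    insert a (insert b T) ≠ insert c (insert d T) := by
  intro h
  have h1 : a ∈ insert c (insert d T) := by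
    rw [← h]
    exact Finset.mem_insert_self _ _
  simp only [Finset.mem_insert] at h1
  rcases h1 with h1 | h1 | h1
  · exact hc h1
  · exact hd h1
  · exact ha h1

theorem cntA (hE : Cx n E) {u : ℕ} {g : Finset ι → Finset ι → ℕ} (hg : GoodSys n E u g)
    {T : Finset ι} (hT : E T) (hc : T.card + 2 = n) :
    5 * u ≤ u * (vertsOn n E T).card + ∑ D ∈ vertsOn n E T, g D (D \ T) := by
  have hsum : u * (vertsOn n E T).card + ∑ D ∈ vertsOn n E T, g D (D \ T) =
      ∑ D ∈ vertsOn n E T, (u + g D (D \ T)) := by
    rw [Finset.sum_add_distrib, Finset.sum_const, smul_eq_mul, mul_comm]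
  rw [hsum]
  obtain ⟨b, hb, hEb⟩ := hE.grow T hT (by omega)
  have hbc : (insert b T).card + 1 = n := by
    rw [Finset.card_insert_of_notMem hb]
    omega
  obtain ⟨a, ha0, hEab⟩ := hE.grow _ hEb (by omega)
  have hab : a ≠ b := by
    rintro rfl
    exact ha0 (Finset.mem_insert_self _ _)
  have ha : a ∉ T := fun h => ha0 (Finset.mem_insert_of_mem h)
  have hac : (insert a T).card + 1 = n := by
    rw [Finset.card_insert_of_notMem ha]
    omega
  obtain ⟨a', ha'a, ha'0, hEa'b, hua'⟩ := other hE hbc ha0 hEab
  have ha'b : a' ≠ b := by
    rintro rfl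
    exact ha'0 (Finset.mem_insert_self _ _)
  have ha' : a' ∉ T := fun h => ha'0 (Finset.mem_insert_of_mem h)
  have hb0 : b ∉ insert a T := by
    rw [Finset.mem_insert, not_or]
    exact ⟨hab.symm, hb⟩
  have hEba : E (insert b (insert a T)) := by
    rw [Finset.insert_comm]
    exact hEab
  obtain ⟨b', hb'b, hb'0, hEb'a, hub'⟩ := other hE hac hb0 hEba
  have hb'a : b' ≠ a := by
    rintro rfl
    exact hb'0 (Finset.mem_insert_self _ _)
  have hb' : b' ∉ T := fun h => hb'0 (Finset.mem_insert_of_mem h)
  have hEab' : E (insert a (insert b' T)) := by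
    rw [Finset.insert_comm]
    exact hEb'a
  by_cases hcase : a' = b'
  · subst hcase
    -- triangle
    have hEbc : E (insert b (insert a' T)) := by
      rw [Finset.insert_comm]
      exact hEa'b
    have h3 := hg.three T a b a' hc hab ha'a.symm ha'b.symm ha hb ha' hEab hEbc hEab'
    have n1 : insert a (insert b T) ≠ insert b (insert a' T) := pair_ne ha hab ha'a.symm
    have n2 : insert a (insert b T) ≠ insert a (insert a' T) := by
      rw [Finset.insert_comm]
      exact pair_ne hb hab.symm ha'b.symm
    have n3 : insert b (insert a' T) ≠ insert a (insert a' T) := pair_ne hb hab.symm ha'b.symm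
    have hsub : ({insert a (insert b T), insert b (insert a' T), insert a (insert a' T)} :
        Finset (Finset ι)) ⊆ vertsOn n E T := by
      intro D hD
      simp only [Finset.mem_insert, Finset.mem_singleton] at hD
      rcases hD with rfl | rfl | rfl
      · exact mem_pair hc hab ha hb hEab
      · exact mem_pair hc ha'b.symm hb ha' hEbc
      · exact mem_pair hc ha'a.symm ha ha' hEab'
    refine le_trans ?_ (Finset.sum_le_sum_of_subset hsub)
    rw [Finset.sum_insert (by
        simp only [Finset.mem_insert, Finset.mem_singleton, not_or]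
        exact ⟨n1, n2⟩),
      Finset.sum_insert (by
        simp only [Finset.mem_singleton]
        exact n3), Finset.sum_singleton,
      pair_sdiff ha hb, pair_sdiff hb ha', pair_sdiff ha ha']
    omega
  · have ha'c : (insert a' T).card + 1 = n := by
      rw [Finset.card_insert_of_notMem ha']
      omega
    have hb'c : (insert b' T).card + 1 = n := by
      rw [Finset.card_insert_of_notMem hb']
      omega
    have hEba' : E (insert b (insert a' T)) := by
      rw [Finset.insert_comm]
      exact hEa'b
    have hb1 : b ∉ insert a' T := by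
      rw [Finset.mem_insert, not_or]
      exact ⟨ha'b.symm, hb⟩
    have ha1 : a ∉ insert b' T := by
      rw [Finset.mem_insert, not_or]
      exact ⟨hb'a.symm, ha⟩
    obtain ⟨x, hxb, hx0, hEx, hux⟩ := other hE ha'c hb1 hEba'
    obtain ⟨x', hx'a, hx'0, hEx', hux'⟩ := other hE hb'c ha1 hEab'
    have hxa' : x ≠ a' := by
      rintro rfl
      exact hx0 (Finset.mem_insert_self _ _)
    have hx : x ∉ T := fun h => hx0 (Finset.mem_insert_of_mem h)
    have hx'b' : x' ≠ b' := by
      rintro rfl
      exact hx'0 (Finset.mem_insert_self _ _)
    have hx' : x' ∉ T := fun h => hx'0 (Finset.mem_insert_of_mem h)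
    have hnaa' : ¬ E (insert a (insert a' T)) := by
      intro h
      rw [Finset.insert_comm] at h
      have h1 : a' ∉ insert a T := by
        rw [Finset.mem_insert, not_or]
        exact ⟨ha'a, ha'⟩
      rcases hub' a' h1 h with h2 | h2
      · exact ha'b h2
      · exact hcase h2
    have hnbb' : ¬ E (insert b (insert b' T)) := by
      intro h
      rw [Finset.insert_comm] at h
      have h1 : b' ∉ insert b T := by
        rw [Finset.mem_insert, not_or]
        exact ⟨hb'b, hb'⟩
      rcases hua' b' h1 h with h2 | h2
      · exact hb'a h2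
      · exact hcase h2.symm
    have hxa : x ≠ a := by
      rintro rfl
      exact hnaa' hEx
    have hx'b : x' ≠ b := by
      rintro rfl
      exact hnbb' hEx'
    have n12 : insert a (insert b T) ≠ insert a' (insert b T) := pair_ne ha ha'a.symm hab
    have n13 : insert a (insert b T) ≠ insert a (insert b' T) := by
      rw [Finset.insert_comm]
      exact pair_ne hb hab.symm hb'b.symm
    have n14 : insert a (insert b T) ≠ insert a' (insert x T) := pair_ne ha ha'a.symm hxa.symm
    have n23 : insert a' (insert b T) ≠ insert a (insert b' T) := pair_ne ha' ha'a hcase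
    have n24 : insert a' (insert b T) ≠ insert a' (insert x T) := by
      rw [Finset.insert_comm]
      exact pair_ne hb ha'b.symm hxb.symm
    have n34 : insert a (insert b' T) ≠ insert a' (insert x T) := pair_ne ha ha'a.symm hxa.symm
    have hEa'x : E (insert a' (insert x T)) := by
      rw [Finset.insert_comm]
      exact hEx
    by_cases hxb' : x = b'
    · subst hxb'
      have hExa : E (insert x (insert a T)) := hEb'a
      have h4 := hg.four T a b a' x hc hab ha'a.symm hb'a.symm ha'b.symm hb'b.symm hxa'.symm
        ha hb ha' hx hEab hEba' hEa'x hExa hnaa' hnbb'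
      have hsub : ({insert a (insert b T), insert a' (insert b T), insert a (insert x T),
          insert a' (insert x T)} : Finset (Finset ι)) ⊆ vertsOn n E T := by
        intro D hD
        simp only [Finset.mem_insert, Finset.mem_singleton] at hD
        rcases hD with rfl | rfl | rfl | rfl
        · exact mem_pair hc hab ha hb hEab
        · exact mem_pair hc ha'b ha' hb hEa'b
        · exact mem_pair hc hb'a.symm ha hb' hEab'
        · exact mem_pair hc hxa'.symm ha' hx hEa'x
      refine le_trans ?_ (Finset.sum_le_sum_of_subset hsub)
      rw [Finset.sum_insert (by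
          simp only [Finset.mem_insert, Finset.mem_singleton, not_or]
          exact ⟨n12, n13, n14⟩),
        Finset.sum_insert (by
          simp only [Finset.mem_insert, Finset.mem_singleton, not_or]
          exact ⟨n23, n24⟩),
        Finset.sum_insert (by
          simp only [Finset.mem_singleton]
          exact n34), Finset.sum_singleton,
        pair_sdiff ha hb, pair_sdiff ha' hb, pair_sdiff ha hx, pair_sdiff ha' hx]
      rw [Finset.insert_comm b a' T, Finset.insert_comm x a T, Finset.pair_comm b a',
        Finset.pair_comm x a] at h4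
      omega
    · have hEb'x' : E (insert b' (insert x' T)) := by
        rw [Finset.insert_comm]
        exact hEx'
      have n15 : insert a (insert b T) ≠ insert b' (insert x' T) :=
        (pair_ne hb' hb'a hb'b).symm
      have n25 : insert a' (insert b T) ≠ insert b' (insert x' T) :=
        (pair_ne hb' (Ne.symm hcase) hb'b).symm
      have n35 : insert a (insert b' T) ≠ insert b' (insert x' T) :=
        pair_ne ha hb'a.symm hx'a.symm
      have n45 : insert a' (insert x T) ≠ insert b' (insert x' T) :=
        (pair_ne hb' (Ne.symm hcase) (Ne.symm hxb')).symm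
      have hsub : ({insert a (insert b T), insert a' (insert b T), insert a (insert b' T),
          insert a' (insert x T), insert b' (insert x' T)} : Finset (Finset ι)) ⊆
          vertsOn n E T := by
        intro D hD
        simp only [Finset.mem_insert, Finset.mem_singleton] at hD
        rcases hD with rfl | rfl | rfl | rfl | rfl
        · exact mem_pair hc hab ha hb hEab
        · exact mem_pair hc ha'b ha' hb hEa'b
        · exact mem_pair hc hb'a.symm ha hb' hEab'
        · exact mem_pair hc hxa'.symm ha' hx hEa'x
        · exact mem_pair hc hx'b'.symm hb' hx' hEb'x'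
      refine le_trans ?_ (Finset.sum_le_sum_of_subset hsub)
      rw [Finset.sum_insert (by
          simp only [Finset.mem_insert, Finset.mem_singleton, not_or]
          exact ⟨n12, n13, n14, n15⟩),
        Finset.sum_insert (by
          simp only [Finset.mem_insert, Finset.mem_singleton, not_or]
          exact ⟨n23, n24, n25⟩),
        Finset.sum_insert (by
          simp only [Finset.mem_insert, Finset.mem_singleton, not_or]
          exact ⟨n34, n35⟩),
        Finset.sum_insert (by
          simp only [Finset.mem_singleton]
          exact n45), Finset.sum_singleton]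
      omega

end Pool.Agent.Work.MP_f6469e_gt
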