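import Mathlib

/-!
Definitions for MP_f6469e_gt (compact Coxeter polytopes whose Gram matrix has rational cyclic products).
All conditions are literally those of the frozen statement S14239.
-/

set_option autoImplicit false

namespace Pool.Agent.Work.MP_f6469e_gt

/-- The Lorentz form of signature `(n, 1)`. -/
def L (n : ℕ) (x y : Fin (n + 1) → ℝ) : ℝ := -(x 0 * y 0) + ∑ i : Fin n, x i.succ * y i.succ

/-- `e` is the system of outer unit normals of the facets of a compact Coxeter polytope in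
hyperbolic `n`-space. -/
structure CoxPoly (n N : ℕ) (e : Fin N → (Fin (n + 1) → ℝ)) : Prop where
  unit : ∀ i, L n (e i) (e i) = 1
  gram : ∀ i j, i ≠ j →
    (∃ m : ℕ, 2 ≤ m ∧ L n (e i) (e j) = -Real.cos (Real.pi / (m : ℝ))) ∨ L n (e i) (e j) ≤ -1
  inner : ∃ x : Fin (n + 1) → ℝ, 0 < x 0 ∧ L n x x = -1 ∧ ∀ i, L n x (e i) < 0
  irr : ∀ i, ∃ x : Fin (n + 1) → ℝ, 0 < x 0 ∧ L n x x = -1 ∧ 0 < L n x (e i) ∧
    ∀ j, j ≠ i → L n x (e j) ≤ 0
  cpt : IsCompact {x : Fin (n + 1) → ℝ | 0 < x 0 ∧ L n x x = -1 ∧ ∀ i, L n x (e i) ≤ 0}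

/-- All cyclic products of the Gram matrix are rational (quasi-arithmetic with ground field `ℚ`). -/
def RatCyc (n N : ℕ) (e : Fin N → (Fin (n + 1) → ℝ)) : Prop :=
  ∀ (k : ℕ) (c : Fin k → Fin N), ∃ q : ℚ,
    (∏ t : Fin k, L n (e (c t)) (e (c (finRotate k t)))) = (q : ℝ)

/-- All dihedral angles are `π / 2` or `π / 3`. -/
def SimplyLaced (n N : ℕ) (e : Fin N → (Fin (n + 1) → ℝ)) : Prop :=
  ∀ i j, i ≠ j → L n (e i) (e j) = 0 ∨ L n (e i) (e j) = -(1 / 2) ∨ L n (e i) (e j) ≤ -1

/-- Acute-angled compact polytopes (only what the combinatorial part needs). -/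
structure Acute (n N : ℕ) (e : Fin N → (Fin (n + 1) → ℝ)) : Prop where
  unit : ∀ i, L n (e i) (e i) = 1
  off : ∀ i j, i ≠ j → L n (e i) (e j) ≤ 0
  inner : ∃ x : Fin (n + 1) → ℝ, 0 < x 0 ∧ L n x x = -1 ∧ ∀ i, L n x (e i) < 0
  cpt : IsCompact {x : Fin (n + 1) → ℝ | 0 < x 0 ∧ L n x x = -1 ∧ ∀ i, L n x (e i) ≤ 0}

/-- The linear combination with coefficients `c`. -/
def comb {n N : ℕ} (e : Fin N → (Fin (n + 1) → ℝ)) (c : Fin N → ℝ) : Fin (n + 1) → ℝ :=
  ∑ i, c i • e i

/-- `S` is elliptic: the form is positive definite on the span of the `e i`, `i ∈ S`, and these vectors are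
independent. -/
def Ell {n N : ℕ} (e : Fin N → (Fin (n + 1) → ℝ)) (S : Finset (Fin N)) : Prop :=
  ∀ c : Fin N → ℝ, (∀ i, i ∉ S → c i = 0) → c ≠ 0 → 0 < L n (comb e c) (comb e c)

section basic

variable {n N : ℕ}

theorem L_comm (x y : Fin (n + 1) → ℝ) : L n x y = L n y x := by
  simp only [L, mul_comm]

theorem L_add_left (x y z : Fin (n + 1) → ℝ) : L n (x + y) z = L n x z + L n y z := by
  simp only [L, Pi.add_apply, add_mul, Finset.sum_add_distrib]; ring

theorem L_smul_left (a : ℝ) (x z : Fin (n + 1) → ℝ) : L n (a • x) z = a * L n x z := by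
  simp only [L, Pi.smul_apply, smul_eq_mul, mul_add, Finset.mul_sum]
  congr 1
  · ring
  · exact Finset.sum_congr rfl fun i _ => by ring

theorem L_neg_left (x z : Fin (n + 1) → ℝ) : L n (-x) z = -L n x z := by
  have := L_smul_left (-1) x z
  simpa using this

theorem L_sub_left (x y z : Fin (n + 1) → ℝ) : L n (x - y) z = L n x z - L n y z := by
  rw [sub_eq_add_neg, L_add_left, L_neg_left]; ring

theorem L_zero_left (z : Fin (n + 1) → ℝ) : L n 0 z = 0 := by
  have := L_smul_left 0 0 z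
  simpa using this

theorem L_add_right (x y z : Fin (n + 1) → ℝ) : L n x (y + z) = L n x y + L n x z := by
  rw [L_comm, L_add_left, L_comm y, L_comm z]

theorem L_smul_right (a : ℝ) (x z : Fin (n + 1) → ℝ) : L n x (a • z) = a * L n x z := by
  rw [L_comm, L_smul_left, L_comm]

theorem L_neg_right (x z : Fin (n + 1) → ℝ) : L n x (-z) = -L n x z := by
  rw [L_comm, L_neg_left, L_comm]

theorem L_sub_right (x y z : Fin (n + 1) → ℝ) : L n x (y - z) = L n x y - L n x z := by
  rw [L_comm, L_sub_left, L_comm y, L_comm z]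

theorem L_zero_right (z : Fin (n + 1) → ℝ) : L n z 0 = 0 := by
  rw [L_comm, L_zero_left]

theorem L_sum_left {ι : Type*} (s : Finset ι) (f : ι → (Fin (n + 1) → ℝ)) (z : Fin (n + 1) → ℝ) :
    L n (∑ i ∈ s, f i) z = ∑ i ∈ s, L n (f i) z := by
  classical
  induction s using Finset.induction_on with
  | empty => simp [L_zero_left]
  | insert a s ha ih => rw [Finset.sum_insert ha, Finset.sum_insert ha, L_add_left, ih]

theorem L_sum_right {ι : Type*} (s : Finset ι) (f : ι → (Fin (n + 1) → ℝ)) (z : Fin (n + 1) → ℝ) :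
    L n z (∑ i ∈ s, f i) = ∑ i ∈ s, L n z (f i) := by
  rw [L_comm, L_sum_left]
  exact Finset.sum_congr rfl fun i _ => L_comm _ _

theorem continuous_L : Continuous fun p : (Fin (n + 1) → ℝ) × (Fin (n + 1) → ℝ) => L n p.1 p.2 := by
  unfold L; fun_prop

theorem L_comb_left (e : Fin N → (Fin (n + 1) → ℝ)) (c : Fin N → ℝ) (x : Fin (n + 1) → ℝ) :
    L n (comb e c) x = ∑ i, c i * L n (e i) x := by
  rw [comb, L_sum_left]
  exact Finset.sum_congr rfl fun i _ => L_smul_left _ _ _

theorem L_comb_right (e : Fin N → (Fin (n + 1) → ℝ)) (c : Fin N → ℝ) (x : Fin (n + 1) → ℝ) :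
    L n x (comb e c) = ∑ i, c i * L n x (e i) := by
  rw [L_comm, L_comb_left]
  exact Finset.sum_congr rfl fun i _ => by rw [L_comm]

theorem L_comb_comb (e : Fin N → (Fin (n + 1) → ℝ)) (c d : Fin N → ℝ) :
    L n (comb e c) (comb e d) = ∑ i, ∑ j, c i * d j * L n (e i) (e j) := by
  rw [L_comb_left]
  refine Finset.sum_congr rfl fun i _ => ?_
  rw [L_comb_right, Finset.mul_sum]
  exact Finset.sum_congr rfl fun j _ => by ring

theorem comb_add (e : Fin N → (Fin (n + 1) → ℝ)) (c d : Fin N → ℝ) :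
    comb e (c + d) = comb e c + comb e d := by
  simp [comb, add_smul, Finset.sum_add_distrib]

theorem comb_smul (e : Fin N → (Fin (n + 1) → ℝ)) (a : ℝ) (c : Fin N → ℝ) :
    comb e (a • c) = a • comb e c := by
  simp [comb, mul_smul, Finset.smul_sum]

theorem comb_neg (e : Fin N → (Fin (n + 1) → ℝ)) (c : Fin N → ℝ) :
    comb e (-c) = -comb e c := by
  simp [comb]

theorem comb_sub (e : Fin N → (Fin (n + 1) → ℝ)) (c d : Fin N → ℝ) :
    comb e (c - d) = comb e c - comb e d := by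
  simp [comb, sub_smul, Finset.sum_sub_distrib]

theorem comb_single (e : Fin N → (Fin (n + 1) → ℝ)) (i : Fin N) (a : ℝ) :
    comb e (Pi.single i a) = a • e i := by
  rw [comb, Finset.sum_eq_single i]
  · simp
  · intro j _ hj; simp [Pi.single_eq_of_ne hj]
  · simp

theorem Ell.mono {e : Fin N → (Fin (n + 1) → ℝ)} {S T : Finset (Fin N)} (h : Ell e T) (hS : S ⊆ T) :
    Ell e S := fun c hc h0 => h c (fun i hi => hc i fun h' => hi (hS h')) h0

theorem Ell.empty (e : Fin N → (Fin (n + 1) → ℝ)) : Ell e ∅ := by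
  intro c hc h0
  exact absurd (funext fun i => hc i (by simp)) h0

theorem CoxPoly.acute {e : Fin N → (Fin (n + 1) → ℝ)} (h : CoxPoly n N e) : Acute n N e where
  unit := h.unit
  off := by
    intro i j hij
    rcases h.gram i j hij with ⟨m, hm, h1⟩ | h1
    · rw [h1, neg_nonpos]
      apply Real.cos_nonneg_of_neg_pi_div_two_le_of_le
      · have : 0 ≤ Real.pi / (m : ℝ) := by positivity
        linarith [Real.pi_pos]
      · have hm' : (2 : ℝ) ≤ m := by exact_mod_cast hm
        exact div_le_div_of_nonneg_left Real.pi_pos.le (by norm_num) hm'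
    · linarith
  inner := h.inner
  cpt := h.cpt

end basic

end Pool.Agent.Work.MP_f6469e_gt
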