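import Mathlib

/-!
# Module LCls (S-M): class functions from scales

`v = padicValRat p (q i)` where `s i ^ 2 = q i` is a positive rational number; `d i = 1` if `v` is even and `2` otherwise. If `s i * s j * m` is rational (`m ≠ 0`) then `q i * q j * m²` is the square of a nonzero
rational number, so `padicValRat p (q i) + padicValRat p (q j) + padicValRat p (m²)` is even. (`m²` = `1/4`, `1/2`, `3/4`; the valuation at `2` is `-2, -1, -2`, at `3` it is `0, 0, 1`.)
-/

set_option autoImplicit false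

namespace Pool.Agent.Work.MP_f6469e_gt

private theorem par_even (p : ℕ) [Fact p.Prime] {a b m r : ℚ} (ha : a ≠ 0) (hb : b ≠ 0) (hm : m ≠ 0)
    (h : a * b * m = r ^ 2) : Even (padicValRat p a + padicValRat p b + padicValRat p m) := by
  have hr : r ≠ 0 := by
    rintro rfl
    have : a * b * m ≠ 0 := mul_ne_zero (mul_ne_zero ha hb) hm
    apply this
    rw [h]
    norm_num
  have h1 := congrArg (padicValRat p) h
  rw [padicValRat.mul (mul_ne_zero ha hb) hm, padicValRat.mul ha hb, padicValRat.pow] at h1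
  rw [h1]
  exact ⟨padicValRat p r, by push_cast; ring⟩

private theorem v22 : padicValRat 2 (2 : ℚ) = 1 := padicValRat.self (by norm_num)

private theorem v33 : padicValRat 3 (3 : ℚ) = 1 := padicValRat.self (by norm_num)

private theorem v23 : padicValRat 2 (3 : ℚ) = 0 := by
  have h : padicValRat 2 ((3 : ℕ) : ℚ) = padicValNat 2 3 := padicValRat.of_nat
  have h2 : padicValNat 2 3 = 0 := padicValNat.eq_zero_of_not_dvd (by norm_num)
  rw [h2] at h
  simpa using h

private theorem v32 : padicValRat 3 (2 : ℚ) = 0 := by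
  have h : padicValRat 3 ((2 : ℕ) : ℚ) = padicValNat 3 2 := padicValRat.of_nat
  have h2 : padicValNat 3 2 = 0 := padicValNat.eq_zero_of_not_dvd (by norm_num)
  rw [h2] at h
  simpa using h

theorem exists_cls {N : ℕ} (M : Fin N → Fin N → ℝ) (s : Fin N → ℝ) (hs : ∀ i, 0 < s i)
    (h2 : ∀ i, ∃ q : ℚ, s i ^ 2 = (q : ℝ)) (h : ∀ i j, ∃ q : ℚ, s i * s j * M i j = (q : ℝ)) :
    (∃ d : Fin N → ℕ, (∀ i, d i = 1 ∨ d i = 2) ∧ ∀ i j,
      (M i j = -(1 / 2) → d i = d j) ∧ (M i j = -(√2 / 2) → d i ≠ d j) ∧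
      (M i j = -(√3 / 2) → d i = d j)) ∧
    ∃ d : Fin N → ℕ, (∀ i, d i = 1 ∨ d i = 2) ∧ ∀ i j,
      (M i j = -(1 / 2) → d i = d j) ∧ (M i j = -(√2 / 2) → d i = d j) ∧
      (M i j = -(√3 / 2) → d i ≠ d j) := by
  classical
  choose q hq using h2
  have hq0 : ∀ i, q i ≠ 0 := by
    intro i h0
    have h1 := hq i
    rw [h0, Rat.cast_zero] at h1
    exact (pow_pos (hs i) 2).ne' h1
  have hs2 : (√2 : ℝ) ^ 2 = 2 := Real.sq_sqrt (by norm_num)
  have hs3 : (√3 : ℝ) ^ 2 = 3 := Real.sq_sqrt (by norm_num)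
  have k1 : ∀ i j, M i j = -(1 / 2) → ∃ r : ℚ, q i * q j * 1 = r ^ 2 := by
    intro i j hM
    obtain ⟨r, hr⟩ := h i j
    refine ⟨2 * r, ?_⟩
    have : ((q i * q j * 1 : ℚ) : ℝ) = ((2 * r) ^ 2 : ℚ) := by
      push_cast
      rw [← hq, ← hq, ← hr, hM]
      ring
    exact_mod_cast this
  have k2 : ∀ i j, M i j = -(√2 / 2) → ∃ r : ℚ, q i * q j * 2 = r ^ 2 := by
    intro i j hM
    obtain ⟨r, hr⟩ := h i j
    refine ⟨2 * r, ?_⟩
    have : ((q i * q j * 2 : ℚ) : ℝ) = ((2 * r) ^ 2 : ℚ) := by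
      push_cast
      rw [← hq, ← hq, ← hr, hM]
      linear_combination (-(s i ^ 2 * s j ^ 2)) * hs2
    exact_mod_cast this
  have k3 : ∀ i j, M i j = -(√3 / 2) → ∃ r : ℚ, q i * q j * 3 = r ^ 2 := by
    intro i j hM
    obtain ⟨r, hr⟩ := h i j
    refine ⟨2 * r, ?_⟩
    have : ((q i * q j * 3 : ℚ) : ℝ) = ((2 * r) ^ 2 : ℚ) := by
      push_cast
      rw [← hq, ← hq, ← hr, hM]
      linear_combination (-(s i ^ 2 * s j ^ 2)) * hs3
    exact_mod_cast this
  have hd : ∀ (v : Fin N → ℤ) (i : Fin N), (fun i => if Even (v i) then 1 else 2) i = 1 ∨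
      (fun i => if Even (v i) then 1 else 2) i = 2 := by
    intro v i
    dsimp only
    split_ifs
    · exact Or.inl rfl
    · exact Or.inr rfl
  have eqv : ∀ a b : ℤ, Even (a + b) → (if Even a then 1 else 2) = (if Even b then 1 else 2) := by
    intro a b hab
    rw [Int.even_add] at hab
    by_cases hb : Even b
    · rw [if_pos hb, if_pos (hab.2 hb)]
    · rw [if_neg hb, if_neg fun ha => hb (hab.1 ha)]
  have nev : ∀ a b : ℤ, Even (a + b + 1) → (if Even a then 1 else 2) ≠ (if Even b then 1 else 2) := by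
    intro a b hab
    rw [Int.even_add_one, Int.even_add] at hab
    by_cases hb : Even b
    · rw [if_pos hb]
      by_cases ha : Even a
      · exact absurd ⟨fun _ => hb, fun _ => ha⟩ hab
      · rw [if_neg ha]
        norm_num
    · rw [if_neg hb]
      by_cases ha : Even a
      · rw [if_pos ha]
        norm_num
      · exact absurd ⟨fun h => absurd h ha, fun h => absurd h hb⟩ hab
  have : Fact (Nat.Prime 2) := ⟨Nat.prime_two⟩
  have : Fact (Nat.Prime 3) := ⟨Nat.prime_three⟩
  refine ⟨⟨fun i => if Even (padicValRat 2 (q i)) then 1 else 2, fun i => hd (fun i => padicValRat 2 (q i)) i,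
      fun i j => ⟨?_, ?_, ?_⟩⟩,
    ⟨fun i => if Even (padicValRat 3 (q i)) then 1 else 2, fun i => hd (fun i => padicValRat 3 (q i)) i,
      fun i j => ⟨?_, ?_, ?_⟩⟩⟩
  · intro hM
    obtain ⟨r, hr⟩ := k1 i j hM
    have := par_even 2 (hq0 i) (hq0 j) one_ne_zero hr
    rw [padicValRat.one, add_zero] at this
    exact eqv _ _ this
  · intro hM
    obtain ⟨r, hr⟩ := k2 i j hM
    have := par_even 2 (hq0 i) (hq0 j) two_ne_zero hr
    rw [v22] at this
    exact nev _ _ this
  · intro hM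
    obtain ⟨r, hr⟩ := k3 i j hM
    have := par_even 2 (hq0 i) (hq0 j) three_ne_zero hr
    rw [v23, add_zero] at this
    exact eqv _ _ this
  · intro hM
    obtain ⟨r, hr⟩ := k1 i j hM
    have := par_even 3 (hq0 i) (hq0 j) one_ne_zero hr
    rw [padicValRat.one, add_zero] at this
    exact eqv _ _ this
  · intro hM
    obtain ⟨r, hr⟩ := k2 i j hM
    have := par_even 3 (hq0 i) (hq0 j) two_ne_zero hr
    rw [v32, add_zero] at this
    exact eqv _ _ this
  · intro hM
    obtain ⟨r, hr⟩ := k3 i j hM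
    have := par_even 3 (hq0 i) (hq0 j) three_ne_zero hr
    rw [v33] at this
    exact nev _ _ this

end Pool.Agent.Work.MP_f6469e_gt
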