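import Mathlib

/-!
# Module LCyc (S-M): cyclic products along lists

`pth M x l` is the product along the walk `x, l_0, l_1, ...`.
* `pth_append`: `pth M x (l ++ y :: l') = pth M x (l ++ [y]) * pth M y l'` by induction on `l`.
* `pth_reverse`: for symmetric `M`: induction, `pth M x (l ++ [y]) = pth M y (l.reverse ++ [x])`.
* `cyc_list`: `c = (x :: l).get`, `k = l.length + 1`: `∏ t, M (c t) (c (finRotate k t)) = pth M x (l ++ [x])` (`Fin.prod_univ_castSucc`, `finRotate_of_lt`, `finRotate_last`; or induction on `l` for the statement with a free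
  last entry).
* `cyc_conv`: `∏ s (c t) s (c (σ t)) M = (∏ s (c t)) ^ 2 * ∏ M` (`Equiv.prod_comp`), `(∏ s (c t))^2` is a nonzero rational number.
-/

set_option autoImplicit false

namespace Pool.Agent.Work.MP_f6469e_gt

/-- the product of `M` along the walk `x, l_0, l_1, ...` -/
def pth {N : ℕ} (M : Fin N → Fin N → ℝ) : Fin N → List (Fin N) → ℝ
  | _, [] => 1
  | x, y :: l => M x y * pth M y l

theorem pth_append {N : ℕ} (M : Fin N → Fin N → ℝ) (x y : Fin N) (l l' : List (Fin N)) :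
    pth M x (l ++ y :: l') = pth M x (l ++ [y]) * pth M y l' := by
  induction l generalizing x with
  | nil => simp [pth]
  | cons z l ih =>
    simp only [List.cons_append, pth]
    rw [ih z, mul_assoc]

theorem pth_reverse {N : ℕ} (M : Fin N → Fin N → ℝ) (hM : ∀ i j, M i j = M j i) (x y : Fin N)
    (l : List (Fin N)) : pth M x (l ++ [y]) = pth M y (l.reverse ++ [x]) := by
  induction l generalizing x with
  | nil => simp [pth, hM x y]
  | cons z l ih =>
    rw [List.cons_append, List.reverse_cons, List.append_assoc, List.singleton_append,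
      pth_append M y z l.reverse [x]]
    show M x z * pth M z (l ++ [y]) = _
    rw [ih z]
    show _ = pth M y (l.reverse ++ [z]) * (M z x * 1)
    rw [hM z x]
    ring

private theorem pth_ofFn {N : ℕ} (M : Fin N → Fin N → ℝ) (y : Fin N) (m : ℕ) :
    ∀ c : Fin (m + 1) → Fin N, pth M (c 0) (List.ofFn (Fin.tail c) ++ [y]) =
      (∏ t : Fin m, M (c t.castSucc) (c t.succ)) * M (c (Fin.last m)) y := by
  induction m with
  | zero => intro c; simp [pth]
  | succ m ih =>
    intro c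
    have h1 := ih (Fin.tail c)
    rw [List.ofFn_succ, List.cons_append, Fin.prod_univ_succ]
    show M (c 0) (Fin.tail c 0) * pth M (Fin.tail c 0) (List.ofFn (Fin.tail (Fin.tail c)) ++ [y]) = _
    rw [h1]
    simp only [Fin.tail, Fin.succ_last, Fin.castSucc_zero, Fin.succ_castSucc]
    ring

private theorem prod_rotate {N : ℕ} (M : Fin N → Fin N → ℝ) (m : ℕ) (c : Fin (m + 1) → Fin N) :
    ∏ t, M (c t) (c (finRotate (m + 1) t)) =
      (∏ t : Fin m, M (c t.castSucc) (c t.succ)) * M (c (Fin.last m)) (c 0) := by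
  rw [Fin.prod_univ_castSucc, finRotate_last]
  congr 1
  refine Finset.prod_congr rfl fun t _ => ?_
  rw [finRotate_apply, Fin.coeSucc_eq_succ]

theorem cyc_list {N : ℕ} (M : Fin N → Fin N → ℝ)
    (h : ∀ (k : ℕ) (c : Fin k → Fin N), ∃ q : ℚ, ∏ t, M (c t) (c (finRotate k t)) = (q : ℝ))
    (x : Fin N) (l : List (Fin N)) : ∃ q : ℚ, pth M x (l ++ [x]) = (q : ℝ) := by
  obtain ⟨q, hq⟩ := h (l.length + 1) (Fin.cons x l.get)
  refine ⟨q, ?_⟩
  rw [← hq, prod_rotate]
  have h1 := pth_ofFn M x l.length (Fin.cons x l.get)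
  rw [Fin.tail_cons, List.ofFn_get, Fin.cons_zero] at h1
  rw [Fin.cons_zero]
  exact h1

theorem cyc_conv {N : ℕ} (M : Fin N → Fin N → ℝ) (s : Fin N → ℝ) (hs : ∀ i, s i ≠ 0)
    (h2 : ∀ i, ∃ q : ℚ, s i ^ 2 = (q : ℝ)) (h : ∀ i j, ∃ q : ℚ, s i * s j * M i j = (q : ℝ))
    (k : ℕ) (c : Fin k → Fin N) : ∃ q : ℚ, ∏ t, M (c t) (c (finRotate k t)) = (q : ℝ) := by
  choose a ha using h2
  choose b hb using h
  refine ⟨(∏ t, b (c t) (c (finRotate k t))) / ∏ t, a (c t), ?_⟩
  have hP : (∏ t, s (c t)) ^ 2 = ((∏ t, a (c t) : ℚ) : ℝ) := by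
    rw [← Finset.prod_pow, Rat.cast_prod]
    exact Finset.prod_congr rfl fun t _ => ha _
  have hP0 : (∏ t, s (c t)) ≠ 0 := Finset.prod_ne_zero_iff.mpr fun t _ => hs _
  have hrot : ∏ t, s (c (finRotate k t)) = ∏ t, s (c t) :=
    Equiv.prod_comp (finRotate k) (fun t => s (c t))
  have hb' : (∏ t, s (c t)) ^ 2 * ∏ t, M (c t) (c (finRotate k t)) =
      ((∏ t, b (c t) (c (finRotate k t)) : ℚ) : ℝ) := by
    rw [Rat.cast_prod, pow_two]
    nth_rewrite 2 [← hrot]
    rw [← Finset.prod_mul_distrib, ← Finset.prod_mul_distrib]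
    exact Finset.prod_congr rfl fun t _ => hb _ _
  rw [Rat.cast_div, ← hb', ← hP, mul_div_cancel_left₀ _ (pow_ne_zero 2 hP0)]

end Pool.Agent.Work.MP_f6469e_gt
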