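import Mathlib

/-!
# Module LNiv (S): Niven

`cos (2π/m) = 2 cos² (π/m) - 1` is rational, `2π/m = (2/m) π`; `niven` gives `cos (2π/m) ∈ {-1, -1/2, 0, 1/2, 1}`, so `cos² (π/m) ∈ {0, 1/4, 1/2, 3/4, 1}`, `0 ≤ cos (π/m) < 1` for `m ≥ 2`
(`π/m ∈ (0, π/2]`).
-/

set_option autoImplicit false

namespace Pool.Agent.Work.MP_f6469e_gt

theorem cos_cases (m : ℕ) (hm : 2 ≤ m) (h : ∃ q : ℚ, Real.cos (Real.pi / m) ^ 2 = (q : ℝ)) :
    Real.cos (Real.pi / m) = 0 ∨ Real.cos (Real.pi / m) = 1 / 2 ∨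
    Real.cos (Real.pi / m) = √2 / 2 ∨ Real.cos (Real.pi / m) = √3 / 2 := by
  have hm0 : (2 : ℝ) ≤ m := by exact_mod_cast hm
  have hmp : (0 : ℝ) < m := by linarith
  obtain ⟨q, hq⟩ := h
  have hx0 : 0 ≤ Real.cos (Real.pi / m) := by
    apply Real.cos_nonneg_of_neg_pi_div_two_le_of_le
    · have : 0 ≤ Real.pi / (m : ℝ) := by positivity
      linarith [Real.pi_pos]
    · exact div_le_div_of_nonneg_left Real.pi_pos.le (by norm_num) hm0
  have hx1 : Real.cos (Real.pi / m) < 1 := by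
    have h1 : 0 < Real.pi / (m : ℝ) := div_pos Real.pi_pos hmp
    have h2 : Real.pi / (m : ℝ) ≤ Real.pi := by
      rw [div_le_iff₀ hmp]
      nlinarith [Real.pi_pos]
    have h3 := Real.cos_lt_cos_of_nonneg_of_le_pi le_rfl h2 h1
    rwa [Real.cos_zero] at h3
  have h2 : Real.cos (2 * (Real.pi / m)) = 2 * Real.cos (Real.pi / m) ^ 2 - 1 := Real.cos_two_mul _
  have hn := niven (θ := 2 * (Real.pi / m)) ⟨2 / m, by push_cast; ring⟩
    ⟨2 * q - 1, by rw [h2, hq]; push_cast; ring⟩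
  set x := Real.cos (Real.pi / m) with hx
  rw [h2] at hn
  have key : ∀ y : ℝ, 0 ≤ y → x ^ 2 = y ^ 2 → x = y := fun y hy hxy =>
    (sq_eq_sq₀ hx0 hy).1 hxy
  have hs2 : (√2 : ℝ) ^ 2 = 2 := Real.sq_sqrt (by norm_num)
  have hs3 : (√3 : ℝ) ^ 2 = 3 := Real.sq_sqrt (by norm_num)
  rcases hn with h | h | h | h | h
  · left
    exact key 0 le_rfl (by nlinarith)
  · right; left
    exact key (1 / 2) (by norm_num) (by linarith)
  · right; right; left
    exact key (√2 / 2) (by positivity) (by rw [div_pow, hs2]; linarith)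
  · right; right; right
    exact key (√3 / 2) (by positivity) (by rw [div_pow, hs3]; linarith)
  · exfalso
    rw [Set.mem_singleton_iff] at h
    have h4 : x = 1 := key 1 (by norm_num) (by linarith)
    linarith

end Pool.Agent.Work.MP_f6469e_gt
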