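import Pool.Agent.Work.MP_f6469e_gt.LScale
import Pool.Agent.Work.MP_f6469e_gt.LNiv
import Pool.Agent.Work.MP_f6469e_gt.LCls
import Pool.Agent.Work.MP_f6469e_gt.BPar
import Pool.Agent.Work.MP_f6469e_gt.BDefs

/-!
# Module LLab (S-M): polytopes with rational cyclic products are labelled

* `lab_of_rat`: `M i j = L n (e i) (e j)` is symmetric (`L_comm`). `ac`: `CoxPoly.acute`. `lab`: by `gram`: either `L ≤ -1`, so `L < -1` by `ne_neg_one`; or `L = -cos (π/m)`, `m ≥ 2`, and the cyclic product of `i, j` (`k = 2`,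
  `c = ![i, j]`, `finRotate 2` exchanges the two elements) is `cos² (π/m)`: `cos_cases`. `cls2, cls3`: `exists_scale`, `exists_cls`.
* `lab_of_sl`: `d = 1` for `cls2`, `cls3` (the products `-√2/2`, `-√3/2` do not occur: they are different from `0`, `-1/2` and greater than `-1`).
-/

set_option autoImplicit false

namespace Pool.Agent.Work.MP_f6469e_gt

variable {n N : ℕ} {e : Fin N → (Fin (n + 1) → ℝ)}


private theorem lab_of_rat_lab (hn : 1 ≤ n) (h : CoxPoly n N e) (hr : RatCyc n N e) (i j : Fin N)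
    (hij : i ≠ j) : L n (e i) (e j) = 0 ∨ L n (e i) (e j) = -(1 / 2) ∨
    L n (e i) (e j) = -(√2 / 2) ∨ L n (e i) (e j) = -(√3 / 2) ∨ L n (e i) (e j) < -1 := by
  rcases h.gram i j hij with ⟨m, hm, h1⟩ | h1
  · obtain ⟨q, hq⟩ := hr 2 ![i, j]
    have e0 : finRotate 2 0 = 1 := by decide
    have e1 : finRotate 2 1 = 0 := by decide
    rw [Fin.prod_univ_two, e0, e1] at hq
    simp only [Matrix.cons_val_zero, Matrix.cons_val_one] at hq
    rw [L_comm (e j) (e i), h1] at hq
    rcases cos_cases m hm ⟨q, by rw [← hq]; ring⟩ with h2 | h2 | h2 | h2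
    · left
      rw [h1, h2, neg_zero]
    · right; left
      rw [h1, h2]
    · right; right; left
      rw [h1, h2]
    · right; right; right; left
      rw [h1, h2]
  · right; right; right; right
    exact lt_of_le_of_ne h1 (ne_neg_one hn h.acute hij)

theorem lab_of_rat (hn : 1 ≤ n) (h : CoxPoly n N e) (hr : RatCyc n N e) : Lab n N e := by
  obtain ⟨s, hs, h2, h3⟩ := exists_scale (fun i j => L n (e i) (e j)) (fun i j => L_comm _ _) hr
  obtain ⟨⟨d, hd, hd'⟩, ⟨d3, hd3, hd3'⟩⟩ := exists_cls (fun i j => L n (e i) (e j)) s hs h2 h3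
  exact
    { ac := h.acute
      lab := lab_of_rat_lab hn h hr
      cls2 := ⟨d, hd, fun i j _ => hd' i j⟩
      cls3 := ⟨d3, hd3, fun i j _ => hd3' i j⟩ }

theorem lab_of_sl (hn : 1 ≤ n) (h : CoxPoly n N e) (hs : SimplyLaced n N e) : Lab n N e := by
  have hs2 : (√2 : ℝ) ^ 2 = 2 := Real.sq_sqrt (by norm_num)
  have hs3 : (√3 : ℝ) ^ 2 = 3 := Real.sq_sqrt (by norm_num)
  have p2 : (0 : ℝ) < √2 := by positivity
  have p3 : (0 : ℝ) < √3 := by positivity
  have a2 : ∀ i j, i ≠ j → L n (e i) (e j) ≠ -(√2 / 2) := by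
    intro i j hij h1
    rcases hs i j hij with h2 | h2 | h2 <;> rw [h1] at h2 <;> nlinarith
  have a3 : ∀ i j, i ≠ j → L n (e i) (e j) ≠ -(√3 / 2) := by
    intro i j hij h1
    rcases hs i j hij with h2 | h2 | h2 <;> rw [h1] at h2 <;> nlinarith
  exact
    { ac := h.acute
      lab := by
        intro i j hij
        rcases hs i j hij with h1 | h1 | h1
        · exact Or.inl h1
        · exact Or.inr (Or.inl h1)
        · exact Or.inr (Or.inr (Or.inr (Or.inr (lt_of_le_of_ne h1 (ne_neg_one hn h.acute hij)))))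
      cls2 := ⟨fun _ => 1, fun _ => Or.inl rfl, fun i j hij =>
        ⟨fun _ => rfl, fun h1 => absurd h1 (a2 i j hij), fun _ => rfl⟩⟩
      cls3 := ⟨fun _ => 1, fun _ => Or.inl rfl, fun i j hij =>
        ⟨fun _ => rfl, fun _ => rfl, fun h1 => absurd h1 (a3 i j hij)⟩⟩ }

end Pool.Agent.Work.MP_f6469e_gt
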