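import Pool.Agent.Work.MP_f6469e_gt.LCyc

/-!
# Module LScale (M): scales from rational cyclic products

Write `w x l y = pth M x (l ++ [y])`. Relation `i ~ j`: `i = j` or `∃ l, w i l j ≠ 0`; it is an equivalence relation by `pth_append`, `pth_reverse`. Choose a representative `r i` in every class (`Quotient.out`). If
`i = r i` put `s i = 1`; otherwise choose `l i` with `w (r i) (l i) i ≠ 0` and put `s i = |w (r i) (l i) i|`. `s i ^ 2 = w (r i) (l i) i * w i (l i).reverse (r i)` is a closed walk through `r i`, rational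
by `cyc_list`. If `M i j = 0` the last claim is clear. Otherwise `i ~ j`, `r i = r j`, and `s i * s j * M i j = ± w (r i) (l i) i * M i j * w j (l j).reverse (r j)` is `±` the product of a closed walk (also if `i = r i` or
`j = r j`, with fewer factors; for `i = j` this is a closed walk too).
-/

set_option autoImplicit false

namespace Pool.Agent.Work.MP_f6469e_gt

/-- `v` is the product along a walk from `x` to `y` -/
private def Walk {N : ℕ} (M : Fin N → Fin N → ℝ) (x y : Fin N) (v : ℝ) : Prop :=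
  (x = y ∧ v = 1) ∨ ∃ l, v = pth M x (l ++ [y])

private theorem Walk.trans {N : ℕ} {M : Fin N → Fin N → ℝ} {x y z : Fin N} {v w : ℝ}
    (h : Walk M x y v) (h' : Walk M y z w) : Walk M x z (v * w) := by
  rcases h with ⟨rfl, rfl⟩ | ⟨l, rfl⟩
  · rw [one_mul]
    exact h'
  · rcases h' with ⟨rfl, rfl⟩ | ⟨l', rfl⟩
    · rw [mul_one]
      exact Or.inr ⟨l, rfl⟩
    · right
      refine ⟨l ++ y :: l', ?_⟩
      have e : (l ++ y :: l') ++ [z] = l ++ y :: (l' ++ [z]) := by simp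
      rw [e]
      exact (pth_append M x y l (l' ++ [z])).symm

private theorem Walk.symm {N : ℕ} {M : Fin N → Fin N → ℝ} (hM : ∀ i j, M i j = M j i)
    {x y : Fin N} {v : ℝ} (h : Walk M x y v) : Walk M y x v := by
  rcases h with ⟨rfl, rfl⟩ | ⟨l, rfl⟩
  · exact Or.inl ⟨rfl, rfl⟩
  · exact Or.inr ⟨l.reverse, pth_reverse M hM x y l⟩

private theorem Walk.single {N : ℕ} (M : Fin N → Fin N → ℝ) (x y : Fin N) :
    Walk M x y (M x y) := by
  refine Or.inr ⟨[], ?_⟩
  simp [pth]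

private theorem Walk.rat {N : ℕ} {M : Fin N → Fin N → ℝ}
    (h : ∀ (k : ℕ) (c : Fin k → Fin N), ∃ q : ℚ, ∏ t, M (c t) (c (finRotate k t)) = (q : ℝ))
    {x : Fin N} {v : ℝ} (hv : Walk M x x v) : ∃ q : ℚ, v = (q : ℝ) := by
  rcases hv with ⟨-, rfl⟩ | ⟨l, rfl⟩
  · exact ⟨1, by simp⟩
  · exact cyc_list M h x l

private def stdScale {N : ℕ} (M : Fin N → Fin N → ℝ) (hM : ∀ i j, M i j = M j i) :
    Setoid (Fin N) where
  r i j := ∃ v, v ≠ 0 ∧ Walk M i j v
  iseqv :=
    { refl := fun _ => ⟨1, one_ne_zero, Or.inl ⟨rfl, rfl⟩⟩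
      symm := fun ⟨v, hv, hw⟩ => ⟨v, hv, hw.symm hM⟩
      trans := fun ⟨v, hv, hw⟩ ⟨v', hv', hw'⟩ => ⟨v * v', mul_ne_zero hv hv', hw.trans hw'⟩ }

theorem exists_scale {N : ℕ} (M : Fin N → Fin N → ℝ) (hM : ∀ i j, M i j = M j i)
    (h : ∀ (k : ℕ) (c : Fin k → Fin N), ∃ q : ℚ, ∏ t, M (c t) (c (finRotate k t)) = (q : ℝ)) :
    ∃ s : Fin N → ℝ, (∀ i, 0 < s i) ∧ (∀ i, ∃ q : ℚ, s i ^ 2 = (q : ℝ)) ∧
      ∀ i j, ∃ q : ℚ, s i * s j * M i j = (q : ℝ) := by
  let S := stdScale M hM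
  have hW : ∀ i : Fin N, ∃ v, v ≠ 0 ∧ Walk M (Quotient.mk S i).out i v := fun i =>
    Quotient.mk_out (s := S) i
  choose W hW0 hW using hW
  refine ⟨fun i => |W i|, fun i => abs_pos.2 (hW0 i), fun i => ?_, fun i j => ?_⟩
  · obtain ⟨q, hq⟩ := Walk.rat h ((hW i).trans ((hW i).symm hM))
    exact ⟨q, by rw [sq_abs, sq, hq]⟩
  · by_cases h0 : M i j = 0
    · exact ⟨0, by rw [h0]; simp⟩
    · have hij : Quotient.mk S i = Quotient.mk S j :=
        Quotient.sound (s := S) ⟨M i j, h0, Walk.single M i j⟩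
      have h1 : Walk M (Quotient.mk S i).out (Quotient.mk S i).out (W i * (M i j * W j)) := by
        refine (hW i).trans ((Walk.single M i j).trans ?_)
        have h2 := (hW j).symm hM
        rw [← hij] at h2
        exact h2
      obtain ⟨q, hq⟩ := Walk.rat h h1
      show ∃ q : ℚ, |W i| * |W j| * M i j = (q : ℝ)
      rcases abs_choice (W i) with h3 | h3 <;> rcases abs_choice (W j) with h4 | h4
      · exact ⟨q, by rw [h3, h4, ← hq]; ring⟩
      · exact ⟨-q, by rw [h3, h4]; push_cast; rw [← hq]; ring⟩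
      · exact ⟨-q, by rw [h3, h4]; push_cast; rw [← hq]; ring⟩
      · exact ⟨q, by rw [h3, h4, ← hq]; ring⟩

end Pool.Agent.Work.MP_f6469e_gt
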