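import Pool.Agent.Work.MP_f6469e_gt.RPr

/-!
# Module RGram: the Gram matrix of the face
-/

set_option autoImplicit false

namespace Pool.Agent.Work.MP_f6469e_gt

variable {n N : ℕ} {e : Fin N → (Fin (n + 1) → ℝ)}

private theorem c2 : Real.cos (Real.pi / ((2 : ℕ) : ℝ)) = 0 := by
  rw [Nat.cast_ofNat, Real.cos_pi_div_two]

private theorem c3 : Real.cos (Real.pi / ((3 : ℕ) : ℝ)) = 1 / 2 := by
  rw [Nat.cast_ofNat, Real.cos_pi_div_three]

private theorem c4 : Real.cos (Real.pi / ((4 : ℕ) : ℝ)) = √2 / 2 := by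
  rw [Nat.cast_ofNat, Real.cos_pi_div_four]

private theorem c6 : Real.cos (Real.pi / ((6 : ℕ) : ℝ)) = √3 / 2 := by
  rw [Nat.cast_ofNat, Real.cos_pi_div_six]

private theorem sh : √(1 / 2 : ℝ) = √2 / 2 := by
  have h2 : √2 * √2 = (2 : ℝ) := Real.mul_self_sqrt (by norm_num)
  rw [Real.sqrt_eq_iff_mul_self_eq (by norm_num) (by positivity)]
  nlinarith

/-- both of type 0 -/
private theorem g00 {x : ℝ} (h : x = 0 ∨ x = -(1 / 2) ∨ x = -(√2 / 2) ∨ x = -(√3 / 2) ∨ x < -1) :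
    (∃ m : ℕ, 2 ≤ m ∧ x = 1 * 1 * -Real.cos (Real.pi / (m : ℝ))) ∨ x ≤ -(1 * 1) := by
  rcases h with rfl | rfl | rfl | rfl | h
  · exact Or.inl ⟨2, le_refl _, by rw [c2]; ring⟩
  · exact Or.inl ⟨3, by norm_num, by rw [c3]; ring⟩
  · exact Or.inl ⟨4, by norm_num, by rw [c4]; ring⟩
  · exact Or.inl ⟨6, by norm_num, by rw [c6]; ring⟩
  · exact Or.inr (by linarith)

/-- exactly one of type 0 -/
private theorem g01 {x s : ℝ} (hs : s = √(1 / 2))
    (h : x = 0 ∨ x = -(1 / 2) ∨ x = -(√2 / 2) ∨ x = -(√3 / 2) ∨ x < -1) :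
    (∃ m : ℕ, 2 ≤ m ∧ x = s * -Real.cos (Real.pi / (m : ℝ))) ∨ x ≤ -s := by
  have h2 : √2 * √2 = (2 : ℝ) := Real.mul_self_sqrt (by norm_num)
  have h23 : √2 ≤ √(3 : ℝ) := Real.sqrt_le_sqrt (by norm_num)
  have h22 : √2 ≤ (2 : ℝ) := by
    rw [Real.sqrt_le_left (by norm_num)]
    norm_num
  rw [sh] at hs
  subst hs
  rcases h with rfl | rfl | rfl | rfl | h
  · exact Or.inl ⟨2, le_refl _, by rw [c2]; ring⟩
  · refine Or.inl ⟨4, by norm_num, ?_⟩
    rw [c4]
    nlinarith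
  · exact Or.inr (le_refl _)
  · exact Or.inr (by linarith)
  · exact Or.inr (by linarith)

/-- both not of type 0, joined to different elements -/
private theorem g12 {x s : ℝ} (hs : s = √(1 / 2))
    (h : x = 0 ∨ x = -(1 / 2) ∨ x = -(√2 / 2) ∨ x = -(√3 / 2) ∨ x < -1) :
    (∃ m : ℕ, 2 ≤ m ∧ x - √2 / 4 = s * s * -Real.cos (Real.pi / (m : ℝ))) ∨
      x - √2 / 4 ≤ -(s * s) := by
  have h2 : √2 * √2 = (2 : ℝ) := Real.mul_self_sqrt (by norm_num)
  have h20 : (0 : ℝ) ≤ √2 := Real.sqrt_nonneg _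
  have h21 : (1 : ℝ) ≤ √2 := by
    rw [Real.one_le_sqrt]; norm_num
  have h31 : (1 : ℝ) ≤ √3 := by
    rw [Real.one_le_sqrt]; norm_num
  have hss : s * s = 1 / 2 := by
    rw [hs]; exact Real.mul_self_sqrt (by norm_num)
  rw [hss]
  rcases h with rfl | rfl | rfl | rfl | h
  · refine Or.inl ⟨4, by norm_num, ?_⟩
    rw [c4]
    ring
  · exact Or.inr (by linarith)
  · exact Or.inr (by linarith)
  · exact Or.inr (by linarith)
  · exact Or.inr (by linarith)

/-- both not of type 0, joined to the same element -/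
private theorem g11 {x s : ℝ} (hs : s = √(1 / 2)) (h : x ≤ 0) :
    (∃ m : ℕ, 2 ≤ m ∧ x - 1 / 2 = s * s * -Real.cos (Real.pi / (m : ℝ))) ∨
      x - 1 / 2 ≤ -(s * s) := by
  have hss : s * s = 1 / 2 := by
    rw [hs]; exact Real.mul_self_sqrt (by norm_num)
  rw [hss]
  exact Or.inr (by linarith)

theorem pr_gram (hL : Lab n N e) {i j a b : Fin N} (hij : i ≠ j)
    (h46 : L n (e i) (e j) = -(√2 / 2) ∨ L n (e i) (e j) = -(√3 / 2)) (hab : a ≠ b) (hai : a ≠ i)
    (haj : a ≠ j) (hbi : b ≠ i) (hbj : b ≠ j) (hA : Ell e {a, i, j}) (hB : Ell e {b, i, j}) :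
    (∃ m : ℕ, 2 ≤ m ∧ L n (pr e i j a) (pr e i j b) =
      rr e i j a * rr e i j b * -Real.cos (Real.pi / (m : ℝ))) ∨
    L n (pr e i j a) (pr e i j b) ≤ -(rr e i j a * rr e i j b) := by
  have ho := pr_orth hL hij h46 hai haj hA
  rw [pr_inner b ho.1 ho.2]
  have hlab := hL.lab a b hab
  have hle : L n (e a) (e b) ≤ 0 := hL.ac.off a b hab
  have h0 : ¬ ((0 : ℝ) = -(1 / 2)) := by norm_num
  rcases face_cases hL hij h46 hai haj hA with ⟨a1, a2⟩ | ⟨a0, a1, a2⟩ | ⟨a0, a1, a2⟩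
  · -- a of type 0
    have hpa : pr e i j a = e a := by
      rw [pr, if_neg (by rw [a1]; exact h0), if_neg (by rw [a2]; exact h0)]
    have hra : rr e i j a = 1 := by
      rw [rr, if_neg (by rw [a1, a2]; rintro (h | h) <;> exact h0 h)]
    rw [hpa, hra]
    rcases face_cases hL hij h46 hbi hbj hB with ⟨b1, b2⟩ | ⟨b0, b1, b2⟩ | ⟨b0, b1, b2⟩
    · have hrb : rr e i j b = 1 := by
        rw [rr, if_neg (by rw [b1, b2]; rintro (h | h) <;> exact h0 h)]
      rw [hrb]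
      exact g00 hlab
    · have hrb : rr e i j b = √(1 / 2) := by
        rw [rr, if_pos (Or.inl b1)]
      rw [hrb, one_mul]
      exact g01 rfl hlab
    · have hrb : rr e i j b = √(1 / 2) := by
        rw [rr, if_pos (Or.inr b2)]
      rw [hrb, one_mul]
      exact g01 rfl hlab
  · -- a joined to i
    have hpa : pr e i j a = e a + e i + (√2 / 2) • e j := by
      rw [pr, if_pos a1]
    have hra : rr e i j a = √(1 / 2) := by
      rw [rr, if_pos (Or.inl a1)]
    have hx : L n (pr e i j a) (e b) = L n (e a) (e b) + L n (e b) (e i) +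
        √2 / 2 * L n (e b) (e j) := by
      rw [hpa, L_add_left, L_add_left, L_smul_left, L_comm (e i) (e b), L_comm (e j) (e b)]
    rw [hx, hra]
    rcases face_cases hL hij h46 hbi hbj hB with ⟨b1, b2⟩ | ⟨b0, b1, b2⟩ | ⟨b0, b1, b2⟩
    · have hrb : rr e i j b = 1 := by
        rw [rr, if_neg (by rw [b1, b2]; rintro (h | h) <;> exact h0 h)]
      rw [hrb, b1, b2, mul_one, mul_zero, add_zero, add_zero]
      exact g01 rfl hlab
    · have hrb : rr e i j b = √(1 / 2) := by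
        rw [rr, if_pos (Or.inl b1)]
      have h1 : L n (e a) (e b) + -(1 / 2) + √2 / 2 * 0 = L n (e a) (e b) - 1 / 2 := by ring
      rw [hrb, b1, b2, h1]
      exact g11 rfl hle
    · have hrb : rr e i j b = √(1 / 2) := by
        rw [rr, if_pos (Or.inr b2)]
      have h1 : L n (e a) (e b) + 0 + √2 / 2 * -(1 / 2) = L n (e a) (e b) - √2 / 4 := by ring
      rw [hrb, b1, b2, h1]
      exact g12 rfl hlab
  · -- a joined to j
    have hpa : pr e i j a = e a + (√2 / 2) • e i + e j := by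
      rw [pr, if_neg (by rw [a1]; exact h0), if_pos a2]
    have hra : rr e i j a = √(1 / 2) := by
      rw [rr, if_pos (Or.inr a2)]
    have hx : L n (pr e i j a) (e b) = L n (e a) (e b) + √2 / 2 * L n (e b) (e i) +
        L n (e b) (e j) := by
      rw [hpa, L_add_left, L_add_left, L_smul_left, L_comm (e i) (e b), L_comm (e j) (e b)]
    rw [hx, hra]
    rcases face_cases hL hij h46 hbi hbj hB with ⟨b1, b2⟩ | ⟨b0, b1, b2⟩ | ⟨b0, b1, b2⟩
    · have hrb : rr e i j b = 1 := by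
        rw [rr, if_neg (by rw [b1, b2]; rintro (h | h) <;> exact h0 h)]
      rw [hrb, b1, b2, mul_one, mul_zero, add_zero, add_zero]
      exact g01 rfl hlab
    · have hrb : rr e i j b = √(1 / 2) := by
        rw [rr, if_pos (Or.inl b1)]
      have h1 : L n (e a) (e b) + √2 / 2 * -(1 / 2) + 0 = L n (e a) (e b) - √2 / 4 := by ring
      rw [hrb, b1, b2, h1]
      exact g12 rfl hlab
    · have hrb : rr e i j b = √(1 / 2) := by
        rw [rr, if_pos (Or.inr b2)]
      have h1 : L n (e a) (e b) + √2 / 2 * 0 + -(1 / 2) = L n (e a) (e b) - 1 / 2 := by ring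
      rw [hrb, b1, b2, h1]
      exact g11 rfl hle

end Pool.Agent.Work.MP_f6469e_gt
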