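import Pool.Agent.Work.MP_f6469e_gt.Pt
import Pool.Agent.Work.MP_f6469e_gt.Ind
import Pool.Agent.Work.MP_f6469e_gt.Lor

/-!
# Module RIneq (M): the inequalities of a face

`y` from `exists_pt` for `J` (`L n y (e b) < 0` for all `b ∉ J`, `L n y (e i) = 0` on `J`). Suppose that some `b ∉ J` has `0 < L n x (e b)`. For such `b` let `t_b = -L n y (e b) / (L n x (e b) - L n y (e b)) ∈ (0, 1)` be
the zero of `L n ((1 - t) y + t x) (e b)`; take `b` with the least `t_b`, `z = (1 - t_b) y + t_b x`. Then `L n z (e c) ≤ 0` for all `c`, `L n z (e i) = 0` for `i ∈ insert b J`. `z` is time-like: `L n z z` is a sum of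
three negative terms (`L_neg` for `x, y`). By `ell_of_pt` the set `insert b J` is elliptic, so `L n x (e b) ≤ 0` by `hA`, a contradiction.
-/

set_option autoImplicit false

namespace Pool.Agent.Work.MP_f6469e_gt

variable {n N : ℕ} {e : Fin N → (Fin (n + 1) → ℝ)}


theorem face_ineq (hP : Acute n N e) {J : Finset (Fin N)} (hJ : Ell e J) {x : Fin (n + 1) → ℝ}
    (hx : L n x x < 0) (hx0 : 0 < x 0) (hJx : ∀ i ∈ J, L n x (e i) = 0)
    (hA : ∀ a, a ∉ J → Ell e (insert a J) → L n x (e a) ≤ 0) : ∀ b, L n x (e b) ≤ 0 := by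
  intro b
  by_contra hb
  push Not at hb
  have hbJ : b ∉ J := fun h => hb.ne' (hJx b h)
  obtain ⟨y, hy, hy0, hyJ, hyN⟩ := exists_pt hP hJ
  have hyb := hyN b hbJ
  refine absurd (hA b hbJ ?_) (not_le.mpr hb)
  have hd : 0 < L n x (e b) - L n y (e b) := by linarith
  have hxy : L n x y < 0 := L_neg hx hx0 hy.le hy0
  refine ell_of_pt hP (x := (L n x (e b)) • y + (-L n y (e b)) • x) ?_ ?_
  · rw [L_add_left, L_add_right, L_add_right, L_smul_left, L_smul_left, L_smul_left, L_smul_left,
      L_smul_right, L_smul_right, L_smul_right, L_smul_right, L_comm y x]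
    set p := L n x (e b)
    set r := -L n y (e b) with hr
    have hr0 : 0 < r := by linarith
    have h1 : p * (p * L n y y) < 0 := by
      have : p * L n y y < 0 := mul_neg_of_pos_of_neg hb hy
      exact mul_neg_of_pos_of_neg hb this
    have h2 : p * (r * L n x y) < 0 :=
      mul_neg_of_pos_of_neg hb (mul_neg_of_pos_of_neg hr0 hxy)
    have h3 : r * (p * L n x y) < 0 :=
      mul_neg_of_pos_of_neg hr0 (mul_neg_of_pos_of_neg hb hxy)
    have h4 : r * (r * L n x x) < 0 :=
      mul_neg_of_pos_of_neg hr0 (mul_neg_of_pos_of_neg hr0 hx)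
    linarith
  · intro i hi
    rw [L_add_left, L_smul_left, L_smul_left]
    rcases Finset.mem_insert.mp hi with rfl | hi
    · ring
    · rw [hyJ i hi, hJx i hi]
      ring

end Pool.Agent.Work.MP_f6469e_gt
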