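import Pool.Agent.Work.MP_f6469e_gt.Lor

/-!
# Module RIrr (S-M): facets are never redundant

`x₀` the interior point, `s = -L n x₀ (e i) > 0`, `t = s + 1/2`, `x = x₀ + t • e i`. `L n x (e i) = -s + t = 1/2`; for `j ≠ i`: `L n x (e j) = L n x₀ (e j) + t L n (e i) (e j) < 0`. `L n x x = -1 - 2 t s + t² =
-1 - s² + 1/4 < 0`. `L n x₀ x = -1 - t s < 0`, so `0 < x 0` (`time_zero`). Scale with `1 / √(-L n x x)`.
-/

set_option autoImplicit false

namespace Pool.Agent.Work.MP_f6469e_gt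

variable {n N : ℕ} {e : Fin N → (Fin (n + 1) → ℝ)}


theorem irr_of (hu : ∀ i, L n (e i) (e i) = 1) (hoff : ∀ i j, i ≠ j → L n (e i) (e j) ≤ 0)
    (hin : ∃ x : Fin (n + 1) → ℝ, 0 < x 0 ∧ L n x x = -1 ∧ ∀ i, L n x (e i) < 0) :
    ∀ i, ∃ x : Fin (n + 1) → ℝ, 0 < x 0 ∧ L n x x = -1 ∧ 0 < L n x (e i) ∧
      ∀ j, j ≠ i → L n x (e j) ≤ 0 := by
  intro i
  obtain ⟨x₀, h0, h1, h2⟩ := hin
  obtain ⟨s, hs⟩ : ∃ s : ℝ, s = -L n x₀ (e i) := ⟨_, rfl⟩
  have hs0 : 0 < s := by have := h2 i; linarith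
  obtain ⟨t, ht⟩ : ∃ t : ℝ, t = s + 1 / 2 := ⟨_, rfl⟩
  obtain ⟨x, hx⟩ : ∃ x : Fin (n + 1) → ℝ, x = x₀ + t • e i := ⟨_, rfl⟩
  have e1 : L n x (e i) = 1 / 2 := by
    rw [hx, L_add_left, L_smul_left, hu i]
    linarith
  have e2 : ∀ j, j ≠ i → L n x (e j) ≤ 0 := by
    intro j hj
    rw [hx, L_add_left, L_smul_left]
    have h3 := h2 j
    have h4 := hoff i j (Ne.symm hj)
    have h5 : t * L n (e i) (e j) ≤ 0 := mul_nonpos_of_nonneg_of_nonpos (by linarith) h4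
    linarith
  have e3 : L n x₀ x = -1 - t * s := by
    rw [hx, L_add_right, L_smul_right, h1]
    have : L n x₀ (e i) = -s := by linarith
    rw [this]; ring
  have e4 : L n x x = -1 - s ^ 2 + 1 / 4 := by
    have h9 : L n (x₀ + t • e i) x = L n x₀ x + t * L n (e i) x := by
      rw [L_add_left, L_smul_left]
    rw [← hx] at h9
    rw [h9, e3, L_comm (e i) x, e1, ht]
    ring
  have e5 : L n x x < 0 := by
    rw [e4]; nlinarith [sq_nonneg s]
  have e6 : 0 < x 0 := by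
    refine time_zero (x := x₀) (by rw [h1]; norm_num) h0 e5.le ?_
    rw [e3]
    have : 0 < t * s := mul_pos (by linarith) hs0
    linarith
  obtain ⟨a, ha⟩ : ∃ a : ℝ, a = 1 / Real.sqrt (-L n x x) := ⟨_, rfl⟩
  have hsq : 0 < Real.sqrt (-L n x x) := Real.sqrt_pos.2 (by linarith)
  have ha0 : 0 < a := by rw [ha]; positivity
  refine ⟨a • x, ?_, ?_, ?_, ?_⟩
  · simp only [Pi.smul_apply, smul_eq_mul]
    positivity
  · rw [L_smul_left, L_smul_right, ← mul_assoc, ha]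
    have h7 : Real.sqrt (-L n x x) * Real.sqrt (-L n x x) = -L n x x :=
      Real.mul_self_sqrt (by linarith)
    have h8 : 1 / Real.sqrt (-L n x x) * (1 / Real.sqrt (-L n x x)) = 1 / (-L n x x) := by
      rw [div_mul_div_comm, h7, one_mul]
    have hne : L n x x ≠ 0 := e5.ne
    rw [h8, one_div, inv_neg, neg_mul, inv_mul_cancel₀ hne]
  · rw [L_smul_left, e1]
    positivity
  · intro j hj
    rw [L_smul_left]
    exact mul_nonpos_of_nonneg_of_nonpos ha0.le (e2 j hj)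

end Pool.Agent.Work.MP_f6469e_gt
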