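import Pool.Agent.Work.MP_f6469e_gt.RPr

/-!
# Module RRat (S-M): rationality on the face

`(s a * rr a)² = s a ² * rr a ²`, `rr² ∈ {1, 1/2}`. The product of `pr a`, `pr b` as in module RGram (`pr_orth`, `pr_inner`):
* one of them orthogonal to `i, j`: `L_ab`, use `h`. (`a = b` allowed: then it is `rr a ²` by `pr_norm`, or directly.)
* both joined to `i`: `L_ab - 1/2`; `s a * s i` and `s b * s i` are rational (`h`, product `-1/2`), `s i ² ≠ 0` is rational, so `s a * s b` is rational. In the same way for `j`.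
* `a` joined to `i`, `b` to `j` (or conversely): `L_ab - √2/4`; `s a * s i`, `s b * s j`, `s i * s j * √2` are rational; multiply and divide by `s i ² * s j ²`.
-/

set_option autoImplicit false

namespace Pool.Agent.Work.MP_f6469e_gt

variable {n N : ℕ} {e : Fin N → (Fin (n + 1) → ℝ)}


private def IsQ (x : ℝ) : Prop := ∃ q : ℚ, x = (q : ℝ)

private theorem IsQ.mul' {x y : ℝ} (hx : IsQ x) (hy : IsQ y) : IsQ (x * y) := by
  obtain ⟨a, rfl⟩ := hx
  obtain ⟨b, rfl⟩ := hy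
  exact ⟨a * b, by push_cast; ring⟩

private theorem IsQ.sub' {x y : ℝ} (hx : IsQ x) (hy : IsQ y) : IsQ (x - y) := by
  obtain ⟨a, rfl⟩ := hx
  obtain ⟨b, rfl⟩ := hy
  exact ⟨a - b, by push_cast; ring⟩

private theorem IsQ.div' {x y : ℝ} (hx : IsQ x) (hy : IsQ y) : IsQ (x / y) := by
  obtain ⟨a, rfl⟩ := hx
  obtain ⟨b, rfl⟩ := hy
  exact ⟨a / b, by push_cast; ring⟩

private theorem rr_sq (i j a : Fin N) : IsQ (rr e i j a ^ 2) := by
  unfold rr
  split_ifs
  · rw [Real.sq_sqrt (by norm_num)]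
    exact ⟨1 / 2, by push_cast; ring⟩
  · exact ⟨1, by push_cast; ring⟩

private theorem ne_half : (0 : ℝ) ≠ -(1 / 2) := by norm_num

/-- the three types and the product -/
private theorem pr_prod (hL : Lab n N e) {i j a b : Fin N} (hij : i ≠ j)
    (h46 : L n (e i) (e j) = -(√2 / 2) ∨ L n (e i) (e j) = -(√3 / 2)) (hai : a ≠ i)
    (haj : a ≠ j) (hbi : b ≠ i) (hbj : b ≠ j) (hA : Ell e {a, i, j}) (hB : Ell e {b, i, j}) :
    L n (pr e i j a) (pr e i j b) = L n (e a) (e b) ∨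
    (L n (pr e i j a) (pr e i j b) = L n (e a) (e b) - 1 / 2 ∧
      ((L n (e a) (e i) = -(1 / 2) ∧ L n (e b) (e i) = -(1 / 2)) ∨
        (L n (e a) (e j) = -(1 / 2) ∧ L n (e b) (e j) = -(1 / 2)))) ∨
    (L n (e i) (e j) = -(√2 / 2) ∧
      L n (pr e i j a) (pr e i j b) = L n (e a) (e b) - √2 / 4 ∧
      ((L n (e a) (e i) = -(1 / 2) ∧ L n (e b) (e j) = -(1 / 2)) ∨
        (L n (e a) (e j) = -(1 / 2) ∧ L n (e b) (e i) = -(1 / 2)))) := by
  obtain ⟨o1, o2⟩ := pr_orth hL hij h46 hai haj hA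
  have hin := pr_inner (e := e) (i := i) (j := j) b o1 o2
  rw [hin]
  have ca := face_cases hL hij h46 hai haj hA
  have cb := face_cases hL hij h46 hbi hbj hB
  rcases ca with ⟨a1, a2⟩ | ⟨aij, a1, a2⟩ | ⟨aij, a1, a2⟩
  · left
    unfold pr
    rw [if_neg (by rw [a1]; exact ne_half), if_neg (by rw [a2]; exact ne_half)]
  · have hp : L n (pr e i j a) (e b) = L n (e a) (e b) + L n (e b) (e i) + √2 / 2 * L n (e b) (e j) := by
      unfold pr
      rw [if_pos a1, L_add_left, L_add_left, L_smul_left, L_comm (e i) (e b), L_comm (e j) (e b)]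
    rcases cb with ⟨b1, b2⟩ | ⟨bij, b1, b2⟩ | ⟨bij, b1, b2⟩
    · left
      rw [hp, b1, b2]; ring
    · right; left
      refine ⟨?_, Or.inl ⟨a1, b1⟩⟩
      rw [hp, b1, b2]; ring
    · right; right
      refine ⟨aij, ?_, Or.inl ⟨a1, b2⟩⟩
      rw [hp, b1, b2]; ring
  · have hp : L n (pr e i j a) (e b) = L n (e a) (e b) + √2 / 2 * L n (e b) (e i) + L n (e b) (e j) := by
      unfold pr
      rw [if_neg (by rw [a1]; exact ne_half), if_pos a2, L_add_left, L_add_left, L_smul_left,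
        L_comm (e i) (e b), L_comm (e j) (e b)]
    rcases cb with ⟨b1, b2⟩ | ⟨bij, b1, b2⟩ | ⟨bij, b1, b2⟩
    · left
      rw [hp, b1, b2]; ring
    · right; right
      refine ⟨aij, ?_, Or.inr ⟨a2, b1⟩⟩
      rw [hp, b1, b2]; ring
    · right; left
      refine ⟨?_, Or.inr ⟨a2, b2⟩⟩
      rw [hp, b1, b2]; ring

theorem pr_rat (hL : Lab n N e) {i j a b : Fin N} (hij : i ≠ j)
    (h46 : L n (e i) (e j) = -(√2 / 2) ∨ L n (e i) (e j) = -(√3 / 2)) (hai : a ≠ i)
    (haj : a ≠ j) (hbi : b ≠ i) (hbj : b ≠ j) (hA : Ell e {a, i, j}) (hB : Ell e {b, i, j})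
    (s : Fin N → ℝ) (hs : ∀ i, 0 < s i) (h2 : ∀ i, ∃ q : ℚ, s i ^ 2 = (q : ℝ))
    (h : ∀ i j, ∃ q : ℚ, s i * s j * L n (e i) (e j) = (q : ℝ)) :
    (∃ q : ℚ, (s a * rr e i j a) ^ 2 = (q : ℝ)) ∧
    ∃ q : ℚ, s a * s b * L n (pr e i j a) (pr e i j b) = (q : ℝ) := by
  have h2' : ∀ i, IsQ (s i ^ 2) := h2
  have h' : ∀ i j, IsQ (s i * s j * L n (e i) (e j)) := h
  refine ⟨?_, ?_⟩
  · have := (h2' a).mul' (rr_sq (e := e) i j a)
    rw [mul_pow]
    exact this
  -- joined pairs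
  have hj : ∀ x y : Fin N, L n (e x) (e y) = -(1 / 2) → IsQ (s x * s y) := by
    intro x y hxy
    have h1 := h' x y
    rw [hxy] at h1
    have h3 := h1.div' (⟨-(1 / 2), by push_cast; ring⟩ : IsQ (-(1 / 2)))
    have h4 : s x * s y * -(1 / 2) / -(1 / 2) = s x * s y := by ring
    rwa [h4] at h3
  have hi0 := (hs i).ne'
  have hj0 := (hs j).ne'
  show IsQ _
  rcases pr_prod hL hij h46 hai haj hbi hbj hA hB with hp | ⟨hp, hc⟩ | ⟨hL2, hp, hc⟩
  · rw [hp]
    exact h' a b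
  · rw [hp]
    have h3 : IsQ (s a * s b) := by
      rcases hc with ⟨c1, c2⟩ | ⟨c1, c2⟩
      · have h4 := ((hj a i c1).mul' (hj b i c2)).div' (h2' i)
        have h5 : s a * s i * (s b * s i) / s i ^ 2 = s a * s b := by field_simp
        rwa [h5] at h4
      · have h4 := ((hj a j c1).mul' (hj b j c2)).div' (h2' j)
        have h5 : s a * s j * (s b * s j) / s j ^ 2 = s a * s b := by field_simp
        rwa [h5] at h4
    have h4 := (h' a b).sub' (h3.mul' (⟨1 / 2, by push_cast; ring⟩ : IsQ (1 / 2)))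
    have h5 : s a * s b * L n (e a) (e b) - s a * s b * (1 / 2) =
        s a * s b * (L n (e a) (e b) - 1 / 2) := by ring
    rwa [h5] at h4
  · rw [hp]
    have hw := h' i j
    rw [hL2] at hw
    have h3 : IsQ (s a * s b * (√2 / 4)) := by
      rcases hc with ⟨c1, c2⟩ | ⟨c1, c2⟩
      · have h4 := (((hj a i c1).mul' (hj b j c2)).mul' hw).div' ((h2' i).mul' (h2' j))
        have h5 := h4.div' (⟨-2, by push_cast; ring⟩ : IsQ (-2))
        have h6 : s a * s i * (s b * s j) * (s i * s j * -(√2 / 2)) / (s i ^ 2 * s j ^ 2) / -2 =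
            s a * s b * (√2 / 4) := by
          field_simp
          ring
        rwa [h6] at h5
      · have h4 := (((hj a j c1).mul' (hj b i c2)).mul' hw).div' ((h2' i).mul' (h2' j))
        have h5 := h4.div' (⟨-2, by push_cast; ring⟩ : IsQ (-2))
        have h6 : s a * s j * (s b * s i) * (s i * s j * -(√2 / 2)) / (s i ^ 2 * s j ^ 2) / -2 =
            s a * s b * (√2 / 4) := by
          field_simp
          ring
        rwa [h6] at h5
    have h4 := (h' a b).sub' h3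
    have h5 : s a * s b * L n (e a) (e b) - s a * s b * (√2 / 4) =
        s a * s b * (L n (e a) (e b) - √2 / 4) := by ring
    rwa [h5] at h4

end Pool.Agent.Work.MP_f6469e_gt
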