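import Pool.Agent.Work.MP_f6469e_gt.RIso2
import Pool.Agent.Work.MP_f6469e_gt.RIrr
import Pool.Agent.Work.MP_f6469e_gt.RIneq
import Pool.Agent.Work.MP_f6469e_gt.RGram
import Pool.Agent.Work.MP_f6469e_gt.RRat
import Pool.Agent.Work.MP_f6469e_gt.LLab
import Pool.Agent.Work.MP_f6469e_gt.LScale
import Pool.Agent.Work.MP_f6469e_gt.LCyc
import Pool.Agent.Work.MP_f6469e_gt.Pt
import Pool.Agent.Work.MP_f6469e_gt.BSm

/-!
# Module RFace (M): the face of a 4-edge or 6-edge is again an example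

`hL = lab_of_rat`. `J = {i, j}` is elliptic (`ell_pair`, the product is `> -1`). `Φ` from `iso_two (e i) (e j)`. `A` = the set of the `a ≠ i, j` with `Ell e {a, i, j}`, `N' = A.card`, `φ = A.equivFin.symm` (or `A.orderEmbOfFin rfl`): an injective
map `Fin N' → Fin N` with image `A`. For `a ∈ A` choose `p' a` with `Φ (p' a) = pr e i j a` (`pr_orth`), `e' k = (1 / rr (φ k)) • p' (φ k)`.
* `unit`: `pr_norm`. `gram`: `pr_gram`, divide by `rr * rr`.
* `inner`: `x` from `exists_pt` for `J`, `x = Φ x'`, `L n x' x' < 0`, `0 < x' 0`; `L n x' (e' k) = L x (e (φ k)) / rr < 0` (`pr_inner`); scale `x'` to norm `-1`.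
* `irr`: `irr_of` (the off-diagonal products are `≤ 0` by `gram`, cos is `≥ 0` as in `CoxPoly.acute`).
* `cpt`: the set is the preimage under `Φ` of the compact set of `h.cpt`: `⊇` clear (`pr_inner`, `Φ x'` is orthogonal to `e i`, `e j`), `⊆` by `face_ineq` with `J = {i, j}` (`insert a {i, j} = {a, i, j}`). `Φ` is injective (if `Φ x = 0` then `L n x y = 0` for all `y`, so `x = 0`),
  so a closed embedding (`LinearMap.isClosedEmbedding_of_injective`), `IsClosedEmbedding.isCompact_preimage`.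
* `RatCyc`: scales `s` of `e` from `exists_scale` (`M = L`), `s' k = s (φ k) * rr (φ k)`: `s' k * s' l * L n (e' k) (e' l) = s * s * L (pr) (pr)`, `pr_rat` and `cyc_conv`.
-/

set_option autoImplicit false

namespace Pool.Agent.Work.MP_f6469e_gt

private theorem off_of_gram {x : ℝ}
    (h : (∃ m : ℕ, 2 ≤ m ∧ x = -Real.cos (Real.pi / (m : ℝ))) ∨ x ≤ -1) : x ≤ 0 := by
  rcases h with ⟨m, hm, h1⟩ | h1
  · rw [h1, neg_nonpos]
    apply Real.cos_nonneg_of_neg_pi_div_two_le_of_le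
    · have : 0 ≤ Real.pi / (m : ℝ) := by positivity
      linarith [Real.pi_pos]
    · have hm' : (2 : ℝ) ≤ m := by exact_mod_cast hm
      exact div_le_div_of_nonneg_left Real.pi_pos.le (by norm_num) hm'
  · linarith

private theorem sqrt_lt_two' {x : ℝ} (hx : x < 4) : √x < 2 := by
  rw [Real.sqrt_lt' (by norm_num)]
  linarith

/-- A linear isometry is injective. -/
private theorem inj_of_iso {n m : ℕ} (Φ : (Fin (n + 1) → ℝ) →ₗ[ℝ] (Fin (m + 1) → ℝ))
    (A : ∀ x y, L m (Φ x) (Φ y) = L n x y) : Function.Injective Φ := by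
  rw [← LinearMap.ker_eq_bot, LinearMap.ker_eq_bot']
  intro x hx
  have h1 : ∀ y, L n x y = 0 := by
    intro y
    rw [← A, hx, L_zero_left]
  funext k
  refine Fin.cases ?_ (fun k => ?_) k
  · have h2 := h1 (Pi.single 0 1)
    unfold L at h2
    simpa using h2
  · have h2 := h1 (Pi.single k.succ 1)
    unfold L at h2
    rw [Finset.sum_eq_single k] at h2
    · simpa [Pi.single_apply, Fin.succ_ne_zero, (Fin.succ_ne_zero k).symm] using h2
    · intro b _ hb
      simp [Pi.single_apply, hb]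
    · simp

theorem face {n N : ℕ} {e : Fin N → (Fin (n + 2 + 1) → ℝ)} (h : CoxPoly (n + 2) N e)
    (hr : RatCyc (n + 2) N e) {i j : Fin N} (hij : i ≠ j)
    (h46 : L (n + 2) (e i) (e j) = -(√2 / 2) ∨ L (n + 2) (e i) (e j) = -(√3 / 2)) :
    ∃ (N' : ℕ) (e' : Fin N' → (Fin (n + 1) → ℝ)), CoxPoly n N' e' ∧ RatCyc n N' e' := by
  classical
  have hL : Lab (n + 2) N e := lab_of_rat (by omega) h hr
  have hP := hL.ac
  have hm1 : -1 < L (n + 2) (e i) (e j) := by
    have h2 : √2 < 2 := sqrt_lt_two' (by norm_num)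
    have h3 : √3 < 2 := sqrt_lt_two' (by norm_num)
    rcases h46 with h | h <;> rw [h] <;> linarith
  have hm2 : L (n + 2) (e i) (e j) < 1 := by
    have h2 : 0 ≤ √2 := Real.sqrt_nonneg _
    have h3 : 0 ≤ √3 := Real.sqrt_nonneg _
    rcases h46 with h | h <;> rw [h] <;> linarith
  have hJ : Ell e {i, j} := ell_pair hP hij hm1
  obtain ⟨Φ, A, B, C⟩ := iso_two (e i) (e j) (h.unit i) (h.unit j) hm1 hm2
  have hΦ0 : ∀ x, L (n + 2) (Φ x) (e i) = 0 ∧ L (n + 2) (Φ x) (e j) = 0 := fun x =>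
    (B (Φ x)).2 ⟨x, rfl⟩
  obtain ⟨N', φ, hφ, hφi, hφs⟩ : ∃ (N' : ℕ) (φ : Fin N' → Fin N),
      (∀ k, φ k ≠ i ∧ φ k ≠ j ∧ Ell e {φ k, i, j}) ∧ Function.Injective φ ∧
      ∀ a, a ≠ i → a ≠ j → Ell e {a, i, j} → ∃ k, φ k = a := by
    let S : Finset (Fin N) := Finset.univ.filter (fun a => a ≠ i ∧ a ≠ j ∧ Ell e {a, i, j})
    refine ⟨S.card, fun k => (S.equivFin.symm k : Fin N), ?_, ?_, ?_⟩
    · intro k
      have h1 := (S.equivFin.symm k).2
      exact (Finset.mem_filter.1 h1).2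
    · intro k l hkl
      exact S.equivFin.symm.injective (Subtype.ext hkl)
    · intro a h1 h2 h3
      have ha : a ∈ S := Finset.mem_filter.2 ⟨Finset.mem_univ _, h1, h2, h3⟩
      exact ⟨S.equivFin ⟨a, ha⟩, by simp⟩
  have hex : ∀ k, ∃ x, Φ x = pr e i j (φ k) := fun k =>
    (B _).1 (pr_orth hL hij h46 (hφ k).1 (hφ k).2.1 (hφ k).2.2)
  choose p hp using hex
  have hpp : ∀ k l, L n (p k) (p l) = L (n + 2) (pr e i j (φ k)) (pr e i j (φ l)) := by
    intro k l
    rw [← A, hp, hp]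
  have hxp : ∀ x k, L n x (p k) = L (n + 2) (Φ x) (e (φ k)) := by
    intro x k
    rw [← A, hp, pr_inner _ (hΦ0 x).1 (hΦ0 x).2]
  obtain ⟨r, hrdef⟩ : ∃ r : Fin N' → ℝ, ∀ k, r k = rr e i j (φ k) := ⟨_, fun _ => rfl⟩
  have hr0 : ∀ k, 0 < r k := fun k => by rw [hrdef]; exact rr_pos _ _ _
  obtain ⟨e', he'⟩ : ∃ e' : Fin N' → (Fin (n + 1) → ℝ), ∀ k, e' k = (1 / r k) • p k :=
    ⟨_, fun _ => rfl⟩
  have hee : ∀ k l, L n (e' k) (e' l) =
      L (n + 2) (pr e i j (φ k)) (pr e i j (φ l)) / (r k * r l) := by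
    intro k l
    rw [he', he', L_smul_left, L_smul_right, hpp]
    have h1 := (hr0 k).ne'
    have h2 := (hr0 l).ne'
    field_simp
  have hxe : ∀ x k, L n x (e' k) = L (n + 2) (Φ x) (e (φ k)) / r k := by
    intro x k
    rw [he', L_smul_right, hxp]
    ring
  have hunit : ∀ k, L n (e' k) (e' k) = 1 := by
    intro k
    rw [hee, pr_norm hL hij h46 (hφ k).1 (hφ k).2.1 (hφ k).2.2, ← hrdef]
    have h1 := (hr0 k).ne'
    field_simp
  have hgram : ∀ k l, k ≠ l →
      (∃ m : ℕ, 2 ≤ m ∧ L n (e' k) (e' l) = -Real.cos (Real.pi / (m : ℝ))) ∨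
        L n (e' k) (e' l) ≤ -1 := by
    intro k l hkl
    have h1 := (hr0 k).ne'
    have h2 := (hr0 l).ne'
    have h3 : 0 < r k * r l := mul_pos (hr0 k) (hr0 l)
    rcases pr_gram hL hij h46 (fun hc => hkl (hφi hc)) (hφ k).1 (hφ k).2.1 (hφ l).1 (hφ l).2.1
      (hφ k).2.2 (hφ l).2.2 with ⟨m, hm, h4⟩ | h4
    · left
      refine ⟨m, hm, ?_⟩
      rw [hee, h4, ← hrdef, ← hrdef]
      field_simp
    · right
      rw [hee, div_le_iff₀ h3]
      rw [← hrdef, ← hrdef] at h4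
      linarith
  have hinner : ∃ x : Fin (n + 1) → ℝ, 0 < x 0 ∧ L n x x = -1 ∧ ∀ k, L n x (e' k) < 0 := by
    obtain ⟨y, hy, hy0, hyJ, hyN⟩ := exists_pt hP hJ
    obtain ⟨x, hx⟩ := (B y).1 ⟨hyJ i (by simp), hyJ j (by simp)⟩
    have hxx : L n x x < 0 := by rw [← A, hx]; exact hy
    have hx0 : 0 < x 0 := (C x hxx).2 (by rw [hx]; exact hy0)
    have hxk : ∀ k, L n x (e' k) < 0 := by
      intro k
      rw [hxe, hx]
      refine div_neg_of_neg_of_pos (hyN _ ?_) (hr0 k)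
      simp [(hφ k).1, (hφ k).2.1]
    have hsq : 0 < √(-L n x x) := Real.sqrt_pos.2 (by linarith)
    refine ⟨(1 / √(-L n x x)) • x, ?_, ?_, ?_⟩
    · simp only [Pi.smul_apply, smul_eq_mul]
      positivity
    · rw [L_smul_left, L_smul_right, ← mul_assoc]
      have h7 : √(-L n x x) * √(-L n x x) = -L n x x := Real.mul_self_sqrt (by linarith)
      have h8 : 1 / √(-L n x x) * (1 / √(-L n x x)) = 1 / (-L n x x) := by
        rw [div_mul_div_comm, h7, one_mul]
      rw [h8, one_div, inv_neg, neg_mul, inv_mul_cancel₀ hxx.ne]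
    · intro k
      rw [L_smul_left]
      exact mul_neg_of_pos_of_neg (by positivity) (hxk k)
  refine ⟨N', e', ⟨hunit, hgram, hinner, ?_, ?_⟩, ?_⟩
  · exact irr_of hunit (fun k l hkl => off_of_gram (hgram k l hkl)) hinner
  · have hset : {x : Fin (n + 1) → ℝ | 0 < x 0 ∧ L n x x = -1 ∧ ∀ k, L n x (e' k) ≤ 0} =
        Φ ⁻¹' {x : Fin (n + 2 + 1) → ℝ | 0 < x 0 ∧ L (n + 2) x x = -1 ∧
          ∀ i, L (n + 2) x (e i) ≤ 0} := by
      ext x
      rw [Set.mem_preimage, Set.mem_setOf_eq, Set.mem_setOf_eq, A]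
      constructor
      · rintro ⟨h0, h1, h2⟩
        have hxx : L n x x < 0 := by rw [h1]; norm_num
        have hx0 : 0 < Φ x 0 := (C x hxx).1 h0
        refine ⟨hx0, h1, ?_⟩
        refine face_ineq hP hJ (by rw [A]; exact hxx) hx0 ?_ ?_
        · intro a ha
          rcases Finset.mem_insert.1 ha with rfl | ha
          · exact (hΦ0 x).1
          · rw [Finset.mem_singleton.1 ha]
            exact (hΦ0 x).2
        · intro a ha hE
          have hai : a ≠ i := fun hc => ha (by rw [hc]; simp)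
          have haj : a ≠ j := fun hc => ha (by rw [hc]; simp)
          obtain ⟨k, rfl⟩ := hφs a hai haj hE
          have h3 := h2 k
          rw [hxe, div_le_iff₀ (hr0 k), zero_mul] at h3
          exact h3
      · rintro ⟨h0, h1, h2⟩
        have hxx : L n x x < 0 := by rw [h1]; norm_num
        refine ⟨(C x hxx).2 h0, h1, fun k => ?_⟩
        rw [hxe, div_le_iff₀ (hr0 k), zero_mul]
        exact h2 _
    rw [hset]
    exact (LinearMap.isClosedEmbedding_of_injective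
      (LinearMap.ker_eq_bot.2 (inj_of_iso Φ A))).isCompact_preimage h.cpt
  · obtain ⟨s, hs0, hs2, hs⟩ := exists_scale (fun a b => L (n + 2) (e a) (e b))
      (fun a b => L_comm _ _) hr
    have key : ∀ k l, (∃ q : ℚ, (s (φ k) * r k) ^ 2 = (q : ℝ)) ∧
        ∃ q : ℚ, (s (φ k) * r k) * (s (φ l) * r l) * L n (e' k) (e' l) = (q : ℝ) := by
      intro k l
      obtain ⟨⟨q1, hq1⟩, q2, hq2⟩ := pr_rat hL hij h46 (hφ k).1 (hφ k).2.1 (hφ l).1 (hφ l).2.1
        (hφ k).2.2 (hφ l).2.2 s hs0 hs2 hs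
      refine ⟨⟨q1, by rw [hrdef]; exact hq1⟩, q2, ?_⟩
      rw [← hq2, hee]
      have h1 := (hr0 k).ne'
      have h2 := (hr0 l).ne'
      field_simp
    exact cyc_conv (fun k l => L n (e' k) (e' l)) (fun k => s (φ k) * r k)
      (fun k => (mul_pos (hs0 _) (hr0 k)).ne') (fun k => (key k k).1) (fun k l => (key k l).2)

end Pool.Agent.Work.MP_f6469e_gt
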