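import Pool.Agent.Work.MP_f6469e_gt.RFace
import Pool.Agent.Work.MP_f6469e_gt.BMain
import Pool.Agent.Work.MP_f6469e_gt.LLab

/-!
# Module RFin (S-M): the final statements

* `rat_bound`: `lab_of_rat`, `lab_bound`. `simply_bound`: `lab_of_sl`, `sl_bound` (`-√2/2` is none of `0`, `-1/2`, `≤ -1`).
* `equiv`: the direction from left to right is clear. Conversely strong induction on `n`: `n = 4, 5` are given. Let `n ≥ 6`, `n = k + 2`, and suppose `CoxPoly n N e`, `RatCyc n N e`; `hL = lab_of_rat`. If there are `i ≠ j` with product `-√2/2` or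
  `-√3/2`, then `face` gives an example in dimension `k ≥ 4`, contradiction to the induction hypothesis. Otherwise `e` is simply laced by `hL.lab`; for `n ≤ 12` this is excluded by assumption and for
  `n ≥ 13` by `simply_bound`.
-/

set_option autoImplicit false

namespace Pool.Agent.Work.MP_f6469e_gt

theorem rat_bound {n N : ℕ} {e : Fin N → (Fin (n + 1) → ℝ)} (hn : 17 ≤ n) (h : CoxPoly n N e) :
    ¬ RatCyc n N e := fun hr => lab_bound hn (lab_of_rat (by omega) h hr)

theorem simply_bound {n N : ℕ} {e : Fin N → (Fin (n + 1) → ℝ)} (hn : 13 ≤ n)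
    (h : CoxPoly n N e) : ¬ SimplyLaced n N e := by
  intro hs
  refine sl_bound hn (lab_of_sl (by omega) h hs) ?_
  intro i j hij heq
  have h1 : (√2 : ℝ) ^ 2 = 2 := Real.sq_sqrt (by norm_num)
  have h2 : 0 ≤ (√2 : ℝ) := Real.sqrt_nonneg 2
  rcases hs i j hij with h0 | h0 | h0
  · rw [heq] at h0; nlinarith
  · rw [heq] at h0
    have : (√2 : ℝ) = 1 := by linarith
    rw [this] at h1; norm_num at h1
  · rw [heq] at h0
    nlinarith

theorem equiv :
    (∀ (n : ℕ), 4 ≤ n → ∀ (N : ℕ) (e : Fin N → (Fin (n + 1) → ℝ)), CoxPoly n N e → ¬ RatCyc n N e) ↔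
    ((∀ (N : ℕ) (e : Fin N → (Fin (4 + 1) → ℝ)), CoxPoly 4 N e → ¬ RatCyc 4 N e) ∧
    (∀ (N : ℕ) (e : Fin N → (Fin (5 + 1) → ℝ)), CoxPoly 5 N e → ¬ RatCyc 5 N e) ∧
    ∀ (n : ℕ), 6 ≤ n → n ≤ 12 → ∀ (N : ℕ) (e : Fin N → (Fin (n + 1) → ℝ)),
      CoxPoly n N e → SimplyLaced n N e → ¬ RatCyc n N e) := by
  constructor
  · intro h
    exact ⟨h 4 le_rfl, h 5 (by norm_num), fun n hn _ N e hc _ => h n (by omega) N e hc⟩
  · rintro ⟨h4, h5, h6⟩ n
    induction n using Nat.strong_induction_on with
    | _ n ih =>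
      intro hn N e hc hr
      rcases (show n = 4 ∨ n = 5 ∨ 6 ≤ n by omega) with rfl | rfl | hn6
      · exact h4 N e hc hr
      · exact h5 N e hc hr
      · obtain ⟨k, rfl⟩ : ∃ k, n = k + 2 := ⟨n - 2, by omega⟩
        have hL := lab_of_rat (by omega) hc hr
        by_cases hex : ∃ i j, i ≠ j ∧ (L (k + 2) (e i) (e j) = -(√2 / 2) ∨
            L (k + 2) (e i) (e j) = -(√3 / 2))
        · obtain ⟨i, j, hij, h46⟩ := hex
          obtain ⟨N', e', hc', hr'⟩ := face hc hr hij h46
          exact ih k (by omega) (by omega) N' e' hc' hr'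
        · push Not at hex
          have hs : SimplyLaced (k + 2) N e := by
            intro i j hij
            have := hex i j hij
            rcases hL.lab i j hij with h0 | h0 | h0 | h0 | h0
            · exact Or.inl h0
            · exact Or.inr (Or.inl h0)
            · exact absurd h0 this.1
            · exact absurd h0 this.2
            · exact Or.inr (Or.inr h0.le)
          rcases Nat.lt_or_ge (k + 2) 13 with hlt | hge
          · exact h6 (k + 2) hn6 (by omega) N e hc hs hr
          · exact simply_bound hge hc hs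

end Pool.Agent.Work.MP_f6469e_gt
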