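import Pool.Agent.Work.MP_f6469e_gt.Lor

/-!
# Module RIso (M): the orthogonal complement of a unit space-like vector

`ι x = Fin.snoc x 0 : ℝ^(n+1) → ℝ^(n+2)` is linear, `L (n+1) (ι x) (ι y) = L n x y`, and its image is the orthogonal complement of the last basis vector `l = Pi.single (Fin.last _) 1`.
There is a linear isometry `g` with `g l = f` (a reflection or minus a reflection); `Φ = ± g ∘ ι`.
-/

set_option autoImplicit false

namespace Pool.Agent.Work.MP_f6469e_gt

private theorem refl_iso {m : ℕ} (v : Fin (m + 1) → ℝ) (hv : L m v v ≠ 0) :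
    ∃ g : (Fin (m + 1) → ℝ) ≃ₗ[ℝ] (Fin (m + 1) → ℝ), (∀ x y, L m (g x) (g y) = L m x y) ∧
      ∀ y, g y = y - (2 * L m y v / L m v v) • v := by
  let R : (Fin (m + 1) → ℝ) →ₗ[ℝ] (Fin (m + 1) → ℝ) :=
    { toFun := fun y => y - (2 * L m y v / L m v v) • v
      map_add' := fun x y => by
        rw [L_add_left, mul_add, add_div, add_smul]
        abel
      map_smul' := fun a x => by
        simp only [RingHom.id_apply]
        rw [L_smul_left, smul_sub, smul_smul]
        congr 2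
        ring }
  have hR : ∀ y, R y = y - (2 * L m y v / L m v v) • v := fun _ => rfl
  have hRv : ∀ y, L m (R y) v = - L m y v := by
    intro y
    rw [hR, L_sub_left, L_smul_left]
    field_simp
    ring
  have hinv : Function.Involutive R := by
    intro y
    rw [hR (R y), hRv, hR y]
    have e : 2 * -L m y v / L m v v = -(2 * L m y v / L m v v) := by ring
    rw [e, neg_smul]
    abel
  refine ⟨LinearEquiv.ofInvolutive R hinv, ?_, fun y => rfl⟩
  intro x y
  show L m (R x) (R y) = L m x y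
  have e1 : L m (R x) (R y) = L m (R x) y - (2 * L m y v / L m v v) * L m (R x) v := by
    conv_lhs => rw [hR y]
    rw [L_sub_right, L_smul_right]
  rw [e1, hRv, hR x, L_sub_left, L_smul_left, L_comm v y]
  ring

private theorem exists_g {m : ℕ} (l f : Fin (m + 1) → ℝ) (hl : L m l l = 1) (hf : L m f f = 1) :
    ∃ g : (Fin (m + 1) → ℝ) ≃ₗ[ℝ] (Fin (m + 1) → ℝ), (∀ x y, L m (g x) (g y) = L m x y) ∧
      g l = f := by
  by_cases h : L m (l - f) (l - f) = 0
  · have h1 : L m l f = 1 := by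
      rw [L_sub_left, L_sub_right, L_sub_right, hl, hf, L_comm f l] at h
      linarith
    have hw : L m (l + f) (l + f) = 4 := by
      rw [L_add_left, L_add_right, L_add_right, hl, hf, L_comm f l, h1]
      norm_num
    obtain ⟨g, hg, hg2⟩ := refl_iso (l + f) (by rw [hw]; norm_num)
    refine ⟨g.trans (LinearEquiv.neg ℝ), ?_, ?_⟩
    · intro x y
      simp only [LinearEquiv.trans_apply, LinearEquiv.neg_apply]
      rw [L_neg_left, L_neg_right, neg_neg, hg]
    · simp only [LinearEquiv.trans_apply, LinearEquiv.neg_apply]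
      rw [hg2, hw, L_add_right, hl, h1]
      norm_num
  · obtain ⟨g, hg, hg2⟩ := refl_iso (l - f) h
    refine ⟨g, hg, ?_⟩
    have e : 2 * L m l (l - f) / L m (l - f) (l - f) = 1 := by
      rw [div_eq_one_iff_eq h]
      rw [L_sub_left, L_sub_right, L_sub_right, hl, hf, L_comm f l]
      ring
    rw [hg2, e, one_smul]
    abel

private theorem L_last {n : ℕ} (y : Fin (n + 2) → ℝ) :
    L (n + 1) y (Pi.single (Fin.last (n + 1)) 1) = y (Fin.last (n + 1)) := by
  unfold L
  rw [Fin.sum_univ_castSucc]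
  have h0 : (Pi.single (Fin.last (n + 1)) (1 : ℝ) : Fin (n + 2) → ℝ) 0 = 0 := by
    rw [Pi.single_eq_of_ne]
    intro h
    have := congrArg Fin.val h
    simp at this
  have h1 : ∀ i : Fin n, (Pi.single (Fin.last (n + 1)) (1 : ℝ) : Fin (n + 2) → ℝ)
      i.castSucc.succ = 0 := by
    intro i
    rw [Pi.single_eq_of_ne]
    intro h
    have h2 := congrArg Fin.val h
    have h3 := i.2
    simp at h2
    omega
  rw [h0, Finset.sum_eq_zero (fun i _ => by rw [h1, mul_zero]), Fin.succ_last, Pi.single_eq_same]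
  ring

private theorem exists_iota (n : ℕ) :
    ∃ ι : (Fin (n + 1) → ℝ) →ₗ[ℝ] (Fin (n + 2) → ℝ),
      (∀ x y, L (n + 1) (ι x) (ι y) = L n x y) ∧
      ∀ y, L (n + 1) y (Pi.single (Fin.last (n + 1)) 1) = 0 ↔ ∃ x, ι x = y := by
  let ι : (Fin (n + 1) → ℝ) →ₗ[ℝ] (Fin (n + 2) → ℝ) :=
    { toFun := fun x => Fin.snoc (α := fun _ => ℝ) x 0
      map_add' := fun x y => by
        funext i
        refine Fin.lastCases ?_ (fun j => ?_) i
        · simp
        · simp
      map_smul' := fun a x => by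
        funext i
        refine Fin.lastCases ?_ (fun j => ?_) i
        · simp
        · simp }
  have h1 : ∀ x i, ι x (Fin.castSucc i) = x i := fun x i =>
    Fin.snoc_castSucc (α := fun _ => ℝ) 0 x i
  have h2 : ∀ x, ι x (Fin.last _) = 0 := fun x => Fin.snoc_last (α := fun _ => ℝ) 0 x
  refine ⟨ι, ?_, ?_⟩
  · intro x y
    unfold L
    rw [Fin.sum_univ_castSucc]
    have h3 : ∀ z, ι z 0 = z 0 := fun z => h1 z 0
    rw [h3, h3, Fin.succ_last, h2, h2]
    simp only [Fin.succ_castSucc, h1]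
    ring
  · intro y
    rw [L_last]
    constructor
    · intro h
      refine ⟨fun i => y (Fin.castSucc i), ?_⟩
      funext i
      refine Fin.lastCases ?_ (fun j => ?_) i
      · rw [h2, h]
      · rw [h1]
    · rintro ⟨x, rfl⟩
      exact h2 x

private theorem time_dir {n : ℕ} (Φ : (Fin (n + 1) → ℝ) →ₗ[ℝ] (Fin (n + 2) → ℝ))
    (hΦ : ∀ x y, L (n + 1) (Φ x) (Φ y) = L n x y) (hp : 0 < Φ (Pi.single 0 1) 0) :
    ∀ x, L n x x < 0 → (0 < x 0 ↔ 0 < Φ x 0) := by
  intro x hx
  have ho : ∀ x : Fin (n + 1) → ℝ, L n x (Pi.single 0 1) = -(x 0) := by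
    intro x
    unfold L
    rw [Finset.sum_eq_zero (fun i _ => by
      rw [Pi.single_eq_of_ne (Fin.succ_ne_zero i), mul_zero]), Pi.single_eq_same]
    ring
  have hpp : L (n + 1) (Φ (Pi.single 0 1)) (Φ (Pi.single 0 1)) < 0 := by
    rw [hΦ, ho, Pi.single_eq_same]
    norm_num
  have hxx : L (n + 1) (Φ x) (Φ x) ≤ 0 := by
    rw [hΦ]
    exact hx.le
  have h1 : L (n + 1) (Φ (Pi.single 0 1)) (Φ x) = -(x 0) := by
    rw [hΦ, L_comm, ho]
  constructor
  · intro h
    exact time_zero hpp hp hxx (by rw [h1]; linarith)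
  · intro h
    have h2 := L_neg hpp hp hxx h
    rw [h1] at h2
    linarith

theorem iso_one {n : ℕ} (f : Fin (n + 2) → ℝ) (hf : L (n + 1) f f = 1) :
    ∃ Φ : (Fin (n + 1) → ℝ) →ₗ[ℝ] (Fin (n + 2) → ℝ),
      (∀ x y, L (n + 1) (Φ x) (Φ y) = L n x y) ∧
      (∀ y, L (n + 1) y f = 0 ↔ ∃ x, Φ x = y) ∧
      ∀ x, L n x x < 0 → (0 < x 0 ↔ 0 < Φ x 0) := by
  obtain ⟨ι, hι, hι2⟩ := exists_iota n
  obtain ⟨g, hg, hgl⟩ := exists_g (Pi.single (Fin.last (n + 1)) 1) f
    (by rw [L_last, Pi.single_eq_same]) hf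
  have hiso : ∀ x y, L (n + 1) (g (ι x)) (g (ι y)) = L n x y := fun x y => by rw [hg, hι]
  have him : ∀ y, L (n + 1) y f = 0 ↔ ∃ x, g (ι x) = y := by
    intro y
    have h1 : L (n + 1) y f = L (n + 1) (g.symm y) (Pi.single (Fin.last (n + 1)) 1) := by
      conv_lhs => rw [← hgl, ← g.apply_symm_apply y]
      rw [hg]
    rw [h1, hι2]
    constructor
    · rintro ⟨x, hx⟩
      exact ⟨x, by rw [hx, g.apply_symm_apply]⟩
    · rintro ⟨x, hx⟩
      exact ⟨x, by rw [← hx, g.symm_apply_apply]⟩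
  have hp0 : g (ι (Pi.single 0 1)) 0 ≠ 0 := by
    intro h
    have h1 := hiso (Pi.single 0 1) (Pi.single 0 1)
    have h2 : L n (Pi.single 0 1) (Pi.single 0 1) = -1 := by
      unfold L
      rw [Finset.sum_eq_zero (fun i _ => by
        rw [Pi.single_eq_of_ne (Fin.succ_ne_zero i), mul_zero]), Pi.single_eq_same]
      norm_num
    rw [h2] at h1
    unfold L at h1
    rw [h] at h1
    have h3 : 0 ≤ ∑ i : Fin (n + 1), g (ι (Pi.single 0 1)) i.succ * g (ι (Pi.single 0 1)) i.succ :=
      Finset.sum_nonneg fun _ _ => mul_self_nonneg _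
    linarith
  rcases lt_or_gt_of_ne hp0 with h | h
  · refine ⟨-(g.toLinearMap ∘ₗ ι), ?_, ?_, ?_⟩
    · intro x y
      show L (n + 1) (-(g (ι x))) (-(g (ι y))) = L n x y
      rw [L_neg_left, L_neg_right, neg_neg, hiso]
    · intro y
      rw [him]
      constructor
      · rintro ⟨x, rfl⟩
        refine ⟨-x, ?_⟩
        show -(g (ι (-x))) = g (ι x)
        rw [map_neg, map_neg, neg_neg]
      · rintro ⟨x, hx⟩
        refine ⟨-x, ?_⟩
        rw [map_neg, map_neg]
        exact hx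
    · refine time_dir _ ?_ ?_
      · intro x y
        show L (n + 1) (-(g (ι x))) (-(g (ι y))) = L n x y
        rw [L_neg_left, L_neg_right, neg_neg, hiso]
      · show 0 < -(g (ι (Pi.single 0 1)) 0)
        linarith
  · exact ⟨g.toLinearMap ∘ₗ ι, hiso, him, time_dir _ hiso h⟩

end Pool.Agent.Work.MP_f6469e_gt
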