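import Pool.Agent.Work.MP_f6469e_gt.RIso

/-!
# Module RIso2 (S-M): the orthogonal complement of two vectors

`Φ₁` from `iso_one u`. `g = L u v`, `f = (1 / √(1 - g²)) • (v - g • u)` is orthogonal to `u` and `L f f = 1`. `f = Φ₁ f'`, `L f' f' = 1`; `Φ₂` from `iso_one f'`; `Φ = Φ₁ ∘ Φ₂`. `y` is orthogonal to `u, v` iff it is orthogonal to
`u, f` iff `y = Φ₁ y'` with `L y' f' = 0` iff `y = Φ₁ (Φ₂ x)`.
-/

set_option autoImplicit false

namespace Pool.Agent.Work.MP_f6469e_gt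

theorem iso_two {n : ℕ} (u v : Fin (n + 3) → ℝ) (hu : L (n + 2) u u = 1) (hv : L (n + 2) v v = 1)
    (h1 : -1 < L (n + 2) u v) (h2 : L (n + 2) u v < 1) :
    ∃ Φ : (Fin (n + 1) → ℝ) →ₗ[ℝ] (Fin (n + 3) → ℝ),
      (∀ x y, L (n + 2) (Φ x) (Φ y) = L n x y) ∧
      (∀ y, (L (n + 2) y u = 0 ∧ L (n + 2) y v = 0) ↔ ∃ x, Φ x = y) ∧
      ∀ x, L n x x < 0 → (0 < x 0 ↔ 0 < Φ x 0) := by
  obtain ⟨Φ₁, A1, B1, C1⟩ := iso_one (n := n + 1) u hu
  obtain ⟨g, hg⟩ : ∃ g : ℝ, g = L (n + 2) u v := ⟨_, rfl⟩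
  rw [← hg] at h1 h2
  have hpos : 0 < 1 - g ^ 2 := by nlinarith
  obtain ⟨a, ha⟩ : ∃ a : ℝ, a = 1 / Real.sqrt (1 - g ^ 2) := ⟨_, rfl⟩
  have hsq : 0 < Real.sqrt (1 - g ^ 2) := Real.sqrt_pos.2 hpos
  have ha0 : 0 < a := by rw [ha]; positivity
  have haa : a * a * (1 - g ^ 2) = 1 := by
    have h7 : Real.sqrt (1 - g ^ 2) * Real.sqrt (1 - g ^ 2) = 1 - g ^ 2 :=
      Real.mul_self_sqrt hpos.le
    rw [ha, div_mul_div_comm, h7, one_mul]
    field_simp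
  obtain ⟨f, hf⟩ : ∃ f : Fin (n + 3) → ℝ, f = a • (v - g • u) := ⟨_, rfl⟩
  have key : ∀ y : Fin (n + 3) → ℝ, L (n + 2) y f = a * (L (n + 2) y v - g * L (n + 2) y u) := by
    intro y
    rw [hf, L_smul_right, L_sub_right, L_smul_right]
  have hfu : L (n + 2) f u = 0 := by
    rw [L_comm, key, ← hg, hu]; ring
  have hff : L (n + 2) f f = 1 := by
    rw [key f, hfu, L_comm f v, key v, hv, L_comm v u, ← hg]
    linear_combination haa
  obtain ⟨f', hf'⟩ := (B1 f).1 hfu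
  have hf'1 : L (n + 1) f' f' = 1 := by
    rw [← A1 f' f', hf']
    exact hff
  obtain ⟨Φ₂, A2, B2, C2⟩ := iso_one (n := n) f' hf'1
  refine ⟨Φ₁.comp Φ₂, ?_, ?_, ?_⟩
  · intro x y
    rw [LinearMap.comp_apply, LinearMap.comp_apply]
    exact (A1 _ _).trans (A2 _ _)
  · intro y
    constructor
    · rintro ⟨hy1, hy2⟩
      obtain ⟨y', hy'⟩ := (B1 y).1 hy1
      have h5 : L (n + 2) y f = 0 := by rw [key, hy1, hy2]; ring
      have h6 : L (n + 1) y' f' = 0 := by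
        rw [← A1 y' f', hy', hf']
        exact h5
      obtain ⟨x, hx⟩ := (B2 y').1 h6
      exact ⟨x, by rw [LinearMap.comp_apply, hx, hy']⟩
    · rintro ⟨x, hx⟩
      rw [LinearMap.comp_apply] at hx
      have hy1 : L (n + 2) y u = 0 := (B1 y).2 ⟨_, hx⟩
      have h6 : L (n + 1) (Φ₂ x) f' = 0 := (B2 _).2 ⟨x, rfl⟩
      have h5 : L (n + 2) y f = 0 := by
        rw [← hx, ← hf']
        exact (A1 _ _).trans h6
      refine ⟨hy1, ?_⟩
      rw [key, hy1] at h5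
      rcases mul_eq_zero.1 h5 with h8 | h8
      · exact absurd h8 ha0.ne'
      · linarith
  · intro x hx
    rw [LinearMap.comp_apply]
    refine (C2 x hx).trans (C1 _ ?_)
    exact (A2 x x).trans_lt hx

end Pool.Agent.Work.MP_f6469e_gt
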