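import Pool.Agent.Work.MP_f6469e_gt.BDefs
import Pool.Agent.Work.MP_f6469e_gt.BLoc

/-!
# Module RPr (S-M): the walls of the face of a 4-edge or 6-edge

* `face_cases`: `L_ij = -√3/2`: by `loc6` neither `i` nor `j` is joined to `a` (a joined pair has product `≤ -1/2` by `hL.lab`). `L_ij = -√2/2`: by `loc44` the products `L_ai, L_aj` are not `≤ -√2/2`, so they are `0` or `-1/2`; not
  both `-1/2` by `loc_tri`.
* `pr_orth`, `pr_norm`: direct computation in the three cases, e.g. for `pr = e a + e i + (√2/2) • e j`: `L pr (e i) = -1/2 + 1 - 1/2`, `L pr (e j) = -√2/2 + √2/2`, `L pr pr = L pr (e a) = 1 - 1/2`.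
* `pr_inner`: by definition (all three cases).
-/

set_option autoImplicit false

namespace Pool.Agent.Work.MP_f6469e_gt

variable {n N : ℕ} {e : Fin N → (Fin (n + 1) → ℝ)}


/-- the orthogonal projection of `e a` to the orthogonal complement of `e i`, `e j` (multiple of the wall of the face) -/
noncomputable def pr (e : Fin N → (Fin (n + 1) → ℝ)) (i j a : Fin N) : Fin (n + 1) → ℝ :=
  if L n (e a) (e i) = -(1 / 2) then e a + e i + (√2 / 2) • e j
  else if L n (e a) (e j) = -(1 / 2) then e a + (√2 / 2) • e i + e j else e a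

/-- the norm of `pr` -/
noncomputable def rr (e : Fin N → (Fin (n + 1) → ℝ)) (i j a : Fin N) : ℝ :=
  if L n (e a) (e i) = -(1 / 2) ∨ L n (e a) (e j) = -(1 / 2) then √(1 / 2) else 1

private theorem s2' : √2 * √2 = 2 := Real.mul_self_sqrt (by norm_num)

private theorem s2_ge : (1 : ℝ) ≤ √2 := by
  rw [show (1 : ℝ) = √1 by simp]
  exact Real.sqrt_le_sqrt (by norm_num)

private theorem s3_ge : (1 : ℝ) ≤ √3 := by
  rw [show (1 : ℝ) = √1 by simp]
  exact Real.sqrt_le_sqrt (by norm_num)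

private theorem s23 : √2 ≤ √3 := Real.sqrt_le_sqrt (by norm_num)

private theorem zero_or_le (hL : Lab n N e) {a b : Fin N} (hab : a ≠ b) :
    L n (e a) (e b) = 0 ∨ L n (e a) (e b) ≤ -(1 / 2) := by
  have h2 := s2_ge
  have h3 := s3_ge
  rcases hL.lab a b hab with h | h | h | h | h
  · exact Or.inl h
  · exact Or.inr h.le
  · exact Or.inr (by rw [h]; linarith)
  · exact Or.inr (by rw [h]; linarith)
  · exact Or.inr (by linarith)

private theorem zero_or_half (hL : Lab n N e) {a b : Fin N} (hab : a ≠ b) :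
    L n (e a) (e b) = 0 ∨ L n (e a) (e b) = -(1 / 2) ∨ L n (e a) (e b) ≤ -(√2 / 2) := by
  have h3 := s23
  have h4 : √2 ≤ 2 := Real.sqrt_le_iff.2 ⟨by norm_num, by norm_num⟩
  rcases hL.lab a b hab with h | h | h | h | h
  · exact Or.inl h
  · exact Or.inr (Or.inl h)
  · exact Or.inr (Or.inr h.le)
  · exact Or.inr (Or.inr (by rw [h]; linarith))
  · exact Or.inr (Or.inr (by linarith))

theorem face_cases (hL : Lab n N e) {i j a : Fin N} (hij : i ≠ j)
    (h46 : L n (e i) (e j) = -(√2 / 2) ∨ L n (e i) (e j) = -(√3 / 2)) (hai : a ≠ i) (haj : a ≠ j)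
    (hA : Ell e {a, i, j}) :
    (L n (e a) (e i) = 0 ∧ L n (e a) (e j) = 0) ∨
    (L n (e i) (e j) = -(√2 / 2) ∧ L n (e a) (e i) = -(1 / 2) ∧ L n (e a) (e j) = 0) ∨
    (L n (e i) (e j) = -(√2 / 2) ∧ L n (e a) (e i) = 0 ∧ L n (e a) (e j) = -(1 / 2)) := by
  have hP := hL.ac
  have ma : a ∈ ({a, i, j} : Finset (Fin N)) := by simp
  have mi : i ∈ ({a, i, j} : Finset (Fin N)) := by simp
  have mj : j ∈ ({a, i, j} : Finset (Fin N)) := by simp
  have h2 := s2_ge
  rcases h46 with h46 | h46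
  · have h46' : L n (e j) (e i) = -(√2 / 2) := by rw [L_comm]; exact h46
    rcases zero_or_half hL hai with p | p | p
    · rcases zero_or_half hL haj with r | r | r
      · exact Or.inl ⟨p, r⟩
      · exact Or.inr (Or.inr ⟨h46, p, r⟩)
      · exact absurd hA (loc44 hP ma mj mi haj hij.symm hai r h46'.le)
    · rcases zero_or_half hL haj with r | r | r
      · exact Or.inr (Or.inl ⟨h46, p, r⟩)
      · exact absurd hA (loc_tri hP ma mi mj hai hij haj p.le (by rw [h46]; linarith) r.le)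
      · exact absurd hA (loc44 hP ma mj mi haj hij.symm hai r h46'.le)
    · exact absurd hA (loc44 hP ma mi mj hai hij haj p h46.le)
  · have h46' : L n (e j) (e i) = -(√3 / 2) := by rw [L_comm]; exact h46
    refine Or.inl ⟨?_, ?_⟩
    · rcases zero_or_le hL hai with p | p
      · exact p
      · exact absurd hA (loc6 hP mj mi ma hij.symm hai.symm haj.symm h46'.le (by rw [L_comm]; exact p))
    · rcases zero_or_le hL haj with p | p
      · exact p
      · exact absurd hA (loc6 hP mi mj ma hij haj.symm hai.symm h46.le (by rw [L_comm]; exact p))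

theorem rr_pos (i j a : Fin N) : 0 < rr e i j a := by
  unfold rr
  split_ifs
  · exact Real.sqrt_pos.2 (by norm_num)
  · norm_num

theorem pr_inner {i j : Fin N} (a : Fin N) {x : Fin (n + 1) → ℝ} (hi : L n x (e i) = 0)
    (hj : L n x (e j) = 0) : L n x (pr e i j a) = L n x (e a) := by
  unfold pr
  split_ifs
  · rw [L_add_right, L_add_right, L_smul_right, hi, hj]
    ring
  · rw [L_add_right, L_add_right, L_smul_right, hi, hj]
    ring
  · rfl

private theorem pr_forms (hL : Lab n N e) {i j a : Fin N} (hij : i ≠ j)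
    (h46 : L n (e i) (e j) = -(√2 / 2) ∨ L n (e i) (e j) = -(√3 / 2)) (hai : a ≠ i) (haj : a ≠ j)
    (hA : Ell e {a, i, j}) :
    (pr e i j a = e a ∧ rr e i j a = 1 ∧ L n (e a) (e i) = 0 ∧ L n (e a) (e j) = 0) ∨
    (pr e i j a = e a + e i + (√2 / 2) • e j ∧ rr e i j a = √(1 / 2) ∧
      L n (e i) (e j) = -(√2 / 2) ∧ L n (e a) (e i) = -(1 / 2) ∧ L n (e a) (e j) = 0) ∨
    (pr e i j a = e a + (√2 / 2) • e i + e j ∧ rr e i j a = √(1 / 2) ∧
      L n (e i) (e j) = -(√2 / 2) ∧ L n (e a) (e i) = 0 ∧ L n (e a) (e j) = -(1 / 2)) := by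
  have hne : (0 : ℝ) ≠ -(1 / 2) := by norm_num
  rcases face_cases hL hij h46 hai haj hA with ⟨h1, h2⟩ | ⟨h0, h1, h2⟩ | ⟨h0, h1, h2⟩
  · refine Or.inl ⟨?_, ?_, h1, h2⟩
    · unfold pr
      rw [h1, h2, if_neg hne, if_neg hne]
    · unfold rr
      rw [h1, h2, if_neg (by simp)]
  · refine Or.inr (Or.inl ⟨?_, ?_, h0, h1, h2⟩)
    · unfold pr
      rw [if_pos h1]
    · unfold rr
      rw [if_pos (Or.inl h1)]
  · refine Or.inr (Or.inr ⟨?_, ?_, h0, h1, h2⟩)
    · unfold pr
      rw [h1, h2, if_neg hne, if_pos rfl]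
    · unfold rr
      rw [if_pos (Or.inr h2)]

theorem pr_orth (hL : Lab n N e) {i j a : Fin N} (hij : i ≠ j)
    (h46 : L n (e i) (e j) = -(√2 / 2) ∨ L n (e i) (e j) = -(√3 / 2)) (hai : a ≠ i) (haj : a ≠ j)
    (hA : Ell e {a, i, j}) :
    L n (pr e i j a) (e i) = 0 ∧ L n (pr e i j a) (e j) = 0 := by
  have hu := hL.ac.unit
  have hs := s2'
  rcases pr_forms hL hij h46 hai haj hA with ⟨hp, -, h1, h2⟩ | ⟨hp, -, h0, h1, h2⟩ |
    ⟨hp, -, h0, h1, h2⟩
  · rw [hp]
    exact ⟨h1, h2⟩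
  · rw [hp]
    simp only [L_add_left, L_smul_left, hu, h0, h1, h2, L_comm (e j) (e i)]
    constructor
    · linarith
    · ring
  · rw [hp]
    simp only [L_add_left, L_smul_left, hu, h0, h1, h2, L_comm (e j) (e i)]
    constructor
    · ring
    · linarith

theorem pr_norm (hL : Lab n N e) {i j a : Fin N} (hij : i ≠ j)
    (h46 : L n (e i) (e j) = -(√2 / 2) ∨ L n (e i) (e j) = -(√3 / 2)) (hai : a ≠ i) (haj : a ≠ j)
    (hA : Ell e {a, i, j}) : L n (pr e i j a) (pr e i j a) = rr e i j a ^ 2 := by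
  have hu := hL.ac.unit
  have ho := pr_orth hL hij h46 hai haj hA
  rw [pr_inner a ho.1 ho.2]
  have hsq : √(1 / 2 : ℝ) ^ 2 = 1 / 2 := Real.sq_sqrt (by norm_num)
  rcases pr_forms hL hij h46 hai haj hA with ⟨hp, hr, h1, h2⟩ | ⟨hp, hr, h0, h1, h2⟩ |
    ⟨hp, hr, h0, h1, h2⟩
  · rw [hp, hr, hu]
    norm_num
  · rw [hp, hr, hsq]
    simp only [L_add_left, L_smul_left, hu, h1, h2, L_comm (e j) (e a), L_comm (e i) (e a)]
    ring
  · rw [hp, hr, hsq]
    simp only [L_add_left, L_smul_left, hu, h1, h2, L_comm (e j) (e a), L_comm (e i) (e a)]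
    ring

end Pool.Agent.Work.MP_f6469e_gt
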