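import Pool.Agent.Work.MP_f6469e_gt.Cone

/-!
# Module Ray (S-M): a ray leaves the cone

If `L n u (e j) ≤ 0` for all `j` then `u` is in the cone, so `L n u u < 0` by `cone_time`; but `L n x u = 0` gives `0 < L n u u` (`L_pos_of_orth`).
So `J = {j | 0 < L n u (e j)}` is not empty; take `j ∈ J` with the least `-L n x (e j) / L n u (e j)` and let `t` be this value.
-/
set_option autoImplicit false

namespace Pool.Agent.Work.MP_f6469e_gt

variable {n N : ℕ} {e : Fin N → (Fin (n + 1) → ℝ)}


theorem exists_exit (hn : 1 ≤ n) (hP : Acute n N e) {x u : Fin (n + 1) → ℝ} (hx : L n x x < 0)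
    (hxc : ∀ i, L n x (e i) ≤ 0) (hu : u ≠ 0) (hux : L n u x = 0) :
    ∃ t : ℝ, 0 ≤ t ∧ ∃ j, 0 < L n u (e j) ∧ L n (x + t • u) (e j) = 0 ∧
      ∀ i, L n (x + t • u) (e i) ≤ 0 := by
  classical
  have hpos : 0 < L n u u := L_pos_of_orth hx (by rw [L_comm]; exact hux) hu
  set J : Finset (Fin N) := Finset.univ.filter fun j => 0 < L n u (e j) with hJ
  have hJne : J.Nonempty := by
    by_contra hcon
    rw [Finset.not_nonempty_iff_eq_empty] at hcon
    have h1 : ∀ i, L n u (e i) ≤ 0 := by
      intro i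
      by_contra hi
      have : i ∈ J := by rw [hJ, Finset.mem_filter]; exact ⟨Finset.mem_univ _, not_le.1 hi⟩
      rw [hcon] at this
      exact absurd this (Finset.notMem_empty i)
    have h2 := (cone_time hn hP h1 hu).1
    linarith
  obtain ⟨j, hj, hmin⟩ := J.exists_min_image (fun j => -L n x (e j) / L n u (e j)) hJne
  have hj' : 0 < L n u (e j) := (Finset.mem_filter.1 hj).2
  refine ⟨-L n x (e j) / L n u (e j), div_nonneg (by linarith [hxc j]) hj'.le, j, hj', ?_, ?_⟩
  · rw [L_add_left, L_smul_left, div_mul_cancel₀ _ hj'.ne']; ring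
  · intro i
    rw [L_add_left, L_smul_left]
    have ht : 0 ≤ -L n x (e j) / L n u (e j) := div_nonneg (by linarith [hxc j]) hj'.le
    by_cases hi : 0 < L n u (e i)
    · have hiJ : i ∈ J := by rw [hJ, Finset.mem_filter]; exact ⟨Finset.mem_univ _, hi⟩
      have h1 := hmin i hiJ
      have h2 : -L n x (e j) / L n u (e j) * L n u (e i) ≤
          -L n x (e i) / L n u (e i) * L n u (e i) := mul_le_mul_of_nonneg_right h1 hi.le
      rw [div_mul_cancel₀ _ hi.ne'] at h2
      linarith
    · have h3 : -L n x (e j) / L n u (e j) * L n u (e i) ≤ 0 :=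
        mul_nonpos_of_nonneg_of_nonpos ht (not_lt.1 hi)
      linarith [hxc i]

end Pool.Agent.Work.MP_f6469e_gt
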